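import Pool.Agent.Lib.MP_7d3fda_nt.R2.Defs

open Finset
open scoped Classical NumberTheorySymbols

noncomputable section

namespace Pool.Agent.Lib.MP_7d3fda_nt.R3

open Pool.Agent.Lib.MP_4b8564_nt.GT Pool.Agent.Lib.MP_7d3fda_nt.R2

/-! Working definitions of the analytic part (none of them occurs in the final statement). -/

/-- the sign attached to a bit -/
def sgn (b : ZMod 2) : ℤ := if b = 0 then 1 else -1

/-- the six values are products of three primes with prescribed classes and symbols -/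
def Good3 (c : Fin 6 → ℕ) (W₀ : ℕ) (u : Fin 3 → ℕ)
    (qq : (Fin 3 → ZMod 2) → Fin 2 × Fin 6 → Fin 2 × Fin 6 → ZMod 2)
    (sg : (Fin 3 → ZMod 2) → Fin 2 × Fin 6 → ZMod 2) (a s : ℤ) : Prop :=
  ∃ (θ : Fin 3 → ZMod 2) (r : Fin 6 → Fin 3 → ℕ),
    (∀ j k, (r j k).Prime ∧ r j k ≡ u k [MOD W₀] ∧ ¬(r j k : ℤ) ∣ s) ∧
    (∀ i k j l, r i k = r j l → i = j ∧ k = l) ∧
    (∀ j, (r j 0 : ℤ) * r j 1 * r j 2 = a + c j * s) ∧
    (∀ j, J((r j 1 : ℤ) | r j 0) = sgn (θ 0) ∧ J((r j 2 : ℤ) | r j 0) = sgn (θ 1) ∧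
      J((r j 2 : ℤ) | r j 1) = sgn (θ 2)) ∧
    (∀ v w : Fin 2 × Fin 6, v.2 < w.2 →
      J((r v.2 v.1.castSucc : ℤ) | r w.2 w.1.castSucc) = sgn (qq θ v w)) ∧
    ∀ v : Fin 2 × Fin 6, J(s | r v.2 v.1.castSucc) = sgn (sg θ v)

/-- `m` is a product of two small primes and a large prime of the right kind -/
def Three (W₀ : ℕ) (u : Fin 3 → ℕ) (θ : Fin 3 → ZMod 2) (R : ℕ) (m : ℤ) : Prop :=
  ∃ r : Fin 3 → ℕ, (∀ k, (r k).Prime ∧ r k ≡ u k [MOD W₀]) ∧ (r 0 : ℤ) * r 1 * r 2 = m ∧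
    R < r 0 ∧ r 0 ≤ R ^ 2 ∧ R < r 1 ∧ r 1 ≤ R ^ 2 ∧ R ^ 2 < r 2 ∧
    J((r 1 : ℤ) | r 0) = sgn (θ 0) ∧ J((r 2 : ℤ) | r 0) = sgn (θ 1) ∧ J((r 2 : ℤ) | r 1) = sgn (θ 2)

/-- a normalised pattern -/
structure Pat (c : Fin 6 → ℕ) : Prop where
  inj : Function.Injective c
  zero : ∃ j, c j = 0
  bez : ∃ lam : Fin 6 → ℤ, ∑ j, lam j * c j = 1

section

variable {ι : Type} [Fintype ι] [DecidableEq ι]

/-- indices of the small primes of the blown-up system -/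
def Adm3 (ι : Type) [Fintype ι] [DecidableEq ι] : Finset (Fin 2 × ι × Finset ι) := univ ×ˢ Adm ι

/-- one term of the box average -/
def term3 (c : ι → ℤ) (W : ℤ) (n : ι → ℤ) (s : ℤ) (G : Finset ((Fin 2 × ι) × Fin 2 × ι))
    (B : Finset (Fin 2 × ι)) (Q : Fin 2 × ι × Finset ι → ℕ) (x : ι ⊕ ι → ℤ) : ℝ :=
  (∏ S : Finset ι, Gam G B (Sf W s (vx S x)) fun v => Q (v.1, v.2, S.erase v.2)) *
    ∏ t ∈ Adm3 ι, ind (Q t) (Lf c W n t.2.1 (vx t.2.2 x))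

/-- no coincidence -/
def NC3 (Q : Fin 2 × ι × Finset ι → ℕ) : Prop :=
  ∀ t ∈ Adm3 ι, ∀ t' ∈ Adm3 ι, Q t = Q t' → t = t'

/-- the two small primes of a value are different -/
def Dis (Q : Fin 2 × ι × Finset ι → ℕ) : Prop := ∀ t ∈ Adm ι, Q (0, t) ≠ Q (1, t)

/-- the box average -/
def box3 (c : ι → ℤ) (W : ℤ) (n : ι → ℤ) (s : ℤ) (G : Finset ((Fin 2 × ι) × Fin 2 × ι))
    (B : Finset (Fin 2 × ι)) (P : Finset ℕ) (H : ℕ) : ℝ :=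
  av fun Q : Fin 2 × ι × Finset ι → P => if Dis (fun t => (Q t : ℕ)) then
    (P.card : ℝ) ^ (Adm3 ι).card * bav H (term3 c W n s G B fun t => (Q t : ℕ)) else 0

end

end Pool.Agent.Lib.MP_7d3fda_nt.R3
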