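import Pool.Agent.Lib.MP_7d3fda_nt.R3.ADefs
import Pool.Agent.Lib.MP_7d3fda_nt.R2.Bad

open Finset
open scoped Classical NumberTheorySymbols

noncomputable section

namespace Pool.Agent.Lib.MP_7d3fda_nt.R3

open Pool.Agent.Lib.MP_4b8564_nt.GT Pool.Agent.Lib.MP_7d3fda_nt.R2

variable {ι : Type} [Fintype ι] [DecidableEq ι]

/-- total mass of a subsystem -/
theorem mass3 {c : ι → ℤ} {W : ℤ} {n : ι → ℤ} {P : Finset ℕ} {H : ℕ} {K : ℝ} (hne : P.Nonempty)
    (hH : 0 < H) (hK : Few c W n P H K) (s : Finset (Fin 2 × ι × Finset ι)) :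
    av (fun Q : Fin 2 × ι × Finset ι → P => (P.card : ℝ) ^ s.card *
      bav H fun x => ∏ t ∈ s, ind (Q t) (Lf c W n t.2.1 (vx t.2.2 x))) ≤ K ^ s.card := by
  have : Nonempty P := hne.to_subtype
  have : Nonempty (Fin H) := ⟨⟨0, hH⟩⟩
  simp only [bav, ← av_const_mul]
  rw [av_comm]
  refine av_le_of_le fun h => ?_
  have e : ∀ Q : Fin 2 × ι × Finset ι → P, (P.card : ℝ) ^ s.card *
      ∏ t ∈ s, ind (Q t) (Lf c W n t.2.1 (vx t.2.2 fun v => ((h v : ℕ) : ℤ))) =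
      ∏ t ∈ s, (fun (t : Fin 2 × ι × Finset ι) (q : P) => (P.card : ℝ) *
        ind q (Lf c W n t.2.1 (vx t.2.2 fun v => ((h v : ℕ) : ℤ)))) t (Q t) := by
    intro Q
    simp only [prod_mul_distrib, prod_const]
  rw [av_congr e]
  refine (av_pi_prod s (fun (t : Fin 2 × ι × Finset ι) (q : P) => (P.card : ℝ) *
    ind q (Lf c W n t.2.1 (vx t.2.2 fun v => ((h v : ℕ) : ℤ))))).le.trans ?_
  rw [← prod_const]
  refine prod_le_prod (fun t _ => av_nonneg fun q => mul_nonneg (Nat.cast_nonneg _)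
    (FormsAux.ind_nonneg _ _)) fun t _ => ?_
  rw [FormsAux.av_ind hne]
  refine hK t.2.1 _ fun i => ?_
  unfold vx
  split_ifs
  · exact ⟨Int.natCast_nonneg _, Int.ofNat_lt.2 (h (Sum.inr i)).2⟩
  · exact ⟨Int.natCast_nonneg _, Int.ofNat_lt.2 (h (Sum.inl i)).2⟩

namespace ABadAux

open BadAux

/-- number of coincidences between different forms -/
def EF {κ κ' : Type} [DecidableEq κ'] (f : κ → κ') (s : Finset κ) (P : Finset ℕ) (L : κ → ℤ) : ℝ :=
  ∑ t ∈ s, ∑ t' ∈ s.filter (fun t' => f t ≠ f t'), ∑ q ∈ P, ind q (L t) * ind q (L t')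

theorem EF_nonneg {κ κ' : Type} [DecidableEq κ'] (f : κ → κ') (s : Finset κ) (P : Finset ℕ) (L : κ → ℤ) :
    0 ≤ EF f s P L :=
  sum_nonneg fun _ _ => sum_nonneg fun _ _ => sum_nonneg fun _ _ =>
    mul_nonneg (ind_nonneg _ _) (ind_nonneg _ _)

theorem prod_le_mul {κ κ' : Type} [DecidableEq κ'] (f : κ → κ') (s : Finset κ) (P : Finset ℕ) (L : κ → ℤ)
    (Q : κ → ℕ) {t t' : κ} (ht : t ∈ s) (ht' : t' ∈ s) (hne : f t ≠ f t') (hQ : Q t = Q t')
    (hP : Q t ∈ P) : ∏ u ∈ s, ind (Q u) (L u) ≤ (∏ u ∈ s, ind (Q u) (L u)) * EF f s P L := by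
  have h0 : 0 ≤ ∏ u ∈ s, ind (Q u) (L u) := prod_nonneg fun _ _ => ind_nonneg _ _
  by_cases hz : ∏ u ∈ s, ind (Q u) (L u) = 0
  · rw [hz]; simp
  have h1 : ind (Q t) (L t) = 1 := ind_eq_one (prod_ne_zero_iff.1 hz t ht)
  have h2 : ind (Q t) (L t') = 1 := hQ ▸ ind_eq_one (prod_ne_zero_iff.1 hz t' ht')
  have h3 : 1 ≤ EF f s P L := by
    have a1 : (1 : ℝ) ≤ ∑ q ∈ P, ind q (L t) * ind q (L t') := by
      have := single_le_sum (f := fun q => ind q (L t) * ind q (L t'))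
        (fun q _ => mul_nonneg (ind_nonneg _ _) (ind_nonneg _ _)) hP
      simpa [h1, h2] using this
    have a2 := single_le_sum (f := fun u => ∑ q ∈ P, ind q (L t) * ind q (L u))
      (s := s.filter fun t' => f t ≠ f t')
      (fun u _ => sum_nonneg fun q _ => mul_nonneg (ind_nonneg _ _) (ind_nonneg _ _))
      (mem_filter.2 ⟨ht', hne⟩)
    have a3 := single_le_sum
      (f := fun v => ∑ u ∈ s.filter (fun t' => f v ≠ f t'), ∑ q ∈ P, ind q (L v) * ind q (L u))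
      (fun v _ => sum_nonneg fun u _ => sum_nonneg fun q _ =>
        mul_nonneg (ind_nonneg _ _) (ind_nonneg _ _)) ht
    exact a1.trans (a2.trans a3)
  exact le_mul_of_one_le_right h0 h3

theorem mem_adm {t : Fin 2 × ι × Finset ι} (ht : t ∈ Adm3 ι) : t.2 ∈ Adm ι :=
  (mem_product.1 ht).2

theorem exists_pair {Q : Fin 2 × ι × Finset ι → ℕ} (hD : Dis Q) (hN : ¬NC3 Q) :
    ∃ t ∈ Adm3 ι, ∃ t' ∈ Adm3 ι, Q t = Q t' ∧ t.2 ≠ t'.2 := by
  unfold NC3 at hN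
  push Not at hN
  obtain ⟨⟨k, t⟩, ht, ⟨k', t'⟩, ht', h1, h2⟩ := hN
  refine ⟨_, ht, _, ht', h1, fun e => ?_⟩
  obtain rfl : t = t' := e
  have h3 := hD t (mem_adm ht)
  have h4 : k ≠ k' := fun e => h2 (by rw [e])
  have h5 : (k = 0 ∧ k' = 1) ∨ (k = 1 ∧ k' = 0) := by omega
  rcases h5 with ⟨rfl, rfl⟩ | ⟨rfl, rfl⟩
  · exact h3 h1
  · exact h3 h1.symm

end ABadAux

open BadAux ABadAux in
theorem bad_le3 [Nontrivial ι] {c : ι → ℤ} {W : ℤ} {n : ι → ℤ} {P : Finset ℕ} {R H : ℕ} {K : ℝ}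
    (hP : Ok c W R P) (hne : P.Nonempty) (hR : 1 ≤ R) (hH : R ^ 2 ≤ H) (hK : Few c W n P H K) :
    av (fun Q : Fin 2 × ι × Finset ι → P =>
      if Dis (fun t => (Q t : ℕ)) ∧ ¬NC3 (fun t => (Q t : ℕ)) then
        (P.card : ℝ) ^ (Adm3 ι).card *
          bav H fun x => ∏ t ∈ Adm3 ι, ind (Q t) (Lf c W n t.2.1 (vx t.2.2 x)) else 0) ≤
      K ^ (Adm3 ι).card * (4 * ((Adm3 ι).card : ℝ) ^ 2 / R) := by
  have hH0 : 0 < H := lt_of_lt_of_le (by positivity) hH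
  have hPne : Nonempty P := hne.to_subtype
  have hK0 : 0 ≤ K := by
    obtain ⟨j⟩ : Nonempty ι := inferInstance
    exact le_trans (Nat.cast_nonneg _) (hK j 0 fun i => ⟨le_rfl, by simpa using hH0⟩)
  let L : (ι ⊕ ι → Fin H) → Fin 2 × ι × Finset ι → ℤ :=
    fun h t => Lf c W n t.2.1 (vx t.2.2 fun v => ((h v : ℕ) : ℤ))
  have step1 : av (fun Q : Fin 2 × ι × Finset ι → P =>
      if Dis (fun t => (Q t : ℕ)) ∧ ¬NC3 (fun t => (Q t : ℕ)) then
        (P.card : ℝ) ^ (Adm3 ι).card *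
          bav H fun x => ∏ t ∈ Adm3 ι, ind (Q t) (Lf c W n t.2.1 (vx t.2.2 x)) else 0) ≤
      av fun Q : Fin 2 × ι × Finset ι → P => av fun h : ι ⊕ ι → Fin H =>
        (P.card : ℝ) ^ (Adm3 ι).card * (∏ t ∈ Adm3 ι, ind (Q t) (L h t)) * EF Prod.snd (Adm3 ι) P (L h) := by
    refine av_mono fun Q => ?_
    split_ifs with hQ
    · obtain ⟨t, ht, t', ht', h1, h2⟩ := exists_pair hQ.1 hQ.2
      rw [bav, ← av_const_mul]
      refine av_mono fun h => ?_
      rw [mul_assoc]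
      exact mul_le_mul_of_nonneg_left (ABadAux.prod_le_mul Prod.snd (Adm3 ι) P (L h)
        (fun t => (Q t : ℕ)) ht ht' h2 h1 (Q t).2) (by positivity)
    · exact av_nonneg fun h => mul_nonneg (mul_nonneg (by positivity)
        (prod_nonneg fun _ _ => ind_nonneg _ _)) (EF_nonneg _ _ _ _)
  have step2 : ∀ h : ι ⊕ ι → Fin H, av (fun Q : Fin 2 × ι × Finset ι → P =>
      (P.card : ℝ) ^ (Adm3 ι).card * (∏ t ∈ Adm3 ι, ind (Q t) (L h t)) * EF Prod.snd (Adm3 ι) P (L h)) ≤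
      K ^ (Adm3 ι).card * EF Prod.snd (Adm3 ι) P (L h) := fun h => by
    rw [av_mul_const, av_const_mul, av_pi_prod (Adm3 ι) fun t (q : P) => ind q (L h t)]
    refine mul_le_mul_of_nonneg_right ?_ (EF_nonneg _ _ _ _)
    rw [← prod_const, ← prod_mul_distrib, ← prod_const]
    refine prod_le_prod (fun t _ => ?_) fun t _ => ?_
    · rw [card_mul_av hne]; positivity
    · rw [card_mul_av hne]
      refine hK t.2.1 _ fun i => ?_
      unfold vx
      split_ifs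
      · exact ⟨Int.natCast_nonneg _, Int.ofNat_lt.2 (h _).2⟩
      · exact ⟨Int.natCast_nonneg _, Int.ofNat_lt.2 (h _).2⟩
  have step3 : av (fun h : ι ⊕ ι → Fin H => EF Prod.snd (Adm3 ι) P (L h)) ≤
      4 * ((Adm3 ι).card : ℝ) ^ 2 / R := by
    have h4 : (0 : ℝ) ≤ 4 / R := by positivity
    unfold EF
    rw [av_sum]
    have : ∀ t ∈ Adm3 ι, av (fun h : ι ⊕ ι → Fin H =>
        ∑ t' ∈ (Adm3 ι).filter (fun t' => t.2 ≠ t'.2),
          ∑ q ∈ P, ind q (L h t) * ind q (L h t')) ≤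
        ((Adm3 ι).card : ℝ) * (4 / R) := fun t ht => by
      rw [av_sum]
      have h5 : ∀ t' ∈ (Adm3 ι).filter (fun t' => t.2 ≠ t'.2), av (fun h : ι ⊕ ι → Fin H =>
          ∑ q ∈ P, ind q (L h t) * ind q (L h t')) ≤ 4 / R := fun t' ht' => by
        rw [av_sum]
        refine le_trans (sum_le_sum fun q hq => ?_)
          (sum_inv_sq hR fun q hq => ⟨(hP q hq).2.1, (hP q hq).2.2.1⟩)
        obtain ⟨v, hv, hv0⟩ := cL_sep hP hq (mem_adm ht) (mem_adm (mem_filter.1 ht').1)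
          (mem_filter.1 ht').2
        obtain ⟨w, hw⟩ := cL_unit hP hq t'.2
        have := two_forms q H (hP q hq).1 ((hP q hq).2.2.1.trans hH) (n t.2.1) (n t'.2.1)
          (cL c W t.2) (cL c W t'.2) v w hv hv0 hw
        simp only [← Lf_eq] at this
        exact this
      refine (sum_le_card_nsmul _ _ _ h5).trans ?_
      rw [nsmul_eq_mul]
      exact mul_le_mul_of_nonneg_right (by exact_mod_cast card_filter_le _ _) h4
    refine (sum_le_card_nsmul _ _ _ this).trans (le_of_eq ?_)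
    rw [nsmul_eq_mul]; ring
  refine step1.trans ?_
  rw [av_comm]
  refine (av_mono step2).trans ?_
  rw [av_const_mul]
  exact mul_le_mul_of_nonneg_left step3 (by positivity)

end Pool.Agent.Lib.MP_7d3fda_nt.R3
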