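import Pool.Agent.Lib.MP_7d3fda_nt.R3.ADefs
import Pool.Agent.Lib.MP_7d3fda_nt.R2.CaseB

open Finset
open scoped Classical NumberTheorySymbols

noncomputable section

namespace Pool.Agent.Lib.MP_7d3fda_nt.R3

open Pool.Agent.Lib.MP_4b8564_nt.GT Pool.Agent.Lib.MP_7d3fda_nt.R2

variable {ι : Type} [Fintype ι] [DecidableEq ι]

open CaseBAux in
theorem caseB3 {c : ι → ℤ} {W : ℤ} (n : ι → ℤ) (s : ℤ) (G : Finset ((Fin 2 × ι) × Fin 2 × ι))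
    {B : Finset (Fin 2 × ι)} {P : Finset ℕ} {R H : ℕ} (hP : Ok c W R P) (hR : 2 ≤ R) (hH : 0 < H)
    (hB : B.Nonempty) {Q : Fin 2 × ι × Finset ι → ℕ} (hQ : ∀ t, Q t ∈ P) (hNC : NC3 Q) :
    |bav H (term3 c W n s G B Q)| ≤ 8 * Fintype.card ι * (R : ℝ) ^ (2 * (Adm3 ι).card) / H := by
  obtain ⟨j0, hj0⟩ := hB
  obtain ⟨t0, ht0⟩ : ∃ t0 : Fin 2 × ι × Finset ι, t0 = (j0.1, j0.2, ∅) := ⟨_, rfl⟩
  have hadm : t0 ∈ Adm3 ι := by simp [Adm3, Adm, ht0]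
  obtain ⟨hp, hRp, -, hpW, -⟩ := hP _ (hQ t0)
  obtain ⟨T, hT⟩ : ∃ T : Finset (Finset ι × Fin 2 × ι), T = (univ ×ˢ B).erase (∅, j0) := ⟨_, rfl⟩
  obtain ⟨φ, hφ⟩ : ∃ φ : Finset ι × Fin 2 × ι → (ι ⊕ ι → ℤ) → ℝ, φ = fun u x =>
    (J(s + ∑ w, cS W u.1 w * x w | Q (u.2.1, u.2.2, u.1.erase u.2.2)) : ℝ) := ⟨_, rfl⟩
  obtain ⟨ψ, hψ⟩ : ∃ ψ : Fin 2 × ι × Finset ι → (ι ⊕ ι → ℤ) → ℝ, ψ = fun t x =>
    ind (Q t) (n t.2.1 + ∑ w, cL c W t.2 w * x w) := ⟨_, rfl⟩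
  obtain ⟨C, hC⟩ : ∃ C : ℝ, C = ∏ S : Finset ι, ∏ e ∈ G,
    (J((Q (e.1.1, e.1.2, S.erase e.1.2) : ℤ) | Q (e.2.1, e.2.2, S.erase e.2.2)) : ℝ) := ⟨_, rfl⟩
  obtain ⟨F, hF⟩ : ∃ F : (ι ⊕ ι → ℤ) → ℝ, F = fun x =>
    ψ t0 x * ∏ u ∈ T.filter (fun u => (u.2.1, u.2.2, u.1.erase u.2.2) = t0), φ u x := ⟨_, rfl⟩
  obtain ⟨g, hg⟩ : ∃ g : (ι ⊕ ι → ℤ) → ℝ, g = fun x =>
    (C * ∏ u ∈ T.filter (fun u => ¬(u.2.1, u.2.2, u.1.erase u.2.2) = t0), φ u x) *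
      ∏ t ∈ (Adm3 ι).erase t0, ψ t x := ⟨_, rfl⟩
  obtain ⟨M, hM⟩ : ∃ M : ℕ, M = ∏ t ∈ (Adm3 ι).erase t0, Q t := ⟨_, rfl⟩
  have hφ1 : ∀ u x, |φ u x| ≤ 1 := fun u x => by rw [hφ]; exact abs_jac_le _ _
  have hψ1 : ∀ t x, |ψ t x| ≤ 1 := fun t x => by rw [hψ]; exact abs_ind_le _ _
  have hφp : ∀ u m, Q (u.2.1, u.2.2, u.1.erase u.2.2) ∣ m → Per m (φ u) := fun u m h => by
    rw [hφ]; exact per_jac _ _ h _ _
  have hψp : ∀ t m, Q t ∣ m → Per m (ψ t) := fun t m h => by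
    rw [hψ]; exact per_ind _ _ h _ _
  have hφ0 : φ (∅, j0) = fun x => (J(s + ∑ w, cS W ∅ w * x w | Q t0) : ℝ) := by
    rw [hφ, ht0]; simp only [Finset.erase_empty]
  have hterm : term3 c W n s G B Q = fun x => (F x * φ (∅, j0) x) * g x := by
    funext x
    have e1 : ∏ S : Finset ι, Gam G B (Sf W s (vx S x)) (fun v => Q (v.1, v.2, S.erase v.2)) =
        C * ∏ u ∈ (univ : Finset (Finset ι)) ×ˢ B, φ u x := by
      rw [Finset.prod_product, hC, ← Finset.prod_mul_distrib, hφ]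
      exact Finset.prod_congr rfl fun S _ => by simp only [Gam, Sf_eq]
    have e2 : ∏ t ∈ Adm3 ι, ind (Q t) (Lf c W n t.2.1 (vx t.2.2 x)) = ∏ t ∈ Adm3 ι, ψ t x := by
      rw [hψ]
      exact Finset.prod_congr rfl fun t _ => by rw [Lf_eq]
    have hu : ((∅ : Finset ι), j0) ∈ (univ : Finset (Finset ι)) ×ˢ B :=
      Finset.mem_product.2 ⟨Finset.mem_univ _, hj0⟩
    unfold term3
    rw [e1, e2, ← Finset.mul_prod_erase _ _ hu, ← hT, ← Finset.mul_prod_erase _ _ hadm,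
      ← Finset.prod_filter_mul_prod_filter_not T (fun u => (u.2.1, u.2.2, u.1.erase u.2.2) = t0), hF, hg]
    ring
  have hF1 : ∀ x, |F x| ≤ 1 := fun x => by
    rw [hF]; exact abs_mul_le (hψ1 _ _) (abs_prod_le _ _ fun u => hφ1 u x)
  have hg1 : ∀ x, |g x| ≤ 1 := fun x => by
    rw [hg]
    refine abs_mul_le (abs_mul_le ?_ (abs_prod_le _ _ fun u => hφ1 u x))
      (abs_prod_le _ _ fun t => hψ1 t x)
    rw [hC]
    exact abs_prod_le _ _ fun S => abs_prod_le _ _ fun e => abs_jac_le _ _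
  have hFp : Per (Q t0) F := by
    rw [hF]
    exact per_mul (hψp _ _ dvd_rfl) (per_prod _ _ fun u hu =>
      hφp u _ (by rw [(Finset.mem_filter.1 hu).2]))
  have hfp : Per (Q t0) fun x => F x * φ (∅, j0) x :=
    per_mul hFp (hφp _ _ (by rw [ht0]; simp only [Finset.erase_empty]; exact dvd_rfl))
  have hgp : Per M g := by
    rw [hg, hM]
    refine per_mul (per_mul (fun _ _ _ => rfl) (per_prod _ _ fun u hu => hφp u _ ?_))
      (per_prod _ _ fun t ht => hψp t _ (Finset.dvd_prod_of_mem _ ht))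
    refine Finset.dvd_prod_of_mem _ (Finset.mem_erase.2 ⟨(Finset.mem_filter.1 hu).2, ?_⟩)
    simp [Adm3, Adm]
  have hFu : ∀ x t, F (Function.update x (Sum.inl j0.2) t) = F x := fun x t => by
    rw [hF]
    refine congrArg₂ (· * ·) ?_ (Finset.prod_congr rfl fun u hu => ?_)
    · rw [hψ]
      simp only []
      rw [sum_update _ _ _ _ (by simp [cL, ht0])]
    · obtain ⟨h1, h2⟩ := Finset.mem_filter.1 hu
      rw [hT] at h1
      rw [ht0, Prod.mk.injEq, Prod.mk.injEq] at h2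
      have h3 : j0.2 ∈ u.1 := by
        by_contra h3
        refine (Finset.mem_erase.1 h1).1 (Prod.ext ?_ (Prod.ext h2.1 h2.2.1))
        rw [← h2.2.2, h2.2.1, Finset.erase_eq_of_notMem h3]
      rw [hφ]
      simp only []
      rw [sum_update _ _ _ _ (by simp [cS, h3])]
  have hz : bav (Q t0) (fun x => F x * φ (∅, j0) x) = 0 := by
    rw [hφ0]
    exact loc_jac _ hp (by omega) s _ (Sum.inl j0.2) (by simpa [cS] using hpW) F hFu
  have hM0 : 0 < M := by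
    rw [hM]
    exact Finset.prod_pos fun t _ => (hP _ (hQ t)).1.pos
  have hco : (Q t0).Coprime M := by
    rw [hM]
    refine Nat.Coprime.prod_right fun t ht => (Nat.coprime_primes hp (hP _ (hQ t)).1).2 fun h => ?_
    exact (Finset.mem_erase.1 ht).1 (hNC _ hadm _ (Finset.mem_erase.1 ht).2 h).symm
  have hle : Q t0 * M ≤ R ^ (2 * (Adm3 ι).card) := by
    rw [hM, Finset.mul_prod_erase _ _ hadm, pow_mul]
    exact Finset.prod_le_pow_card _ _ _ fun t _ => (hP _ (hQ t)).2.2.1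
  have hle' : (Q t0 : ℝ) * M ≤ (R : ℝ) ^ (2 * (Adm3 ι).card) := by exact_mod_cast hle
  have key := fac _ M H hp.pos hM0 hH hco _ g hfp hgp
    (fun x => abs_mul_le (hF1 x) (hφ1 _ x)) hg1
  rw [hz, zero_mul, sub_zero, ← hterm, Fintype.card_sum] at key
  refine key.trans (div_le_div_of_nonneg_right ?_ (Nat.cast_nonneg _))
  push_cast
  have h0 : (0 : ℝ) ≤ Fintype.card ι := Nat.cast_nonneg _
  nlinarith [mul_le_mul_of_nonneg_left hle' h0]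

end Pool.Agent.Lib.MP_7d3fda_nt.R3
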