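import Pool.Agent.Lib.MP_7d3fda_nt.R3.ACaseG
import Pool.Agent.Lib.MP_7d3fda_nt.R3.ACaseB
import Pool.Agent.Lib.MP_7d3fda_nt.R2.BoxLe

open Finset
open scoped Classical NumberTheorySymbols

noncomputable section

namespace Pool.Agent.Lib.MP_7d3fda_nt.R3

open Pool.Agent.Lib.MP_4b8564_nt.GT Pool.Agent.Lib.MP_7d3fda_nt.R2

variable {ι : Type} [Fintype ι] [DecidableEq ι]

namespace ABoxAux

theorem abs_term_le (c : ι → ℤ) (W : ℤ) (n : ι → ℤ) (s : ℤ)
    (G : Finset ((Fin 2 × ι) × Fin 2 × ι)) (B : Finset (Fin 2 × ι))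
    (Q : Fin 2 × ι × Finset ι → ℕ) (x : ι ⊕ ι → ℤ) :
    |term3 c W n s G B Q x| ≤ ∏ t ∈ Adm3 ι, ind (Q t) (Lf c W n t.2.1 (vx t.2.2 x)) := by
  have h0 : 0 ≤ ∏ t ∈ Adm3 ι, ind (Q t) (Lf c W n t.2.1 (vx t.2.2 x)) :=
    prod_nonneg fun t _ => BoxLeAux.ind_nonneg _ _
  unfold term3
  rw [abs_mul, abs_of_nonneg h0, abs_prod]
  exact mul_le_of_le_one_left h0
    (prod_le_one (fun _ _ => abs_nonneg _) fun _ _ => abs_Gam_le _ _ _ _)

theorem dis_of_nc {Q : Fin 2 × ι × Finset ι → ℕ} (h : NC3 Q) : Dis Q := fun t ht e => by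
  have := h (0, t) (mem_product.2 ⟨mem_univ _, ht⟩) (1, t) (mem_product.2 ⟨mem_univ _, ht⟩) e
  exact absurd (congrArg Prod.fst this) (by simp)

end ABoxAux

open BoxLeAux in
theorem box_le3 [Nontrivial ι] {c : ι → ℤ} {W : ℤ} {n : ι → ℤ} (s : ℤ)
    {G : Finset ((Fin 2 × ι) × Fin 2 × ι)} {B : Finset (Fin 2 × ι)} {P : Finset ℕ} {R H : ℕ}
    {K δ : ℝ} (hP : Ok c W R P) (hne : P.Nonempty) (hR : 2 ≤ R)
    (hH : R ^ (4 * (Adm3 ι).card + 2) ≤ H) (hK : Few c W n P H K) (hK1 : 1 ≤ K) (hδ : Bil P δ)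
    (hG : ∀ e ∈ G, e.1.2 ≠ e.2.2 ∧ (e.2, e.1) ∉ G) (hGB : G.Nonempty ∨ B.Nonempty) :
    |box3 c W n s G B P H| ≤
      K ^ (Adm3 ι).card * (δ + (4 * ((Adm3 ι).card : ℝ) ^ 2 + 16 * Fintype.card ι) / R) := by
  have hR0 : (0 : ℝ) < R := by exact_mod_cast (by omega : 0 < R)
  have hH2 : R ^ 2 ≤ H := (Nat.pow_le_pow_right (by omega) (by omega)).trans hH
  have hH0 : 0 < H := (pow_pos (by omega) 2).trans_le hH2
  have hδ0 : 0 ≤ δ := (abs_nonneg _).trans (hδ (fun _ => 0) (fun _ => 0) (by simp) (by simp))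
  have hKA : 1 ≤ K ^ (Adm3 ι).card := one_le_pow₀ hK1
  have hn : (0 : ℝ) ≤ Fintype.card ι := Nat.cast_nonneg _
  have : Nonempty P := hne.to_subtype
  have hsm := small (A := (Adm3 ι).card) (card_le hP) hR hH (a := 16 * Fintype.card ι)
    (by positivity)
  have hsplit : box3 c W n s G B P H =
      av (fun Q : Fin 2 × ι × Finset ι → P => if NC3 (fun t => (Q t : ℕ)) then
        (P.card : ℝ) ^ (Adm3 ι).card * bav H (term3 c W n s G B fun t => (Q t : ℕ)) else 0) +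
      av (fun Q : Fin 2 × ι × Finset ι → P =>
        if Dis (fun t => (Q t : ℕ)) ∧ ¬NC3 (fun t => (Q t : ℕ)) then
        (P.card : ℝ) ^ (Adm3 ι).card * bav H (term3 c W n s G B fun t => (Q t : ℕ)) else 0) := by
    rw [← av_add]
    refine av_congr fun Q => ?_
    by_cases h1 : NC3 fun t => (Q t : ℕ)
    · rw [if_pos (ABoxAux.dis_of_nc h1), if_pos h1, if_neg fun h => h.2 h1, add_zero]
    · rw [if_neg h1, zero_add]
      exact if_congr ⟨fun h => ⟨h, h1⟩, fun h => h.1⟩ rfl rfl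
  have hbad : |av (fun Q : Fin 2 × ι × Finset ι → P =>
      if Dis (fun t => (Q t : ℕ)) ∧ ¬NC3 (fun t => (Q t : ℕ)) then
      (P.card : ℝ) ^ (Adm3 ι).card * bav H (term3 c W n s G B fun t => (Q t : ℕ)) else 0)| ≤
      K ^ (Adm3 ι).card * (4 * ((Adm3 ι).card : ℝ) ^ 2 / R) := by
    refine (abs_av_le _).trans ((av_mono fun Q => ?_).trans (bad_le3 hP hne (by omega) hH2 hK))
    split_ifs
    · rw [abs_mul, abs_of_nonneg (by positivity)]
      exact mul_le_mul_of_nonneg_left ((abs_av_le _).trans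
        (av_mono fun x => ABoxAux.abs_term_le _ _ _ _ _ _ _ _)) (by positivity)
    · simp
  have hgood : |av (fun Q : Fin 2 × ι × Finset ι → P => if NC3 (fun t => (Q t : ℕ)) then
      (P.card : ℝ) ^ (Adm3 ι).card * bav H (term3 c W n s G B fun t => (Q t : ℕ)) else 0)| ≤
      K ^ (Adm3 ι).card * δ + 16 * Fintype.card ι / R := by
    rcases B.eq_empty_or_nonempty with rfl | hB
    · have hG0 : G.Nonempty := hGB.resolve_right (by simp)
      exact (caseG3 s hP hne hH0 hK hK1 hδ hG0 hG).trans (by linarith)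
    · refine abs_av_le_of_le fun Q => ?_
      have h1 : 0 ≤ K ^ (Adm3 ι).card * δ := by positivity
      split_ifs with hQ
      · have h2 := caseB3 n s G hP hR hH0 hB (fun t => (Q t).2) hQ
        have h3 := small (A := (Adm3 ι).card) (card_le hP) hR hH (a := 8 * Fintype.card ι)
          (by positivity)
        have h4 : 8 * (Fintype.card ι : ℝ) / R ≤ 16 * Fintype.card ι / R := by
          gcongr; norm_num
        rw [abs_mul, abs_of_nonneg (by positivity)]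
        have h5 := mul_le_mul_of_nonneg_left h2
          (show (0 : ℝ) ≤ (P.card : ℝ) ^ (Adm3 ι).card by positivity)
        linarith
      · rw [abs_zero]; positivity
  have h6 : 16 * (Fintype.card ι : ℝ) / R ≤ K ^ (Adm3 ι).card * (16 * Fintype.card ι / R) :=
    le_mul_of_one_le_left (by positivity) hKA
  rw [hsplit]
  refine (abs_add_le _ _).trans ?_
  rw [add_div, mul_add, mul_add]
  linarith

end Pool.Agent.Lib.MP_7d3fda_nt.R3
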