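import Pool.Agent.Lib.MP_7d3fda_nt.R3.ABad
import Pool.Agent.Lib.MP_7d3fda_nt.R2.CaseG

open Finset
open scoped Classical NumberTheorySymbols

noncomputable section

namespace Pool.Agent.Lib.MP_7d3fda_nt.R3

open Pool.Agent.Lib.MP_4b8564_nt.GT Pool.Agent.Lib.MP_7d3fda_nt.R2

variable {ι : Type} [Fintype ι] [DecidableEq ι]

namespace ACaseGAux

open CaseGAux

/-- the sign of a term without symbols of the difference -/
def sg3 (G : Finset ((Fin 2 × ι) × Fin 2 × ι)) (Q : Fin 2 × ι × Finset ι → ℕ) : ℝ :=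
  ∏ z ∈ (univ : Finset (Finset ι)) ×ˢ G,
    (J((Q (z.2.1.1, z.2.1.2, z.1.erase z.2.1.2) : ℤ) | Q (z.2.2.1, z.2.2.2, z.1.erase z.2.2.2)) : ℝ)

theorem abs_sg3 (G : Finset ((Fin 2 × ι) × Fin 2 × ι)) (Q : Fin 2 × ι × Finset ι → ℕ) : |sg3 G Q| ≤ 1 := by
  rw [sg3, abs_prod]
  exact prod_le_one (fun _ _ => abs_nonneg _) fun _ _ => abs_jac_le _ _

theorem term_eq3 (c : ι → ℤ) (W : ℤ) (n : ι → ℤ) (s : ℤ) (G : Finset ((Fin 2 × ι) × Fin 2 × ι))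
    (Q : Fin 2 × ι × Finset ι → ℕ) (x : ι ⊕ ι → ℤ) :
    term3 c W n s G ∅ Q x = sg3 G Q * ∏ t ∈ Adm3 ι, ind (Q t) (Lf c W n t.2.1 (vx t.2.2 x)) := by
  simp only [term3, Gam, sg3, prod_empty, mul_one, prod_product]

theorem sg_split3 {G : Finset ((Fin 2 × ι) × Fin 2 × ι)} {i j : Fin 2 × ι} (hij : (i, j) ∈ G)
    (hG : ∀ e ∈ G, e.1.2 ≠ e.2.2 ∧ (e.2, e.1) ∉ G) (Q : Fin 2 × ι × Finset ι → ℕ) :
    ∃ α β : ℕ → ℝ, (∀ a, |α a| ≤ 1) ∧ (∀ b, |β b| ≤ 1) ∧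
      ∀ a b, sg3 G (U Q (i.1, i.2, ∅) (j.1, j.2, ∅) a b) = (J((a : ℤ) | b) : ℝ) * (α a * β b) := by
  have hne : i.2 ≠ j.2 := (hG _ hij).1
  have ht : ((i.1, i.2, ∅) : Fin 2 × ι × Finset ι) ≠ (j.1, j.2, ∅) := fun h => hne (Prod.mk.inj (Prod.mk.inj h).2).1
  obtain ⟨α, β, h1, h2, h3⟩ := Split.prod (((univ : Finset (Finset ι)) ×ˢ G).erase (∅, (i, j)))
    (fun z a b => (J(((U Q (i.1, i.2, ∅) (j.1, j.2, ∅) a b (z.2.1.1, z.2.1.2, z.1.erase z.2.1.2) : ℕ) : ℤ) |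
      U Q (i.1, i.2, ∅) (j.1, j.2, ∅) a b (z.2.2.1, z.2.2.2, z.1.erase z.2.2.2)) : ℝ)) (by
      rintro ⟨S, u, v⟩ hz
      obtain ⟨hz1, hz2⟩ := mem_erase.1 hz
      refine split_jac Q ht ?_ ?_
      · simp only [Prod.mk.injEq]
        rintro ⟨⟨a1, a2, e1⟩, b1, b2, e2⟩
        obtain rfl : u = i := Prod.ext a1 a2
        obtain rfl : v = j := Prod.ext b1 b2
        refine hz1 ?_
        rw [eq_empty_of_forall_notMem (s := S) fun k hk => ?_]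
        by_cases hk1 : k = u.2
        · exact notMem_empty k (e2 ▸ mem_erase.2 ⟨hk1 ▸ hne, hk⟩)
        · exact notMem_empty k (e1 ▸ mem_erase.2 ⟨hk1, hk⟩)
      · simp only [Prod.mk.injEq]
        rintro ⟨⟨a1, a2, -⟩, b1, b2, -⟩
        obtain rfl : u = j := Prod.ext a1 a2
        obtain rfl : v = i := Prod.ext b1 b2
        exact (hG _ hij).2 (mem_product.1 hz2).2)
  refine ⟨α, β, h1, h2, fun a b => ?_⟩
  rw [sg3, ← mul_prod_erase _ _ (mem_product.2 ⟨mem_univ ∅, hij⟩ :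
    ((∅, (i, j)) : Finset ι × (Fin 2 × ι) × Fin 2 × ι) ∈ _), ← h3]
  simp only [erase_empty, U1 Q a b ht, U2]

theorem local_fac3 [Nontrivial ι] {c : ι → ℤ} {W : ℤ} (n : ι → ℤ) {P : Finset ℕ} {R H : ℕ}
    (hP : Ok c W R P) (hH : 0 < H) {Q : Fin 2 × ι × Finset ι → ℕ} (hQ : ∀ t, Q t ∈ P) (hNC3 : NC3 Q)
    {T : Finset (Fin 2 × ι × Finset ι)} (hT : T ⊆ Adm3 ι) {t : Fin 2 × ι × Finset ι} (ht : t ∈ T) :
    |bav H (fun x => ∏ u ∈ T, ind (Q u) (Lf c W n u.2.1 (vx u.2.2 x))) -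
      1 / (Q t : ℝ) * bav H fun x => ∏ u ∈ T.erase t, ind (Q u) (Lf c W n u.2.1 (vx u.2.2 x))| ≤
      8 * Fintype.card ι * (R : ℝ) ^ (2 * (Adm3 ι).card) / H := by
  have hpr : ∀ u, (Q u).Prime := fun u => (hP _ (hQ u)).1
  obtain ⟨w, hw⟩ := cL_unit hP (hQ t) t.2
  have key := fac (Q t) (∏ u ∈ T.erase t, Q u) H (hpr t).pos (prod_pos fun u _ => (hpr u).pos) hH
    (Nat.Coprime.prod_right fun u hu => (Nat.coprime_primes (hpr t) (hpr u)).2 fun e =>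
      (mem_erase.1 hu).1 (hNC3 _ (hT ht) _ (hT (mem_erase.1 hu).2) e).symm)
    (fun x => ind (Q t) (n t.2.1 + ∑ w, cL c W t.2 w * x w))
    (fun x => ∏ u ∈ T.erase t, ind (Q u) (n u.2.1 + ∑ w, cL c W u.2 w * x w))
    (per_ind _ _ dvd_rfl _ _)
    (fun x y h => prod_congr rfl fun u hu => per_ind _ _ (dvd_prod_of_mem Q hu) _ _ x y h)
    (fun _ => abs_ind_le _ _) (fun x => by
      rw [abs_prod]; exact prod_le_one (fun _ _ => abs_nonneg _) fun _ _ => abs_ind_le _ _)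
  rw [loc_ind _ (hpr t) _ _ w hw] at key
  simp only [Lf_eq, ← mul_prod_erase T _ ht]
  refine key.trans (div_le_div_of_nonneg_right ?_ (Nat.cast_nonneg _))
  have h1 : Q t * ∏ u ∈ T.erase t, Q u ≤ R ^ (2 * (Adm3 ι).card) := by
    have hR : 1 ≤ R ^ 2 := (hpr t).one_le.trans (hP _ (hQ t)).2.2.1
    rw [mul_prod_erase T Q ht, pow_mul]
    exact (prod_le_pow_card _ _ _ fun u _ => (hP _ (hQ u)).2.2.1).trans
      (Nat.pow_le_pow_right hR (card_le_card hT))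
  have h2 : ((Q t : ℝ) * (∏ u ∈ T.erase t, Q u : ℕ)) ≤ (R : ℝ) ^ (2 * (Adm3 ι).card) := by
    exact_mod_cast h1
  rw [Fintype.card_sum, Nat.cast_add]
  have h3 : (0 : ℝ) ≤ Fintype.card ι := Nat.cast_nonneg _
  nlinarith [mul_le_mul_of_nonneg_left h2 h3]

theorem nc_iff3 (Q : Fin 2 × ι × Finset ι → ℕ) {t1 t2 : Fin 2 × ι × Finset ι} (h1 : t1 ∈ Adm3 ι) (h2 : t2 ∈ Adm3 ι)
    (h : t1 ≠ t2) (a b : ℕ) (hab : a ≠ b) :
    NC3 (U Q t1 t2 a b) ↔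
      ((∀ t ∈ ((Adm3 ι).erase t1).erase t2, ∀ t' ∈ ((Adm3 ι).erase t1).erase t2,
        Q t = Q t' → t = t') ∧ ∀ t ∈ ((Adm3 ι).erase t1).erase t2, Q t ≠ a) ∧
      ∀ t ∈ ((Adm3 ι).erase t1).erase t2, Q t ≠ b := by
  simp only [mem_erase]
  constructor
  · intro hN
    refine ⟨⟨fun t ht t' ht' e => hN t ht.2.2 t' ht'.2.2 ?_, fun t ht e => ht.2.1
      (hN t ht.2.2 t1 h1 ?_)⟩, fun t ht e => ht.1 (hN t ht.2.2 t2 h2 ?_)⟩
    · rwa [U3 Q a b ht.2.1 ht.1, U3 Q a b ht'.2.1 ht'.1]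
    · rwa [U3 Q a b ht.2.1 ht.1, U1 Q a b h]
    · rwa [U3 Q a b ht.2.1 ht.1, U2]
  · rintro ⟨⟨k1, k2⟩, k3⟩ t ht t' ht' e
    by_cases a1 : t = t1 <;> by_cases a2 : t = t2 <;> by_cases b1 : t' = t1 <;>
      by_cases b2 : t' = t2
    all_goals first
      | exact a1.trans b1.symm
      | exact a2.trans b2.symm
      | exact absurd (a1.symm.trans a2) h
      | exact absurd (b1.symm.trans b2) h
      | (rw [a1, b2, U1 Q a b h, U2] at e; exact absurd e hab)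
      | (rw [a2, b1, U1 Q a b h, U2] at e; exact absurd e.symm hab)
      | (rw [a1, U1 Q a b h, U3 Q a b b1 b2] at e; exact absurd e.symm (k2 t' ⟨b2, b1, ht'⟩))
      | (rw [a2, U2, U3 Q a b b1 b2] at e; exact absurd e.symm (k3 t' ⟨b2, b1, ht'⟩))
      | (rw [b1, U1 Q a b h, U3 Q a b a1 a2] at e; exact absurd e (k2 t ⟨a2, a1, ht⟩))
      | (rw [b2, U2, U3 Q a b a1 a2] at e; exact absurd e (k3 t ⟨a2, a1, ht⟩))
      | (rw [U3 Q a b a1 a2, U3 Q a b b1 b2] at e; exact k1 t ⟨a2, a1, ht⟩ t' ⟨b2, b1, ht'⟩ e)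

theorem inner_le3 {G : Finset ((Fin 2 × ι) × Fin 2 × ι)} {i j : Fin 2 × ι} (hij : (i, j) ∈ G)
    (hG : ∀ e ∈ G, e.1.2 ≠ e.2.2 ∧ (e.2, e.1) ∉ G) {P : Finset ℕ} (hP : ∀ q ∈ P, q.Prime)
    (hne : P.Nonempty) {δ : ℝ} (hδ : Bil P δ) (Q : Fin 2 × ι × Finset ι → ℕ) :
    |av fun a : P => av fun b : P => if NC3 (U Q (i.1, i.2, ∅) (j.1, j.2, ∅) a b) then
      (P.card : ℝ) ^ 2 * (sg3 G (U Q (i.1, i.2, ∅) (j.1, j.2, ∅) a b) * (1 / (a : ℝ) * (1 / (b : ℝ)))) else 0| ≤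
      δ := by
  obtain ⟨α, β, h1, h2, h3⟩ := sg_split3 hij hG Q
  have ht : ((i.1, i.2, ∅) : Fin 2 × ι × Finset ι) ≠ (j.1, j.2, ∅) := fun h => (hG _ hij).1 (Prod.mk.inj (Prod.mk.inj h).2).1
  have hA : ∀ k : Fin 2 × ι, ((k.1, k.2, ∅) : Fin 2 × ι × Finset ι) ∈ Adm3 ι := fun k => by simp [Adm3, Adm]
  set T := ((Adm3 ι).erase (i.1, i.2, ∅)).erase (j.1, j.2, ∅)
  have key := hδ (fun a => if (∀ t ∈ T, ∀ t' ∈ T, Q t = Q t' → t = t') ∧ ∀ t ∈ T, Q t ≠ a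
    then α a else 0) (fun b => if ∀ t ∈ T, Q t ≠ b then β b else 0)
    (fun a => by split_ifs <;> simp [h1]) (fun b => by split_ifs <;> simp [h2])
  refine le_of_eq_of_le (congrArg abs ?_) key
  have hc : (P.card : ℝ) ≠ 0 := by simpa using hne.ne_empty
  simp only [av, Fintype.card_coe]
  rw [← sum_coe_sort P, sum_div]
  refine sum_congr rfl fun a _ => ?_
  rw [← sum_coe_sort P, sum_div, sum_div]
  refine sum_congr rfl fun b _ => ?_
  rw [h3]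
  by_cases hab : (a : ℕ) = b
  · have : J(((a : ℕ) : ℤ) | (b : ℕ)) = 0 := by
      have hb := hP b b.2
      have : NeZero (b : ℕ) := ⟨hb.ne_zero⟩
      rw [jacobiSym.eq_zero_iff_not_coprime, hab, Int.gcd_self, Int.natAbs_natCast]
      exact hb.ne_one
    simp [this]
  · simp only [nc_iff3 Q (hA i) (hA j) ht _ _ hab]
    by_cases k1 : (∀ t ∈ T, ∀ t' ∈ T, Q t = Q t' → t = t') ∧ ∀ t ∈ T, Q t ≠ a
    · by_cases k2 : ∀ t ∈ T, Q t ≠ b
      · rw [if_pos ⟨k1, k2⟩, if_pos k1, if_pos k2]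
        field_simp
      · rw [if_neg fun h => k2 h.2, if_neg k2]; simp
    · rw [if_neg fun h => k1 h.1, if_neg k1]; simp

end ACaseGAux

open CaseGAux ACaseGAux in
theorem caseG3 {c : ι → ℤ} {W : ℤ} {n : ι → ℤ} (s : ℤ) {G : Finset ((Fin 2 × ι) × Fin 2 × ι)}
    {P : Finset ℕ} {R H : ℕ} {K δ : ℝ} (hP : Ok c W R P) (hne : P.Nonempty) (hH : 0 < H)
    (hK : Few c W n P H K) (hK1 : 1 ≤ K) (hδ : Bil P δ) (hG0 : G.Nonempty)
    (hG : ∀ e ∈ G, e.1.2 ≠ e.2.2 ∧ (e.2, e.1) ∉ G) :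
    |av fun Q : Fin 2 × ι × Finset ι → P => if NC3 (fun t => (Q t : ℕ)) then
      (P.card : ℝ) ^ (Adm3 ι).card * bav H (term3 c W n s G ∅ fun t => (Q t : ℕ)) else 0| ≤
      K ^ (Adm3 ι).card * δ + (P.card : ℝ) ^ (Adm3 ι).card *
        (16 * Fintype.card ι * (R : ℝ) ^ (2 * (Adm3 ι).card) / H) := by
  obtain ⟨⟨i, j⟩, hij⟩ := hG0
  have : Nontrivial ι := ⟨i.2, j.2, (hG _ hij).1⟩
  have : Nonempty P := hne.to_subtype
  have ht : ((i.1, i.2, ∅) : Fin 2 × ι × Finset ι) ≠ (j.1, j.2, ∅) := fun h => (hG _ hij).1 (Prod.mk.inj (Prod.mk.inj h).2).1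
  have hA : ∀ k : Fin 2 × ι, ((k.1, k.2, ∅) : Fin 2 × ι × Finset ι) ∈ Adm3 ι := fun k => by simp [Adm3, Adm]
  have hA' : ((j.1, j.2, ∅) : Fin 2 × ι × Finset ι) ∈ (Adm3 ι).erase (i.1, i.2, ∅) := mem_erase.2 ⟨ht.symm, hA j⟩
  set T := ((Adm3 ι).erase (i.1, i.2, ∅)).erase (j.1, j.2, ∅) with hT
  have hcard : (Adm3 ι).card = T.card + 2 := by
    rw [← card_erase_add_one (hA i), ← card_erase_add_one hA']
  have hδ0 : 0 ≤ δ := by simpa using hδ (fun _ => 0) (fun _ => 0) (by simp) (by simp)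
  set ρ : (Fin 2 × ι × Finset ι → ℕ) → ℝ := fun Q =>
    bav H fun x => ∏ t ∈ T, ind (Q t) (Lf c W n t.2.1 (vx t.2.2 x)) with hρ
  have hρ0 : ∀ Q, 0 ≤ ρ Q := fun Q => av_nonneg fun _ => prod_nonneg fun _ _ => ind_nonneg _ _
  set M : (Fin 2 × ι × Finset ι → ℕ) → ℝ := fun Q => if NC3 Q then (P.card : ℝ) ^ (Adm3 ι).card *
    (sg3 G Q * (1 / (Q (i.1, i.2, ∅) : ℝ) * (1 / (Q (j.1, j.2, ∅) : ℝ) * ρ Q))) else 0 with hM
  have h1 : |av fun Q : Fin 2 × ι × Finset ι → P => M fun t => Q t| ≤ K ^ (Adm3 ι).card * δ := by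
    rw [av_update (j.1, j.2, ∅), av_update (i.1, i.2, ∅)]
    refine (abs_av_le _).trans ((av_mono (g := fun Q : Fin 2 × ι × Finset ι → P =>
      (P.card : ℝ) ^ T.card * ρ (fun t => Q t) * δ) fun Q => ?_).trans ?_)
    · have e : ∀ a b : P, M (fun t => (Function.update (Function.update Q (i.1, i.2, ∅) a) (j.1, j.2, ∅) b t :
          ℕ)) = (P.card : ℝ) ^ T.card * ρ (fun t => Q t) *
          if NC3 (U (fun t => (Q t : ℕ)) (i.1, i.2, ∅) (j.1, j.2, ∅) a b) then (P.card : ℝ) ^ 2 *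
            (sg3 G (U (fun t => (Q t : ℕ)) (i.1, i.2, ∅) (j.1, j.2, ∅) a b) * (1 / (a : ℝ) * (1 / (b : ℝ))))
          else 0 := fun a b => by
        have e1 := U6 Q (t1 := (i.1, i.2, ∅)) (t2 := (j.1, j.2, ∅)) a b (fun y : P => (y : ℕ))
        have e2 : ρ (U (fun t => (Q t : ℕ)) (i.1, i.2, ∅) (j.1, j.2, ∅) a b) = ρ fun t => Q t := by
          simp only [hρ]
          congr 1
          funext x
          refine prod_congr rfl fun t ht' => ?_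
          rw [U3 _ _ _ (mem_erase.1 (mem_erase.1 ht').2).1 (mem_erase.1 ht').1]
        change M (fun t => ((U Q (i.1, i.2, ∅) (j.1, j.2, ∅) a b t : P) : ℕ)) = _
        rw [e1, hM]
        simp only [U1 _ _ _ ht, U2, e2]
        split_ifs
        · rw [hcard]; ring
        · simp
      simp only [e, av_const_mul]
      rw [abs_mul, abs_of_nonneg (mul_nonneg (by positivity) (hρ0 _))]
      exact mul_le_mul_of_nonneg_left (inner_le3 hij hG (fun q hq => (hP q hq).1) hne hδ _)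
        (mul_nonneg (by positivity) (hρ0 _))
    · rw [av_mul_const]
      exact mul_le_mul_of_nonneg_right ((mass3 hne hH hK T).trans
        (pow_le_pow_right₀ hK1 (by omega))) hδ0
  have h2 : ∀ Q : Fin 2 × ι × Finset ι → P, |(if NC3 (fun t => (Q t : ℕ)) then
      (P.card : ℝ) ^ (Adm3 ι).card * bav H (term3 c W n s G ∅ fun t => (Q t : ℕ)) else 0) -
      M fun t => Q t| ≤ (P.card : ℝ) ^ (Adm3 ι).card *
        (16 * Fintype.card ι * (R : ℝ) ^ (2 * (Adm3 ι).card) / H) := fun Q => by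
    simp only [hM]
    split_ifs with hN
    · have k1 := local_fac3 n hP hH (fun t => (Q t).2) hN subset_rfl (hA i)
      have k2 := local_fac3 n hP hH (fun t => (Q t).2) hN (erase_subset _ _) hA'
      rw [funext (term_eq3 c W n s G _), bav_const_mul, ← mul_sub, ← mul_sub, abs_mul, abs_mul,
        abs_of_nonneg (by positivity)]
      refine mul_le_mul_of_nonneg_left ((mul_le_of_le_one_left (abs_nonneg _) (abs_sg3 _ _)).trans
        ?_) (by positivity)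
      have k3 : |1 / ((Q (i.1, i.2, ∅) : ℕ) : ℝ)| ≤ 1 := by
        rw [abs_of_nonneg (by positivity)]
        exact div_le_one_of_le₀ (by exact_mod_cast (hP _ (Q _).2).1.one_le) (by positivity)
      have k4 := (abs_mul _ _).trans_le
        ((mul_le_of_le_one_left (abs_nonneg _) k3).trans k2)
      rw [mul_sub] at k4
      refine (abs_sub_le _ _ _).trans ((add_le_add k1 k4).trans (le_of_eq ?_))
      ring
    · simp only [sub_self, abs_zero]; positivity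
  have h3 := abs_av_le_of_le h2
  rw [av_sub] at h3
  linarith [abs_sub_abs_le_abs_sub (av fun Q : Fin 2 × ι × Finset ι → P => if NC3 (fun t => (Q t : ℕ)) then
      (P.card : ℝ) ^ (Adm3 ι).card * bav H (term3 c W n s G ∅ fun t => (Q t : ℕ)) else 0)
      (av fun Q : Fin 2 × ι × Finset ι → P => M fun t => Q t)]

end Pool.Agent.Lib.MP_7d3fda_nt.R3
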