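import Pool.Agent.Lib.MP_7d3fda_nt.R3.AMany
import Pool.Agent.Lib.MP_7d3fda_nt.R2.Count

open Finset
open scoped Classical NumberTheorySymbols

noncomputable section

namespace Pool.Agent.Lib.MP_7d3fda_nt.R3

open Pool.Agent.Lib.MP_4b8564_nt.GT Pool.Agent.Lib.MP_7d3fda_nt.R2

namespace ACountAux

variable {c : Fin 6 → ℕ} {W₀ : ℕ} {u : Fin 3 → ℕ}
  {qq : (Fin 3 → ZMod 2) → Fin 2 × Fin 6 → Fin 2 × Fin 6 → ZMod 2}
  {sg : (Fin 3 → ZMod 2) → Fin 2 × Fin 6 → ZMod 2}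

/-- the product of the six values has at most 18 prime factors -/
theorem primes (a s : ℤ) (h : Good3 c W₀ u qq sg a s) :
    ∃ S : Finset ℕ, S.card ≤ 18 ∧
      ∀ p : ℕ, p.Prime → (p : ℤ) ∣ ∏ j, (a + c j * s) → p ∈ S := by
  obtain ⟨θ, r, h1, -, h3, -⟩ := h
  refine ⟨univ.image fun v : Fin 6 × Fin 3 => r v.1 v.2, card_image_le.trans (by simp),
    fun p hr hd => ?_⟩
  have hp : Prime (p : ℤ) := Nat.prime_iff_prime_int.mp hr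
  obtain ⟨j, -, hj⟩ := (Prime.dvd_finsetProd_iff hp _).mp hd
  have key : ∀ k, (p : ℤ) ∣ (r j k : ℤ) → p ∈ univ.image fun v : Fin 6 × Fin 3 => r v.1 v.2 := by
    intro k hk
    have := (Nat.prime_dvd_prime_iff_eq hr (h1 j k).1).mp (Int.natCast_dvd_natCast.mp hk)
    exact mem_image.mpr ⟨(j, k), mem_univ _, this.symm⟩
  rw [← h3 j] at hj
  rcases hp.dvd_or_dvd hj with h | h
  · rcases hp.dvd_or_dvd h with h | h
    · exact key 0 h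
    · exact key 1 h
  · exact key 2 h

theorem fiber (hc : Pat c) (d₀ : ℤ) (hd₀ : d₀ ≠ 0) (T : Finset (ℤ × ℤ))
    (hT : ∀ z ∈ T, Good3 c W₀ u qq sg z.1 z.2) :
    T.card ≤ 18 ^ 6 * (T.image fun z : ℤ × ℤ => d₀ * ∏ j, (z.1 + (c j : ℤ) * z.2)).card := by
  obtain ⟨j₀, hj₀⟩ := hc.zero
  obtain ⟨j₁, hj₁⟩ := exists_ne j₀
  have hc1 : (c j₁ : ℤ) ≠ 0 := by
    intro h
    have h' : c j₁ = 0 := by exact_mod_cast h
    exact hj₁ (hc.inj (h'.trans hj₀.symm))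
  refine card_le_mul_card_image T _ fun d hd => ?_
  obtain ⟨z0, hz0, rfl⟩ := mem_image.mp hd
  obtain ⟨S, hS, hS'⟩ := primes _ _ (hT z0 hz0)
  have sub : (T.filter fun z : ℤ × ℤ => d₀ * ∏ j, (z.1 + (c j : ℤ) * z.2) =
      d₀ * ∏ j, (z0.1 + (c j : ℤ) * z0.2)) ⊆
      ((S ×ˢ S ×ˢ S) ×ˢ (S ×ˢ S ×ˢ S)).image fun w : (ℕ × ℕ × ℕ) × (ℕ × ℕ × ℕ) =>
        (((w.1.1 : ℤ) * w.1.2.1 * w.1.2.2,
          ((w.2.1 : ℤ) * w.2.2.1 * w.2.2.2 - (w.1.1 : ℤ) * w.1.2.1 * w.1.2.2) / c j₁) : ℤ × ℤ) := by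
    intro z hz
    obtain ⟨hz1, hz2⟩ := mem_filter.mp hz
    have hz3 := mul_left_cancel₀ hd₀ hz2
    obtain ⟨θ, r, h1, -, h3, -⟩ := hT z hz1
    have key : ∀ j, r j 0 ∈ S ∧ r j 1 ∈ S ∧ r j 2 ∈ S := by
      intro j
      have hdv : (r j 0 : ℤ) * r j 1 * r j 2 ∣ ∏ j, (z0.1 + c j * z0.2) := by
        rw [← hz3, h3 j]
        exact dvd_prod_of_mem (fun j => z.1 + c j * z.2) (mem_univ j)
      exact ⟨hS' _ (h1 j 0).1 (((dvd_mul_right _ _).trans (dvd_mul_right _ _)).trans hdv),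
        hS' _ (h1 j 1).1 (((dvd_mul_left _ _).trans (dvd_mul_right _ _)).trans hdv),
        hS' _ (h1 j 2).1 ((dvd_mul_left _ _).trans hdv)⟩
    refine mem_image.mpr ⟨((r j₀ 0, r j₀ 1, r j₀ 2), (r j₁ 0, r j₁ 1, r j₁ 2)), ?_, ?_⟩
    · simp [key j₀, key j₁]
    · have e0 := h3 j₀
      have e1 := h3 j₁
      rw [hj₀, Nat.cast_zero, zero_mul, add_zero] at e0
      refine Prod.ext e0 ?_
      show ((r j₁ 0 : ℤ) * r j₁ 1 * r j₁ 2 - (r j₀ 0 : ℤ) * r j₀ 1 * r j₀ 2) / c j₁ = z.2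
      rw [e0, e1, add_sub_cancel_left]
      exact Int.mul_ediv_cancel_left _ hc1
  refine (card_le_card sub).trans (card_image_le.trans ?_)
  rw [card_product, card_product, card_product]
  calc S.card * (S.card * S.card) * (S.card * (S.card * S.card))
      ≤ 18 * (18 * 18) * (18 * (18 * 18)) := by gcongr
    _ = 18 ^ 6 := by norm_num

theorem prod_le {a s M : ℤ} (h : Good3 c W₀ u qq sg a s) (hM : ∀ j, a + c j * s ≤ M) :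
    |∏ j, (a + c j * s)| ≤ M ^ 6 := by
  obtain ⟨θ, r, -, -, h3, -⟩ := h
  have hpos : ∀ j, 0 ≤ a + c j * s := fun j => by
    rw [← h3 j]
    positivity
  have h2 : ∏ j, (a + c j * s) ≤ M ^ 6 := by
    have := Finset.prod_le_prod (s := (univ : Finset (Fin 6))) (f := fun j => a + c j * s)
      (g := fun _ => M) (fun j _ => hpos j) (fun j _ => hM j)
    simpa using this
  have h4 : 0 ≤ ∏ j, (a + c j * s) := Finset.prod_nonneg fun j _ => hpos j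
  rwa [abs_of_nonneg h4]

end ACountAux

theorem exists3 (c : Fin 6 → ℕ) (hc : Pat c) (W₀ : ℕ) (hW₀ : 0 < W₀) (u : Fin 3 → ℕ)
    (hu : ∀ k, (u k).Coprime W₀) (h01 : ¬u 0 ≡ u 1 [MOD W₀])
    (qq : (Fin 3 → ZMod 2) → Fin 2 × Fin 6 → Fin 2 × Fin 6 → ZMod 2)
    (sg : (Fin 3 → ZMod 2) → Fin 2 × Fin 6 → ZMod 2) : ∃ a s, Good3 c W₀ u qq sg a s := by
  obtain ⟨κ, hκ, W, -, N₀, hmany⟩ := many3 c hc W₀ hW₀ u hu h01 qq sg
  obtain ⟨N, hN, hNp⟩ := Nat.exists_infinite_primes N₀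
  obtain ⟨T, hT, hcard⟩ := hmany N hNp hN
  have hN2 : (2 : ℝ) ≤ N := by exact_mod_cast hNp.two_le
  have hlog : 0 < Real.log N := Real.log_pos (by linarith)
  have hpos : (0 : ℝ) < T.card := lt_of_lt_of_le (by positivity) hcard
  obtain ⟨z, hz⟩ := Finset.card_pos.1 (by exact_mod_cast hpos : 0 < T.card)
  exact ⟨z.1, z.2, (hT z hz).1⟩

theorem count3 (c : Fin 6 → ℕ) (hc : Pat c) (W₀ : ℕ) (hW₀ : 0 < W₀) (u : Fin 3 → ℕ)
    (hu : ∀ k, (u k).Coprime W₀) (h01 : ¬u 0 ≡ u 1 [MOD W₀])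
    (qq : (Fin 3 → ZMod 2) → Fin 2 × Fin 6 → Fin 2 × Fin 6 → ZMod 2)
    (sg : (Fin 3 → ZMod 2) → Fin 2 × Fin 6 → ZMod 2) (d₀ : ℤ) (hd₀ : d₀ ≠ 0) (p : ℤ → Prop)
    (hp : ∀ a s, Good3 c W₀ u qq sg a s → p (d₀ * ∏ j, (a + c j * s))) :
    ∃ κ : ℝ, 0 < κ ∧ ∃ D₀ : ℝ, ∀ D : ℝ, D₀ ≤ D →
      κ * D ^ (1 / 3 : ℝ) / Real.log D ^ 6 ≤ (Set.ncard {d : ℤ | |(d : ℝ)| ≤ D ∧ p d} : ℝ) := by
  obtain ⟨κ, hκ, W, hW, N₀, hmany⟩ := many3 c hc W₀ hW₀ u hu h01 qq sg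
  have hWr : (1 : ℝ) ≤ W := by exact_mod_cast hW
  have hd1 : (1 : ℝ) ≤ |(d₀ : ℝ)| := by
    have := Int.one_le_abs hd₀
    exact_mod_cast this
  obtain ⟨V, hV⟩ : ∃ V : ℝ, V = |(d₀ : ℝ)| * W := ⟨_, rfl⟩
  have hV1 : 1 ≤ V := by rw [hV]; nlinarith
  have hV0 : 0 < V := by linarith
  refine ⟨κ / (16 * V ^ 2 * 18 ^ 6), by positivity, (4 * V * (N₀ + 1)) ^ 6, ?_⟩
  intro D hD
  have hN0 : (0 : ℝ) ≤ N₀ := Nat.cast_nonneg _
  have hM1 : (1 : ℝ) ≤ 4 * V * (N₀ + 1) := by nlinarith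
  have hD1 : (1 : ℝ) ≤ D := (one_le_pow₀ hM1).trans hD
  have hD0 : (0 : ℝ) ≤ D := by linarith
  obtain ⟨x, hx0, hx6, hx2⟩ : ∃ x : ℝ, 0 ≤ x ∧ x ^ 6 = D ∧ x ^ 2 = D ^ (1 / 3 : ℝ) := by
    refine ⟨D ^ (1 / 6 : ℝ), Real.rpow_nonneg hD0 _, ?_, ?_⟩
    · rw [← Real.rpow_natCast, ← Real.rpow_mul hD0]
      norm_num
    · rw [← Real.rpow_natCast, ← Real.rpow_mul hD0]
      norm_num
  have hxM : 4 * V * (N₀ + 1) ≤ x := by
    refine le_of_pow_le_pow_left₀ (n := 6) (by norm_num) hx0 ?_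
    rw [hx6]
    exact hD
  have hx1 : 1 ≤ x := hM1.trans hxM
  set Y : ℕ := ⌊x / (4 * V)⌋₊ with hY
  have hq0 : 0 ≤ x / (4 * V) := by positivity
  have hYle : (Y : ℝ) ≤ x / (4 * V) := Nat.floor_le hq0
  have hYlt : x / (4 * V) < Y + 1 := Nat.lt_floor_add_one _
  have hYge : N₀ + 1 ≤ Y := by
    refine Nat.le_floor ?_
    rw [le_div_iff₀ (by positivity)]
    push_cast
    linarith
  obtain ⟨N, hNp, hN1, hN2⟩ := Nat.exists_prime_lt_and_le_two_mul Y (by omega)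
  obtain ⟨T, hT, hcard⟩ := hmany N hNp (by omega)
  have hN1r : (Y : ℝ) + 1 ≤ N := by exact_mod_cast hN1
  have hN2r : (N : ℝ) ≤ 2 * Y := by exact_mod_cast hN2
  have hWN : V * N ≤ x / 2 := by
    have h1 : (Y : ℝ) * (4 * V) ≤ x := by rwa [le_div_iff₀ (by positivity)] at hYle
    nlinarith
  have hxN : x ≤ 4 * V * N := by
    have h1 : x < (Y + 1) * (4 * V) := by rwa [div_lt_iff₀ (by positivity)] at hYlt
    nlinarith
  have hN2' : (2 : ℝ) ≤ N := by exact_mod_cast hNp.two_le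
  have hxD : x ≤ D := by
    rw [← hx6]
    exact le_self_pow₀ hx1 (by norm_num)
  have hND : (N : ℝ) ≤ D := by nlinarith
  have hlogN : 0 < Real.log N := Real.log_pos (by linarith)
  have hlog : Real.log N ≤ Real.log D := Real.log_le_log (by linarith) hND
  have hsub : ((T.image fun z : ℤ × ℤ => d₀ * ∏ j, (z.1 + (c j : ℤ) * z.2) : Finset ℤ) : Set ℤ) ⊆
      {d : ℤ | |(d : ℝ)| ≤ D ∧ p d} := by
    intro d hd
    obtain ⟨z, hz, rfl⟩ := Finset.mem_image.1 (Finset.mem_coe.1 hd)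
    refine ⟨?_, hp _ _ (hT z hz).1⟩
    have h1 := ACountAux.prod_le (hT z hz).1 (hT z hz).2
    obtain ⟨m, hm⟩ : ∃ m : ℤ, m = ∏ j, (z.1 + c j * z.2) := ⟨_, rfl⟩
    rw [← hm] at h1 ⊢
    have h2 : |(m : ℝ)| ≤ ((W : ℝ) * N) ^ 6 := by exact_mod_cast h1
    have h3 : (V * N) ^ 6 ≤ (x / 2) ^ 6 := pow_le_pow_left₀ (by positivity) hWN 6
    have h4 : (x / 2) ^ 6 = D / 64 := by
      rw [div_pow, hx6]
      norm_num
    have h5 : |(d₀ : ℝ)| ≤ |(d₀ : ℝ)| ^ 6 := le_self_pow₀ hd1 (by norm_num)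
    have h6 : |(d₀ : ℝ)| * |(m : ℝ)| ≤ |(d₀ : ℝ)| ^ 6 * ((W : ℝ) * N) ^ 6 :=
      mul_le_mul h5 h2 (abs_nonneg _) (by positivity)
    have h7 : |(d₀ : ℝ)| ^ 6 * ((W : ℝ) * N) ^ 6 = (V * N) ^ 6 := by rw [hV]; ring
    rw [Int.cast_mul, abs_mul]
    linarith
  have hle : (T.image fun z : ℤ × ℤ => d₀ * ∏ j, (z.1 + (c j : ℤ) * z.2)).card ≤
      Set.ncard {d : ℤ | |(d : ℝ)| ≤ D ∧ p d} := by
    rw [← Set.ncard_coe_finset]
    exact Set.ncard_le_ncard hsub (CountAux.fin_set p D)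
  have hfib := ACountAux.fiber hc d₀ hd₀ T fun z hz => (hT z hz).1
  have hT' : (T.card : ℝ) ≤ 18 ^ 6 * (Set.ncard {d : ℤ | |(d : ℝ)| ≤ D ∧ p d} : ℝ) := by
    have := hfib.trans (Nat.mul_le_mul_left _ hle)
    exact_mod_cast this
  have hsq : D ^ (1 / 3 : ℝ) ≤ 16 * V ^ 2 * (N : ℝ) ^ 2 := by
    rw [← hx2]
    have := pow_le_pow_left₀ hx0 hxN 2
    nlinarith
  have hl6 : Real.log N ^ 6 ≤ Real.log D ^ 6 := pow_le_pow_left₀ hlogN.le hlog 6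
  have h5 : κ / (16 * V ^ 2 * 18 ^ 6) * D ^ (1 / 3 : ℝ) ≤ κ * (N : ℝ) ^ 2 / 18 ^ 6 := by
    have h6 : κ / (16 * V ^ 2 * 18 ^ 6) * (16 * V ^ 2 * (N : ℝ) ^ 2) =
        κ * (N : ℝ) ^ 2 / 18 ^ 6 := by
      field_simp
    rw [← h6]
    exact mul_le_mul_of_nonneg_left hsq (by positivity)
  calc κ / (16 * V ^ 2 * 18 ^ 6) * D ^ (1 / 3 : ℝ) / Real.log D ^ 6
      ≤ κ * (N : ℝ) ^ 2 / 18 ^ 6 / Real.log N ^ 6 :=
        div_le_div₀ (by positivity) h5 (by positivity) hl6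
    _ = κ * (N : ℝ) ^ 2 / Real.log N ^ 6 / 18 ^ 6 := by ring
    _ ≤ (T.card : ℝ) / 18 ^ 6 := div_le_div_of_nonneg_right hcard (by positivity)
    _ ≤ _ := by
        rw [div_le_iff₀ (by positivity)]
        linarith

end Pool.Agent.Lib.MP_7d3fda_nt.R3
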