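import Pool.Agent.Lib.MP_7d3fda_nt.R3.ADefs
import Pool.Agent.Lib.MP_7d3fda_nt.R2.DensQ

open Finset
open scoped Classical NumberTheorySymbols

noncomputable section

namespace Pool.Agent.Lib.MP_7d3fda_nt.R3

open Pool.Agent.Lib.MP_4b8564_nt.GT Pool.Agent.Lib.MP_7d3fda_nt.R2

namespace ADensAux

/-- the small primes -/
def Qs (m a R : ℕ) : Finset ℕ := (Ioc R (R ^ 2)).filter (fun q => q.Prime ∧ q ≡ a [MOD m])

/-- the large primes -/
def Ps (m a X : ℕ) : Finset ℕ := (Icc 1 X).filter (fun p => p.Prime ∧ X < p ^ 2 ∧ p ≡ a [MOD m])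

/-- the triples -/
def Ss (m : ℕ) (u : Fin 3 → ℕ) (R Y : ℕ) : Finset (Σ _ : ℕ × ℕ, ℕ) :=
  (Qs m (u 0) R ×ˢ Qs m (u 1) R).sigma fun q => Ps m (u 2) ((Y - 1) / (q.1 * q.2))

/-- the bit attached to a sign -/
def bit (j : ℤ) : ZMod 2 := if j = 1 then 0 else 1

theorem sgn_bit {j : ℤ} (h : j = 1 ∨ j = -1) : j = sgn (bit j) := by
  rcases h with rfl | rfl <;> simp [sgn, bit]

theorem jac_pm {p q : ℕ} (hp : p.Prime) (hq : q.Prime) (h : p ≠ q) :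
    J((p : ℤ) | q) = 1 ∨ J((p : ℤ) | q) = -1 := by
  have hco : Nat.Coprime p q := (Nat.coprime_primes hp hq).2 h
  have : Int.gcd (p : ℤ) (q : ℤ) = 1 := by
    rw [Int.gcd_natCast_natCast]
    exact hco
  exact jacobiSym.eq_one_or_neg_one this

variable {m : ℕ} {u : Fin 3 → ℕ}

theorem big {R Y : ℕ} {q : ℕ × ℕ} (hY : R ^ 8 ≤ Y - 1)
    (hq : q ∈ Qs m (u 0) R ×ˢ Qs m (u 1) R) : R ^ 4 ≤ (Y - 1) / (q.1 * q.2) := by
  rw [mem_product, Qs, Qs, mem_filter, mem_filter, mem_Ioc, mem_Ioc] at hq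
  rw [Nat.le_div_iff_mul_le (Nat.mul_pos hq.1.2.1.pos hq.2.2.1.pos)]
  calc R ^ 4 * (q.1 * q.2) ≤ R ^ 4 * (R ^ 2 * R ^ 2) :=
        Nat.mul_le_mul_left _ (Nat.mul_le_mul hq.1.1.2 hq.2.1.2)
    _ = R ^ 8 := by ring
    _ ≤ Y - 1 := hY

theorem mem_Ss {R Y : ℕ} (hY : R ^ 8 ≤ Y - 1) {x : Σ _ : ℕ × ℕ, ℕ} (hx : x ∈ Ss m u R Y) :
    (x.1.1.Prime ∧ x.1.2.Prime ∧ x.2.Prime) ∧ x.1.1 * x.1.2 * x.2 ≤ Y - 1 ∧
      (R < x.1.1 ∧ x.1.1 ≤ R ^ 2 ∧ R < x.1.2 ∧ x.1.2 ≤ R ^ 2 ∧ R ^ 2 < x.2) ∧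
      x.1.1 ≡ u 0 [MOD m] ∧ x.1.2 ≡ u 1 [MOD m] ∧ x.2 ≡ u 2 [MOD m] := by
  rw [Ss, mem_sigma] at hx
  obtain ⟨h1, h2⟩ := hx
  have hb := big hY h1
  rw [mem_product, Qs, Qs, mem_filter, mem_filter, mem_Ioc, mem_Ioc] at h1
  rw [Ps, mem_filter, mem_Icc] at h2
  refine ⟨⟨h1.1.2.1, h1.2.2.1, h2.2.1⟩, ?_, ⟨h1.1.1.1, h1.1.1.2, h1.2.1.1, h1.2.1.2, ?_⟩,
    h1.1.2.2, h1.2.2.2, h2.2.2.2⟩
  · rw [mul_comm]
    exact (Nat.le_div_iff_mul_le (Nat.mul_pos h1.1.2.1.pos h1.2.2.1.pos)).1 h2.1.2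
  · refine lt_of_pow_lt_pow_left₀ 2 (Nat.zero_le _) ?_
    calc (R ^ 2) ^ 2 = R ^ 4 := by ring
      _ ≤ _ := hb
      _ < _ := h2.2.2.1

theorem inj_Ss (h01 : ¬u 0 ≡ u 1 [MOD m]) {R Y : ℕ} (hY : R ^ 8 ≤ Y - 1)
    {x y : Σ _ : ℕ × ℕ, ℕ} (hx : x ∈ Ss m u R Y) (hy : y ∈ Ss m u R Y)
    (h : x.1.1 * x.1.2 * x.2 = y.1.1 * y.1.2 * y.2) : x = y := by
  obtain ⟨⟨a1, a2, a3⟩, -, ⟨-, -, -, -, a8⟩, a9, -, -⟩ := mem_Ss hY hx
  obtain ⟨⟨b1, b2, b3⟩, -, ⟨-, b5, -, b7, -⟩, -, b10, -⟩ := mem_Ss hY hy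
  have hd : x.2 ∣ y.1.1 * y.1.2 * y.2 := h ▸ dvd_mul_left _ _
  have e3 : x.2 = y.2 := by
    rcases (Nat.Prime.dvd_mul a3).1 hd with h' | h'
    · rcases (Nat.Prime.dvd_mul a3).1 h' with h'' | h''
      · have := (Nat.prime_dvd_prime_iff_eq a3 b1).1 h''
        omega
      · have := (Nat.prime_dvd_prime_iff_eq a3 b2).1 h''
        omega
    · exact (Nat.prime_dvd_prime_iff_eq a3 b3).1 h'
  have h12 : x.1.1 * x.1.2 = y.1.1 * y.1.2 := by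
    rw [e3] at h
    exact Nat.eq_of_mul_eq_mul_right b3.pos h
  have hd1 : x.1.1 ∣ y.1.1 * y.1.2 := h12 ▸ dvd_mul_right _ _
  have e1 : x.1.1 = y.1.1 := by
    rcases (Nat.Prime.dvd_mul a1).1 hd1 with h' | h'
    · exact (Nat.prime_dvd_prime_iff_eq a1 b1).1 h'
    · have e := (Nat.prime_dvd_prime_iff_eq a1 b2).1 h'
      exact absurd (a9.symm.trans (e ▸ b10)) h01
  have e2 : x.1.2 = y.1.2 := by
    rw [e1] at h12
    exact Nat.eq_of_mul_eq_mul_left b1.pos h12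
  obtain ⟨⟨x1, x2⟩, x3⟩ := x
  obtain ⟨⟨y1, y2⟩, y3⟩ := y
  simp only at e1 e2 e3
  subst e1 e2 e3
  rfl

/-- many triples -/
theorem count (hm : 0 < m) (hu : ∀ k, (u k).Coprime m) :
    ∃ c : ℝ, 0 < c ∧ ∃ R₀ : ℕ, ∀ R Y : ℕ, R₀ ≤ R → R ^ 8 ≤ Y - 1 →
      c * Y ≤ (Ss m u R Y).card * Real.log Y := by
  have hφ : (0 : ℝ) < Nat.totient m := by exact_mod_cast Nat.totient_pos.2 hm
  obtain ⟨X₀, hX₀⟩ := Filter.eventually_atTop.1
    (MP_458f0b_nt.Pois.pnt_unif m hm (u 2) (hu 2) (1 / (2 * Nat.totient m)) (by positivity))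
  obtain ⟨c₀, hc₀, R₀, hR₀⟩ := recip m (u 0) hm (hu 0)
  obtain ⟨c₁, hc₁, R₁, hR₁⟩ := recip m (u 1) hm (hu 1)
  set φ : ℝ := ((Nat.totient m : ℕ) : ℝ) with hφd
  refine ⟨c₀ * c₁ / (4 * φ), by positivity, R₀ + R₁ + X₀ + 1, fun R Y hR hY => ?_⟩
  have hR1 : 1 ≤ R := by omega
  have hR4 : R ≤ R ^ 4 := Nat.le_self_pow (by norm_num) R
  have hone : ∀ q ∈ Qs m (u 0) R ×ˢ Qs m (u 1) R,
      (Y : ℝ) / (4 * φ) * (1 / (q.1 : ℝ) * (1 / (q.2 : ℝ))) ≤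
        (Ps m (u 2) ((Y - 1) / (q.1 * q.2))).card * Real.log Y := by
    intro q hq
    have hb := big hY hq
    have hq0 : 0 < q.1 * q.2 := by
      rw [mem_product, Qs, Qs, mem_filter, mem_filter] at hq
      exact Nat.mul_pos hq.1.2.1.pos hq.2.2.1.pos
    have e0 : 1 / (q.1 : ℝ) * (1 / (q.2 : ℝ)) = 1 / ((q.1 * q.2 : ℕ) : ℝ) := by
      rw [Nat.cast_mul, one_div_mul_one_div]
    rw [e0]
    generalize q.1 * q.2 = Q at hb hq0 ⊢
    set X := (Y - 1) / Q with hX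
    have hX1 : 1 ≤ X := by omega
    have key := (abs_le.1 (hX₀ X (by omega) X le_rfl)).1
    have hXY : X ≤ Y := (Nat.div_le_self _ _).trans (Nat.sub_le _ _)
    have hlt : Y - 1 < Q * (X + 1) := Nat.lt_mul_div_succ _ hq0
    have h2 : Y ≤ 2 * (Q * X) := by
      have : Q * (X + 1) ≤ 2 * (Q * X) := by nlinarith
      omega
    have h2' : (Y : ℝ) ≤ 2 * (Q * X) := by exact_mod_cast h2
    have hq' : (0 : ℝ) < Q := by exact_mod_cast hq0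
    have hX' : (1 : ℝ) ≤ X := by exact_mod_cast hX1
    have hl : Real.log X ≤ Real.log Y :=
      Real.log_le_log (by linarith) (by exact_mod_cast hXY)
    have h3 : (X : ℝ) / (2 * φ) ≤ Real.log X * (Ps m (u 2) X).card := by
      have e : (X : ℝ) / (2 * φ) = X / φ - 1 / (2 * φ) * X := by field_simp; ring
      rw [e, Ps]
      linarith
    have h4 : (Y : ℝ) / (4 * φ) * (1 / (Q : ℝ)) ≤ X / (2 * φ) := by
      rw [div_mul_div_comm, div_le_div_iff₀ (by positivity) (by positivity)]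
      nlinarith [mul_le_mul_of_nonneg_right h2' hφ.le]
    have h5 : Real.log X * (Ps m (u 2) X).card ≤ Real.log Y * (Ps m (u 2) X).card :=
      mul_le_mul_of_nonneg_right hl (Nat.cast_nonneg _)
    linarith
  have hs := sum_le_sum hone
  rw [← mul_sum, ← sum_mul, sum_product' (f := fun a b : ℕ => 1 / (a : ℝ) * (1 / (b : ℝ))),
    ← sum_mul_sum] at hs
  have hcard : ((Ss m u R Y).card : ℝ) = ∑ q ∈ Qs m (u 0) R ×ˢ Qs m (u 1) R,
      ((Ps m (u 2) ((Y - 1) / (q.1 * q.2))).card : ℝ) := by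
    rw [Ss, card_sigma]
    push_cast
    rfl
  rw [hcard]
  refine le_trans ?_ hs
  have h6 : c₀ ≤ ∑ q ∈ Qs m (u 0) R, 1 / (q : ℝ) := hR₀ R (by omega)
  have h7 : c₁ ≤ ∑ q ∈ Qs m (u 1) R, 1 / (q : ℝ) := hR₁ R (by omega)
  calc c₀ * c₁ / (4 * φ) * Y = Y / (4 * φ) * (c₀ * c₁) := by ring
    _ ≤ _ := mul_le_mul_of_nonneg_left (mul_le_mul h6 h7 hc₁.le (hc₀.le.trans h6))
      (div_nonneg (Nat.cast_nonneg _) (by linarith))

end ADensAux

open ADensAux in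
theorem dens3 (W₀ : ℕ) (hW₀ : 0 < W₀) (u : Fin 3 → ℕ) (hu : ∀ k, (u k).Coprime W₀)
    (h01 : ¬u 0 ≡ u 1 [MOD W₀]) (Λ : ℕ) (hΛ : 0 < Λ) :
    ∃ C : ℝ, 0 < C ∧ ∀ W E : ℕ, 1 ≤ W → 9 ≤ E → ∃ N₀ : ℕ, ∀ N : ℕ, N₀ ≤ N →
      ∀ R : ℕ, R ^ E ≤ N → N ≤ R ^ (E + 1) → ∃ (θ : Fin 3 → ZMod 2) (b : ℕ), b < W ∧
        b.Coprime W ∧ ∃ A : Finset ℕ, (∀ n ∈ A, Λ * n < N ∧ Three W₀ u θ R ((W : ℤ) * n + b)) ∧
          (W : ℝ) * N ≤ C * Nat.totient W * A.card * Real.log N := by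
  obtain ⟨c, hc, R₀, hR₀⟩ := count hW₀ hu
  have hΛ' : (0 : ℝ) < Λ := by exact_mod_cast hΛ
  refine ⟨32 * Λ / c, by positivity, fun W E hW hE => ⟨(R₀ + W + 2 * Λ) ^ (E + 1), ?_⟩⟩
  intro N hN R hRN hNR
  have hR : R₀ + W + 2 * Λ ≤ R :=
    le_of_pow_le_pow_left₀ (Nat.succ_ne_zero E) (Nat.zero_le _) (hN.trans hNR)
  have hR9 : R ^ 9 ≤ N := (Nat.pow_le_pow_right (by omega) hE).trans hRN
  have hRR : R ≤ R ^ 9 := Nat.le_self_pow (by norm_num) R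
  have hR2 : R ≤ R ^ 2 := Nat.le_self_pow (by norm_num) R
  have hR8 : 1 ≤ R ^ 8 := Nat.one_le_pow _ _ (by omega)
  set M := N / Λ with hM
  have hM8 : 2 * R ^ 8 ≤ M := by
    rw [hM, Nat.le_div_iff_mul_le hΛ]
    calc 2 * R ^ 8 * Λ = R ^ 8 * (2 * Λ) := by ring
      _ ≤ R ^ 8 * R := Nat.mul_le_mul_left _ (by omega)
      _ = R ^ 9 := by ring
      _ ≤ N := hR9
  have hMle : Λ * M ≤ N := Nat.mul_div_le N Λ
  have hMlt : N < Λ * (M + 1) := Nat.lt_mul_div_succ N hΛ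
  have hMN' : M ≤ N := Nat.div_le_self N Λ
  have hMY : M ≤ W * M := Nat.le_mul_of_pos_left M hW
  have hY : R ^ 8 ≤ W * M - 1 := by omega
  have hcnt := hR₀ R (W * M) (by omega) hY
  set S := Ss W₀ u R (W * M) with hS
  set T := (univ : Finset (Fin 3 → ZMod 2)) ×ˢ (range W).filter (fun b => Nat.Coprime W b) with hT
  have hTc : T.card = 8 * Nat.totient W := by
    rw [hT, card_product, Nat.totient_eq_card_coprime, card_univ, Fintype.card_fun, ZMod.card,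
      Fintype.card_fin]
    rfl
  set f : (Σ _ : ℕ × ℕ, ℕ) → (Fin 3 → ZMod 2) × ℕ := fun x =>
    (![bit J((x.1.2 : ℤ) | x.1.1), bit J((x.2 : ℤ) | x.1.1), bit J((x.2 : ℤ) | x.1.2)],
      x.1.1 * x.1.2 * x.2 % W) with hf
  have hmaps : ∀ x ∈ S, f x ∈ T := by
    intro x hx
    obtain ⟨⟨a1, a2, a3⟩, -, ⟨a4, a5, a6, a7, a8⟩, -⟩ := mem_Ss hY hx
    rw [hT, mem_product, mem_filter, mem_range]
    refine ⟨mem_univ _, Nat.mod_lt _ hW, ?_⟩
    have c1 : Nat.Coprime x.1.1 W := (Nat.Prime.coprime_iff_not_dvd a1).2 fun h => by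
      have := Nat.le_of_dvd hW h
      omega
    have c2 : Nat.Coprime x.1.2 W := (Nat.Prime.coprime_iff_not_dvd a2).2 fun h => by
      have := Nat.le_of_dvd hW h
      omega
    have c3 : Nat.Coprime x.2 W := (Nat.Prime.coprime_iff_not_dvd a3).2 fun h => by
      have := Nat.le_of_dvd hW h
      omega
    have hc' : Nat.Coprime (x.1.1 * x.1.2 * x.2) W :=
      Nat.Coprime.mul_left (Nat.Coprime.mul_left c1 c2) c3
    have : Nat.gcd (x.1.1 * x.1.2 * x.2 % W) W = 1 := by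
      rw [← Nat.gcd_rec, Nat.gcd_comm]
      exact hc'
    exact Nat.Coprime.symm this
  have hTne : T.Nonempty := by
    rw [← card_pos, hTc]
    have := Nat.totient_pos.2 hW
    omega
  obtain ⟨t, htT, htmax⟩ := exists_max_image T (fun t => (S.filter fun x => f x = t).card) hTne
  have hSle : S.card ≤ 8 * Nat.totient W * (S.filter fun x => f x = t).card := by
    rw [card_eq_sum_card_fiberwise (f := f) (t := T) (fun x hx => hmaps x hx), ← hTc]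
    calc _ ≤ ∑ _c ∈ T, (S.filter fun x => f x = t).card := sum_le_sum fun u hu => htmax u hu
      _ = _ := by rw [sum_const, smul_eq_mul]
  have ht := htT
  rw [hT, mem_product, mem_filter, mem_range] at ht
  have hrec : ∀ x ∈ S.filter (fun x => f x = t),
      W * (x.1.1 * x.1.2 * x.2 / W) + t.2 = x.1.1 * x.1.2 * x.2 := by
    intro x hx
    rw [mem_filter] at hx
    rw [← hx.2]
    exact Nat.div_add_mod _ W
  refine ⟨t.1, t.2, ht.2.1, ht.2.2.symm,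
    (S.filter fun x => f x = t).image (fun x => x.1.1 * x.1.2 * x.2 / W), ?_, ?_⟩
  · intro n hn
    obtain ⟨x, hx, rfl⟩ := mem_image.1 hn
    have hr := hrec x hx
    obtain ⟨hx1, hx2⟩ := mem_filter.1 hx
    obtain ⟨⟨a1, a2, a3⟩, a0, ⟨a4, a5, a6, a7, a8⟩, a9, a10, a11⟩ := mem_Ss hY hx1
    have hlt : x.1.1 * x.1.2 * x.2 / W < M := Nat.div_lt_of_lt_mul (by omega)
    have hne : x.1.2 ≠ x.1.1 := fun e => h01 (a9.symm.trans (e ▸ a10))
    refine ⟨(Nat.mul_lt_mul_of_pos_left hlt hΛ).trans_le hMle, ![x.1.1, x.1.2, x.2], ?_, ?_,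
      a4, a5, a6, a7, a8, ?_, ?_, ?_⟩
    · intro k
      fin_cases k
      · exact ⟨a1, a9⟩
      · exact ⟨a2, a10⟩
      · exact ⟨a3, a11⟩
    · show (x.1.1 : ℤ) * x.1.2 * x.2 = _
      exact_mod_cast hr.symm
    · rw [← hx2]
      exact sgn_bit (jac_pm a2 a1 hne)
    · rw [← hx2]
      exact sgn_bit (jac_pm a3 a1 (a5.trans_lt a8).ne')
    · rw [← hx2]
      exact sgn_bit (jac_pm a3 a2 (a7.trans_lt a8).ne')
  · have hinj : ((S.filter fun x => f x = t).image (fun x => x.1.1 * x.1.2 * x.2 / W)).card =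
        (S.filter fun x => f x = t).card := by
      apply card_image_of_injOn
      intro x hx y hy h
      have h' : x.1.1 * x.1.2 * x.2 / W = y.1.1 * y.1.2 * y.2 / W := h
      refine inj_Ss h01 hY (mem_filter.1 hx).1 (mem_filter.1 hy).1 ?_
      rw [← hrec x hx, ← hrec y hy, h']
    rw [hinj]
    have hW' : (1 : ℝ) ≤ W := by exact_mod_cast hW
    have hM1 : (1 : ℝ) ≤ M := by exact_mod_cast (by omega : 1 ≤ M)
    have hWN : (W : ℝ) ≤ N := by exact_mod_cast (by omega : W ≤ N)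
    have hMN : (M : ℝ) ≤ N := by exact_mod_cast hMN'
    have hNM : (N : ℝ) ≤ 2 * Λ * M := by
      have h1 : (N : ℝ) ≤ Λ * (M + 1) := by exact_mod_cast hMlt.le
      nlinarith
    have hlN : 0 ≤ Real.log N := Real.log_natCast_nonneg N
    have hl : Real.log ((W * M : ℕ) : ℝ) ≤ 2 * Real.log N := by
      rw [Nat.cast_mul, Real.log_mul (by linarith) (by linarith)]
      have h1 := Real.log_le_log (by linarith) hWN
      have h2 := Real.log_le_log (by linarith) hMN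
      linarith
    have a2 : (S.card : ℝ) ≤ 8 * Nat.totient W * ((S.filter fun x => f x = t).card : ℝ) := by
      exact_mod_cast hSle
    have h1 : (S.card : ℝ) * Real.log ((W * M : ℕ) : ℝ) ≤
        8 * Nat.totient W * ((S.filter fun x => f x = t).card : ℝ) * (2 * Real.log N) :=
      mul_le_mul a2 hl (Real.log_natCast_nonneg _) (by positivity)
    have h2 : c * (W * M) ≤
        8 * Nat.totient W * ((S.filter fun x => f x = t).card : ℝ) * (2 * Real.log N) := by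
      have := hcnt.trans h1
      rwa [Nat.cast_mul] at this
    have h3 : (W : ℝ) * N ≤ W * (2 * Λ * M) := mul_le_mul_of_nonneg_left hNM (by linarith)
    have h4 : (W : ℝ) * (2 * Λ * M) = 2 * Λ / c * (c * (W * M)) := by field_simp
    have h5 := mul_le_mul_of_nonneg_left h2 (by positivity : (0 : ℝ) ≤ 2 * Λ / c)
    calc (W : ℝ) * N ≤ _ := h3
      _ = _ := h4
      _ ≤ _ := h5
      _ = _ := by ring

end Pool.Agent.Lib.MP_7d3fda_nt.R3
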