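import Pool.Agent.Lib.MP_7d3fda_nt.R3.ADens
import Pool.Agent.Lib.MP_7d3fda_nt.R2.Major

open Finset
open scoped Classical NumberTheorySymbols

noncomputable section

namespace Pool.Agent.Lib.MP_7d3fda_nt.R3

open Pool.Agent.Lib.MP_4b8564_nt.GT Pool.Agent.Lib.MP_7d3fda_nt.R2

namespace AMajorAux

variable {N : ℕ} (c : Fin 6 → ℕ)

/-- the value number `j` as an integer -/
def nn (z : ZMod N × ZMod N) (j : Fin 6) : ℤ :=
  ((z.1 + ((c j : ℕ) : ZMod N) * z.2).val : ℤ)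

/-- the lifted common difference -/
def vv (lam : Fin 6 → ℤ) (o : Fin 6) (z : ZMod N × ZMod N) : ℤ :=
  ∑ j, lam j * (nn c z j - nn c z o)

variable {c}

theorem nn_cast [NeZero N] (z : ZMod N × ZMod N) (j : Fin 6) :
    ((nn c z j : ℤ) : ZMod N) = z.1 + ((c j : ℕ) : ZMod N) * z.2 := by
  simp [nn]

theorem nn_zero [NeZero N] {o : Fin 6} (ho : c o = 0) (z : ZMod N × ZMod N) :
    ((nn c z o : ℤ) : ZMod N) = z.1 := by
  rw [nn_cast, ho]
  simp

theorem vv_cast [NeZero N] {o : Fin 6} (ho : c o = 0) {lam : Fin 6 → ℤ}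
    (hl : ∑ j, lam j * c j = 1) (z : ZMod N × ZMod N) :
    ((vv c lam o z : ℤ) : ZMod N) = z.2 := by
  have h1 : ∑ j, ((lam j : ℤ) : ZMod N) * ((c j : ℕ) : ZMod N) = 1 := by
    have := congrArg (fun x : ℤ => (x : ZMod N)) hl
    simpa using this
  unfold vv
  push_cast
  calc ∑ j, ((lam j : ℤ) : ZMod N) * ((nn c z j : ZMod N) - (nn c z o : ZMod N))
      = ∑ j, ((lam j : ℤ) : ZMod N) * ((c j : ℕ) : ZMod N) * z.2 := by
        refine sum_congr rfl fun j _ => ?_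
        rw [nn_zero ho, nn_cast]
        ring
    _ = z.2 := by rw [← sum_mul, h1, one_mul]

theorem cross [NeZero N] {o : Fin 6} (ho : c o = 0) {C : ℕ} (hC : ∀ j, c j ≤ C)
    (z : ZMod N × ZMod N) (h : ∀ j, 0 ≤ nn c z j ∧ (2 * C + 2) * nn c z j < N) (i j : Fin 6) :
    (c i : ℤ) * (nn c z j - nn c z o) = (c j : ℤ) * (nn c z i - nn c z o) := by
  have hd : (N : ℤ) ∣ (c i : ℤ) * (nn c z j - nn c z o) - (c j : ℤ) * (nn c z i - nn c z o) := by
    rw [← ZMod.intCast_zmod_eq_zero_iff_dvd]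
    simp only [Int.cast_sub, Int.cast_mul, Int.cast_natCast]
    rw [nn_zero ho, nn_cast, nn_cast]
    ring
  have hi : (c i : ℤ) ≤ C := by exact_mod_cast hC i
  have hj : (c j : ℤ) ≤ C := by exact_mod_cast hC j
  have hi0 : (0 : ℤ) ≤ c i := Int.natCast_nonneg _
  have hj0 : (0 : ℤ) ≤ c j := Int.natCast_nonneg _
  obtain ⟨a1, a2⟩ := h i
  obtain ⟨b1, b2⟩ := h j
  obtain ⟨c1, c2⟩ := h o
  have e1 : (c i : ℤ) * nn c z j ≤ C * nn c z j := mul_le_mul_of_nonneg_right hi b1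
  have e2 : (c i : ℤ) * nn c z o ≤ C * nn c z o := mul_le_mul_of_nonneg_right hi c1
  have e3 : (c j : ℤ) * nn c z i ≤ C * nn c z i := mul_le_mul_of_nonneg_right hj a1
  have e4 : (c j : ℤ) * nn c z o ≤ C * nn c z o := mul_le_mul_of_nonneg_right hj c1
  have f1 : 0 ≤ (c i : ℤ) * nn c z j := mul_nonneg hi0 b1
  have f2 : 0 ≤ (c i : ℤ) * nn c z o := mul_nonneg hi0 c1
  have f3 : 0 ≤ (c j : ℤ) * nn c z i := mul_nonneg hj0 a1
  have f4 : 0 ≤ (c j : ℤ) * nn c z o := mul_nonneg hj0 c1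
  have hlt : |(c i : ℤ) * (nn c z j - nn c z o) - (c j : ℤ) * (nn c z i - nn c z o)| < N := by
    rw [abs_lt, mul_sub, mul_sub]
    rw [add_mul, mul_assoc] at a2 b2 c2
    constructor <;> linarith
  have := Int.eq_zero_of_abs_lt_dvd hd hlt
  linarith

theorem lift [NeZero N] {o : Fin 6} (ho : c o = 0) {lam : Fin 6 → ℤ}
    (hl : ∑ j, lam j * c j = 1) {C : ℕ} (hC : ∀ j, c j ≤ C) (z : ZMod N × ZMod N)
    (h : ∀ j, 0 ≤ nn c z j ∧ (2 * C + 2) * nn c z j < N) (j : Fin 6) :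
    nn c z o + (c j : ℤ) * vv c lam o z = nn c z j := by
  have e : (c j : ℤ) * vv c lam o z = (∑ i, lam i * c i) * (nn c z j - nn c z o) := by
    unfold vv
    rw [mul_sum, sum_mul]
    refine sum_congr rfl fun i _ => ?_
    have := cross ho hC z h i j
    linear_combination (-lam i) * this
  rw [e, hl]
  ring

theorem pat_f (hc : Function.Injective c) (k : ℕ) (hk : ∀ j, c j < k) [NeZero N] (A : Finset ℕ)
    (G : ℝ) :
    (av fun z : ZMod N × ZMod N => ∏ j ∈ univ.image (fun j => (⟨c j, hk j⟩ : Fin k)),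
      if (z.1 + ((j : ℕ) : ZMod N) * z.2).val ∈ A then G else 0) =
      G ^ 6 * (univ.filter fun z : ZMod N × ZMod N =>
        ∀ j : Fin 6, (z.1 + ((c j : ℕ) : ZMod N) * z.2).val ∈ A).card / (N : ℝ) ^ 2 := by
  unfold av
  rw [Fintype.card_prod, ZMod.card, Nat.cast_mul, ← sq, card_filter, Nat.cast_sum, mul_sum]
  congr 1
  refine sum_congr rfl fun p _ => ?_
  beta_reduce
  rw [prod_image fun i _ j _ h => hc (congrArg Fin.val h)]
  by_cases h : ∀ j : Fin 6, (p.1 + ((c j : ℕ) : ZMod N) * p.2).val ∈ A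
  · rw [if_pos h, Finset.prod_congr rfl fun j _ => if_pos (h j)]
    simp
  · rw [if_neg h]
    push Not at h
    obtain ⟨j, h⟩ := h
    rw [Nat.cast_zero, mul_zero]
    exact Finset.prod_eq_zero (mem_univ j) (if_neg h)

end AMajorAux

open AMajorAux in
/-- patterns modulo `N` inside a short interval are patterns of integers -/
theorem lift3 (c : Fin 6 → ℕ) (hc : Pat c) (C : ℕ) (hC : ∀ j, c j ≤ C) (N : ℕ) [NeZero N]
    (A : Finset ℕ) (hA : ∀ n ∈ A, (2 * C + 2) * n < N) :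
    (univ.filter fun z : ZMod N × ZMod N =>
      ∀ j : Fin 6, (z.1 + ((c j : ℕ) : ZMod N) * z.2).val ∈ A).card ≤
      (PU (fun j => (c j : ℤ)) (A.image fun n : ℕ => (n : ℤ)) N).card := by
  obtain ⟨o, ho⟩ := hc.zero
  obtain ⟨lam, hl⟩ := hc.bez
  obtain ⟨o', ho'⟩ := exists_ne o
  have hpos : (1 : ℤ) ≤ c o' := by
    have : c o' ≠ 0 := fun e => ho' (hc.inj (e.trans ho.symm))
    omega
  refine Finset.card_le_card_of_injOn (fun z => (nn c z o, vv c lam o z)) ?_ ?_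
  · intro z hz
    have hz' : ∀ j : Fin 6, (z.1 + ((c j : ℕ) : ZMod N) * z.2).val ∈ A :=
      (Finset.mem_filter.1 (Finset.mem_coe.1 hz)).2
    have h : ∀ j, 0 ≤ nn c z j ∧ (2 * C + 2) * nn c z j < N := fun j =>
      ⟨Int.natCast_nonneg _, by unfold nn; exact_mod_cast hA _ (hz' j)⟩
    have hlt : ∀ j, nn c z j < N := fun j => by
      unfold nn
      exact_mod_cast ZMod.val_lt _
    have h0 := lift ho hl hC z h o'
    have a1 := (h o').1
    have a2 := hlt o'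
    have c1 := (h o).1
    have c2 := hlt o
    simp only [Finset.mem_coe, PU, Finset.mem_filter, Finset.mem_product]
    refine ⟨⟨?_, ?_⟩, fun j => ?_⟩
    · exact Finset.mem_Icc.2 ⟨by show -(N : ℤ) ≤ nn c z o; omega, by show nn c z o ≤ N; omega⟩
    · refine Finset.mem_Icc.2 ⟨?_, ?_⟩
      · show -(N : ℤ) ≤ vv c lam o z
        rcases le_total 0 (vv c lam o z) with hv | hv
        · omega
        · nlinarith [mul_le_mul_of_nonpos_right hpos hv]
      · show vv c lam o z ≤ N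
        rcases le_total 0 (vv c lam o z) with hv | hv
        · nlinarith [mul_le_mul_of_nonneg_right hpos hv]
        · omega
    · show nn c z o + (c j : ℤ) * vv c lam o z ∈ _
      rw [lift ho hl hC z h j]
      exact Finset.mem_image.2 ⟨_, hz' j, rfl⟩
  · intro z _ w _ e
    have e1 : nn c z o = nn c w o := congrArg Prod.fst e
    have e2 : vv c lam o z = vv c lam o w := congrArg Prod.snd e
    refine Prod.ext ?_ ?_
    · rw [← nn_zero ho z, ← nn_zero ho w, e1]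
    · rw [← vv_cast ho hl z, ← vv_cast ho hl w, e2]

open AMajorAux MajorKAux ProgKAux Pool.Agent.Lib.MP_4b8564_nt.Sg in
theorem major3 (c : Fin 6 → ℕ) (hc : Pat c) (W₀ : ℕ) (hW₀ : 0 < W₀) (u : Fin 3 → ℕ)
    (hu : ∀ k, (u k).Coprime W₀) (h01 : ¬u 0 ≡ u 1 [MOD W₀]) :
    ∃ E : ℕ, 3200 ≤ E ∧ ∃ κ : ℝ, 0 < κ ∧ ∃ W : ℕ, 2 ≤ W ∧ ∃ N₀ : ℕ, ∀ N : ℕ,
      N.Prime → N₀ ≤ N → ∃ (R : ℕ) (θ : Fin 3 → ZMod 2) (b : ℕ) (A : Finset ℤ), R ^ E ≤ N ∧
        N ≤ R ^ (E + 1) ∧ b < W ∧ b.Coprime W ∧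
        (∀ n ∈ A, 0 ≤ n ∧ n < N ∧ Three W₀ u θ R ((W : ℤ) * n + b)) ∧
        κ * (N : ℝ) ^ 2 / Real.log N ^ 6 ≤ (PU (fun j => (c j : ℤ)) A N).card := by
  obtain ⟨B, hB⟩ : ∃ B : ℕ, ∀ j, c j ≤ B :=
    ⟨univ.sup c, fun j => Finset.le_sup (f := c) (mem_univ j)⟩
  obtain ⟨k, hk⟩ : ∃ k : ℕ, k = B + 400 := ⟨_, rfl⟩
  have hk2 : 2 ≤ k := by omega
  have hck : ∀ j, c j < k := fun j => by have := hB j; omega
  obtain ⟨E, hE⟩ : ∃ E, E = 8 * (k * 2 ^ k) + 2 := ⟨_, rfl⟩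
  have hE2 : 3200 ≤ E := by
    have : 1 ≤ 2 ^ k := Nat.one_le_two_pow
    have := Nat.mul_le_mul_left k this
    omega
  obtain ⟨C, hC, hD⟩ := dens3 W₀ hW₀ u hu h01 (2 * B + 2) (by omega)
  have hE0 : (0 : ℝ) < C * (E + 1) := by positivity
  obtain ⟨η, hη, hη1, κ, hκ, N₀, hT⟩ := relPat k hk2
    (univ.image fun j => (⟨c j, hck j⟩ : Fin k)) (1 / (C * (E + 1))) (by positivity)
  obtain ⟨w, R₀, hw2, hw⟩ := lf_psi2 k hk2 η hη
  rw [← hE] at hw
  clear hE
  have hW : 1 ≤ primorial w := primorial_pos w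
  have hW2 : 2 ≤ primorial w :=
    Nat.le_of_dvd hW (Nat.prime_two.dvd_primorial_iff.2 hw2)
  obtain ⟨N₁, hN₁⟩ := hD (primorial w) E hW (by omega)
  refine ⟨E, hE2, κ / (2 * C) ^ 6, by positivity, primorial w, hW2,
    max (max (max N₀ N₁) (k + 1)) ((2 ^ E + R₀) ^ E), fun N hNp hN => ?_⟩
  have : NeZero N := ⟨hNp.ne_zero⟩
  obtain ⟨R, hR, h8, h9⟩ := exists_root E R₀ N (by omega) (le_of_max_le_right hN)
  have h2E : 0 < 2 ^ E := by positivity
  have hR1 : 1 ≤ R := by omega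
  have hkN : k < N := le_of_max_le_right (le_of_max_le_left hN)
  have hN01 := le_of_max_le_left (le_of_max_le_left hN)
  obtain ⟨θ, b, hb, hbW, A, hA, hdens⟩ := hN₁ N (le_of_max_le_right hN01) R h8 h9
  have hf := hw N hNp R b (by omega) h8
  have hP : ∀ p ∈ PP w R, 2 ≤ p := fun p hp => (mem_filter.mp hp).2.two_le
  have hG1 := one_le_GG (PP w R) hP R hR1
  have hG0 : 0 < GG (PP w R) R := one_pos.trans_le hG1
  have hge := GG_ge w R hR1
  have h0 : ∀ x : ZMod N, 0 ≤ nu w R b N x := fun x => div_nonneg (sq_nonneg _) hG0.le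
  have hval : ∀ x : ZMod N, x.val ∈ A → nu w R b N x = GG (PP w R) R := by
    intro x hx
    obtain ⟨-, q, hq, hm, hR0, -, hR1', -, hR2, -⟩ := hA _ hx
    have hm' : q 0 * q 1 * q 2 = primorial w * x.val + b := by exact_mod_cast hm
    rw [nu, beta_eq_GG _ _ _ fun r hrP hd => ?_, sq, mul_div_assoc, div_self hG0.ne', mul_one]
    have hr := (mem_filter.mp hrP).2
    have h2 := (mem_Ioc.mp (mem_filter.mp hrP).1).2
    have h3 : R ≤ R ^ 2 := Nat.le_self_pow two_ne_zero R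
    rw [← hm'] at hd
    rcases (Nat.Prime.dvd_mul hr).1 hd with h1 | h1
    · rcases (Nat.Prime.dvd_mul hr).1 h1 with h1 | h1
      · have := (Nat.prime_dvd_prime_iff_eq hr (hq 0).1).mp h1
        omega
      · have := (Nat.prime_dvd_prime_iff_eq hr (hq 1).1).mp h1
        omega
    · have := (Nat.prime_dvd_prime_iff_eq hr (hq 2).1).mp h1
      omega
  have hAN : ∀ n ∈ A, n < N := fun n hn =>
    (Nat.le_mul_of_pos_left n (by omega)).trans_lt (hA n hn).1
  have hN0 : (0 : ℝ) < N := by exact_mod_cast hNp.pos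
  have hsum : ∑ x, nu w R b N x ≤ 2 * N := by
    have h1 := (abs_le.mp (hf.mean ⟨0, by omega⟩)).2
    rw [av_psi hk2 hNp hkN, av, ZMod.card, sub_le_iff_le_add, div_le_iff₀ hN0] at h1
    nlinarith
  have hup := (MajorKAux.card_le N _ h0 A _ hAN hval).trans hsum
  have hW0 : (0 : ℝ) < primorial w := by exact_mod_cast hW
  have hφ : (Nat.totient (primorial w) : ℝ) ≤ primorial w := by
    exact_mod_cast Nat.totient_le _
  have hφ0 : (0 : ℝ) ≤ Nat.totient (primorial w) := Nat.cast_nonneg _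
  have hA0 : (0 : ℝ) ≤ A.card := Nat.cast_nonneg _
  have hl0 : 0 < Real.log N := Real.log_pos (by exact_mod_cast hNp.one_lt)
  have hl9 : Real.log N ≤ (E + 1) * Real.log R := by
    have : (N : ℝ) ≤ (R : ℝ) ^ (E + 1) := by exact_mod_cast h9
    have h2 := Real.log_le_log hN0 this
    rwa [Real.log_pow, Nat.cast_succ] at h2
  obtain ⟨G, hG⟩ : ∃ G, G = GG (PP w R) R := ⟨_, rfl⟩
  rw [← hG] at hG0 hge hval hup
  have hGle : G ≤ 2 * C * Real.log N := by
    have h1 : (primorial w : ℝ) * N ≤ primorial w * (C * (A.card * Real.log N)) := by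
      have := mul_le_mul_of_nonneg_right hφ (mul_nonneg hC.le (mul_nonneg hA0 hl0.le))
      linarith
    have h2 := le_of_mul_le_mul_left h1 hW0
    have h3 := mul_le_mul_of_nonneg_left h2 hG0.le
    have h4 := mul_le_mul_of_nonneg_right hup (mul_nonneg hC.le hl0.le)
    have h5 : G * N ≤ 2 * C * Real.log N * N := by linarith
    exact le_of_mul_le_mul_right h5 hN0
  have hδ : 1 / (C * (E + 1)) * N ≤ G * A.card := by
    rw [div_mul_eq_mul_div, div_le_iff₀ hW0] at hge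
    have h1 := mul_le_mul_of_nonneg_left hl9 (mul_nonneg hC.le (mul_nonneg hφ0 hA0))
    have h2 := mul_le_mul_of_nonneg_right hge (mul_nonneg hA0 hE0.le)
    have h3 : (primorial w : ℝ) * N ≤ primorial w * (G * A.card * (C * (E + 1))) := by
      linarith
    rw [div_mul_eq_mul_div, one_mul, div_le_iff₀ hE0]
    exact le_of_mul_le_mul_left h3 hW0
  have hlam := hT N hNp (le_of_max_le_left hN01) (nu w R b N) (fun x => if x.val ∈ A then G else 0)
    (fun x => by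
      by_cases h : x.val ∈ A
      · simp [h, hG0.le, hval x h]
      · simp [h, h0 x])
    (by
      unfold av
      rw [sum_f N A hAN, ZMod.card, le_div_iff₀ hN0]
      exact hδ) hf
  rw [pat_f hc.inj k hck, le_div_iff₀ (by positivity)] at hlam
  refine ⟨R, θ, b, A.image fun n : ℕ => (n : ℤ), h8, h9, hb, hbW, fun n hn => ?_, ?_⟩
  · obtain ⟨m, hm, rfl⟩ := mem_image.1 hn
    exact ⟨Int.natCast_nonneg m, by exact_mod_cast hAN m hm, (hA m hm).2⟩
  · have hcard := (Nat.cast_le (α := ℝ)).2 (lift3 c hc B hB N A fun n hn => (hA n hn).1)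
    have k1 := hlam.trans (mul_le_mul (pow_le_pow_left₀ hG0.le hGle 6) hcard (Nat.cast_nonneg _)
      (by positivity))
    rw [div_le_iff₀ (by positivity), div_mul_eq_mul_div, div_le_iff₀ (by positivity)]
    refine k1.trans (le_of_eq ?_)
    ring

end Pool.Agent.Lib.MP_7d3fda_nt.R3
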