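import Pool.Agent.Lib.MP_7d3fda_nt.R3.ADefs
import Pool.Agent.Lib.MP_7d3fda_nt.R2.Shift

open Finset
open scoped Classical NumberTheorySymbols

noncomputable section

namespace Pool.Agent.Lib.MP_7d3fda_nt.R3

open Pool.Agent.Lib.MP_4b8564_nt.GT Pool.Agent.Lib.MP_7d3fda_nt.R2

variable {ι : Type} [Fintype ι] [DecidableEq ι]

namespace AShiftAux

open ShiftAux

/-- the summand, extended by zero -/
def FF (c : ι → ℤ) (W : ℤ) (G : Finset ((Fin 2 × ι) × Fin 2 × ι)) (B : Finset (Fin 2 × ι))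
    (A : Finset ℤ) (qf : ℤ → Fin 2 → ℕ) (z : ℤ × ℤ) : ℝ :=
  if ∀ j, z.1 + c j * z.2 ∈ A then Gam G B (W * z.2) fun v => qf (z.1 + c v.2 * z.2) v.1 else 0

/-- the majorant -/
def nu (P : Finset ℕ) (L : ℤ) (y : Fin 2 → P) : ℝ :=
  (∏ k, (P.card : ℝ) * ind (y k) L) * if (y 0 : ℕ) ≠ y 1 then 1 else 0

theorem nu_nonneg (P : Finset ℕ) (L : ℤ) (y : Fin 2 → P) : 0 ≤ nu P L y := by
  refine mul_nonneg (prod_nonneg fun k _ => mul_nonneg (Nat.cast_nonneg _)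
    (ShiftAux.ind_nonneg _ _)) ?_
  split_ifs <;> norm_num

theorem av_nu (P : Finset ℕ) (hne : P.Nonempty) (L : ℤ) (K : ℝ)
    (h : ((P.filter fun q : ℕ => (q : ℤ) ∣ L).card : ℝ) ≤ K) : av (nu P L) ≤ K ^ 2 := by
  have : Nonempty P := hne.to_subtype
  have h1 : av (nu P L) ≤ av fun y : Fin 2 → P => ∏ k, (P.card : ℝ) * ind (y k) L := by
    refine av_mono fun y => mul_le_of_le_one_right (prod_nonneg fun k _ =>
      mul_nonneg (Nat.cast_nonneg _) (ShiftAux.ind_nonneg _ _)) ?_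
    split_ifs <;> norm_num
  refine h1.trans ?_
  rw [av_pi_prod univ fun (_ : Fin 2) (q : P) => (P.card : ℝ) * ind q L, ShiftAux.av_ind P hne,
    prod_const, card_univ, Fintype.card_fin]
  exact pow_le_pow_left₀ (Nat.cast_nonneg _) h 2

/-- currying -/
def cur (κ Y : Type) : (κ → Fin 2 → Y) ≃ (Fin 2 × κ → Y) where
  toFun Q t := Q t.2 t.1
  invFun Q t k := Q (k, t)
  left_inv _ := rfl
  right_inv _ := rfl

theorem prod_nu (P : Finset ℕ) (L : ι × Finset ι → ℤ) (Q : ι × Finset ι → Fin 2 → P) :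
    ∏ t ∈ Adm ι, nu P (L t) (Q t) =
      if Dis (fun t : Fin 2 × ι × Finset ι => (Q t.2 t.1 : ℕ)) then
        (P.card : ℝ) ^ (Adm3 ι).card * ∏ t ∈ Adm3 ι, ind (Q t.2 t.1) (L t.2) else 0 := by
  unfold nu
  rw [prod_mul_distrib]
  split_ifs with hd
  · rw [prod_eq_one (s := Adm ι) (f := fun t => if (Q t 0 : ℕ) ≠ Q t 1 then (1 : ℝ) else 0)
      fun t ht => if_pos (hd t ht), mul_one, ← prod_const, ← prod_mul_distrib, Adm3,
      prod_product, prod_comm]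
  · obtain ⟨t, ht⟩ := not_forall.1 hd
    obtain ⟨ht, hn⟩ := Classical.not_imp.1 ht
    rw [prod_eq_zero (f := fun t => if (Q t 0 : ℕ) ≠ Q t 1 then (1 : ℝ) else 0) ht (if_neg hn),
      mul_zero]

theorem point (c : ι → ℤ) (W b : ℤ) (G : Finset ((Fin 2 × ι) × Fin 2 × ι))
    (B : Finset (Fin 2 × ι)) (P : Finset ℕ)
    (hne : P.Nonempty) (H : ℕ) (hH : 0 < H) (A : Finset ℤ) (qf : ℤ → Fin 2 → ℕ)
    (hA : ∀ n ∈ A, (∀ k, qf n k ∈ P ∧ (qf n k : ℤ) ∣ W * n + b) ∧ qf n 0 ≠ qf n 1)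
    (K : ℝ) (hK : 1 ≤ K) (u v : ℤ) (hF : Few c W (fun j => W * (u + c j * v) + b) P H K) :
    |av fun x : ι → Fin H => FF c W G B A qf
        ((u, v) + (-∑ i, c i * ((x i : ℕ) : ℤ), ∑ i, ((x i : ℕ) : ℤ)))| ^ 2 ^ Fintype.card ι ≤
      (K ^ 2) ^ 4 ^ Fintype.card ι *
        |box3 c W (fun j => W * (u + c j * v) + b) (W * v) G B P H| := by
  have : Nonempty (Fin H) := ⟨⟨0, hH⟩⟩
  have : Nonempty P := hne.to_subtype
  have hc0 : (0 : ℝ) ≤ P.card := Nat.cast_nonneg _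
  have e2 : ∀ (x : ι → Fin H) j,
      Lf c W (fun j => W * (u + c j * v) + b) j (fun i => ((x i : ℕ) : ℤ)) =
        W * (u + c j * v + ∑ i, (c j - c i) * ((x i : ℕ) : ℤ)) + b := by
    intro x j
    unfold Lf
    ring
  have key := gvn ι (Fin H) (Fin 2 → P) (K ^ 2) (one_le_pow₀ hK)
    (fun j x y => (P.card : ℝ) ^ 2 *
      if (∀ k, (y k : ℕ) = qf (u + c j * v + ∑ i, (c j - c i) * ((x i : ℕ) : ℤ)) k) ∧
        u + c j * v + ∑ i, (c j - c i) * ((x i : ℕ) : ℤ) ∈ A then 1 else 0)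
    (fun j x y => nu P (Lf c W (fun j => W * (u + c j * v) + b) j fun i => ((x i : ℕ) : ℤ)) y)
    (fun x y => Gam G B (Sf W (W * v) fun i => ((x i : ℕ) : ℤ)) fun t => (y t.2 t.1 : ℕ))
    (fun j y x a => by simp only [sum_update])
    (fun j y x a => by simp only [Lf, sum_update])
    (fun j x y => by
      split_ifs with h
      · obtain ⟨h1, h2⟩ := h
        obtain ⟨h3, h4⟩ := hA _ h2
        rw [mul_one, abs_of_nonneg (by positivity), e2, nu, if_pos (by rwa [h1, h1]), mul_one,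
          Fin.prod_univ_two, h1, h1, ind, ind, if_pos (h3 0).2, if_pos (h3 1).2]
        exact le_of_eq (by ring)
      · rw [mul_zero, abs_zero]
        exact nu_nonneg _ _ _)
    (fun j x => av_nu P hne _ K
      (hF j _ fun i => ⟨Int.natCast_nonneg _, by exact_mod_cast (x i).2⟩))
  refine le_of_eq_of_le (congrArg (fun r : ℝ => |r| ^ 2 ^ Fintype.card ι) ?_) (key.trans
    (le_of_eq (congrArg (fun r : ℝ => (K ^ 2) ^ 4 ^ Fintype.card ι * |r|) (Eq.symm ?_))))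
  · refine av_congr fun x => ?_
    have e1 : ∀ j, u + -∑ i, c i * ((x i : ℕ) : ℤ) + c j * (v + ∑ i, ((x i : ℕ) : ℤ)) =
        u + c j * v + ∑ i, (c j - c i) * ((x i : ℕ) : ℤ) := by
      intro j
      simp only [sub_mul, sum_sub_distrib, ← mul_sum]
      ring
    have e3 : Sf W (W * v) (fun i => ((x i : ℕ) : ℤ)) = W * (v + ∑ i, ((x i : ℕ) : ℤ)) := by
      unfold Sf
      ring
    simp only [FF, Prod.mk_add_mk, e1, e3]
    by_cases h : ∀ j, u + c j * v + ∑ i, (c j - c i) * ((x i : ℕ) : ℤ) ∈ A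
    · rw [if_pos h]
      rw [← av_pick (fun j k => (⟨_, ((hA _ (h j)).1 k).1⟩ : P))
        (fun y : ι → Fin 2 → P => Gam G B (W * (v + ∑ i, ((x i : ℕ) : ℤ)))
          fun t => (y t.2 t.1 : ℕ))]
      refine av_congr fun y => ?_
      congr 1
      refine prod_congr rfl fun j _ => ?_
      rw [Fintype.card_fun, Fintype.card_coe, Fintype.card_fin, Nat.cast_pow]
      congr 1
      refine if_congr ?_ rfl rfl
      rw [and_iff_left (h j), funext_iff]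
      exact forall_congr' fun k => Subtype.ext_iff
    · rw [if_neg h]
      obtain ⟨j, hj⟩ := not_forall.1 h
      refine (av_zero (X := ι → Fin 2 → P)).symm.trans (av_congr fun y => Eq.symm ?_)
      rw [prod_eq_zero (mem_univ j), mul_zero]
      rw [if_neg fun h' => hj h'.2, mul_zero]
  · unfold box3
    rw [← av_equiv (cur (ι × Finset ι) P)]
    refine av_congr fun Q => ?_
    have hp : ∀ x : ι ⊕ ι → Fin H, _ := fun x => prod_nu P
      (fun t => Lf c W (fun j => W * (u + c j * v) + b) t.1 fun i => ((vx t.2 x i).val : ℤ)) Q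
    simp only [hp]
    show (if Dis (fun t : Fin 2 × ι × Finset ι => (Q t.2 t.1 : ℕ)) then _ else _) = _
    split_ifs with hd
    · unfold bav
      rw [← av_const_mul]
      refine av_congr fun x => ?_
      simp only [term3, vx_cast, cur, Equiv.coe_fn_mk]
      ring
    · simp only [mul_zero, av_zero]

end AShiftAux

open ShiftAux in
theorem shift3 [Nontrivial ι] (c : ι → ℤ) (hc : Function.Injective c) (j₀ : ι) (h0 : c j₀ = 0)
    (C : ℕ) (hC : ∀ j, |c j| ≤ C) (W b : ℤ) (G : Finset ((Fin 2 × ι) × Fin 2 × ι))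
    (B : Finset (Fin 2 × ι)) (P : Finset ℕ) (hne : P.Nonempty) (N H : ℕ) (hH : 0 < H)
    (hHN : H ≤ N) (A : Finset ℤ) (qf : ℤ → Fin 2 → ℕ)
    (hA : ∀ n ∈ A, 0 ≤ n ∧ n < N ∧ (∀ k, qf n k ∈ P ∧ (qf n k : ℤ) ∣ W * n + b) ∧ qf n 0 ≠ qf n 1)
    (K β : ℝ) (hK : 1 ≤ K) (hβ0 : 0 ≤ β) (D : ℕ) (hD : (1 + Fintype.card ι * (C + 1)) * N ≤ D)
    (hF : ∀ u v : ℤ, |u| ≤ D → |v| ≤ D → Few c W (fun j => W * (u + c j * v) + b) P H K)
    (hβ : ∀ u v : ℤ, |u| ≤ D → |v| ≤ D → (K ^ 2) ^ 4 ^ Fintype.card ι *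
      |box3 c W (fun j => W * (u + c j * v) + b) (W * v) G B P H| ≤ β ^ 2 ^ Fintype.card ι) :
    |∑ z ∈ PU c A N, Gam G B (W * z.2) fun v => qf (z.1 + c v.2 * z.2) v.1| ≤
      (2 * (D : ℝ) + 1) ^ 2 * β := by
  have : Nonempty (Fin H) := ⟨⟨0, hH⟩⟩
  have e0 : (∑ z ∈ PU c A N, Gam G B (W * z.2) fun v => qf (z.1 + c v.2 * z.2) v.1) =
      ∑ z ∈ Sq N, AShiftAux.FF c W G B A qf z := by
    unfold PU AShiftAux.FF Sq
    rw [sum_filter]
  have hsupp : ∀ z, z ∉ Sq N → AShiftAux.FF c W G B A qf z = 0 := by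
    intro z hz
    refine if_neg fun h => hz (mem_Sq.2 ?_)
    obtain ⟨j, hj⟩ := exists_ne j₀
    have hj0 : c j ≠ 0 := fun e => hj (hc (e.trans h0.symm))
    have a0 := hA _ (h j₀)
    have a1 := hA _ (h j)
    rw [h0, zero_mul, add_zero] at a0
    have a2 : |c j * z.2| ≤ N := abs_le.2 ⟨by linarith [a0.2.1, a1.1], by linarith [a0.1, a1.2.1]⟩
    refine ⟨abs_le.2 ⟨by linarith [a0.1, Int.natCast_nonneg N], a0.2.1.le⟩, le_trans ?_ a2⟩
    rw [abs_mul]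
    exact le_mul_of_one_le_left (abs_nonneg _) (Int.one_le_abs hj0)
  have hDz : (1 + (Fintype.card ι : ℤ) * (C + 1)) * N ≤ D := by exact_mod_cast hD
  have hsh : ∀ x : ι → Fin H, ∑ z ∈ Sq N, AShiftAux.FF c W G B A qf z =
      ∑ w ∈ Sq D, AShiftAux.FF c W G B A qf
        (w + (-∑ i, c i * ((x i : ℕ) : ℤ), ∑ i, ((x i : ℕ) : ℤ))) := by
    intro x
    have hx : ∀ i, |((x i : ℕ) : ℤ)| ≤ N := fun i => by
      rw [abs_of_nonneg (Int.natCast_nonneg _)]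
      exact_mod_cast (x i).2.le.trans hHN
    have b1 : |∑ i, c i * ((x i : ℕ) : ℤ)| ≤ (Fintype.card ι : ℤ) * (C * N) := by
      refine (abs_sum_le_sum_abs _ _).trans ((sum_le_card_nsmul _ _ ((C : ℤ) * N) fun i _ => ?_).trans
        (by simp))
      rw [abs_mul]
      exact mul_le_mul (hC i) (hx i) (abs_nonneg _) (Int.natCast_nonneg _)
    have b2 : |∑ i, ((x i : ℕ) : ℤ)| ≤ (Fintype.card ι : ℤ) * N :=
      (abs_sum_le_sum_abs _ _).trans ((sum_le_card_nsmul _ _ (N : ℤ) fun i _ => hx i).trans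
        (by simp))
    have b3 : (0 : ℤ) ≤ (Fintype.card ι : ℤ) * N := by positivity
    have b4 : (0 : ℤ) ≤ (Fintype.card ι : ℤ) * (C * N) := by positivity
    refine sum_shift _ N D hsupp _ ?_ ?_
    · simp only [abs_neg]
      linarith
    · simp only
      linarith
  rw [e0, ← av_const (X := ι → Fin H) (∑ z ∈ Sq N, AShiftAux.FF c W G B A qf z), av_congr hsh,
    av_sum, ← card_Sq, ← nsmul_eq_mul]
  refine (abs_sum_le_sum_abs _ _).trans (sum_le_card_nsmul _ _ _ fun w hw => ?_)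
  obtain ⟨u, v⟩ := w
  have hw' := mem_Sq.1 hw
  have h1 := (AShiftAux.point c W b G B P hne H hH A qf (fun n hn => (hA n hn).2.2) K hK u v
    (hF u v hw'.1 hw'.2)).trans (hβ u v hw'.1 hw'.2)
  exact (pow_le_pow_iff_left₀ (abs_nonneg _) hβ0 (pow_ne_zero _ two_ne_zero)).1 h1

end Pool.Agent.Lib.MP_7d3fda_nt.R3
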