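import Pool.Agent.Lib.MP_7d3fda_nt.R3.AMajor
import Pool.Agent.Lib.MP_7d3fda_nt.R3.ASymb
import Pool.Agent.Lib.MP_7d3fda_nt.R2.Many

open Finset
open scoped Classical NumberTheorySymbols

noncomputable section

namespace Pool.Agent.Lib.MP_7d3fda_nt.R3

open Pool.Agent.Lib.MP_4b8564_nt.GT Pool.Agent.Lib.MP_7d3fda_nt.R2

namespace AManyAux

theorem sgn_cases (b : ZMod 2) : sgn b = 1 ∨ sgn b = -1 := by
  unfold sgn
  split_ifs
  · exact Or.inl rfl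
  · exact Or.inr rfl

section

variable {ι : Type} [Fintype ι] [DecidableEq ι]

/-- the detector -/
def F (G1 : Finset (ι × ι)) (wG : ι × ι → ℤ) (wB : ι → ℤ) (s : ℤ) (y : ι → ℕ) : ℝ :=
  (∏ e ∈ G1, (1 + (wG e : ℝ) * (J((y e.1 : ℤ) | y e.2) : ℝ))) *
    ∏ j, (1 + (wB j : ℝ) * (J(s | y j) : ℝ))

/-- the number of terms -/
def K (G1 : Finset (ι × ι)) : ℝ := 2 ^ G1.card * 2 ^ Fintype.card ι

omit [DecidableEq ι] in
theorem K_pos (G1 : Finset (ι × ι)) : 0 < K G1 := by unfold K; positivity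

omit [DecidableEq ι] in
theorem F_expand (G1 : Finset (ι × ι)) (wG : ι × ι → ℤ) (wB : ι → ℤ) (s : ℤ) (y : ι → ℕ) :
    F G1 wG wB s y = ∑ x ∈ G1.powerset ×ˢ (univ : Finset ι).powerset,
      ((∏ e ∈ x.1, (wG e : ℝ)) * ∏ j ∈ x.2, (wB j : ℝ)) * Gam x.1 x.2 s y := by
  unfold F Gam
  rw [Finset.prod_one_add, Finset.prod_one_add, Finset.sum_mul_sum, Finset.sum_product]
  refine Finset.sum_congr rfl fun G _ => Finset.sum_congr rfl fun B _ => ?_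
  rw [Finset.prod_mul_distrib, Finset.prod_mul_distrib]
  ring

theorem fac_bd {w : ℤ} (hw : w = 1 ∨ w = -1) (a : ℤ) (n : ℕ) :
    0 ≤ 1 + (w : ℝ) * (J(a | n) : ℝ) ∧ 1 + (w : ℝ) * (J(a | n) : ℝ) ≤ 2 := by
  rcases jacobiSym.trichotomy a n with h | h | h <;> rcases hw with h' | h' <;>
    rw [h, h'] <;> norm_num

theorem fac_ne {w : ℤ} (hw : w = 1 ∨ w = -1) {a : ℤ} {n : ℕ} (h0 : J(a | n) ≠ 0)
    (h : 1 + (w : ℝ) * (J(a | n) : ℝ) ≠ 0) : J(a | n) = w := by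
  rcases jacobiSym.trichotomy a n with h' | h' | h'
  · exact absurd h' h0
  · rcases hw with h'' | h''
    · rw [h', h'']
    · exact absurd (by simp [h', h'']) h
  · rcases hw with h'' | h''
    · exact absurd (by simp [h', h'']) h
    · rw [h', h'']

omit [DecidableEq ι] in
theorem F_le (G1 : Finset (ι × ι)) {wG : ι × ι → ℤ} {wB : ι → ℤ}
    (hG : ∀ e, wG e = 1 ∨ wG e = -1) (hB : ∀ j, wB j = 1 ∨ wB j = -1) (s : ℤ) (y : ι → ℕ) :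
    F G1 wG wB s y ≤ K G1 := by
  unfold F K
  refine mul_le_mul ?_ ?_ (Finset.prod_nonneg fun j _ => (fac_bd (hB j) _ _).1) (by positivity)
  · calc _ ≤ ∏ _e ∈ G1, (2 : ℝ) :=
          Finset.prod_le_prod (fun e _ => (fac_bd (hG e) _ _).1) fun e _ => (fac_bd (hG e) _ _).2
      _ = _ := by rw [Finset.prod_const]
  · calc _ ≤ ∏ _j : ι, (2 : ℝ) :=
          Finset.prod_le_prod (fun j _ => (fac_bd (hB j) _ _).1) fun j _ => (fac_bd (hB j) _ _).2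
      _ = _ := by simp

/-- all symbols have the prescribed values -/
def Sy (G1 : Finset (ι × ι)) (wG : ι × ι → ℤ) (wB : ι → ℤ) (s : ℤ) (y : ι → ℕ) : Prop :=
  (∀ e ∈ G1, J((y e.1 : ℤ) | y e.2) = wG e) ∧ ∀ j, J(s | y j) = wB j

omit [DecidableEq ι] in
theorem F_zero (G1 : Finset (ι × ι)) {wG : ι × ι → ℤ} {wB : ι → ℤ}
    (hG : ∀ e, wG e = 1 ∨ wG e = -1) (hB : ∀ j, wB j = 1 ∨ wB j = -1) (s : ℤ) (y : ι → ℕ)
    (h1 : ∀ e ∈ G1, J((y e.1 : ℤ) | y e.2) ≠ 0) (h2 : ∀ j, J(s | y j) ≠ 0)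
    (h : ¬Sy G1 wG wB s y) : F G1 wG wB s y = 0 := by
  by_contra hF
  obtain ⟨ha, hb⟩ := mul_ne_zero_iff.1 hF
  exact h ⟨fun e he => fac_ne (hG e) (h1 e he) (Finset.prod_ne_zero_iff.1 ha e he),
    fun j => fac_ne (hB j) (h2 j) (Finset.prod_ne_zero_iff.1 hb j (Finset.mem_univ j))⟩

theorem abs_one {w : ℤ} (hw : w = 1 ∨ w = -1) : |(w : ℝ)| = 1 := by
  rcases hw with h | h <;> rw [h] <;> norm_num

omit [DecidableEq ι] in
theorem sum_lower (G1 : Finset (ι × ι)) {wG : ι × ι → ℤ} {wB : ι → ℤ}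
    (hG : ∀ e, wG e = 1 ∨ wG e = -1) (hB : ∀ j, wB j = 1 ∨ wB j = -1)
    (U : Finset (ℤ × ℤ)) (s : ℤ × ℤ → ℤ) (y : ℤ × ℤ → ι → ℕ) (η : ℝ) (hη : 0 ≤ η)
    (h : ∀ (G : Finset (ι × ι)) (B : Finset ι), G ⊆ G1 →
      G.Nonempty ∨ B.Nonempty → |∑ z ∈ U, Gam G B (s z) (y z)| ≤ η) :
    (U.card : ℝ) - K G1 * η ≤ ∑ z ∈ U, F G1 wG wB (s z) (y z) := by
  rw [Finset.sum_congr rfl fun z _ => F_expand G1 wG wB (s z) (y z), Finset.sum_comm]
  have hcard : ((G1.powerset ×ˢ (univ : Finset ι).powerset).card : ℝ) = K G1 := by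
    rw [Finset.card_product, Finset.card_powerset, Finset.card_powerset, Finset.card_univ]
    push_cast
    rfl
  rw [← hcard]
  refine ManyAux.sum_gen _ (∅, ∅)
    (Finset.mem_product.2 ⟨Finset.empty_mem_powerset _, Finset.empty_mem_powerset _⟩) _ _ _ hη
    ?_ fun x hx hx0 => ?_
  · simp only [Gam, Finset.prod_empty, mul_one, Finset.sum_const, nsmul_eq_mul]
  · rw [← Finset.mul_sum]
    have hne : x.1.Nonempty ∨ x.2.Nonempty := by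
      by_contra hc
      rw [not_or, Finset.not_nonempty_iff_eq_empty, Finset.not_nonempty_iff_eq_empty] at hc
      exact hx0 (Prod.ext hc.1 hc.2)
    have h1 : |∏ e ∈ x.1, (wG e : ℝ)| = 1 := by
      rw [Finset.abs_prod]
      exact Finset.prod_eq_one fun e _ => abs_one (hG e)
    have h2 : |∏ j ∈ x.2, (wB j : ℝ)| = 1 := by
      rw [Finset.abs_prod]
      exact Finset.prod_eq_one fun j _ => abs_one (hB j)
    rw [abs_mul, abs_mul, h1, h2, one_mul, one_mul]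
    exact h x.1 x.2 (Finset.mem_powerset.1 (Finset.mem_product.1 hx).1) hne

end

/-- the ordered pairs -/
def G0 : Finset ((Fin 2 × Fin 6) × Fin 2 × Fin 6) := univ.filter fun e => e.1.2 < e.2.2

theorem mem_G0 (e : (Fin 2 × Fin 6) × Fin 2 × Fin 6) : e ∈ G0 ↔ e.1.2 < e.2.2 := by
  rw [G0, Finset.mem_filter]
  exact ⟨fun h => h.2, fun h => ⟨Finset.mem_univ _, h⟩⟩

/-- the three primes of a value -/
theorem three_facts {W₀ : ℕ} {u : Fin 3 → ℕ} (h01 : ¬u 0 ≡ u 1 [MOD W₀]) {R N W b : ℕ} {n : ℤ}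
    {r : Fin 3 → ℕ} (hp : ∀ k, (r k).Prime ∧ r k ≡ u k [MOD W₀])
    (hm : (r 0 : ℤ) * r 1 * r 2 = W * n + b) (h0 : R < r 0) (h0' : r 0 ≤ R ^ 2) (h1 : R < r 1)
    (h1' : r 1 ≤ R ^ 2) (h2 : R ^ 2 < r 2) (hRN : R ^ 2 ≤ N) (hW : W ≤ R) (hb : b < W)
    (hn : n < N) :
    (∀ k, R < r k ∧ r k ≤ N ∧ (r k : ℤ) ∣ W * n + b) ∧ ∀ k l, r k = r l → k = l := by
  have hR : R ≤ R ^ 2 := Nat.le_self_pow two_ne_zero R
  have hne : r 0 ≠ r 1 := fun h => h01 ((hp 0).2.symm.trans (h ▸ (hp 1).2))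
  have h2N : r 2 ≤ N := by
    have e1 : (W : ℤ) * n + b ≤ W * N := by
      have a1 : (b : ℤ) < W := by exact_mod_cast hb
      have a2 : (W : ℤ) * (n + 1) ≤ W * N :=
        mul_le_mul_of_nonneg_left (by omega) (Int.natCast_nonneg W)
      linarith
    have e2 : r 0 * r 1 * r 2 ≤ W * N := by
      rw [← hm] at e1
      exact_mod_cast e1
    have e3 : W ≤ r 0 * r 1 := by
      have := Nat.le_mul_of_pos_right (r 0) (hp 1).1.pos
      omega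
    have e4 : W * r 2 ≤ W * N := (Nat.mul_le_mul_right _ e3).trans e2
    exact Nat.le_of_mul_le_mul_left e4 (by omega)
  constructor
  · intro k
    rw [← hm]
    fin_cases k
    · exact ⟨h0, h0'.trans hRN, (dvd_mul_right _ _).mul_right _⟩
    · exact ⟨h1, h1'.trans hRN, (dvd_mul_left _ _).mul_right _⟩
    · exact ⟨hR.trans_lt h2, h2N, dvd_mul_left _ _⟩
  · intro k l h
    fin_cases k <;> fin_cases l <;> first
      | rfl
      | (exfalso; simp only [Fin.zero_eta, Fin.mk_one, Fin.reduceFinMk] at h; omega)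

end AManyAux

/-- patterns whose first term and difference share a large prime factor are rare -/
theorem badpat3 (W b : ℤ) (R N : ℕ) (hR : 1 ≤ R) (P : Finset ℕ)
    (hP : ∀ q ∈ P, q.Prime ∧ R < q ∧ q ≤ N ∧ ¬(q : ℤ) ∣ W) :
    (((Icc (-(N : ℤ)) N ×ˢ Icc (-(N : ℤ)) N).filter fun z : ℤ × ℤ =>
      ∃ q ∈ P, (q : ℤ) ∣ z.2 ∧ (q : ℤ) ∣ W * z.1 + b).card : ℝ) ≤ 16 * (N : ℝ) ^ 2 / R := by
  set I := Icc (-(N : ℤ)) N with hI
  have hsub : ((I ×ˢ I).filter fun z : ℤ × ℤ =>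
      ∃ q ∈ P, (q : ℤ) ∣ z.2 ∧ (q : ℤ) ∣ W * z.1 + b) ⊆
      P.biUnion fun q => (I.filter fun x => (q : ℤ) ∣ W * x + b) ×ˢ
        (I.filter fun y => (q : ℤ) ∣ y) := by
    intro z hz
    obtain ⟨h1, q, hq, h2, h3⟩ := mem_filter.1 hz
    obtain ⟨h4, h5⟩ := mem_product.1 h1
    exact mem_biUnion.2 ⟨q, hq, mem_product.2 ⟨mem_filter.2 ⟨h4, h3⟩, mem_filter.2 ⟨h5, h2⟩⟩⟩
  have hq : ∀ q ∈ P, (((I.filter fun x => (q : ℤ) ∣ W * x + b) ×ˢ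
        (I.filter fun y => (q : ℤ) ∣ y)).card : ℝ) ≤ 16 * (N : ℝ) ^ 2 * (1 / (q : ℝ) ^ 2) := by
    intro q hq
    obtain ⟨hp, -, h2, h3⟩ := hP q hq
    have a1 := BadPatAux.card_cong N q hp.pos h2
      (I.filter fun x => (q : ℤ) ∣ W * x + b) (filter_subset _ _) (by
        intro x hx y hy
        have hd := dvd_sub (mem_filter.1 hx).2 (mem_filter.1 hy).2
        have e : W * x + b - (W * y + b) = W * (x - y) := by ring
        rw [e] at hd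
        exact ((Nat.prime_iff_prime_int.1 hp).dvd_or_dvd hd).resolve_left h3)
    have a2 := BadPatAux.card_cong N q hp.pos h2
      (I.filter fun y => (q : ℤ) ∣ y) (filter_subset _ _) (by
        intro x hx y hy
        exact dvd_sub (mem_filter.1 hx).2 (mem_filter.1 hy).2)
    rw [card_product, Nat.cast_mul]
    calc _ ≤ (4 * (N : ℝ) / q) * (4 * N / q) :=
          mul_le_mul a1 a2 (Nat.cast_nonneg _) (by positivity)
      _ = _ := by ring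
  have hPs : P ⊆ Ioc R (R + N) := by
    intro q hq
    obtain ⟨-, h1, h2, -⟩ := hP q hq
    exact mem_Ioc.2 ⟨h1, by omega⟩
  have hs : ∑ q ∈ P, (1 : ℝ) / (q : ℝ) ^ 2 ≤ 1 / R := by
    have h1 : ∑ q ∈ P, (1 : ℝ) / (q : ℝ) ^ 2 ≤ ∑ q ∈ Ioc R (R + N), (1 : ℝ) / (q : ℝ) ^ 2 :=
      sum_le_sum_of_subset_of_nonneg hPs fun _ _ _ => by positivity
    have h2 := BadPatAux.sum_inv_sq R N hR
    have h3 : (0 : ℝ) ≤ 1 / ((R + N : ℕ) : ℝ) := by positivity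
    linarith
  calc _ ≤ ((P.biUnion fun q => (I.filter fun x => (q : ℤ) ∣ W * x + b) ×ˢ
        (I.filter fun y => (q : ℤ) ∣ y)).card : ℝ) := by exact_mod_cast card_le_card hsub
    _ ≤ ∑ q ∈ P, (((I.filter fun x => (q : ℤ) ∣ W * x + b) ×ˢ
        (I.filter fun y => (q : ℤ) ∣ y)).card : ℝ) := by exact_mod_cast card_biUnion_le
    _ ≤ ∑ q ∈ P, 16 * (N : ℝ) ^ 2 * (1 / (q : ℝ) ^ 2) := sum_le_sum hq
    _ = 16 * (N : ℝ) ^ 2 * ∑ q ∈ P, (1 / (q : ℝ) ^ 2) := by rw [mul_sum]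
    _ ≤ 16 * (N : ℝ) ^ 2 * (1 / R) := mul_le_mul_of_nonneg_left hs (by positivity)
    _ = _ := by ring

open AManyAux in
theorem many3 (c : Fin 6 → ℕ) (hc : Pat c) (W₀ : ℕ) (hW₀ : 0 < W₀) (u : Fin 3 → ℕ)
    (hu : ∀ k, (u k).Coprime W₀) (h01 : ¬u 0 ≡ u 1 [MOD W₀])
    (qq : (Fin 3 → ZMod 2) → Fin 2 × Fin 6 → Fin 2 × Fin 6 → ZMod 2)
    (sg : (Fin 3 → ZMod 2) → Fin 2 × Fin 6 → ZMod 2) :
    ∃ κ : ℝ, 0 < κ ∧ ∃ W : ℕ, 1 ≤ W ∧ ∃ N₀ : ℕ, ∀ N : ℕ, N.Prime → N₀ ≤ N →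
      ∃ T : Finset (ℤ × ℤ),
        (∀ z ∈ T, Good3 c W₀ u qq sg z.1 z.2 ∧ ∀ j, z.1 + c j * z.2 ≤ (W : ℤ) * N) ∧
        κ * (N : ℝ) ^ 2 / Real.log N ^ 6 ≤ T.card := by
  obtain ⟨E, hE, κ, hκ, W, hW, N₀, hmaj⟩ := major3 c hc W₀ hW₀ u hu h01
  obtain ⟨K, hKe⟩ : ∃ K : ℝ, K = AManyAux.K G0 := ⟨_, rfl⟩
  have hK : 0 < K := hKe ▸ K_pos G0
  obtain ⟨C, hC⟩ : ∃ C : ℕ, ∀ j, c j ≤ C :=
    ⟨∑ j, c j, fun j => Finset.single_le_sum (fun i _ => Nat.zero_le (c i)) (Finset.mem_univ j)⟩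
  obtain ⟨N₁, hsymb⟩ := symb3 c hc E W hE hW (κ / (4 * K)) (by positivity)
  obtain ⟨R₀, hR₀⟩ := ManyAux.log_small E (κ / (64 * K)) (by positivity)
  refine ⟨κ / (2 * K), by positivity, W, by omega,
    max (max N₀ N₁) ((max R₀ (max W C)) ^ (E + 1)), fun N hNp hN => ?_⟩
  obtain ⟨R, θ, b, A, hRN, hNR, hbW, hcop, hA, hcard⟩ :=
    hmaj N hNp ((le_max_left _ _).trans ((le_max_left _ _).trans hN))
  have hRbig : max R₀ (max W C) ≤ R :=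
    (Nat.pow_le_pow_iff_left (Nat.succ_ne_zero E)).1 (((le_max_right _ _).trans hN).trans hNR)
  have hR0 : R₀ ≤ R := (le_max_left _ _).trans hRbig
  have hRW : W ≤ R := (le_max_left _ _).trans ((le_max_right _ _).trans hRbig)
  have hR1 : C ≤ R := (le_max_right _ _).trans ((le_max_right _ _).trans hRbig)
  have hR2 : R ^ 2 ≤ N := (Nat.pow_le_pow_right (by omega) (by omega)).trans hRN
  obtain ⟨P, hPm⟩ : ∃ P : Finset ℕ, ∀ q, q ∈ P ↔ q.Prime ∧ R < q ∧ q ≤ R ^ 2 :=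
    ⟨(Ioc R (R ^ 2)).filter Nat.Prime, fun q => by
      simp only [Finset.mem_filter, Finset.mem_Ioc]
      tauto⟩
  obtain ⟨P', hPm'⟩ : ∃ P' : Finset ℕ, ∀ q, q ∈ P' ↔ q.Prime ∧ R < q ∧ q ≤ N :=
    ⟨(Ioc R N).filter Nat.Prime, fun q => by
      simp only [Finset.mem_filter, Finset.mem_Ioc]
      tauto⟩
  have hsmall : ∀ q : ℕ, R < q → ∀ a : ℤ, a ≠ 0 → |a| ≤ R → ¬(q : ℤ) ∣ a := by
    intro q hq a ha hle hd
    have h1 := Int.le_of_dvd (abs_pos.2 ha) ((dvd_abs _ _).2 hd)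
    have h2 : (R : ℤ) < q := by exact_mod_cast hq
    omega
  have hPW : ∀ q : ℕ, R < q → ¬(q : ℤ) ∣ (W : ℤ) := fun q hq =>
    hsmall q hq W (by omega) (by rw [abs_of_nonneg (by omega)]; exact_mod_cast hRW)
  have hex : ∀ n : ℤ, ∃ r : Fin 3 → ℕ, n ∈ A → (∀ k, (r k).Prime ∧ r k ≡ u k [MOD W₀]) ∧
      (r 0 : ℤ) * r 1 * r 2 = (W : ℤ) * n + b ∧ R < r 0 ∧ r 0 ≤ R ^ 2 ∧ R < r 1 ∧ r 1 ≤ R ^ 2 ∧
      R ^ 2 < r 2 ∧ J((r 1 : ℤ) | r 0) = sgn (θ 0) ∧ J((r 2 : ℤ) | r 0) = sgn (θ 1) ∧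
      J((r 2 : ℤ) | r 1) = sgn (θ 2) := by
    intro n
    by_cases hn : n ∈ A
    · obtain ⟨r, h⟩ := (hA n hn).2.2
      exact ⟨r, fun _ => h⟩
    · exact ⟨0, fun h => absurd h hn⟩
  choose rf hrf using hex
  have hfacts : ∀ n ∈ A, (∀ k, R < rf n k ∧ rf n k ≤ N ∧ (rf n k : ℤ) ∣ W * n + b) ∧
      ∀ k l, rf n k = rf n l → k = l := fun n hn => by
    obtain ⟨h1, h2, h3, h4, h5, h6, h7, -⟩ := hrf n hn
    exact three_facts h01 h1 h2 h3 h4 h5 h6 h7 hR2 hRW hbW (hA n hn).2.1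
  have hprime : ∀ n ∈ A, ∀ k, (rf n k).Prime := fun n hn k => ((hrf n hn).1 k).1
  have hqP : ∀ n ∈ A, ∀ k : Fin 2, rf n k.castSucc ∈ P := fun n hn k => by
    obtain ⟨h1, -, h3, h4, h5, h6, -⟩ := hrf n hn
    fin_cases k
    · exact (hPm _).2 ⟨(h1 0).1, h3, h4⟩
    · exact (hPm _).2 ⟨(h1 1).1, h5, h6⟩
  obtain ⟨U, hU⟩ : ∃ U, U = PU (fun j => (c j : ℤ)) A N := ⟨_, rfl⟩
  have hUm : ∀ z ∈ U, z ∈ Icc (-(N : ℤ)) N ×ˢ Icc (-(N : ℤ)) N ∧ ∀ j, z.1 + c j * z.2 ∈ A :=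
    fun z hz => (@Finset.mem_filter _ _ (_) _ _).1 (hU ▸ hz : z ∈ PU (fun j => (c j : ℤ)) A N)
  have hN2 : (2 : ℝ) ≤ N := by exact_mod_cast hNp.two_le
  have hlog : 0 < Real.log N := Real.log_pos (by linarith)
  obtain ⟨M, hM⟩ : ∃ M : ℝ, M = (N : ℝ) ^ 2 / Real.log N ^ 6 := ⟨_, rfl⟩
  have hMpos : 0 < M := by rw [hM]; positivity
  obtain ⟨wG, hwG⟩ : ∃ wG : (Fin 2 × Fin 6) × Fin 2 × Fin 6 → ℤ,
      ∀ e, wG e = sgn (qq θ e.1 e.2) := ⟨_, fun _ => rfl⟩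
  obtain ⟨wB, hwB⟩ : ∃ wB : Fin 2 × Fin 6 → ℤ, ∀ v, wB v = sgn (sg θ v) := ⟨_, fun _ => rfl⟩
  have hG1 : ∀ e, wG e = 1 ∨ wG e = -1 := fun e => hwG e ▸ sgn_cases _
  have hB1 : ∀ v, wB v = 1 ∨ wB v = -1 := fun v => hwB v ▸ sgn_cases _
  obtain ⟨y, hy⟩ : ∃ y : ℤ × ℤ → Fin 2 × Fin 6 → ℕ,
      y = fun z v => rf (z.1 + c v.2 * z.2) v.1.castSucc := ⟨_, rfl⟩
  have hlow := sum_lower G0 hG1 hB1 U (fun z => W * z.2) y (κ / (4 * K) * M)
    (by positivity) fun G B hG hne => by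
      have := hsymb N ((le_max_right _ _).trans ((le_max_left _ _).trans hN)) R hRN hNR b hbW
        hcop P (fun q hq => (hPm q).1 hq) A (fun n k => rf n k.castSucc)
        (fun n hn => ⟨(hA n hn).1, (hA n hn).2.1,
          fun k => ⟨hqP n hn k, ((hfacts n hn).1 _).2.2⟩,
          fun h => absurd ((hfacts n hn).2 _ _ h) (by decide)⟩) G B
        (fun e he => (mem_G0 e).1 (hG he)) hne
      rw [mul_div_assoc, ← hM, ← hU] at this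
      rw [hy]
      exact this
  rw [← hKe] at hlow
  obtain ⟨Bd, hBd⟩ : ∃ Bd, Bd = (Icc (-(N : ℤ)) N ×ˢ Icc (-(N : ℤ)) N).filter fun z : ℤ × ℤ =>
    ∃ q ∈ P', (q : ℤ) ∣ z.2 ∧ (q : ℤ) ∣ (W : ℤ) * z.1 + b := ⟨_, rfl⟩
  obtain ⟨Gd, hGd⟩ : ∃ Gd : Finset (ℤ × ℤ),
      ∀ z, z ∈ Gd ↔ z ∈ U ∧ Sy G0 wG wB (W * z.2) (y z) ∧ z ∉ Bd :=
    ⟨U.filter fun z => Sy G0 wG wB (W * z.2) (y z) ∧ z ∉ Bd, fun z => Finset.mem_filter⟩
  have hbad : (Bd.card : ℝ) ≤ 16 * (N : ℝ) ^ 2 / R := by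
    rw [hBd]
    exact badpat3 W b R N (by omega) P' fun q hq =>
      ⟨((hPm' q).1 hq).1, ((hPm' q).1 hq).2.1, ((hPm' q).1 hq).2.2, hPW q ((hPm' q).1 hq).2.1⟩
  have hnd : ∀ z ∈ U, z ∉ Bd → ∀ j k, ¬(rf (z.1 + c j * z.2) k : ℤ) ∣ z.2 := by
    intro z hz hn j k hd
    obtain ⟨hz1, hz2⟩ := hUm z hz
    obtain ⟨a1, a2, a3⟩ := (hfacts _ (hz2 j)).1 k
    refine hn (hBd ▸ Finset.mem_filter.2
      ⟨hz1, _, (hPm' _).2 ⟨hprime _ (hz2 j) k, a1, a2⟩, hd, ?_⟩)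
    have h2 : (W : ℤ) * z.1 + b = (W * (z.1 + c j * z.2) + b) - W * c j * z.2 := by ring
    rw [h2]
    exact dvd_sub a3 (Dvd.dvd.mul_left hd _)
  have hndW : ∀ z ∈ U, z ∉ Bd → ∀ j k, ¬(rf (z.1 + c j * z.2) k : ℤ) ∣ W * z.2 := by
    intro z hz hn j k hd
    have hz2 := (hUm z hz).2
    rcases (Nat.prime_iff_prime_int.1 (hprime _ (hz2 j) k)).dvd_or_dvd hd with h | h
    · exact hPW _ ((hfacts _ (hz2 j)).1 k).1 h
    · exact hnd z hz hn j k h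
  have hinj : ∀ z ∈ U, z ∉ Bd → ∀ i k j l,
      rf (z.1 + c i * z.2) k = rf (z.1 + c j * z.2) l → i = j ∧ k = l := by
    intro z hz hn i k j l h
    have hz2 := (hUm z hz).2
    have hij : i = j := by
      by_contra hij
      have a1 := ((hfacts _ (hz2 i)).1 k).2.2
      obtain ⟨a2, -, a3⟩ := (hfacts _ (hz2 j)).1 l
      rw [h] at a1
      have hd2 := dvd_sub a1 a3
      have h2 : (W : ℤ) * (z.1 + c i * z.2) + b - (W * (z.1 + c j * z.2) + b) =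
          ((c i : ℤ) - c j) * (W * z.2) := by ring
      rw [h2] at hd2
      rcases (Nat.prime_iff_prime_int.1 (hprime _ (hz2 j) l)).dvd_or_dvd hd2 with h3 | h3
      · have h4 : c i ≠ c j := fun h4 => hij (hc.inj h4)
        have h5 := hC i
        have h6 := hC j
        exact hsmall _ a2 _ (by omega) (abs_le.2 ⟨by omega, by omega⟩) h3
      · exact hndW z hz hn j l h3
    subst hij
    exact ⟨rfl, (hfacts _ (hz2 i)).2 k l h⟩
  have hzero : ∀ z ∈ U, z ∉ Gd ∪ Bd → F G0 wG wB (W * z.2) (y z) = 0 := by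
    intro z hz hn
    rw [Finset.mem_union, not_or] at hn
    have hz2 := (hUm z hz).2
    refine F_zero G0 hG1 hB1 _ _ (fun e he h0 => ?_) (fun v h0 => ?_)
      fun h => hn.1 ((hGd z).2 ⟨hz, h, hn.2⟩)
    · rw [hy] at h0
      have hd := ManyAux.dvd_of_jac (hprime _ (hz2 e.2.2) _) h0
      have he' := (Nat.prime_dvd_prime_iff_eq (hprime _ (hz2 e.2.2) _)
        (hprime _ (hz2 e.1.2) _)).1 (Int.natCast_dvd_natCast.1 hd)
      exact ((mem_G0 e).1 he).ne' (hinj z hz hn.2 _ _ _ _ he').1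
    · rw [hy] at h0
      exact hndW z hz hn.2 _ _ (ManyAux.dvd_of_jac (hprime _ (hz2 v.2) _) h0)
  have hup : ∑ z ∈ U, F G0 wG wB (W * z.2) (y z) ≤ K * ((Gd.card : ℝ) + Bd.card) := by
    rw [← Finset.sum_filter_of_ne (p := fun z => z ∈ Gd ∪ Bd)
      fun z hz h => by_contra fun hn => h (hzero z hz hn)]
    have h1 : ((U.filter fun z => z ∈ Gd ∪ Bd).card : ℝ) ≤ (Gd.card : ℝ) + Bd.card := by
      have h2 : (U.filter fun z => z ∈ Gd ∪ Bd).card ≤ Gd.card + Bd.card :=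
        (Finset.card_le_card fun z hz => (Finset.mem_filter.1 hz).2).trans
          (Finset.card_union_le _ _)
      exact_mod_cast h2
    calc _ ≤ ∑ _z ∈ U.filter fun z => z ∈ Gd ∪ Bd, K :=
          Finset.sum_le_sum fun z _ => hKe ▸ F_le G0 hG1 hB1 _ _
      _ = K * ((U.filter fun z => z ∈ Gd ∪ Bd).card : ℝ) := by
          rw [Finset.sum_const, nsmul_eq_mul, mul_comm]
      _ ≤ _ := mul_le_mul_of_nonneg_left h1 hK.le
  have hRpos : (0 : ℝ) < R := by exact_mod_cast (by omega : 0 < R)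
  have hlogN : Real.log N ^ 6 ≤ κ / (64 * K) * R := by
    refine le_trans (pow_le_pow_left₀ hlog.le ?_ 6) (hR₀ R hR0)
    have h1 : (N : ℝ) ≤ (R : ℝ) ^ (E + 1) := by exact_mod_cast hNR
    have h2 := Real.log_le_log (by linarith) h1
    rw [Real.log_pow] at h2
    exact_mod_cast h2
  have hbad2 : K * (Bd.card : ℝ) ≤ κ / 4 * M := by
    have h1 : 16 * (N : ℝ) ^ 2 / R ≤ κ / (4 * K) * M := by
      rw [hM, ← mul_div_assoc, div_le_div_iff₀ hRpos (by positivity)]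
      calc 16 * (N : ℝ) ^ 2 * Real.log N ^ 6 ≤ 16 * (N : ℝ) ^ 2 * (κ / (64 * K) * R) :=
            mul_le_mul_of_nonneg_left hlogN (by positivity)
        _ = κ / (4 * K) * (N : ℝ) ^ 2 * R := by field_simp; norm_num
    calc K * (Bd.card : ℝ) ≤ K * (κ / (4 * K) * M) :=
          mul_le_mul_of_nonneg_left (hbad.trans h1) hK.le
      _ = κ / 4 * M := by field_simp
  have hgood : κ / (2 * K) * M ≤ Gd.card := by
    have h1 : K * (κ / (4 * K) * M) = κ / 4 * M := by field_simp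
    have h2 : κ * M ≤ U.card := by rw [hM, ← mul_div_assoc, hU]; exact hcard
    have h3 : κ / 2 * M ≤ K * Gd.card := by
      rw [h1] at hlow
      rw [mul_add] at hup
      linarith
    have h4 : κ / (2 * K) * M = κ / 2 * M / K := by field_simp
    rw [h4, div_le_iff₀ hK]
    linarith
  have hW0 : (W : ℤ) ≠ 0 := by omega
  refine ⟨Gd.image fun z => ((W : ℤ) * z.1 + b, (W : ℤ) * z.2), fun t ht => ?_, ?_⟩
  · obtain ⟨z, hz, rfl⟩ := Finset.mem_image.1 ht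
    obtain ⟨hz1, ⟨hs1, hs2⟩, hnb⟩ := (hGd z).1 hz
    have hz2 := (hUm z hz1).2
    have he : ∀ j, (W : ℤ) * z.1 + b + c j * (W * z.2) = W * (z.1 + c j * z.2) + b :=
      fun j => by ring
    rw [hy] at hs1 hs2
    refine ⟨⟨θ, fun j => rf (z.1 + c j * z.2), fun j k => ?_, hinj z hz1 hnb, fun j => ?_,
      fun j => (hrf _ (hz2 j)).2.2.2.2.2.2.2, fun v w hvw => ?_, fun v => ?_⟩, fun j => ?_⟩
    · exact ⟨hprime _ (hz2 j) k, ((hrf _ (hz2 j)).1 k).2, hndW z hz1 hnb j k⟩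
    · exact (hrf _ (hz2 j)).2.1.trans (he j).symm
    · exact (hs1 (v, w) ((mem_G0 _).2 hvw)).trans (hwG _)
    · exact (hs2 v).trans (hwB _)
    · show (W : ℤ) * z.1 + b + c j * (W * z.2) ≤ W * N
      rw [he j]
      have h1 := (hA _ (hz2 j)).2.1
      have h2 : (b : ℤ) < W := by exact_mod_cast hbW
      have h3 : (W : ℤ) * (z.1 + c j * z.2 + 1) ≤ W * N :=
        mul_le_mul_of_nonneg_left (by omega) (by omega)
      linarith
  · rw [Finset.card_image_of_injective, mul_div_assoc, ← hM]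
    · exact hgood
    · intro z z' h
      obtain ⟨h1, h2⟩ := Prod.mk.inj h
      exact Prod.ext (mul_left_cancel₀ hW0 (add_right_cancel h1)) (mul_left_cancel₀ hW0 h2)

end Pool.Agent.Lib.MP_7d3fda_nt.R3
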