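import Pool.Agent.Lib.MP_7d3fda_nt.R3.XDefs

open Finset

namespace Pool.Agent.Lib.MP_7d3fda_nt.R3

/-- the local classes of the six values at the starting point, up to a common unit `w` -/
def kH (sA sB sC oA vC eC oC : ZMod 2) : Fin 6 → B4 :=
  ![(sA + sB + sC + 1, 0, 0, 0), (0, vC + 1, eC, oC), (0, 0, 0, 0), (sC, 0, 1, oA),
    (sB + 1, 0, 0, oA), (sA, vC, eC + 1, oC + 1)]

/-- the local classes of the four known points -/
def tH (al be ga : B4) (k : Fin 6 → B4) : Fin 4 → B4 × B4 :=
  ![(al + ga, epH + ∑ j, k j + al), (∑ j, k j + al, epH + al + be),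
    (∑ j, k j + k 2 + k 5, ∑ j, k j + k 0 + k 3), (∑ j, k j + k 0 + k 4, epH + ∑ j, k j + k 1 + k 5)]

namespace XStarAux

/-- the table of witnesses -/
def tab : ℕ :=
  190045061065045347741225485923729887321527592055788570735710041148883194608614756200633122273848999499548212867335274139926743561027367733297560900996620701052073993285115261148756059741589509743497796848900862313706360885429457980850455101418756899877954635055234293005985319750108513683560663706644754860419506631159281564875483456836628109825123463308465117971151947605716357945070544909428681693671079319113030780394916500253651357688933428187557789861381842203319366098177674763707066075380899756600107913938834193517965701922437682805942488015236002036717999999480337054866883412642902098354892802165116695579220845787886279113452272089169645674490006989462720384454445093400026287119288523570429567163691899063787387934472744392937862377206925261337118074281656320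

/-- a bit of the table -/
def tb (i : ℕ) : ZMod 2 := if tab.testBit i then 1 else 0

/-- four bits of the table -/
def t4 (i : ℕ) : B4 := (tb i, tb (i + 1), tb (i + 2), tb (i + 3))

/-- position in the table -/
def ix (sA sB sC oA vC eC oC : ZMod 2) : ℕ :=
  20 * (64 * sA.val + 32 * sB.val + 16 * sC.val + 8 * oA.val + 4 * vC.val + 2 * eC.val + oC.val)

/-- the four classes, computed -/
def t0 (sA sB sC oA vC eC oC : ZMod 2) : Fin 4 → B4 × B4 :=
  ![((sA + sC, vC, eC, oA + oC), (1 + sA, 1, 1, 1 + oA)),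
    ((sA, 1, 0, 1 + oA), (1 + sA + sB, 0, 0, 0)),
    ((sA, 1 + vC, eC + 1, oC), (sA + sB + 1, 1, 1, 1 + oA)),
    ((sA + sC, 1, 0, 1 + oA), (1 + sA, 0, 0, 0))]

/-- the statement with explicit witnesses -/
def Chk (al be ga : B4) (t : Fin 4 → B4 × B4) (M : B4 × B4 × B4 × B4) (c₀ : B4) : Prop :=
  (∀ c, cmb c t = 0 → c = 0) ∧ (∀ ρ, qH al be ga (lf M ρ) = 0) ∧
    (c₀ = 0 ↔ bet M al be ga = 0) ∧ ∀ c, lf M (rho (cmb c t)) = cmb c t ↔ c = 0 ∨ c = c₀

instance (al be ga : B4) (t : Fin 4 → B4 × B4) (M : B4 × B4 × B4 × B4) (c₀ : B4) :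
    Decidable (Chk al be ga t M c₀) := by
  have h1 : Decidable (∀ c, cmb c t = 0 → c = 0) := inferInstance
  have h2 : Decidable (∀ ρ, qH al be ga (lf M ρ) = 0) := inferInstance
  have h3 : Decidable (c₀ = 0 ↔ bet M al be ga = 0) := inferInstance
  have h5 : ∀ c, Decidable (lf M (rho (cmb c t)) = cmb c t ↔ c = 0 ∨ c = c₀) :=
    fun c => inferInstance
  have h4 : Decidable (∀ c, lf M (rho (cmb c t)) = cmb c t ↔ c = 0 ∨ c = c₀) :=
    Fintype.decidableForallFintype
  unfold Chk
  infer_instance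

theorem chk : ∀ sA sB sC oA vC eC oC : ZMod 2, (sB = 1 ∨ sC = 1) → (sA = 1 ∨ sB = 1) →
    (sA = 0 ∨ sC = 1) →
    Chk (sA, 0, 0, oA) (sB, 0, 1, oA) (sC, vC, eC, oC) (t0 sA sB sC oA vC eC oC)
      (t4 (ix sA sB sC oA vC eC oC), t4 (ix sA sB sC oA vC eC oC + 4),
        t4 (ix sA sB sC oA vC eC oC + 8), t4 (ix sA sB sC oA vC eC oC + 12))
      (t4 (ix sA sB sC oA vC eC oC + 16)) := by
  decide +kernel

theorem tH_eq : ∀ sA sB sC oA vC eC oC x y : ZMod 2, ∀ i,
    tH (sA, 0, 0, oA) (sB, 0, 1, oA) (sC, vC, eC, oC)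
      (fun j => kH sA sB sC oA vC eC oC j + (0, 0, x, y)) i = t0 sA sB sC oA vC eC oC i := by
  decide +kernel

end XStarAux

/-- the condition at infinity and two holds at the starting point -/
theorem star_tab (sA sB sC oA vC eC oC x y : ZMod 2) (h1 : sB = 1 ∨ sC = 1) (h2 : sA = 1 ∨ sB = 1)
    (h3 : sA = 0 ∨ sC = 1) :
    Star (sA, 0, 0, oA) (sB, 0, 1, oA) (sC, vC, eC, oC)
      (tH (sA, 0, 0, oA) (sB, 0, 1, oA) (sC, vC, eC, oC)
        fun j => kH sA sB sC oA vC eC oC j + (0, 0, x, y)) := by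
  rw [funext (XStarAux.tH_eq sA sB sC oA vC eC oC x y)]
  obtain ⟨a1, a2, a3, a4⟩ := XStarAux.chk sA sB sC oA vC eC oC h1 h2 h3
  exact ⟨a1, _, a2, _, a3, a4⟩

end Pool.Agent.Lib.MP_7d3fda_nt.R3
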