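import Pool.Agent.Lib.MP_7d3fda_nt.R3.XHil
import Pool.Agent.Lib.MP_7d3fda_nt.R3.XStar

open Finset
open scoped NumberTheorySymbols

noncomputable section

namespace Pool.Agent.Lib.MP_7d3fda_nt.R3

open Pool.Agent.Lib.MP_788af2_nt Pool.Agent.Lib.MP_7d3fda_nt.R2

namespace XBaseAux

/-- the coefficients of `U` -/
def al (A B C : ℤ) : Fin 6 → ℤ := ![1, 0, 1, B, A, C]

/-- the coefficients of `V` -/
def be (A B C : ℤ) : Fin 6 → ℤ := ![0, 1, 1, C, -B, A]

theorem fm_eq (A B C U V : ℤ) (j : Fin 6) :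
    fm A B C U V j = al A B C j * U + be A B C j * V := by
  fin_cases j <;> simp [fm, al, be]
  ring

theorem be_dvd (A B C : ℤ) {j : Fin 6} (hj : j ≠ 0) : be A B C j ∣ A * B * C := by
  fin_cases j
  · exact absurd rfl hj
  · simp [be]
  · simp [be]
  · exact ⟨A * B, by simp [be]; ring⟩
  · exact ⟨-(A * C), by simp [be]; ring⟩
  · exact ⟨B * C, by simp [be]; ring⟩

theorem al_le (A B C : ℤ) (j : Fin 6) : |al A B C j| ≤ |A| + |B| + |C| + 1 := by
  have h1 := abs_nonneg A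
  have h2 := abs_nonneg B
  have h3 := abs_nonneg C
  fin_cases j <;> simp [al] <;> linarith

theorem minor_sq (A B : ℤ) (i j : Fin 6) (hij : i ≠ j) :
    ∃ e : ℤ, e ∣ A * B * (A + B) * (A ^ 2 + A * B + B ^ 2) ∧
      (al A B (A + B) i * be A B (A + B) j - al A B (A + B) j * be A B (A + B) i) ^ 2 = e ^ 2 := by
  have d1 : (1 : ℤ) ∣ A * B * (A + B) * (A ^ 2 + A * B + B ^ 2) := one_dvd _
  have d2 : A ∣ A * B * (A + B) * (A ^ 2 + A * B + B ^ 2) :=
    ⟨B * (A + B) * (A ^ 2 + A * B + B ^ 2), by ring⟩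
  have d3 : B ∣ A * B * (A + B) * (A ^ 2 + A * B + B ^ 2) :=
    ⟨A * (A + B) * (A ^ 2 + A * B + B ^ 2), by ring⟩
  have d4 : A + B ∣ A * B * (A + B) * (A ^ 2 + A * B + B ^ 2) :=
    ⟨A * B * (A ^ 2 + A * B + B ^ 2), by ring⟩
  have d5 : A ^ 2 + A * B + B ^ 2 ∣ A * B * (A + B) * (A ^ 2 + A * B + B ^ 2) :=
    ⟨A * B * (A + B), by ring⟩
  fin_cases i <;> fin_cases j <;>
    simp only [al, be, Fin.zero_eta, Fin.mk_one, Fin.reduceFinMk, Matrix.cons_val] <;>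
    first
    | exact absurd rfl hij
    | (refine ⟨_, d1, ?_⟩; ring1)
    | (refine ⟨_, d2, ?_⟩; ring1)
    | (refine ⟨_, d3, ?_⟩; ring1)
    | (refine ⟨_, d4, ?_⟩; ring1)
    | (refine ⟨_, d5, ?_⟩; ring1)

theorem six_fun (a b c : X) : ∃ φ : Fin 6 → (X →ₗ[ZMod 2] ZMod 2),
    ∀ γ ∈ Gam0 a b c, (∀ i, φ i γ = 0) → γ = 0 := by
  classical
  have hfin : ({ep, a, b, c} : Set X).Finite := Set.toFinite _
  have : Module.Finite (ZMod 2) (Gam0 a b c) := Module.Finite.span_of_finite _ hfin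
  have hle : Module.finrank (ZMod 2) (Gam0 a b c) ≤ Module.finrank (ZMod 2) (Fin 6 → ZMod 2) := by
    have h1 : Module.finrank (ZMod 2) (Gam0 a b c) ≤ ({ep, a, b, c} : Set X).toFinset.card :=
      finrank_span_le_card _
    have h2 : ({ep, a, b, c} : Set X).toFinset.card ≤ 4 := by
      simp only [Set.toFinset_insert, Set.toFinset_singleton]
      exact Finset.card_le_four
    rw [Module.finrank_fin_fun]
    omega
  obtain ⟨f, hf⟩ := finrank_le_iff_exists_linearMap.1 hle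
  obtain ⟨g, hg⟩ := LinearMap.exists_extend f
  refine ⟨fun i => (LinearMap.proj i).comp g, fun γ hγ h => ?_⟩
  have h1 : f ⟨γ, hγ⟩ = 0 := by
    rw [← hg]
    funext i
    exact h i
  have h2 := hf (h1.trans (map_zero f).symm)
  exact congrArg Subtype.val h2

theorem six_primes (P : Fin 6 → ℕ → Prop) (h : ∀ i K, ∃ q, K < q ∧ P i q) (K : ℕ) :
    ∃ w : Fin 6 → ℕ, Function.Injective w ∧ ∀ i, K < w i ∧ P i (w i) := by
  obtain ⟨w0, a0, b0⟩ := h 0 K
  obtain ⟨w1, a1, b1⟩ := h 1 w0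
  obtain ⟨w2, a2, b2⟩ := h 2 w1
  obtain ⟨w3, a3, b3⟩ := h 3 w2
  obtain ⟨w4, a4, b4⟩ := h 4 w3
  obtain ⟨w5, a5, b5⟩ := h 5 w4
  refine ⟨![w0, w1, w2, w3, w4, w5], ?_, fun i => ?_⟩
  · intro i j hij
    fin_cases i <;> fin_cases j <;> first | rfl | (simp at hij; omega)
  · fin_cases i
    · exact ⟨a0, b0⟩
    · exact ⟨by simp; omega, b1⟩
    · exact ⟨by simp; omega, b2⟩
    · exact ⟨by simp; omega, b3⟩
    · exact ⟨by simp; omega, b4⟩
    · exact ⟨by simp; omega, b5⟩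

theorem crtZ {ι : Type} [Fintype ι] (μ : ι → ℤ) (h0 : ∀ i, μ i ≠ 0)
    (hc : Pairwise fun i j => IsCoprime (μ i) (μ j)) (x : ι → ℤ) (K : ℤ) :
    ∃ V, K < V ∧ ∀ i, μ i ∣ V - x i := by
  obtain ⟨r, hr⟩ := Ideal.exists_forall_sub_mem_ideal (I := fun i => Ideal.span {μ i})
    (fun i j hij => (Ideal.isCoprime_span_singleton_iff _ _).2 (hc hij)) x
  have hN : 0 < |∏ i, μ i| := abs_pos.2 (Finset.prod_ne_zero_iff.2 fun i _ => h0 i)
  refine ⟨r + |∏ i, μ i| * (|r| + |K| + 1), ?_, fun i => ?_⟩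
  · have h1 := neg_abs_le r
    have h2 := le_abs_self K
    have h3 := abs_nonneg r
    have h4 := abs_nonneg K
    nlinarith
  · have h1 : μ i ∣ r - x i := Ideal.mem_span_singleton.1 (hr i)
    have h2 : μ i ∣ |∏ i, μ i| := (dvd_abs _ _).2 (Finset.dvd_prod_of_mem _ (Finset.mem_univ i))
    have e : r + |∏ i, μ i| * (|r| + |K| + 1) - x i
        = (r - x i) + |∏ i, μ i| * (|r| + |K| + 1) := by ring
    rw [e]
    exact dvd_add h1 (h2.mul_right _)

theorem crtV (w : Fin 6 → ℕ) (hp : ∀ j, (w j).Prime) (hi : Function.Injective w) (R : ℤ) (k : ℕ)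
    (hR2 : ¬(2 : ℤ) ∣ R) (hwR : ∀ j, ¬(w j : ℤ) ∣ R) (hw2 : ∀ j, ¬(w j : ℤ) ∣ 2)
    (x : Fin 6 → ℤ) (y K : ℤ) :
    ∃ V, K < V ∧ R ∣ V - 1 ∧ (2 : ℤ) ^ k ∣ V - y ∧ ∀ j, (w j : ℤ) ^ 2 ∣ V - x j := by
  have hpr : ∀ j, Prime (w j : ℤ) := fun j => Nat.prime_iff_prime_int.1 (hp j)
  have c1 : IsCoprime R ((2 : ℤ) ^ k) :=
    ((Int.prime_two.coprime_iff_not_dvd.2 hR2).symm).pow_right
  have c2 : ∀ j, IsCoprime R ((w j : ℤ) ^ 2) := fun j =>
    (((hpr j).coprime_iff_not_dvd.2 (hwR j)).symm).pow_right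
  have c3 : ∀ j, IsCoprime ((2 : ℤ) ^ k) ((w j : ℤ) ^ 2) := fun j =>
    (((hpr j).coprime_iff_not_dvd.2 (hw2 j)).symm).pow
  have c4 : ∀ i j, i ≠ j → IsCoprime ((w i : ℤ) ^ 2) ((w j : ℤ) ^ 2) := fun i j hij =>
    (Nat.isCoprime_iff_coprime.2 ((Nat.coprime_primes (hp i) (hp j)).2 (hi.ne hij))).pow
  obtain ⟨V, h1, h2⟩ := crtZ (ι := Option (Option (Fin 6)))
    (fun o => o.elim R fun o' => o'.elim ((2 : ℤ) ^ k) fun j => (w j : ℤ) ^ 2)
    (by
      rintro (_ | _ | j)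
      · rintro (h : R = 0); exact hR2 (h ▸ dvd_zero _)
      · exact pow_ne_zero _ two_ne_zero
      · exact pow_ne_zero _ (hpr j).ne_zero)
    (by
      rintro (_ | _ | i) (_ | _ | j) hij
      · exact absurd rfl hij
      · exact c1
      · exact c2 j
      · exact c1.symm
      · exact absurd rfl hij
      · exact c3 j
      · exact (c2 i).symm
      · exact (c3 i).symm
      · exact c4 i j fun h => hij (by rw [h]))
    (fun o => o.elim 1 fun o' => o'.elim y x) K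
  exact ⟨V, h1, h2 none, h2 (some none), fun j => h2 (some (some j))⟩

theorem solve_lin {p b : ℤ} (hp : Prime p) (hb : ¬p ∣ b) (t : ℤ) : ∃ x, p ^ 2 ∣ b * x - t := by
  obtain ⟨u, v, huv⟩ : IsCoprime (p ^ 2) b := (hp.coprime_iff_not_dvd.2 hb).pow_left
  exact ⟨v * t, -(u * t), by linear_combination t * huv⟩

theorem sgn (a b U V : ℤ) (hb : b ≠ 0) (h : |a| * |U| < V) :
    a * U + b * V ≠ 0 ∧ qS (a * U + b * V) = qS b := by
  rw [← abs_mul] at h
  have h1 := neg_abs_le (a * U)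
  have h2 := le_abs_self (a * U)
  have h3 := abs_nonneg (a * U)
  rcases lt_or_gt_of_ne hb with hb | hb
  · have : a * U + b * V < 0 := by nlinarith
    exact ⟨this.ne, by rw [qS, qS, if_pos this, if_pos hb]⟩
  · have : 0 < a * U + b * V := by nlinarith
    exact ⟨this.ne', by rw [qS, qS, if_neg this.le.not_gt, if_neg hb.le.not_gt]⟩

theorem odd_near {r : ℕ} (hr : r.Prime) (a b U V : ℤ) (hb : b ≠ 0) (hV : ¬(r : ℤ) ∣ V)
    (hU : (r : ℤ) ^ (padicValInt r b + 1) ∣ U) : qV r (a * U + b * V) = qV r b := by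
  have : Fact r.Prime := ⟨hr⟩
  have hV0 : V ≠ 0 := by rintro rfl; exact hV (dvd_zero _)
  have hv : padicValInt r (b * V) = padicValInt r b := by
    rw [padicValInt.mul hb hV0, padicValInt.eq_zero_of_not_dvd hV, add_zero]
  have h := near hr (x := a * U + b * V) (y := b * V) (mul_ne_zero hb hV0) (by
    rw [hv, add_sub_cancel_right]
    exact hU.mul_left _)
  rw [h.2.2.1, qV, qV, hv]

theorem qV_neg (r : ℕ) (n : ℤ) : qV r (-n) = qV r n := by
  simp [qV, padicValInt]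

theorem qV_one (r : ℕ) : qV r 1 = 0 := by
  simp [qV]

theorem qV_self {r : ℕ} (hr : r.Prime) : qV r r = 1 := by
  have : Fact r.Prime := ⟨hr⟩
  simp [qV]

theorem qV_zero {r : ℕ} (hr : r.Prime) {n : ℤ} (h : ¬(r : ℤ) ∣ n) : qV r n = 0 := by
  have : Fact r.Prime := ⟨hr⟩
  exact LocDAux.qV_of_not_dvd h

theorem qS_neg {n : ℤ} (hn : n ≠ 0) : qS (-n) = qS n + 1 := by
  have h := isQF_qS (-1) n (by norm_num) hn
  rw [neg_one_mul] at h
  rw [h, add_comm]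
  simp [qS]

theorem upart_odd {n : ℤ} (h : ¬(2 : ℤ) ∣ n) : upart 2 n = n :=
  upart_of_not_dvd (p := 2) (by exact_mod_cast h)

theorem val_odd {n : ℤ} (h : ¬(2 : ℤ) ∣ n) : padicValInt 2 n = 0 :=
  padicValInt.eq_zero_of_not_dvd (by exact_mod_cast h)

theorem qV_odd {n : ℤ} (h : ¬(2 : ℤ) ∣ n) : qV 2 n = 0 :=
  qV_zero Nat.prime_two (by exact_mod_cast h)

theorem near_odd {x y : ℤ} (hy : ¬(2 : ℤ) ∣ y) (h : 8 ∣ x - y) :
    qV 2 x = 0 ∧ q4 x = q4 y ∧ q8 x = q8 y := by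
  have hy0 : y ≠ 0 := by rintro rfl; exact hy (dvd_zero _)
  obtain ⟨-, h1, h2, h3⟩ := near_two (x := x) hy0 (by rw [val_odd hy]; exact h)
  exact ⟨h1.trans (qV_odd hy), h2, h3⟩

theorem upart_two : upart 2 2 = 1 := by
  simpa using upart_pow_mul (p := 2) (s := 1) (u := 1) (by norm_num)

theorem q4_two : q4 2 = 0 := by rw [q4, upart_two]; simp

theorem q8_two : q8 2 = 0 := by rw [q8, upart_two]; simp

theorem qV_two : qV 2 2 = 1 := by simpa using qV_self Nat.prime_two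

theorem st_tt (a b c : X) (k : Fin 6 → X) (i : Fin 4) :
    two st (tt a b c k i) = tH (st a) (st b) (st c) (fun j => st (k j)) i := by
  fin_cases i <;> simp [tt, tH, T0, T1, map_add, map_sum, st_ep]

/-- the classes at infinity and at two -/
theorem st_kk {A B C U V : ℤ} (hA : A % 4 = 1) (hC : 8 ∣ C) (hABC : A + B = C) (hC0 : C ≠ 0)
    (hU : ¬(2 : ℤ) ∣ U) (hs : qS U = qS A + qS B + qS C + 1)
    (hV : (|A| + |B| + |C| + 1) * |U| < V)
    (h2 : (2 : ℤ) ^ (padicValInt 2 (2 * C * U) + 3 + (padicValInt 2 (C * U * (1 + 2 * A)) + 3))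
      ∣ V - 2 * C * U) (j : Fin 6) :
    fm A B C U V j ≠ 0 ∧ st (kk A B C U V j)
      = kH (qS A) (qS B) (qS C) (q8 A) (qV 2 C) (q4 C) (q8 C) j + (0, 0, q4 U, q8 U) := by
  have hA2 : ¬(2 : ℤ) ∣ A := by omega
  have hB2 : ¬(2 : ℤ) ∣ B := by omega
  have hD2 : ¬(2 : ℤ) ∣ 1 + 2 * A := by omega
  have hA0 : A ≠ 0 := by omega
  have hB0 : B ≠ 0 := by omega
  have hU0 : U ≠ 0 := by omega
  have hD0 : 1 + 2 * A ≠ 0 := by omega
  have hABC0 : A * B * C ≠ 0 := mul_ne_zero (mul_ne_zero hA0 hB0) hC0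
  have hsg : ∀ j, j ≠ 0 → fm A B C U V j ≠ 0 ∧ qS (fm A B C U V j) = qS (be A B C j) := by
    intro j hj
    rw [fm_eq]
    refine sgn _ _ _ _ (ne_zero_of_dvd_ne_zero hABC0 (be_dvd A B C hj)) ?_
    exact (mul_le_mul_of_nonneg_right (al_le A B C j) (abs_nonneg U)).trans_lt hV
  have q4A : q4 A = 0 := by rw [q4, upart_odd hA2, if_neg (by omega)]
  have q4B : q4 B = 1 := by rw [q4, upart_odd hB2, if_pos (by omega)]
  have q8B : q8 B = q8 A := by
    rw [q8, q8, upart_odd hA2, upart_odd hB2]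
    exact if_congr (by omega) rfl rfl
  have q4D : q4 (1 + 2 * A) = 1 := by rw [q4, upart_odd hD2, if_pos (by omega)]
  have q8D : q8 (1 + 2 * A) = 1 := by rw [q8, upart_odd hD2, if_pos (by omega)]
  have h8 : (8 : ℤ) ∣ V := by
    have h3 : (2 : ℤ) ^ 3 ∣ V - 2 * C * U := (pow_dvd_pow _ (by omega)).trans h2
    have h4 : (8 : ℤ) ∣ 2 * C * U := (hC.mul_left 2).mul_right U
    simpa using dvd_add h3 h4
  have hpr := Int.prime_two
  have hAU : ¬(2 : ℤ) ∣ A * U := fun h => (hpr.dvd_or_dvd h).elim hA2 hU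
  have hBU : ¬(2 : ℤ) ∣ B * U := fun h => (hpr.dvd_or_dvd h).elim hB2 hU
  have s1 : qS 1 = 0 := by simp [qS]
  have hCU : C * U ≠ 0 := mul_ne_zero hC0 hU0
  have h2C : 2 * C ≠ 0 := mul_ne_zero two_ne_zero hC0
  have i2 := isQF_qV Nat.prime_two
  have vU := qV_odd hU
  have vD := qV_odd hD2
  fin_cases j
  · refine ⟨hU0, ?_⟩
    show st (cl U) = (qS A + qS B + qS C + 1, 0, 0, 0) + (0, 0, q4 U, q8 U)
    rw [st_cl hU0, hs, vU]; simp
  · obtain ⟨n0, s0⟩ := hsg 1 (by decide)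
    refine ⟨n0, ?_⟩
    change V ≠ 0 at n0
    change qS V = qS 1 at s0
    show st (cl V) = (0, qV 2 C + 1, q4 C, q8 C) + (0, 0, q4 U, q8 U)
    obtain ⟨-, e1, e2, e3⟩ := near_two (x := V) (mul_ne_zero h2C hU0)
      ((pow_dvd_pow _ (by omega)).trans h2)
    rw [st_cl n0, s0, s1, e1, e2, e3, i2 _ _ h2C hU0, i2 _ _ two_ne_zero hC0,
      isQF_q4 _ _ h2C hU0, isQF_q4 _ _ two_ne_zero hC0, isQF_q8 _ _ h2C hU0,
      isQF_q8 _ _ two_ne_zero hC0, q4_two, q8_two, qV_two, vU]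
    simp [add_comm]
  · obtain ⟨n0, s0⟩ := hsg 2 (by decide)
    refine ⟨n0, ?_⟩
    change U + V ≠ 0 at n0
    change qS (U + V) = qS 1 at s0
    show st (cl (U + V)) = (0, 0, 0, 0) + (0, 0, q4 U, q8 U)
    obtain ⟨e1, e2, e3⟩ := near_odd (x := U + V) hU (by simpa using h8)
    rw [st_cl n0, s0, s1, e1, e2, e3]
    simp
  · obtain ⟨n0, s0⟩ := hsg 3 (by decide)
    refine ⟨n0, ?_⟩
    change B * U + C * V ≠ 0 at n0
    change qS (B * U + C * V) = qS C at s0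
    show st (cl (B * U + C * V)) = (qS C, 0, 1, q8 A) + (0, 0, q4 U, q8 U)
    obtain ⟨e1, e2, e3⟩ := near_odd (x := B * U + C * V) hBU (by simpa using hC.mul_right V)
    rw [st_cl n0, s0, e1, e2, e3, isQF_q4 _ _ hB0 hU0, isQF_q8 _ _ hB0 hU0, q4B, q8B]
    simp
  · obtain ⟨n0, s0⟩ := hsg 4 (by decide)
    refine ⟨n0, ?_⟩
    change A * U - B * V ≠ 0 at n0
    change qS (A * U - B * V) = qS (-B) at s0
    show st (cl (A * U - B * V)) = (qS B + 1, 0, 0, q8 A) + (0, 0, q4 U, q8 U)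
    obtain ⟨e1, e2, e3⟩ := near_odd (x := A * U - B * V) hAU (by simpa using h8.mul_left B)
    rw [st_cl n0, s0, qS_neg hB0, e1, e2, e3, isQF_q4 _ _ hA0 hU0, isQF_q8 _ _ hA0 hU0, q4A]
    simp
  · obtain ⟨n0, s0⟩ := hsg 5 (by decide)
    refine ⟨n0, ?_⟩
    change C * U + A * V ≠ 0 at n0
    change qS (C * U + A * V) = qS A at s0
    show st (cl (C * U + A * V)) = (qS A, qV 2 C, q4 C + 1, q8 C + 1) + (0, 0, q4 U, q8 U)
    obtain ⟨-, e1, e2, e3⟩ := near_two (x := C * U + A * V) (mul_ne_zero hCU hD0) (by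
      have e : C * U + A * V - C * U * (1 + 2 * A) = A * (V - 2 * C * U) := by ring
      rw [e]
      exact ((pow_dvd_pow _ (by omega)).trans h2).mul_left A)
    rw [st_cl n0, s0, e1, e2, e3, i2 _ _ hCU hD0, i2 _ _ hC0 hU0,
      isQF_q4 _ _ hCU hD0, isQF_q4 _ _ hC0 hU0, isQF_q8 _ _ hCU hD0,
      isQF_q8 _ _ hC0 hU0, q4D, q8D, vU, vD]
    simp [add_comm, add_assoc]

theorem st_consts {A B C : ℤ} (hA : A % 4 = 1) (hC : 8 ∣ C) (hABC : A + B = C) (hC0 : C ≠ 0) :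
    st (cl A) = (qS A, 0, 0, q8 A) ∧ st (cl B) = (qS B, 0, 1, q8 A) ∧
      st (cl C) = (qS C, qV 2 C, q4 C, q8 C) := by
  have hA2 : ¬(2 : ℤ) ∣ A := by omega
  have hB2 : ¬(2 : ℤ) ∣ B := by omega
  have q4A : q4 A = 0 := by rw [q4, upart_odd hA2, if_neg (by omega)]
  have q4B : q4 B = 1 := by rw [q4, upart_odd hB2, if_pos (by omega)]
  have q8B : q8 B = q8 A := by
    rw [q8, q8, upart_odd hA2, upart_odd hB2]
    exact if_congr (by omega) rfl rfl
  refine ⟨?_, ?_, st_cl hC0⟩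
  · rw [st_cl (by omega), qV_odd hA2, q4A]
  · rw [st_cl (by omega), qV_odd hB2, q4B, q8B]

end XBaseAux

theorem base {m n l A B C : ℤ} (h : Fam m n l A B C) : ∃ U V, Inv m n A B C U V := by
  classical
  have hABC : A + B = C := by
    apply mul_left_cancel₀ h.l0
    rw [mul_add, h.eA, h.eB, h.eC]; ring
  have hm : m ≠ 0 := by
    rintro rfl
    exact mul_ne_zero h.l0 h.A0 (by rw [h.eA]; ring)
  have hn : n ≠ 0 := by
    rintro rfl
    exact mul_ne_zero h.l0 h.C0 (by rw [h.eC]; ring)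
  have hmn : m + n ≠ 0 := fun h0 =>
    mul_ne_zero h.l0 h.B0 (by rw [h.eB]; linear_combination (n - m) * h0)
  have hA0 := h.A0
  have hB0 := h.B0
  have hC0 := h.C0
  have hH0 : HH m n A B C ≠ 0 := by
    unfold HH
    positivity
  have hQ0 : A ^ 2 + A * B + B ^ 2 ≠ 0 := by
    have : 0 < A ^ 2 := by positivity
    nlinarith [sq_nonneg (A + 2 * B)]
  have hP0 : A * B * C ≠ 0 := by positivity
  have hPH : A * B * C ∣ HH m n A B C := ⟨3 * m ^ 2 * (m + n) ^ 2 * n ^ 2, by unfold HH; ring⟩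
  have hPA : A ∣ A * B * C := ⟨B * C, by ring⟩
  have hPB : B ∣ A * B * C := ⟨A * C, by ring⟩
  have hPC : C ∣ A * B * C := ⟨A * B, by ring⟩
  have h2H : (2 : ℤ) ∣ HH m n A B C := ((show (2 : ℤ) ∣ 8 by norm_num).trans h.c8).trans
    (hPC.trans hPH)
  set H := HH m n A B C with hH
  set Q := A ^ 2 + A * B + B ^ 2 with hQ
  set T := H.natAbs.primeFactors.erase 2 with hT
  have hTm : ∀ r : ℕ, r ∈ T ↔ r.Prime ∧ r ≠ 2 ∧ (r : ℤ) ∣ H := by
    intro r
    rw [hT, Finset.mem_erase, Nat.mem_primeFactors, Int.natCast_dvd]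
    exact ⟨fun h => ⟨h.2.1, h.1, h.2.2.1⟩,
      fun h => ⟨h.2.1, h.1, h.2.2, Int.natAbs_ne_zero.2 hH0⟩⟩
  obtain ⟨φ, hφ⟩ := XBaseAux.six_fun (cl A) (cl B) (cl C)
  obtain ⟨w, hwi, hw⟩ := XBaseAux.six_primes
    (fun i q => q.Prime ∧ ∀ z ∈ Sup T, lin (qL q) z = φ i z)
    (fun i K => by
      obtain ⟨q, h1, h2, h3⟩ := prime_ex H.natAbs (Int.natAbs_pos.2 hH0) (φ i) K
      exact ⟨q, h2, h1, h3⟩) (H * Q).natAbs
  have hwp : ∀ j, (w j).Prime := fun j => (hw j).2.1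
  have hpr : ∀ j, Prime (w j : ℤ) := fun j => Nat.prime_iff_prime_int.1 (hwp j)
  have hwHQ : ∀ j, ¬(w j : ℤ) ∣ H * Q := fun j hd =>
    (Nat.le_of_dvd (Int.natAbs_pos.2 (mul_ne_zero hH0 hQ0)) (Int.natCast_dvd.1 hd)).not_gt (hw j).1
  have hwH : ∀ j, ¬(w j : ℤ) ∣ H := fun j hd => hwHQ j (hd.mul_right Q)
  have hwP : ∀ j, ¬(w j : ℤ) ∣ A * B * C := fun j hd => hwH j (hd.trans hPH)
  have hw2 : ∀ j, ¬(w j : ℤ) ∣ 2 := fun j hd => hwH j (hd.trans h2H)
  have hww : ∀ i j, i ≠ j → ¬(w i : ℤ) ∣ w j := fun i j hij =>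
    TableAux.not_dvd_prime (hwp i) (hwp j) (hwi.ne hij)
  set R : ℤ := ∏ p ∈ T, (p : ℤ) with hR
  have hRd : ∀ q : ℕ, q.Prime → (q : ℤ) ∣ R → q ∈ T := by
    intro q hq hd
    obtain ⟨p, hp, hd⟩ := (Prime.dvd_finsetProd_iff (Nat.prime_iff_prime_int.1 hq) _).1 hd
    rwa [(Nat.prime_dvd_prime_iff_eq hq ((hTm p).1 hp).1).1 (Int.natCast_dvd_natCast.1 hd)]
  have hR2 : ¬(2 : ℤ) ∣ R := fun hd => ((hTm 2).1 (hRd 2 Nat.prime_two hd)).2.1 rfl
  have hR0 : R ≠ 0 := fun h0 => hR2 (h0 ▸ dvd_zero _)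
  have hwR : ∀ j, ¬(w j : ℤ) ∣ R := fun j hd => hwH j ((hTm _).1 (hRd _ (hwp j) hd)).2.2
  have hRpos : 0 < R := Finset.prod_pos fun p hp => by exact_mod_cast ((hTm p).1 hp).1.pos
  have hRv : ∀ r ∈ T, qV r R = 1 := by
    intro r hr
    have hrp := ((hTm r).1 hr).1
    rw [hR, (isQF_qV hrp).prod _ _ fun p hp => by exact_mod_cast ((hTm p).1 hp).1.ne_zero,
      Finset.sum_eq_single r, XBaseAux.qV_self hrp]
    · intro p hp hpr
      exact XBaseAux.qV_zero hrp (TableAux.not_dvd_prime hrp ((hTm p).1 hp).1 hpr.symm)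
    · intro h; exact absurd hr h
  set O := upart 2 (A * B * C) with hO
  have hO2 : ¬(2 : ℤ) ∣ O := by exact_mod_cast not_dvd_upart (p := 2) hP0
  have hO0 : O ≠ 0 := fun h0 => hO2 (h0 ▸ dvd_zero _)
  have hOe : (2 : ℤ) ^ padicValInt 2 (A * B * C) * O = A * B * C := by
    exact_mod_cast pow_mul_upart (p := 2) (A * B * C)
  have h2s : (2 : ℤ) ^ padicValInt 2 (A * B * C) ≠ 0 := pow_ne_zero _ two_ne_zero
  have hwO : ∀ j, ¬(w j : ℤ) ∣ O := fun j hd => hwP j (hd.trans (Dvd.intro_left _ hOe))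
  have hw0 : (w 0 : ℤ) ≠ 0 := (hpr 0).ne_zero
  have hOR : O * R ≠ 0 := mul_ne_zero hO0 hR0
  set U : ℤ := -(O * R * w 0) with hU
  have hU2 : ¬(2 : ℤ) ∣ U := by
    rw [hU, dvd_neg]
    intro hd
    rcases Int.prime_two.dvd_or_dvd hd with hd | hd
    · exact (Int.prime_two.dvd_or_dvd hd).elim hO2 hR2
    · have h3 : 2 = w 0 := (Nat.prime_dvd_prime_iff_eq Nat.prime_two (hwp 0)).1
        (by exact_mod_cast hd)
      exact hw2 0 (by rw [← h3]; norm_num)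
  have hUs : qS U = qS A + qS B + qS C + 1 := by
    have e1 : qS (A * B * C) = qS O := by
      rw [← hOe, isQF_qS _ _ h2s hO0, qS, if_neg (by positivity : (0 : ℤ) ≤ _).not_gt, zero_add]
    have e2 : qS R = 0 := by rw [qS, if_neg hRpos.le.not_gt]
    have e3 : qS (w 0) = 0 := by rw [qS, if_neg (Int.natCast_nonneg _).not_gt]
    rw [hU, XBaseAux.qS_neg (mul_ne_zero hOR hw0), isQF_qS _ _ hOR hw0, isQF_qS _ _ hO0 hR0,
      e2, e3, ← e1, isQF_qS _ _ (mul_ne_zero hA0 hB0) hC0, isQF_qS _ _ hA0 hB0, add_zero, add_zero]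
  have hUw : ∀ j, j ≠ 0 → ¬(w j : ℤ) ∣ U := by
    intro j hj hd
    rw [hU, dvd_neg] at hd
    rcases (hpr j).dvd_or_dvd hd with hd | hd
    · exact ((hpr j).dvd_or_dvd hd).elim (hwO j) (hwR j)
    · exact hww j 0 hj hd
  have hUw0 : qV (w 0) U = 1 := by
    rw [hU, XBaseAux.qV_neg, isQF_qV (hwp 0) _ _ hOR hw0, XBaseAux.qV_self (hwp 0),
      XBaseAux.qV_zero (hwp 0) fun hd => ((hpr 0).dvd_or_dvd hd).elim (hwO 0) (hwR 0), zero_add]
  have hr2 : ∀ r ∈ T, ¬(r : ℤ) ∣ 2 := fun r hr hd =>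
    ((hTm r).1 hr).2.1 ((Nat.prime_dvd_prime_iff_eq ((hTm r).1 hr).1 Nat.prime_two).1
      (by exact_mod_cast hd))
  have hUr : ∀ r ∈ T, qV r U = qV r A + qV r B + qV r C + 1 := by
    intro r hr
    obtain ⟨hrp, -, hrH⟩ := (hTm r).1 hr
    have hri : Prime (r : ℤ) := Nat.prime_iff_prime_int.1 hrp
    have e1 : qV r (A * B * C) = qV r O := by
      rw [← hOe, isQF_qV hrp _ _ h2s hO0,
        XBaseAux.qV_zero hrp fun hd => hr2 r hr (hri.dvd_of_dvd_pow hd), zero_add]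
    have e3 : qV r (w 0) = 0 := XBaseAux.qV_zero hrp
      (TableAux.not_dvd_prime hrp (hwp 0) fun he => hwH 0 (he ▸ hrH))
    rw [hU, XBaseAux.qV_neg, isQF_qV hrp _ _ hOR hw0, isQF_qV hrp _ _ hO0 hR0, hRv r hr, e3, ← e1,
      isQF_qV hrp _ _ (mul_ne_zero hA0 hB0) hC0, isQF_qV hrp _ _ hA0 hB0, add_zero]
  have hUd : ∀ r ∈ T, ∀ b : ℤ, b ∣ A * B * C → (r : ℤ) ^ (padicValInt r b + 1) ∣ U := by
    intro r hr b hb
    have hrp := ((hTm r).1 hr).1
    have : Fact r.Prime := ⟨hrp⟩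
    have hri : Prime (r : ℤ) := Nat.prime_iff_prime_int.1 hrp
    have d1 : (r : ℤ) ^ padicValInt r b ∣ (2 : ℤ) ^ padicValInt 2 (A * B * C) * O := by
      rw [hOe]; exact (padicValInt_dvd b).trans hb
    have d2 : (r : ℤ) ^ padicValInt r b ∣ O :=
      (hri.coprime_iff_not_dvd.2 (hr2 r hr)).pow.dvd_of_dvd_mul_left d1
    rw [hU, dvd_neg, pow_succ]
    exact (mul_dvd_mul d2 (Finset.dvd_prod_of_mem _ hr)).mul_right _
  have hbe : ∀ i j, j ≠ 0 → ¬(w i : ℤ) ∣ XBaseAux.be A B C j := fun i j hj hd =>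
    hwP i (hd.trans (XBaseAux.be_dvd A B C hj))
  have hx : ∀ j, ∃ x : ℤ, (j = 0 → x = 1) ∧ (j ≠ 0 →
      (w j : ℤ) ^ 2 ∣ XBaseAux.be A B C j * x - (w j - XBaseAux.al A B C j * U)) := by
    intro j
    by_cases hj : j = 0
    · exact ⟨1, fun _ => rfl, fun h => absurd hj h⟩
    · obtain ⟨x, hx⟩ := XBaseAux.solve_lin (hpr j) (hbe j j hj) (w j - XBaseAux.al A B C j * U)
      exact ⟨x, fun h => absurd h hj, fun _ => hx⟩
  choose x hx0 hx1 using hx
  obtain ⟨V, hV, hVR, hV2, hVw⟩ := XBaseAux.crtV w hwp hwi R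
    (padicValInt 2 (2 * C * U) + 3 + (padicValInt 2 (C * U * (1 + 2 * A)) + 3)) hR2 hwR hw2 x
    (2 * C * U) ((|A| + |B| + |C| + 1) * |U|)
  have hst := XBaseAux.st_kk h.a4 h.c8 hABC hC0 hU2 hUs hV hV2
  have hunit : ∀ p : ℤ, Prime p → p ∣ V - 1 → ¬p ∣ V := fun p hp h1 h2 =>
    hp.not_dvd_one (by simpa using dvd_sub h2 h1)
  have hVw0 : ¬(w 0 : ℤ) ∣ V := hunit _ (hpr 0) (by
    have := hVw 0
    rw [hx0 0 rfl] at this
    exact (dvd_pow_self _ two_ne_zero).trans this)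
  have hself : ∀ j, j ≠ 0 → (w j : ℤ) ^ 2 ∣ fm A B C U V j - w j := by
    intro j hj
    have e : fm A B C U V j - w j = XBaseAux.be A B C j * (V - x j) +
        (XBaseAux.be A B C j * x j - (w j - XBaseAux.al A B C j * U)) := by
      rw [XBaseAux.fm_eq]; ring
    rw [e]
    exact dvd_add ((hVw j).mul_left _) (hx1 j hj)
  have hwit : ∀ j i, kk A B C U V i (w j) = if i = j then 1 else 0 := by
    intro j i
    rw [kk, cl_prime_apply _ (hwp j)]
    by_cases hij : i = j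
    · rw [if_pos hij, hij]
      by_cases hj : j = 0
      · rw [hj]; exact hUw0
      · have : Fact (w j).Prime := ⟨hwp j⟩
        have h1 := near (hwp j) (x := fm A B C U V j) (hpr j).ne_zero (by
          rw [padicValInt_self]; exact hself j hj)
        rw [h1.2.2.1, XBaseAux.qV_self (hwp j)]
    · rw [if_neg hij]
      refine XBaseAux.qV_zero (hwp j) fun hd => ?_
      by_cases hj : j = 0
      · subst hj
        rw [XBaseAux.fm_eq] at hd
        have d1 : (w 0 : ℤ) ∣ XBaseAux.al A B C i * U := by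
          rw [hU]; exact (dvd_neg.2 (dvd_mul_left _ _)).mul_left _
        exact ((hpr 0).dvd_or_dvd ((dvd_add_right d1).1 hd)).elim (hbe 0 i hij) hVw0
      · have d1 : (w j : ℤ) ∣ fm A B C U V j := by
          simpa using dvd_add ((dvd_pow_self _ two_ne_zero).trans (hself j hj)) (dvd_refl (w j : ℤ))
        obtain ⟨e, he1, he2⟩ := XBaseAux.minor_sq A B i j hij
        rw [hABC] at he1 he2
        have d2 : (w j : ℤ) ∣ (XBaseAux.al A B C i * XBaseAux.be A B C j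
            - XBaseAux.al A B C j * XBaseAux.be A B C i) * U := by
          have e' : (XBaseAux.al A B C i * XBaseAux.be A B C j
              - XBaseAux.al A B C j * XBaseAux.be A B C i) * U
              = XBaseAux.be A B C j * fm A B C U V i - XBaseAux.be A B C i * fm A B C U V j := by
            rw [XBaseAux.fm_eq, XBaseAux.fm_eq]; ring
          rw [e']
          exact dvd_sub (hd.mul_left _) (d1.mul_left _)
        rcases (hpr j).dvd_or_dvd d2 with d3 | d3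
        · have d4 : (w j : ℤ) ∣ e ^ 2 := he2 ▸ Dvd.dvd.pow d3 two_ne_zero
          exact hwHQ j ((((hpr j).dvd_of_dvd_pow d4).trans he1).trans (mul_dvd_mul_right hPH Q))
        · exact hUw j hj d3
  refine ⟨U, V, fun j => (hst j).1, fun r hrp hr2' hrH => ?_, ?_,
    ⟨w, fun j => ⟨hwp j, hwH j, hwit j⟩⟩, fun γ hγ hz => ?_⟩
  · have hr : r ∈ T := (hTm r).2 ⟨hrp, hr2', hrH⟩
    have hrV : ¬(r : ℤ) ∣ V := hunit _ (Nat.prime_iff_prime_int.1 hrp)
      ((Finset.dvd_prod_of_mem _ hr).trans hVR)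
    have hj : ∀ j, j ≠ 0 → kk A B C U V j r = qV r (XBaseAux.be A B C j) := by
      intro j hj
      have hb := XBaseAux.be_dvd A B C hj
      rw [kk, cl_prime_apply _ hrp, XBaseAux.fm_eq]
      exact XBaseAux.odd_near hrp _ _ _ _ (ne_zero_of_dvd_ne_zero hP0 hb) hrV (hUd r hr _ hb)
    have h0 : kk A B C U V 0 r = qV r A + qV r B + qV r C + 1 := by
      rw [kk, cl_prime_apply _ hrp]; exact hUr r hr
    have h1 : kk A B C U V 1 r = 0 := (hj 1 (by decide)).trans (XBaseAux.qV_one r)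
    have h2 : kk A B C U V 2 r = 0 := (hj 2 (by decide)).trans (XBaseAux.qV_one r)
    have h3 : kk A B C U V 3 r = qV r C := hj 3 (by decide)
    have h4 : kk A B C U V 4 r = qV r B := (hj 4 (by decide)).trans (XBaseAux.qV_neg r B)
    have h5 : kk A B C U V 5 r = qV r A := hj 5 (by decide)
    rw [Finsupp.finsetSum_apply, Fin.sum_univ_six, h0, h1, h2, h3, h4, h5]
    generalize qV r A = a
    generalize qV r B = b
    generalize qV r C = c
    revert a b c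
    decide
  · obtain ⟨e1, e2, e3⟩ := XBaseAux.st_consts h.a4 h.c8 hABC hC0
    have hsg := h.sg
    rw [funext (XBaseAux.st_tt _ _ _ _), funext fun j => (hst j).2, e1, e2, e3]
    refine star_tab _ _ _ _ _ _ _ _ _ ?_ ?_ ?_
    · by_cases hB : B < 0
      · left; rw [qS, if_pos hB]
      · right; rw [qS, if_pos (by omega)]
    · by_cases hA : A < 0
      · left; rw [qS, if_pos hA]
      · right; rw [qS, if_pos (by omega)]
    · by_cases hA : A < 0
      · right; rw [qS, if_pos (by omega)]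
      · left; rw [qS, if_neg hA]
  · have hsup : ∀ b : ℤ, b ∣ A * B * C → cl b ∈ Sup T := fun b hb =>
      cl_mem_Sup (ne_zero_of_dvd_ne_zero hP0 hb) fun r h1 h2 h3 =>
        (hTm r).2 ⟨h1, h2, (h3.trans hb).trans hPH⟩
    have hle : Gam0 (cl A) (cl B) (cl C) ≤ Sup T := by
      refine Submodule.span_le.2 ?_
      rintro z (rfl | rfl | rfl | rfl)
      · exact ep_mem_Sup T
      · exact hsup _ hPA
      · exact hsup _ hPB
      · exact hsup _ hPC
    have hzero : ∀ i (b : ℤ), b ∣ A * B * C → cl b (w i) = 0 := fun i b hb => by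
      rw [cl_prime_apply _ (hwp i)]
      exact XBaseAux.qV_zero (hwp i) fun hd => hwP i (hd.trans hb)
    refine hφ γ hγ fun i => ?_
    rw [← (hw i).2.2 γ (hle hγ)]
    refine hz (w i) (mem_Sg.2 ⟨(hwp i).ne_zero, fun h2 => hw2 i (by rw [h2]; norm_num), ?_⟩)
      (hzero i _ hPA) (hzero i _ hPB) (hzero i _ hPC)
    rw [Finsupp.finsetSum_apply]
    simp [hwit]

end Pool.Agent.Lib.MP_7d3fda_nt.R3
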