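import Pool.Agent.Lib.MP_7d3fda_nt.R3.XCert0

open Finset

namespace Pool.Agent.Lib.MP_7d3fda_nt.R3

namespace XCertAux

theorem two0 : (2 : ZMod 2) = 0 := rfl

/-- the unknowns as a sequence -/
def wv (x : Fin 3 → B2) (v : Fin 6 → Fin 3 → B2) (n : ℕ) : ZMod 2 :=
  if n < 6 then (if n % 2 = 0 then (x (Fin.ofNat 3 (n / 2))).1 else (x (Fin.ofNat 3 (n / 2))).2)
  else if n % 2 = 0 then (v (Fin.ofNat 6 ((n - 6) / 6)) (Fin.ofNat 3 ((n - 6) % 6 / 2))).1
    else (v (Fin.ofNat 6 ((n - 6) / 6)) (Fin.ofNat 3 ((n - 6) % 6 / 2))).2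

section

variable (x : Fin 3 → B2) (v : Fin 6 → Fin 3 → B2)

theorem ex0 (k : Fin 3) : ev (wv x v) (2 ^ (2 * k.val)) = (x k).1 := by
  rw [ev_pow _ (by omega)]
  fin_cases k <;> rfl

theorem ex1 (k : Fin 3) : ev (wv x v) (2 ^ (2 * k.val + 1)) = (x k).2 := by
  rw [ev_pow _ (by omega)]
  fin_cases k <;> rfl

theorem ev0 (j : Fin 6) (k : Fin 3) : ev (wv x v) (2 ^ (6 + 2 * (3 * j.val + k.val))) = (v j k).1 := by
  rw [ev_pow _ (by omega)]
  fin_cases j <;> fin_cases k <;> rfl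

theorem ev1 (j : Fin 6) (k : Fin 3) :
    ev (wv x v) (2 ^ (6 + 2 * (3 * j.val + k.val) + 1)) = (v j k).2 := by
  rw [ev_pow _ (by omega)]
  fin_cases j <;> fin_cases k <;> rfl

theorem es0 (k : Fin 3) : ev (wv x v) (es k 0) = (∑ j, v j k).1 := by
  simp only [es, ev_xor, Fin.sum_univ_six, Prod.fst_add, ← ev0 x v]
  fin_cases k <;> rfl

theorem es1 (k : Fin 3) : ev (wv x v) (es k 1) = (∑ j, v j k).2 := by
  simp only [es, ev_xor, Fin.sum_univ_six, Prod.snd_add, ← ev1 x v]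
  fin_cases k <;> rfl

end

theorem sum18 (f : ℕ → ℕ → ZMod 2) :
    ((List.range 18).map fun n => f (n / 3) (n % 3)).sum = ∑ i : Fin 6, ∑ l : Fin 3, f i l := by
  simp only [Fin.sum_univ_six, Fin.sum_univ_three, List.range_succ, List.range_zero, List.map_append,
    List.map_cons, List.map_nil, List.sum_append, List.sum_cons, List.sum_nil]
  norm_num
  ring

theorem ev_foldr (w : ℕ → ZMod 2) (p : ℕ → Bool) (g : ℕ → ℕ) (l : List ℕ) :
    ev w (l.foldr (fun n m => cz (p n) (g n) ^^^ m) 0) =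
      (l.map fun n => b2 (p n) * ev w (g n)).sum := by
  induction l with
  | nil => exact ev_zero w
  | cons a l ih => rw [List.foldr_cons, ev_xor, ev_cz, ih, List.map_cons, List.sum_cons]

theorem b2_foldr (p : ℕ → Bool) (l : List ℕ) :
    b2 (l.foldr (fun n m => p n ^^ m) false) = (l.map fun n => b2 (p n)).sum := by
  induction l with
  | nil => rfl
  | cons a l ih => rw [List.foldr_cons, b2_xor, ih, List.map_cons, List.sum_cons]

section

variable (abc kap q th : ℕ) (e : Bool)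

/-- value on the first constant -/
def al (k : Fin 3) : ZMod 2 := b2 (abc.testBit (3 * k))

/-- value on the second constant -/
def be (k : Fin 3) : ZMod 2 := b2 (abc.testBit (3 * k + 1))

/-- value on the third constant -/
def ga (k : Fin 3) : ZMod 2 := b2 (abc.testBit (3 * k + 2))

/-- values on the forms -/
def kp (k : Fin 3) (j : Fin 6) : ZMod 2 := b2 (kap.testBit (6 * k + j))

/-- the symbols -/
def SS (i : Fin 6) (l : Fin 3) (j : Fin 6) (k : Fin 3) : ZMod 2 := b2 (sy abc kap q th e i l j k)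

theorem ev_col (w : ℕ → ZMod 2) (j : Fin 6) (k : Fin 3) (c : ℕ) :
    ev w (col abc kap q th e j k c) =
      ∑ i : Fin 6, ∑ l : Fin 3,
        SS abc kap q th e i l j k * ev w (2 ^ (6 + 2 * (3 * i.val + l.val) + c)) := by
  rw [col, ev_foldr]
  refine Eq.trans ?_ (sum18 fun i l => b2 (sy abc kap q th e i l j k) *
    ev w (2 ^ (6 + 2 * (3 * i + l) + c)))
  simp only [Nat.div_add_mod]

theorem b2_db (j : Fin 6) (k : Fin 3) : b2 (db abc kap q th e j k) =
    ∑ i, kp kap k i + ∑ i : Fin 6, ∑ l : Fin 3, SS abc kap q th e i l j k := by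
  rw [db, b2_xor, b2_foldr, b2_foldr, sum18 fun i l => b2 (sy abc kap q th e i l j k)]
  congr 1

theorem rows_zero {x : Fin 3 → B2} {v : Fin 6 → Fin 3 → B2} (et : Fin 3)
    (h : Eqs (al abc) (be abc) (ga abc) (kp kap) (SS abc kap q th e) x v)
    (h0 : ∀ k, k ≠ et → ∑ j, v j k = 0) :
    ∀ p ∈ bld [] (rows abc kap q th e et), ev (wv x v) p.1 = 0 := by
  refine ev_bld _ _ (fun r hr => ?_) _ (by simp)
  rw [rows, List.mem_append, List.mem_append, List.mem_map, List.mem_map] at hr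
  rcases hr with ⟨n, hn, rfl⟩ | ⟨n, hn, rfl⟩ | hr
  · have hn' := List.mem_range.1 hn
    have k := (h ⟨n / 3, by omega⟩ ⟨n % 3, by omega⟩).1
    have a := ev_col abc kap q th e (wv x v) ⟨n / 3, by omega⟩ ⟨n % 3, by omega⟩ 0
    have b := b2_db abc kap q th e ⟨n / 3, by omega⟩ ⟨n % 3, by omega⟩
    have c0 := ev0 x v ⟨n / 3, by omega⟩ ⟨n % 3, by omega⟩
    have c1 := ev1 x v ⟨n / 3, by omega⟩ ⟨n % 3, by omega⟩
    have c2 := ex0 x v ⟨n % 3, by omega⟩
    simp only [add_zero, ev0] at a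
    simp only [row0, ev_xor, ev_cz, b2_xor] at a b c0 c1 c2 ⊢
    rw [a, b, c0, c1, c2, k]
    simp only [al, ga]
    ring_nf
    simp [two0]
  · have hn' := List.mem_range.1 hn
    have k := (h ⟨n / 3, by omega⟩ ⟨n % 3, by omega⟩).2
    have a := ev_col abc kap q th e (wv x v) ⟨n / 3, by omega⟩ ⟨n % 3, by omega⟩ 1
    have b := b2_db abc kap q th e ⟨n / 3, by omega⟩ ⟨n % 3, by omega⟩
    have c0 := ev0 x v ⟨n / 3, by omega⟩ ⟨n % 3, by omega⟩
    have c1 := ev1 x v ⟨n / 3, by omega⟩ ⟨n % 3, by omega⟩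
    have c2 := ex1 x v ⟨n % 3, by omega⟩
    simp only [ev1] at a
    simp only [row1, ev_xor, ev_cz, b2_xor] at a b c0 c1 c2 ⊢
    rw [a, b, c0, c1, c2, k]
    simp only [al, be]
    ring_nf
    simp [two0]
  · have h1 := h0 (et + 1) (by fin_cases et <;> decide)
    have h2 := h0 (et + 2) (by fin_cases et <;> decide)
    have a1 := es0 x v (et + 1)
    have a2 := es1 x v (et + 1)
    have a3 := es0 x v (et + 2)
    have a4 := es1 x v (et + 2)
    rw [h1] at a1 a2
    rw [h2] at a3 a4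
    simp only [List.mem_cons, List.not_mem_nil, or_false] at hr
    rcases hr with rfl | rfl | rfl | rfl
    exacts [a1, a2, a3, a4]

theorem c3_sound {x : Fin 3 → B2} {v : Fin 6 → Fin 3 → B2} (et : Fin 3) {b : List (ℕ × ℕ)}
    (hb : ∀ p ∈ b, ev (wv x v) p.1 = 0) {t0 t1 : Bool} (h : c3 et b t0 t1 = true)
    (ht : ∑ j, v j et = (b2 t0, b2 t1)) (h01 : (t0 || t1) = true) :
    ∃ j k l, wg (∑ j, v j et) (v j k + v j l) = 1 := by
  obtain ⟨n, hn, hr⟩ := List.any_eq_true.1 h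
  have hn' := List.mem_range.1 hn
  have a := ev_of (wv x v) _ (ev_bld _ _ (fun r hr => ?_) _ hb) hr
  · refine ⟨⟨n / 3, by omega⟩, ⟨n % 3, by omega⟩, ⟨(n + 1) % 3, by omega⟩, ?_⟩
    have c0 := ev0 x v ⟨n / 3, by omega⟩ ⟨n % 3, by omega⟩
    have c1 := ev1 x v ⟨n / 3, by omega⟩ ⟨n % 3, by omega⟩
    have c2 := ev0 x v ⟨n / 3, by omega⟩ ⟨(n + 1) % 3, by omega⟩
    have c3 := ev1 x v ⟨n / 3, by omega⟩ ⟨(n + 1) % 3, by omega⟩
    simp only [Nat.div_add_mod] at c0 c1
    simp only [ev_xor, ev_cz, es0, es1, ht] at a c2 c3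
    rw [c0, c1, c2, c3] at a
    rw [ht, wg, Prod.fst_add, Prod.snd_add]
    revert a h01
    generalize (v _ _).1 + (v _ _).1 = s, (v _ _).2 + (v _ _).2 = s'
    generalize t0 = u0, t1 = u1
    revert s s' u0 u1
    decide
  · rw [List.mem_singleton.1 hr, ev_xor, ev_cz, ev_cz, es0, es1, ht]
    generalize t0 = u0, t1 = u1
    revert u0 u1
    decide

theorem sound (et : Fin 3) (h : c134 et (bld [] (rows abc kap q th e et)) = true)
    (h0 : ∀ e : Fin 3 → B2,
      (∀ i, ∑ k, wg (e k) (Bv (al abc k) (be abc k) (ga abc k) (kp kap k) i) = 0) →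
        ∀ k, k ≠ et → e k = 0)
    (h0' : ∀ w : B4, (∀ k, cmb w (Bv (al abc k) (be abc k) (ga abc k) (kp kap k)) = 0) → w = 0) :
    Design et (al abc) (be abc) (ga abc) (kp kap) (SS abc kap q th e) := by
  simp only [c134, Bool.and_eq_true] at h
  obtain ⟨⟨h1, ⟨h31, h32⟩, h33⟩, h41, h42⟩ := h
  refine ⟨h0, h0', fun x v hE hs a0 a1 a2 => ?_, fun x v hE hs hc => ?_, fun x v hE hs hx => ?_⟩
  · have hb := rows_zero abc kap q th e et hE fun k _ => hs k
    have key : ∀ i, i < 42 → ev (wv x v) (2 ^ i) = 0 := fun i hi => by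
      refine ev_of (wv x v) _ (ev_bld _ _ (fun r hr => ?_) _ hb)
        (List.all_eq_true.1 h1 i (List.mem_range.2 hi))
      simp only [List.mem_cons, List.not_mem_nil, or_false] at hr
      rcases hr with rfl | rfl | rfl | rfl | rfl | rfl
      · rw [es0, hs]; rfl
      · rw [es1, hs]; rfl
      · exact (ev0 x v 0 0).trans (by rw [a0]; rfl)
      · exact (ev1 x v 0 0).trans (by rw [a0]; rfl)
      · exact (ev0 x v 1 0).trans a1
      · exact (ev0 x v 2 0).trans a2
    refine ⟨funext fun k => Prod.ext ?_ ?_, funext fun j => funext fun k => Prod.ext ?_ ?_⟩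
    · exact (ex0 x v k).symm.trans (key _ (by omega))
    · exact (ex1 x v k).symm.trans (key _ (by omega))
    · exact (ev0 x v j k).symm.trans (key _ (by omega))
    · exact (ev1 x v j k).symm.trans (key _ (by omega))
  · have hb := rows_zero abc kap q th e et hE hs
    have hc' : ∑ j, v j et = (b2 true, b2 false) ∨ ∑ j, v j et = (b2 false, b2 true) ∨
        ∑ j, v j et = (b2 true, b2 true) := by
      revert hc
      generalize ∑ j, v j et = c
      revert c
      decide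
    rcases hc' with c | c | c
    exacts [c3_sound et hb h31 c rfl, c3_sound et hb h32 c rfl, c3_sound et hb h33 c rfl]
  · have hb := rows_zero abc kap q th e et hE hs
    have hb' := ev_bld (wv x v) [2 ^ (2 * et.val), 2 ^ (2 * et.val + 1)] (fun r hr => by
      simp only [List.mem_cons, List.not_mem_nil, or_false] at hr
      rcases hr with rfl | rfl
      · rw [ex0, hx]; rfl
      · rw [ex1, hx]; rfl) _ hb
    exact Prod.ext ((es0 x v et).symm.trans (ev_of _ _ hb' h41))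
      ((es1 x v et).symm.trans (ev_of _ _ hb' h42))

theorem b2_ch (k : Fin 3) (i j : Fin 6) : b2 (ch abc kap k i j) =
    dl6 (al abc k) (be abc k) (ga abc k) i j + kp kap k i + kp kap k j := by
  rw [ch, b2_xor, b2_xor]
  congr 2
  fin_cases i <;> fin_cases j <;> rfl

theorem eq_SS {θ : Fin 3 → ZMod 2} {S : Fin 6 → Fin 3 → Fin 6 → Fin 3 → ZMod 2}
    {σ : Fin 6 → Fin 3 → ZMod 2} (hth : ∀ i : Fin 3, b2 (th.testBit i) = θ i)
    (h : SymRel (al abc) (be abc) (ga abc) (kp kap) (fun v w => b2 (qb q v.2 v.1 w.2 w.1))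
      (fun v => b2 (sb q v.2 v.1)) θ S σ) : ∃ e, S = SS abc kap q th e := by
  have hq : ∀ i j : Fin 6, i ≠ j → ∀ l k : Fin 2,
      S i l.castSucc j k.castSucc = b2 (qb q i l j k) := by
    intro i j hij l k
    rcases lt_or_gt_of_ne hij with h1 | h1
    · exact h.q (l, i) (k, j) h1
    · rw [h.symm, h.q (k, j) (l, i) h1]
      have a1 : (j : ℕ).blt i = true := by rw [Nat.blt_eq]; exact h1
      have a2 : (i : ℕ).blt j = false := by
        rw [← Bool.not_eq_true, Nat.blt_eq]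
        exact h1.not_gt
      simp only [qb, a1, a2, cond_true, cond_false]
  have hd : ∀ k i j, dl6 (al abc k) (be abc k) (ga abc k) i j =
      dl6 (al abc k) (be abc k) (ga abc k) j i := fun k i j => by
    fin_cases i <;> fin_cases j <;> rfl
  have h1 : ∀ i j : Fin 6, i ≠ j → ∀ k : Fin 2, S i 2 j k.castSucc = b2 (s1 abc kap q i j k) := by
    intro i j hij k
    have a := h.r i j k.castSucc hij
    have a0 : S i 0 j k.castSucc = b2 (qb q i 0 j k) := hq i j hij 0 k
    have a1 : S i 1 j k.castSucc = b2 (qb q i 1 j k) := hq i j hij 1 k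
    have a2 := b2_ch abc kap k.castSucc i j
    have a3 : σ j k.castSucc = b2 (sb q j k) := h.s (k, j)
    rw [Fin.val_castSucc] at a2
    rw [s1, b2_xor, b2_xor, b2_xor, a2, ← a0, ← a1, ← a3, ← a]
    linear_combination (-(S i 0 j k.castSucc) - S i 1 j k.castSucc) * two0
  have h10 : ∀ i j : Fin 6, i ≠ j → S i 2 j 0 = b2 (s1 abc kap q i j 0) :=
    fun i j hij => h1 i j hij 0
  have h11 : ∀ i j : Fin 6, i ≠ j → S i 2 j 1 = b2 (s1 abc kap q i j 1) :=
    fun i j hij => h1 i j hij 1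
  have hs0 : ∀ j : Fin 6, σ j 0 = b2 (sb q j 0) := fun j => h.s (0, j)
  have hs1 : ∀ j : Fin 6, σ j 1 = b2 (sb q j 1) := fun j => h.s (1, j)
  obtain ⟨e, he⟩ : ∃ e, b2 e = σ 0 2 + σ 0 0 + σ 0 1 := by
    generalize σ 0 2 + σ 0 0 + σ 0 1 = z
    revert z
    decide
  have hσ : ∀ j, σ j 2 = b2 e + σ j 0 + σ j 1 := fun j => by
    by_cases hj : j = 0
    · rw [hj, he]
      linear_combination (-σ 0 0 - σ 0 1) * two0
    · have a0 := h.r 0 j 0 (Ne.symm hj)
      have a1 := h.r 0 j 1 (Ne.symm hj)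
      have a2 := h.r 0 j 2 (Ne.symm hj)
      have b0 := h.r j 0 0 hj
      have b1 := h.r j 0 1 hj
      have b2' := h.r j 0 2 hj
      simp only [h.symm j _ 0 _, hd _ j 0] at b0 b1 b2'
      rw [he]
      linear_combination b0 + b1 + b2' - a0 - a1 - a2 + (-σ j 0 - σ j 1) * two0
  refine ⟨e, funext fun i => funext fun l => funext fun j => funext fun k => ?_⟩
  by_cases hij : i = j
  · subst hij
    obtain ⟨t0, t1, t2⟩ := h.th i
    have u0 : b2 (th.testBit 0) = θ 0 := hth 0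
    have u1 : b2 (th.testBit 1) = θ 1 := hth 1
    have u2 : b2 (th.testBit 2) = θ 2 := hth 2
    simp only [SS, sy, beq_self_eq_true, cond_true]
    fin_cases l <;> fin_cases k
    exacts [h.diag _ _, (h.symm _ _ _ _).trans (t0.trans u0.symm),
      (h.symm _ _ _ _).trans (t1.trans u1.symm), t0.trans u0.symm, h.diag _ _,
      (h.symm _ _ _ _).trans (t2.trans u2.symm), t1.trans u1.symm, t2.trans u2.symm, h.diag _ _]
  · have a : ((i : ℕ) == j) = false := by
      rw [beq_eq_false_iff_ne]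
      exact fun e => hij (Fin.ext e)
    simp only [SS, sy, a, cond_false]
    fin_cases l <;> fin_cases k
    · exact hq i j hij 0 0
    · exact hq i j hij 0 1
    · exact (h.symm _ _ _ _).trans (h10 j i (Ne.symm hij))
    · exact hq i j hij 1 0
    · exact hq i j hij 1 1
    · exact (h.symm _ _ _ _).trans (h11 j i (Ne.symm hij))
    · exact h10 i j hij
    · exact h11 i j hij
    · show S i 2 j 2 = b2 (ch abc kap 2 i j ^^ e ^^ sb q j 0 ^^ sb q j 1 ^^ s1 abc kap q j i 0 ^^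
        s1 abc kap q j i 1)
      have a2 : b2 (ch abc kap 2 i j) = _ := b2_ch abc kap 2 i j
      have a3 := h.r i j 2 hij
      simp only [b2_xor]
      rw [a2, ← hs0, ← hs1, ← h10 j i (Ne.symm hij), ← h11 j i (Ne.symm hij), h.symm j 2 i 0,
        h.symm j 2 i 1]
      linear_combination a3 + hσ j + (-S i 0 j 2 - S i 1 j 2) * two0

end

/-- the code of three bits -/
def code (θ : Fin 3 → ZMod 2) : Fin 8 :=
  Fin.ofNat 8 ((θ 0).val + 2 * (θ 1).val + 4 * (θ 2).val)

theorem code_bit : ∀ (θ : Fin 3 → ZMod 2) (i : Fin 3), b2 ((code θ).val.testBit i) = θ i := by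
  decide

theorem d0_tab : ∀ d : Fin 3, ∀ e0 e1 e2 : B2, (∀ i, ∑ k, wg (![e0, e1, e2] k)
    (Bv (al (abcN d) k) (be (abcN d) k) (ga (abcN d) k) (kp (kapN d) k) i) = 0) →
      ∀ k, k ≠ etN d → ![e0, e1, e2] k = 0 := by
  decide +kernel

theorem d0_tab' : ∀ d : Fin 3, ∀ w : B4,
    (∀ k, cmb w (Bv (al (abcN d) k) (be (abcN d) k) (ga (abcN d) k)
      (kp (kapN d) k)) = 0) → w = 0 := by
  decide +kernel

end XCertAux

open XCertAux in
theorem cert (d : Fin 3) : ∃ (et : Fin 3) (al be ga : Fin 3 → ZMod 2) (kp : Fin 3 → Fin 6 → ZMod 2)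
    (qq : (Fin 3 → ZMod 2) → Fin 2 × Fin 6 → Fin 2 × Fin 6 → ZMod 2)
    (sg : (Fin 3 → ZMod 2) → Fin 2 × Fin 6 → ZMod 2),
    (al et = 0 ∧ be et = 0 ∧ ga et = 0 ∧ ∀ j, kp et j = 0) ∧
    (d = 0 → ∀ k, ga k = 0) ∧ (d = 1 → ∀ k, al k = 0) ∧ (d = 2 → ∀ k, be k = 0) ∧
    ¬(al 0 = al 1 ∧ be 0 = be 1 ∧ ga 0 = ga 1) ∧
    ∀ θ S σ, SymRel al be ga kp (qq θ) (sg θ) θ S σ → Design et al be ga kp S := by
  refine ⟨etN d, al (abcN d), be (abcN d), ga (abcN d), kp (kapN d),
    fun θ v w => b2 (qb (qN d >>> (156 * (code θ).val)) v.2 v.1 w.2 w.1),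
    fun θ v => b2 (sb (qN d >>> (156 * (code θ).val)) v.2 v.1), by revert d; decide,
    by revert d; decide, by revert d; decide, by revert d; decide, by revert d; decide,
    fun θ S σ h => ?_⟩
  obtain ⟨e, rfl⟩ := eq_SS _ _ _ (code θ).val (code_bit θ) h
  refine sound _ _ _ _ e (etN d) ?_ (fun e he => ?_) fun w hw => d0_tab' d w hw
  · fin_cases d
    exacts [chk0 _ e, chk1 _ e, chk2 _ e]
  · have e1 : e = ![e 0, e 1, e 2] := by
      funext k
      fin_cases k <;> rfl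
    rw [e1] at he ⊢
    exact d0_tab d _ _ _ he

end Pool.Agent.Lib.MP_7d3fda_nt.R3
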