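import Pool.Agent.Lib.MP_7d3fda_nt.R3.XDes

open Finset

namespace Pool.Agent.Lib.MP_7d3fda_nt.R3

namespace XCertAux

/-- a Boolean as a bit -/
def b2 (b : Bool) : ZMod 2 := if b then 1 else 0

theorem b2_xor (a b : Bool) : b2 (a ^^ b) = b2 a + b2 b := by
  revert a b
  decide

/-- evaluation of a linear form written as a number -/
def ev (w : ℕ → ZMod 2) (m : ℕ) : ZMod 2 := ∑ i ∈ range 42, b2 (m.testBit i) * w i

theorem ev_xor (w : ℕ → ZMod 2) (m n : ℕ) : ev w (m ^^^ n) = ev w m + ev w n := by
  simp only [ev, Nat.testBit_xor, b2_xor, add_mul, sum_add_distrib]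

theorem ev_zero (w : ℕ → ZMod 2) : ev w 0 = 0 := by simp [ev, b2]

theorem ev_pow (w : ℕ → ZMod 2) {i : ℕ} (hi : i < 42) : ev w (2 ^ i) = w i := by
  rw [ev, sum_eq_single i]
  · simp [b2]
  · intro j _ hj
    rw [Nat.testBit_two_pow_of_ne hj.symm]
    simp [b2]
  · intro h
    exact absurd (mem_range.2 hi) h

/-- a form or zero -/
def cz (b : Bool) (m : ℕ) : ℕ := bif b then m else 0

theorem ev_cz (w : ℕ → ZMod 2) (b : Bool) (m : ℕ) : ev w (cz b m) = b2 b * ev w m := by
  cases b <;> simp [cz, b2, ev_zero]

/-- reduction modulo a list of forms -/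
def red (b : List (ℕ × ℕ)) (t : ℕ) : ℕ :=
  b.foldl (fun t p => bif t.testBit p.2 then t ^^^ p.1 else t) t

/-- elimination -/
def bld (b : List (ℕ × ℕ)) (rows : List ℕ) : List (ℕ × ℕ) :=
  rows.foldl (fun b r => bif red b r == 0 then b else b ++ [(red b r, (red b r).log2)]) b

theorem ev_red (w : ℕ → ZMod 2) (b : List (ℕ × ℕ)) (hb : ∀ p ∈ b, ev w p.1 = 0) (t : ℕ) :
    ev w (red b t) = ev w t := by
  unfold red
  induction b generalizing t with
  | nil => rfl
  | cons p b ih =>
    rw [List.foldl_cons, ih fun q hq => hb q (List.mem_cons_of_mem _ hq)]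
    cases t.testBit p.2
    · rfl
    · rw [cond_true, ev_xor, hb p List.mem_cons_self, add_zero]

theorem ev_bld (w : ℕ → ZMod 2) (rows : List ℕ) (hr : ∀ r ∈ rows, ev w r = 0) (b : List (ℕ × ℕ))
    (hb : ∀ p ∈ b, ev w p.1 = 0) : ∀ p ∈ bld b rows, ev w p.1 = 0 := by
  unfold bld
  induction rows generalizing b with
  | nil => exact hb
  | cons r rows ih =>
    rw [List.foldl_cons]
    refine ih (fun q hq => hr q (List.mem_cons_of_mem _ hq)) _ ?_
    cases red b r == 0
    · intro p hp
      rw [cond_false, List.mem_append, List.mem_singleton] at hp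
      rcases hp with hp | rfl
      · exact hb p hp
      · rw [ev_red w b hb, hr r List.mem_cons_self]
    · exact hb

theorem ev_of (w : ℕ → ZMod 2) (b : List (ℕ × ℕ)) (hb : ∀ p ∈ b, ev w p.1 = 0) {t : ℕ}
    (h : (red b t == 0) = true) : ev w t = 0 := by
  rw [← ev_red w b hb, beq_iff_eq.1 h, ev_zero]

section

variable (abc kap q th : ℕ) (e : Bool)

/-- symbols between small primes -/
def qb (i k j l : ℕ) : Bool :=
  bif i.blt j then q.testBit ((2 * i + k) * 12 + 2 * j + l) else
    q.testBit ((2 * j + l) * 12 + 2 * i + k)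

/-- symbols of the difference -/
def sb (j k : ℕ) : Bool := q.testBit (144 + 2 * j + k)

/-- characters of the minors -/
def ch (k i j : ℕ) : Bool :=
  (((i.blt 3) ^^ (j.blt 3)) && abc.testBit (3 * k + (2 - (i + j) % 3))) ^^
    kap.testBit (6 * k + i) ^^ kap.testBit (6 * k + j)

/-- a large prime at a small prime -/
def s1 (i j k : ℕ) : Bool := ch abc kap k i j ^^ sb q j k ^^ qb q i 0 j k ^^ qb q i 1 j k

/-- all the symbols -/
def sy (i l j k : ℕ) : Bool :=
  bif i == j then (bif l == k then false else th.testBit (l + k - 1)) else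
    bif l.blt 2 then (bif k.blt 2 then qb q i l j k else s1 abc kap q j i l) else
      bif k.blt 2 then s1 abc kap q i j k else
        ch abc kap 2 i j ^^ e ^^ sb q j 0 ^^ sb q j 1 ^^ s1 abc kap q j i 0 ^^ s1 abc kap q j i 1

/-- the symbols at one prime, as a form -/
def col (j k c : ℕ) : ℕ :=
  (List.range 18).foldr
    (fun n m => cz (sy abc kap q th e (n / 3) (n % 3) j k) (2 ^ (6 + 2 * n + c)) ^^^ m) 0

/-- the symbol of the new twisting parameter -/
def db (j k : ℕ) : Bool :=
  (List.range 6).foldr (fun n m => kap.testBit (6 * k + n) ^^ m) false ^^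
    (List.range 18).foldr (fun n m => sy abc kap q th e (n / 3) (n % 3) j k ^^ m) false

/-- the first equation -/
def row0 (j k : ℕ) : ℕ :=
  2 ^ (2 * k) ^^^ col abc kap q th e j k 0 ^^^
    cz (abc.testBit (3 * k) ^^ abc.testBit (3 * k + 2)) (2 ^ (6 + 2 * (3 * j + k) + 1)) ^^^
    cz (abc.testBit (3 * k) ^^ db abc kap q th e j k) (2 ^ (6 + 2 * (3 * j + k)))

/-- the second equation -/
def row1 (j k : ℕ) : ℕ :=
  2 ^ (2 * k + 1) ^^^ col abc kap q th e j k 1 ^^^
    cz (abc.testBit (3 * k) ^^ db abc kap q th e j k) (2 ^ (6 + 2 * (3 * j + k) + 1)) ^^^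
    cz (abc.testBit (3 * k) ^^ abc.testBit (3 * k + 1)) (2 ^ (6 + 2 * (3 * j + k)))

/-- the sum over the six forms -/
def es (k c : ℕ) : ℕ :=
  2 ^ (6 + 2 * k + c) ^^^ 2 ^ (12 + 2 * k + c) ^^^ 2 ^ (18 + 2 * k + c) ^^^ 2 ^ (24 + 2 * k + c) ^^^
    2 ^ (30 + 2 * k + c) ^^^ 2 ^ (36 + 2 * k + c)

/-- all the equations -/
def rows (et : ℕ) : List ℕ :=
  (List.range 18).map (fun n => row0 abc kap q th e (n / 3) (n % 3)) ++
    ((List.range 18).map (fun n => row1 abc kap q th e (n / 3) (n % 3)) ++
      [es ((et + 1) % 3) 0, es ((et + 1) % 3) 1, es ((et + 2) % 3) 0, es ((et + 2) % 3) 1])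

/-- the test for a direction -/
def c3 (et : ℕ) (b : List (ℕ × ℕ)) (t0 t1 : Bool) : Bool :=
  (List.range 18).any fun n =>
    red (bld b [cz t0 (es et 1) ^^^ cz t1 (es et 0)])
      (cz t0 (2 ^ (6 + 2 * n + 1) ^^^ 2 ^ (6 + 2 * (3 * (n / 3) + (n + 1) % 3) + 1)) ^^^
        cz t1 (2 ^ (6 + 2 * n) ^^^ 2 ^ (6 + 2 * (3 * (n / 3) + (n + 1) % 3))) ^^^
        (cz t0 (es et 0) ^^^ cz (!t0) (es et 1))) == 0

/-- the three tests -/
def c134 (et : ℕ) (b : List (ℕ × ℕ)) : Bool :=
  ((List.range 42).all fun i =>
    red (bld b [es et 0, es et 1, 2 ^ 6, 2 ^ 7, 2 ^ 12, 2 ^ 18]) (2 ^ i) == 0) &&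
  (c3 et b true false && c3 et b false true && c3 et b true true) &&
  (red (bld b [2 ^ (2 * et), 2 ^ (2 * et + 1)]) (es et 0) == 0 &&
    red (bld b [2 ^ (2 * et), 2 ^ (2 * et + 1)]) (es et 1) == 0)

end

/-- the special slot -/
def etN : Fin 3 → Fin 3 := ![1, 0, 0]

/-- values on the constants -/
def abcN : Fin 3 → ℕ := ![131, 176, 352]

/-- values on the forms -/
def kapN : Fin 3 → ℕ := ![73775, 216512, 194816]

/-- prescribed symbols -/
def qN : Fin 3 → ℕ :=
  ![2904866225686791983559306697572650218710709469329173418101398106235265070779564798987082955452176116213877226741174329121504719669912880080880016035807009704643752024630193040027856762774019493009520954378784957835402485146979153179766814691604049239861709140467355434369903998205500161535544555270534979516327255373987403071961541971503759113052605602035277871193548130519628,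
    1533485388368387599506717031470440615041332454421304800668445696531410878511772717307700658162980808319584293728457780827652930977965200274660916263316594085290269002576277919096987717924336003905551845180280820135732642335280771668964325602571436143193796606687959800096892044439129161131028480454855613034661093835860818689169743893970369722456744600205671785795892313000128,
    3545001715738721721202117747180536887053985389827154459152630539373320627233006597652327030105062183390889387916608379054363991232164604561268919620588309020460660828372863144054861874941719863602883728242891249464497578898214907623849964171075511927645842841325067022077153981414499780973420631741068038061836346176839588388427347119245528644231564197711231034029073706042456]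

theorem chk0 : ∀ (th : Fin 8) (e : Bool), c134 (etN 0)
    (bld [] (rows (abcN 0) (kapN 0) (qN 0 >>> (156 * th.val)) th e (etN 0))) = true := by
  decide +kernel

theorem chk1 : ∀ (th : Fin 8) (e : Bool), c134 (etN 1)
    (bld [] (rows (abcN 1) (kapN 1) (qN 1 >>> (156 * th.val)) th e (etN 1))) = true := by
  decide +kernel

theorem chk2 : ∀ (th : Fin 8) (e : Bool), c134 (etN 2)
    (bld [] (rows (abcN 2) (kapN 2) (qN 2 >>> (156 * th.val)) th e (etN 2))) = true := by
  decide +kernel

end XCertAux

end Pool.Agent.Lib.MP_7d3fda_nt.R3
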