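import Pool.Agent.Lib.MP_7d3fda_nt.R3.XDefs
import Pool.Agent.Lib.MP_7d3fda_nt.R2.Table

open Finset
open scoped NumberTheorySymbols

noncomputable section

namespace Pool.Agent.Lib.MP_7d3fda_nt.R3

open Pool.Agent.Lib.MP_788af2_nt Pool.Agent.Lib.MP_7d3fda_nt.R2

namespace XClAux

theorem odd_upart {n : ℤ} (hn : n ≠ 0) : upart 2 n % 2 = 1 := by
  have := not_dvd_upart (p := 2) hn
  push_cast at this
  omega

end XClAux

theorem cl_zero_apply (n : ℤ) : cl n 0 = qS n := by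
  rw [cl, Finsupp.add_apply, Finsupp.single_eq_same, Finsupp.finset_sum_apply,
    Finset.sum_eq_zero, add_zero]
  intro p hp
  exact Finsupp.single_eq_of_ne (Nat.prime_of_mem_primeFactors hp).ne_zero.symm

theorem cl_prime_apply (n : ℤ) {p : ℕ} (hp : p.Prime) : cl n p = qV p n := by
  rw [cl, Finsupp.add_apply, Finsupp.single_eq_of_ne hp.ne_zero, Finsupp.finset_sum_apply,
    zero_add]
  simp only [Finsupp.single_apply, Finset.sum_ite_eq']
  split_ifs with h
  · rfl
  · by_cases hn : n = 0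
    · simp [hn, qV]
    · have : ¬(p : ℤ) ∣ n := fun hd => h (Nat.mem_primeFactors.2
        ⟨hp, Int.natCast_dvd.1 hd, Int.natAbs_ne_zero.2 hn⟩)
      simp [qV, padicValInt.eq_zero_of_not_dvd this]

theorem cl_other_apply (n : ℤ) {i : ℕ} (h0 : i ≠ 0) (hp : ¬i.Prime) : cl n i = 0 := by
  rw [cl, Finsupp.add_apply, Finsupp.single_eq_of_ne h0, Finsupp.finset_sum_apply, zero_add]
  refine Finset.sum_eq_zero fun p hp' => Finsupp.single_eq_of_ne ?_
  rintro rfl
  exact hp (Nat.prime_of_mem_primeFactors hp')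

theorem cl_mul {m n : ℤ} (hm : m ≠ 0) (hn : n ≠ 0) : cl (m * n) = cl m + cl n := by
  ext i
  rw [Finsupp.add_apply]
  by_cases h0 : i = 0
  · rw [h0, cl_zero_apply, cl_zero_apply, cl_zero_apply, isQF_qS _ _ hm hn]
  by_cases hp : i.Prime
  · rw [cl_prime_apply _ hp, cl_prime_apply _ hp, cl_prime_apply _ hp, isQF_qV hp _ _ hm hn]
  · rw [cl_other_apply _ h0 hp, cl_other_apply _ h0 hp, cl_other_apply _ h0 hp, add_zero]

theorem cl_one : cl 1 = 0 := by
  simp [cl, qS]

theorem cl_neg_one : cl (-1) = ep := by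
  simp [cl, qS, ep]

theorem cl_neg {n : ℤ} (hn : n ≠ 0) : cl (-n) = ep + cl n := by
  rw [← cl_neg_one, ← cl_mul (by norm_num) hn, neg_one_mul]

theorem cl_prime {p : ℕ} (hp : p.Prime) : cl p = Finsupp.single p 1 := by
  have : Fact p.Prime := ⟨hp⟩
  have h0 : ¬(p : ℤ) < 0 := not_lt.2 (Int.natCast_nonneg p)
  simp [cl, qS, h0, hp.primeFactors, qV]

theorem add_self (x : X) : x + x = 0 := by
  ext i
  exact CharTwo.add_self_eq_zero _

theorem cl_sq {n : ℤ} (hn : n ≠ 0) : cl (n ^ 2) = 0 := by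
  rw [sq, cl_mul hn hn, add_self]

theorem cl_prod {ι : Type} (s : Finset ι) (f : ι → ℤ) (hf : ∀ i ∈ s, f i ≠ 0) :
    cl (∏ i ∈ s, f i) = ∑ i ∈ s, cl (f i) := by
  classical
  induction s using Finset.induction_on with
  | empty => simpa using cl_one
  | insert a s ha ih =>
    rw [Finset.prod_insert ha, Finset.sum_insert ha, cl_mul (hf a (mem_insert_self _ _))
      (Finset.prod_ne_zero_iff.2 fun i hi => hf i (mem_insert_of_mem hi)),
      ih fun i hi => hf i (mem_insert_of_mem hi)]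

theorem lin_cl {F : ℤ → ZMod 2} (hF : IsQF F) {n : ℤ} (hn : n ≠ 0) : lin F (cl n) = F n := by
  rw [dec hF n.natAbs.primeFactors (fun l hl => Nat.prime_of_mem_primeFactors hl) hn
    fun l hl h => by
      have : ¬(l : ℤ) ∣ n := fun hd => h (Nat.mem_primeFactors.2
        ⟨hl, Int.natCast_dvd.1 hd, Int.natAbs_ne_zero.2 hn⟩)
      simp [qV, padicValInt.eq_zero_of_not_dvd this]]
  rw [cl, map_add, map_sum, lin, Finsupp.linearCombination_single, smul_eq_mul]
  congr 1
  refine Finset.sum_congr rfl fun p hp => ?_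
  rw [Finsupp.linearCombination_single, smul_eq_mul, gen,
    if_neg (Nat.prime_of_mem_primeFactors hp).ne_zero]

theorem lin_ep (F : ℤ → ZMod 2) : lin F ep = F (-1) := by
  rw [lin, ep, Finsupp.linearCombination_single, one_smul, gen, if_pos rfl]

theorem lin_single (F : ℤ → ZMod 2) {p : ℕ} (hp : p ≠ 0) : lin F (Finsupp.single p 1) = F p := by
  rw [lin, Finsupp.linearCombination_single, one_smul, gen, if_neg hp]

theorem isQF_q4 : IsQF q4 := by
  intro m n hm hn
  have h1 := XClAux.odd_upart hm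
  have h2 := XClAux.odd_upart hn
  rw [q4, q4, q4, upart_mul (p := 2) hm hn, Int.mul_emod]
  generalize upart 2 m = a at *
  generalize upart 2 n = b at *
  have ha : a % 4 = 1 ∨ a % 4 = 3 := by omega
  have hb : b % 4 = 1 ∨ b % 4 = 3 := by omega
  rcases ha with ha | ha <;> rcases hb with hb | hb <;> rw [ha, hb] <;> decide

theorem isQF_q8 : IsQF q8 := by
  intro m n hm hn
  have h1 := XClAux.odd_upart hm
  have h2 := XClAux.odd_upart hn
  rw [q8, q8, q8, upart_mul (p := 2) hm hn, Int.mul_emod]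
  generalize upart 2 m = a at *
  generalize upart 2 n = b at *
  have ha : a % 8 = 1 ∨ a % 8 = 3 ∨ a % 8 = 5 ∨ a % 8 = 7 := by omega
  have hb : b % 8 = 1 ∨ b % 8 = 3 ∨ b % 8 = 5 ∨ b % 8 = 7 := by omega
  rcases ha with ha | ha | ha | ha <;> rcases hb with hb | hb | hb | hb <;> rw [ha, hb] <;> decide

theorem st_ep : st ep = epH := by
  have h : upart 2 (-1) = -1 := upart_of_not_dvd (p := 2) (by norm_num)
  change (ep 0, ep 2, lin q4 ep, lin q8 ep) = epH
  rw [lin_ep, lin_ep, q4, q8, h, ep, Finsupp.single_eq_same, Finsupp.single_eq_of_ne (by norm_num)]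
  decide

theorem st_two : st (Finsupp.single 2 1) = (0, 1, 0, 0) := by
  have h : upart 2 ((2 : ℕ) : ℤ) = 1 := by
    simpa using upart_pow_mul (p := 2) (s := 1) (u := 1) (by norm_num)
  change ((Finsupp.single 2 1 : X) 0, (Finsupp.single 2 1 : X) 2, lin q4 (Finsupp.single 2 1),
    lin q8 (Finsupp.single 2 1)) = _
  rw [lin_single _ (by norm_num), lin_single _ (by norm_num), q4, q8, h, Finsupp.single_eq_same,
    Finsupp.single_eq_of_ne (by norm_num)]
  decide

theorem st_cl {n : ℤ} (hn : n ≠ 0) : st (cl n) = (qS n, qV 2 n, q4 n, q8 n) := by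
  change (cl n 0, cl n 2, lin q4 (cl n), lin q8 (cl n)) = _
  rw [cl_zero_apply, cl_prime_apply _ Nat.prime_two, lin_cl isQF_q4 hn, lin_cl isQF_q8 hn]

theorem lr_cl {r : ℕ} (hr : r.Prime) {n : ℤ} (hn : n ≠ 0) : lr r (cl n) = (qV r n, qL r n) := by
  change (cl n r, lin (qL r) (cl n)) = _
  rw [cl_prime_apply _ hr, lin_cl (isQF_qL hr) hn]

theorem mem_Sup {T : Finset ℕ} {x : X} : x ∈ Sup T ↔ ∀ i, i ≠ 0 → i ≠ 2 → i ∉ T → x i = 0 := by
  rw [Sup, Finsupp.mem_supported']
  simp only [Set.mem_insert_iff, Finset.mem_coe, not_or, and_imp, ne_eq]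

theorem ep_mem_Sup (T : Finset ℕ) : ep ∈ Sup T := by
  exact mem_Sup.2 fun i h0 _ _ => Finsupp.single_eq_of_ne h0

theorem mem_Sg {δ : X} {r : ℕ} : r ∈ Sg δ ↔ r ≠ 0 ∧ r ≠ 2 ∧ δ r = 1 := by
  have k : ∀ x : ZMod 2, x ≠ 0 ↔ x = 1 := by decide
  rw [Sg, Finset.mem_erase, Finset.mem_erase, Finsupp.mem_support_iff, k]
  tauto

theorem self_mem_Sup (δ : X) : δ ∈ Sup (Sg δ) := by
  have k : ∀ x : ZMod 2, x ≠ 1 → x = 0 := by decide
  exact mem_Sup.2 fun i h0 h2 h => k _ fun e => h (mem_Sg.2 ⟨h0, h2, e⟩)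

theorem cl_mem_Sup {T : Finset ℕ} {n : ℤ} (hn : n ≠ 0)
    (h : ∀ r : ℕ, r.Prime → r ≠ 2 → (r : ℤ) ∣ n → r ∈ T) : cl n ∈ Sup T := by
  refine mem_Sup.2 fun i h0 h2 hT => ?_
  by_cases hp : i.Prime
  · have : ¬(i : ℤ) ∣ n := fun hd => hT (h i hp h2 hd)
    rw [cl_prime_apply _ hp]
    simp [qV, padicValInt.eq_zero_of_not_dvd this]
  · exact cl_other_apply _ h0 hp

instance (T : Finset ℕ) : FiniteDimensional (ZMod 2) (Sup T) := by
  rw [Sup, Finsupp.supported_eq_span_single]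
  exact FiniteDimensional.span_of_finite _ ((((T.finite_toSet).insert 2).insert 0).image _)

instance (a b c δ : X) : FiniteDimensional (ZMod 2) (Rel a b c δ) := by
  have : FiniteDimensional (ZMod 2) ((Sup (Sg δ)).prod (Sup (Sg δ))) :=
    Module.Finite.of_fg (Submodule.FG.prod (Module.Finite.iff_fg.1 inferInstance)
      (Module.Finite.iff_fg.1 inferInstance))
  exact Submodule.finiteDimensional_inf_left _ _

instance (a b c δ : X) : FiniteDimensional (ZMod 2) (Str a b c δ) := by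
  exact Submodule.finiteDimensional_inf_left _ _

theorem mem_Loc {a b c δ : X} {r : ℕ} {z : X × X} : z ∈ Loc a b c δ r ↔ ∃ s t : ZMod 2,
    two (lr r) z = s • two (lr r) (T0 a c δ) + t • two (lr r) (T1 a b δ) := by
  rw [Loc, Submodule.mem_comap, Submodule.mem_span_pair]
  simp only [eq_comm]

theorem mem_Rel {a b c δ : X} {z : X × X} : z ∈ Rel a b c δ ↔
    z.1 ∈ Sup (Sg δ) ∧ z.2 ∈ Sup (Sg δ) ∧ ∀ r ∈ Sg δ, z ∈ Loc a b c δ r := by
  simp only [Rel, Submodule.mem_inf, Submodule.mem_prod, Submodule.mem_iInf, and_assoc]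

theorem mem_Str {a b c δ : X} {z : X × X} : z ∈ Str a b c δ ↔ z ∈ Rel a b c δ ∧ two st z = 0 := by
  rw [Str, Submodule.mem_inf, LinearMap.mem_ker]

/-- a squarefree integer in a given class -/
theorem exists_sqfree {g : ℤ} (hg : g ≠ 0) : ∃ d t : ℤ, Squarefree d ∧ t ≠ 0 ∧ g = t ^ 2 * d := by
  obtain ⟨a, b, hab, ha⟩ := Nat.sq_mul_squarefree g.natAbs
  have hb : b ≠ 0 := by
    rintro rfl
    exact Int.natAbs_ne_zero.2 hg (by simpa using hab.symm)
  have e : ((b : ℤ)) ^ 2 * a = g.natAbs := by exact_mod_cast hab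
  rcases Int.natAbs_eq g with h | h
  · exact ⟨a, b, Int.squarefree_natCast.2 ha, by exact_mod_cast hb, by rw [e]; exact h⟩
  · refine ⟨-a, b, ?_, by exact_mod_cast hb, by rw [mul_neg, e]; exact h⟩
    rw [← Int.squarefree_natAbs]
    simpa using ha

/-- numbers that are close have the same local class -/
theorem near {p : ℕ} (hp : p.Prime) {x y : ℤ} (hy : y ≠ 0)
    (h : (p : ℤ) ^ (padicValInt p y + 1) ∣ x - y) :
    x ≠ 0 ∧ padicValInt p x = padicValInt p y ∧ qV p x = qV p y ∧ qL p x = qL p y := by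
  have : Fact p.Prime := ⟨hp⟩
  obtain ⟨z, hz⟩ := h
  have hu := not_dvd_upart (p := p) hy
  have hu' : ¬(p : ℤ) ∣ upart p y + p * z := fun h' =>
    hu ((dvd_add_left (dvd_mul_right _ _)).1 h')
  have e : x = (p : ℤ) ^ padicValInt p y * (upart p y + p * z) := by
    have := pow_mul_upart (p := p) y
    linear_combination hz - this
  have hv : padicValInt p x = padicValInt p y := by rw [e, val_pow_mul hu']
  refine ⟨?_, hv, by rw [qV, qV, hv], ?_⟩
  · rw [e]
    exact mul_ne_zero (pow_ne_zero _ (Int.natCast_ne_zero.2 hp.ne_zero))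
      fun h0 => hu' (h0 ▸ dvd_zero _)
  · have : upart p x = upart p y + p * z := by rw [e, upart_pow_mul hu']
    rw [qL, qL, lg, lg, this, jac_add_dvd (dvd_mul_right _ _)]

/-- numbers that are close at two have the same local class -/
theorem near_two {x y : ℤ} (hy : y ≠ 0) (h : (2 : ℤ) ^ (padicValInt 2 y + 3) ∣ x - y) :
    x ≠ 0 ∧ qV 2 x = qV 2 y ∧ q4 x = q4 y ∧ q8 x = q8 y := by
  obtain ⟨z, hz⟩ := h
  have hu := XClAux.odd_upart hy
  have hu' : ¬((2 : ℕ) : ℤ) ∣ upart 2 y + 8 * z := by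
    push_cast
    omega
  have e : x = ((2 : ℕ) : ℤ) ^ padicValInt 2 y * (upart 2 y + 8 * z) := by
    have := pow_mul_upart (p := 2) y
    push_cast at this ⊢
    linear_combination hz - this
  have hv : padicValInt 2 x = padicValInt 2 y := by rw [e, val_pow_mul hu']
  have hx : upart 2 x = upart 2 y + 8 * z := by rw [e, upart_pow_mul hu']
  have h4 : upart 2 x % 4 = upart 2 y % 4 := by omega
  have h8 : upart 2 x % 8 = upart 2 y % 8 := by omega
  refine ⟨?_, by rw [qV, qV, hv], by rw [q4, q4, h4], by rw [q8, q8, h8]⟩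
  rw [e]
  exact mul_ne_zero (pow_ne_zero _ (by norm_num)) fun h0 => hu' (h0 ▸ dvd_zero _)

end Pool.Agent.Lib.MP_7d3fda_nt.R3
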