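import Pool.Agent.Lib.MP_7d3fda_nt.R3.XDefs

open Finset Module

noncomputable section

namespace Pool.Agent.Lib.MP_7d3fda_nt.R3

namespace XDescAux

/-- functionals vanishing on a subspace -/
def Ann (Γ : Submodule (ZMod 2) X) (η : X →ₗ[ZMod 2] ZMod 2) : Prop := ∀ γ ∈ Γ, η γ = 0

/-- no element of `S` has both coordinates in `Γ` -/
def Inj (S : Submodule (ZMod 2) (X × X)) (Γ : Submodule (ZMod 2) X) : Prop :=
  ∀ y ∈ S, y.1 ∈ Γ → y.2 ∈ Γ → y = 0

/-- a functional with two independent values -/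
def Full (S : Submodule (ZMod 2) (X × X)) (Γ : Submodule (ZMod 2) X) : Prop :=
  ∃ η, Ann Γ η ∧ ∃ y ∈ S, ∃ y' ∈ S, wg (two η y) (two η y') = 1

theorem Ann.add {Γ : Submodule (ZMod 2) X} {η ψ : X →ₗ[ZMod 2] ZMod 2} (h : Ann Γ η)
    (h' : Ann Γ ψ) : Ann Γ (η + ψ) := fun γ hγ => by
  rw [LinearMap.add_apply, h γ hγ, h' γ hγ, add_zero]

theorem two_add (η ψ : X →ₗ[ZMod 2] ZMod 2) (y : X × X) :
    two (η + ψ) y = two η y + two ψ y := rfl

theorem exf {S : Submodule (ZMod 2) (X × X)} {Γ : Submodule (ZMod 2) X} (h : Inj S Γ) {y : X × X}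
    (hy : y ∈ S) (h0 : y ≠ 0) : ∃ η, Ann Γ η ∧ two η y ≠ 0 := by
  by_cases h1 : y.1 ∈ Γ
  · have h2 : y.2 ∉ Γ := fun h2 => h0 (h y hy h1 h2)
    obtain ⟨f, hf, hk⟩ := Submodule.exists_le_ker_of_notMem h2
    exact ⟨f, fun γ hγ => hk hγ, fun e => hf (congrArg Prod.snd e)⟩
  · obtain ⟨f, hf, hk⟩ := Submodule.exists_le_ker_of_notMem h1
    exact ⟨f, fun γ hγ => hk hγ, fun e => hf (congrArg Prod.fst e)⟩

theorem wg01 (x y : B2) : wg x y ≠ 1 → wg x y = 0 := by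
  generalize wg x y = a
  revert a
  decide

set_option synthInstance.maxSize 512 in
theorem dich {S : Submodule (ZMod 2) (X × X)} {Γ : Submodule (ZMod 2) X}
    [FiniteDimensional (ZMod 2) S] (h : Inj S Γ) (h2 : 2 ≤ finrank (ZMod 2) S) (hF : ¬Full S Γ) :
    ∃ t, t ≠ 0 ∧ (∃ η, Ann Γ η ∧ ∃ y ∈ S, two η y = t) ∧
      ∀ ψ, Ann Γ ψ → ∀ y ∈ S, wg (two ψ y) t = 0 := by
  have hN : ∀ η, Ann Γ η → ∀ y ∈ S, ∀ y' ∈ S, wg (two η y) (two η y') = 0 :=
    fun η hη y hy y' hy' => wg01 _ _ fun e => hF ⟨η, hη, y, hy, y', hy', e⟩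
  have hne : S ≠ ⊥ := by
    rintro rfl
    rw [finrank_bot] at h2
    omega
  obtain ⟨y₁, hy₁, h0⟩ := (Submodule.ne_bot_iff S).1 hne
  obtain ⟨η, hη, ht⟩ := exf h hy₁ h0
  refine ⟨_, ht, ⟨η, hη, y₁, hy₁, rfl⟩, fun ψ hψ y hy => wg01 _ _ fun e => ?_⟩
  have k1 : wg (two ψ y₁) (two η y₁) = 1 := by
    have a1 := hN η hη y₁ hy₁ y hy
    have a2 := hN ψ hψ y₁ hy₁ y hy
    have a3 := hN _ (hη.add hψ) y₁ hy₁ y hy
    rw [two_add, two_add] at a3
    revert e a1 a2 a3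
    generalize two η y₁ = p, two ψ y₁ = q, two η y = p', two ψ y = q'
    revert p q p' q'
    decide
  obtain ⟨y₂, hy₂, hn⟩ : ∃ y₂ ∈ S, y₂ ∉ Submodule.span (ZMod 2) {y₁} := by
    by_contra hc
    push Not at hc
    have h3 := Submodule.finrank_mono (show S ≤ Submodule.span (ZMod 2) {y₁} from hc)
    rw [finrank_span_singleton h0] at h3
    omega
  obtain ⟨y₃, hy₃, h30, b1, b2⟩ : ∃ y₃ ∈ S, y₃ ≠ 0 ∧ two η y₃ = 0 ∧ two ψ y₃ = 0 := by
    have a1 := hN η hη y₁ hy₁ y₂ hy₂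
    have a2 := hN ψ hψ y₁ hy₁ y₂ hy₂
    have a3 := hN _ (hη.add hψ) y₁ hy₁ y₂ hy₂
    rw [two_add, two_add] at a3
    have key : (two η y₂ = 0 ∧ two ψ y₂ = 0) ∨
        (two η y₂ - two η y₁ = 0 ∧ two ψ y₂ - two ψ y₁ = 0) := by
      revert k1 a1 a2 a3
      generalize two η y₁ = p, two ψ y₁ = q, two η y₂ = p', two ψ y₂ = q'
      revert p q p' q'
      decide
    rcases key with k | k
    · exact ⟨y₂, hy₂, fun e => hn (e ▸ Submodule.zero_mem _), k⟩
    · refine ⟨y₂ - y₁, S.sub_mem hy₂ hy₁, fun e => hn ?_, by rw [map_sub, k.1],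
        by rw [map_sub, k.2]⟩
      rw [sub_eq_zero.1 e]
      exact Submodule.mem_span_singleton_self _
  obtain ⟨φ, hφ, hτ⟩ := exf h hy₃ h30
  have c0 := hN φ hφ y₁ hy₁ y₃ hy₃
  have c1 := hN _ (hφ.add hη) y₁ hy₁ y₃ hy₃
  have c2 := hN _ (hφ.add hψ) y₁ hy₁ y₃ hy₃
  rw [two_add, two_add, b1, add_zero] at c1
  rw [two_add, two_add, b2, add_zero] at c2
  refine hτ ?_
  revert k1 c0 c1 c2
  generalize two η y₁ = p, two ψ y₁ = q, two φ y₁ = p', two φ y₃ = q'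
  revert p q p' q'
  decide

theorem lt_of {S S₀ : Submodule (ZMod 2) (X × X)} [FiniteDimensional (ZMod 2) S]
    (ρ : X →ₗ[ZMod 2] X) (η : X →ₗ[ZMod 2] ZMod 2)
    (h : ∀ y ∈ S₀, two ρ y ∈ S ∧ two η (two ρ y) = 0 ∧ (two ρ y = 0 → y = 0)) {z : X × X}
    (hz : z ∈ S) (hz0 : two η z ≠ 0) : finrank (ZMod 2) S₀ < finrank (ZMod 2) S := by
  have h1 : S ⊓ LinearMap.ker (two η) < S :=
    lt_of_le_of_ne inf_le_left fun e => hz0 (e.ge hz).2
  have : FiniteDimensional (ZMod 2) (S ⊓ LinearMap.ker (two η) : Submodule (ZMod 2) (X × X)) :=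
    Submodule.finiteDimensional_of_le inf_le_left
  refine lt_of_le_of_lt ?_ (Submodule.finrank_lt_finrank_of_lt h1)
  refine LinearMap.finrank_le_finrank_of_injective
    (f := (two ρ).restrict (p := S₀) (q := S ⊓ LinearMap.ker (two η))
      fun y hy => ⟨(h y hy).1, (h y hy).2.1⟩) ?_
  rw [injective_iff_map_eq_zero]
  intro y hy
  exact Subtype.ext ((h y y.2).2.2 (congrArg Subtype.val hy))

end XDescAux

open XDescAux

theorem step_bot {S' : Submodule (ZMod 2) (X × X)} {Γ Γ' : Submodule (ZMod 2) X}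
    (h : Step ⊥ S' Γ Γ' 0) : S' = ⊥ := by
  obtain ⟨ρ, cf, -, h2, -, h4, -⟩ := h
  rw [Submodule.eq_bot_iff]
  intro y hy
  obtain ⟨a1, -, a3⟩ := h2 y hy (h4 y hy rfl)
  exact a3 a1

theorem descend {Pos : Type} (S : Pos → Submodule (ZMod 2) (X × X))
    (Γ : Pos → Submodule (ZMod 2) X) (fin : ∀ p, FiniteDimensional (ZMod 2) (S p))
    (par : ∀ p, Even (finrank (ZMod 2) (S p)))
    (mv : ∀ p (η : X →ₗ[ZMod 2] ZMod 2), (∀ γ ∈ Γ p, η γ = 0) →
      ∃ p', Step (S p) (S p') (Γ p) (Γ p') η) (p₀ : Pos) : ∃ p, S p = ⊥ := by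
  have full : ∀ p, Full (S p) (Γ p) →
      ∃ p', Inj (S p') (Γ p') ∧ finrank (ZMod 2) (S p') < finrank (ZMod 2) (S p) := by
    rintro p ⟨η, hη, y, hy, y', hy', e⟩
    obtain ⟨p', ρ, cf, h1, h2, -, -, -, h6⟩ := mv p η hη
    refine ⟨p', h6, lt_of ρ η (fun w hw => h2 w hw ?_) hy fun e0 => ?_⟩
    · have a1 := h1 w hw y hy
      have a2 := h1 w hw y' hy'
      revert e a1 a2
      generalize cf w = c, two η y = p, two η y' = q
      revert c p q
      decide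
    · rw [e0] at e
      simp [wg] at e
  have step : ∀ p, Inj (S p) (Γ p) → S p ≠ ⊥ →
      ∃ p', Inj (S p') (Γ p') ∧ finrank (ZMod 2) (S p') < finrank (ZMod 2) (S p) := by
    intro p hi hne
    have h2 : 2 ≤ finrank (ZMod 2) (S p) := by
      have a1 : finrank (ZMod 2) (S p) ≠ 0 := fun e => hne (Submodule.finrank_eq_zero.1 e)
      obtain ⟨k, hk⟩ := par p
      omega
    by_cases hF : Full (S p) (Γ p)
    · exact full p hF
    obtain ⟨t, ht, ⟨η, hη, y₁, hy₁, e₁⟩, hone⟩ := dich hi h2 hF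
    obtain ⟨p', ρ, cf, k1, k2, k3, -, k5, k6⟩ := mv p η hη
    have := fin p'
    have hlt : finrank (ZMod 2) (S p' ⊓ LinearMap.ker cf : Submodule (ZMod 2) (X × X)) <
        finrank (ZMod 2) (S p) :=
      lt_of ρ η (fun w hw => k2 w hw.1 hw.2) hy₁ (e₁ ▸ ht)
    by_cases hc : ∀ y ∈ S p', cf y = 0
    · refine ⟨p', k6, ?_⟩
      rwa [inf_eq_left.2 fun y hy => hc y hy] at hlt
    push Not at hc
    obtain ⟨y, hy, hy0⟩ := hc
    have hcf : ∀ w ∈ S p', cf w = 0 ∨ cf w = t := fun w hw => by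
      have a1 := k1 w hw y₁ hy₁
      rw [e₁] at a1
      revert ht a1
      generalize cf w = c
      revert c
      generalize t = s
      revert s
      decide
    have hyt : cf y = t := (hcf y hy).resolve_left hy0
    have hle : finrank (ZMod 2) (S p') ≤
        finrank (ZMod 2) (S p' ⊓ LinearMap.ker cf : Submodule (ZMod 2) (X × X)) + 1 := by
      have : FiniteDimensional (ZMod 2) (S p' ⊓ LinearMap.ker cf : Submodule (ZMod 2) (X × X)) :=
        Submodule.finiteDimensional_of_le inf_le_left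
      have a1 : S p' ≤ (S p' ⊓ LinearMap.ker cf) ⊔ Submodule.span (ZMod 2) {y} := by
        intro w hw
        rcases hcf w hw with e | e
        · exact Submodule.mem_sup_left ⟨hw, e⟩
        · rw [← sub_add_cancel w y]
          refine Submodule.add_mem_sup ⟨(S p').sub_mem hw hy, ?_⟩
            (Submodule.mem_span_singleton_self _)
          show cf (w - y) = 0
          rw [map_sub, e, hyt, sub_self]
      refine (Submodule.finrank_mono a1).trans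
        ((Submodule.finrank_add_le_finrank_add_finrank _ _).trans ?_)
      rw [finrank_span_singleton fun e => hy0 (by rw [e, map_zero])]
    by_cases hb : (S p' ⊓ LinearMap.ker cf : Submodule (ZMod 2) (X × X)) = ⊥
    · rw [hb, finrank_bot] at hle
      exact ⟨p', k6, by omega⟩
    obtain ⟨w, ⟨hw, hw0⟩, hwne⟩ := (Submodule.ne_bot_iff _).1 hb
    obtain ⟨a1, -, a3⟩ := k2 w hw hw0
    obtain ⟨ψ, hψ, hψ0⟩ := exf hi a1 fun e => hwne (a3 e)
    obtain ⟨φ, hφ, b1, b2⟩ := k3 y hy hy0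
    have hA : Ann (Γ p') (ψ ∘ₗ ρ) := fun γ hγ => hψ _ (k5 γ hγ)
    have c1 : wg (two (ψ ∘ₗ ρ) w) t = 0 := hone ψ hψ _ a1
    have c2 : two (ψ ∘ₗ ρ) w ≠ 0 := hψ0
    have hF' : Full (S p') (Γ p') := by
      by_cases c3 : wg (two (ψ ∘ₗ ρ) y) (two (ψ ∘ₗ ρ) w) = 1
      · exact ⟨_, hA, y, hy, w, hw, c3⟩
      · refine ⟨_, hA.add hφ, y, hy, w, hw, ?_⟩
        rw [two_add, two_add, b2 w hw hw0, add_zero]
        rw [hyt] at b1
        revert ht c1 c2 c3 b1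
        generalize two (ψ ∘ₗ ρ) y = p, two (ψ ∘ₗ ρ) w = q, two φ y = r
        revert p q r
        generalize t = s
        revert s
        decide
    obtain ⟨p'', d1, d2⟩ := full p' hF'
    exact ⟨p'', d1, by omega⟩
  have main : ∀ n p, Inj (S p) (Γ p) → finrank (ZMod 2) (S p) ≤ n → ∃ p, S p = ⊥ := by
    intro n
    induction n with
    | zero =>
      intro p _ h
      have := fin p
      exact ⟨p, Submodule.finrank_eq_zero.1 (Nat.le_zero.1 h)⟩
    | succ n ih =>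
      intro p hi h
      by_cases hb : S p = ⊥
      · exact ⟨p, hb⟩
      · obtain ⟨p', a1, a2⟩ := step p hi hb
        exact ih p' a1 (by omega)
  obtain ⟨p₁, -, -, -, -, -, -, -, h6⟩ := mv p₀ 0 fun _ _ => rfl
  exact main _ p₁ h6 le_rfl

end Pool.Agent.Lib.MP_7d3fda_nt.R3
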