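import Pool.Agent.Lib.MP_7d3fda_nt.R3.XHil

open Finset
open scoped NumberTheorySymbols

noncomputable section

namespace Pool.Agent.Lib.MP_7d3fda_nt.R3

open Pool.Agent.Lib.MP_788af2_nt Pool.Agent.Lib.MP_7d3fda_nt.R2

namespace XParAux

open Module

theorem bit_cases : ∀ x : ZMod 2, x = 0 ∨ x = 1 := by decide

theorem bit_two : ∀ x : ZMod 2, x + x = 0 := by decide

theorem bit_eq : ∀ x y : ZMod 2, x + y = 0 → x = y := by decide

theorem vec_two {V : Type} [AddCommGroup V] [Module (ZMod 2) V] (v : V) : v + v = 0 := by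
  rw [← two_smul (ZMod 2) v, show (2 : ZMod 2) = 0 from rfl, zero_smul]

section lin

variable {V : Type} [AddCommGroup V] [Module (ZMod 2) V] [FiniteDimensional (ZMod 2) V]

theorem even_of_nondeg (β : LinearMap.BilinForm (ZMod 2) V) (hs : ∀ x y, β x y = β y x)
    (ha : ∀ x, β x x = 0) (hn : β.Nondegenerate) : Even (finrank (ZMod 2) V) := by
  classical
  by_contra hodd
  rw [Nat.not_even_iff_odd] at hodd
  let b := Module.finBasis (ZMod 2) V
  have hdet := (LinearMap.BilinForm.nondegenerate_iff_det_ne_zero b).1 hn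
  let B : Matrix (Fin (finrank (ZMod 2) V)) (Fin (finrank (ZMod 2) V)) ℤ :=
    Matrix.of fun i j => if i < j then ((β (b i) (b j)).val : ℤ) else -((β (b i) (b j)).val : ℤ)
  have hT : B.transpose = -B := by
    ext i j
    simp only [B, Matrix.transpose_apply, Matrix.neg_apply, Matrix.of_apply]
    rcases lt_trichotomy i j with h | h | h
    · rw [if_neg (not_lt.2 h.le), if_pos h, hs]
    · subst h
      simp [ha]
    · rw [if_pos h, if_neg (not_lt.2 h.le), hs, neg_neg]
  have h0 : B.det = 0 := by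
    have h1 := Matrix.det_transpose B
    rw [hT, Matrix.det_neg, Fintype.card_fin, hodd.neg_one_pow] at h1
    linarith
  apply hdet
  have hm : (Int.castRingHom (ZMod 2)).mapMatrix B = LinearMap.BilinForm.toMatrix b β := by
    ext i j
    simp only [B, RingHom.mapMatrix_apply, Matrix.map_apply, LinearMap.BilinForm.toMatrix_apply,
      Matrix.of_apply]
    split_ifs
    · simp
    · simp
  rw [← hm, ← RingHom.map_det, h0, map_zero]

theorem even_alt (β : LinearMap.BilinForm (ZMod 2) V) (hs : ∀ x y, β x y = β y x)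
    (ha : ∀ x, β x x = 0) :
    Even (finrank (ZMod 2) V + finrank (ZMod 2) (LinearMap.ker β)) := by
  obtain ⟨W, hW⟩ := (LinearMap.ker β).exists_isCompl
  have hn : (β.restrict W).Nondegenerate := by
    refine LinearMap.BilinForm.Nondegenerate.ofSeparatingLeft fun w hw => ?_
    have hk : (w : V) ∈ LinearMap.ker β := by
      rw [LinearMap.mem_ker]
      ext v
      obtain ⟨k, hk, w', hw', rfl⟩ := Submodule.mem_sup.1 (hW.sup_eq_top ▸ Submodule.mem_top (x := v))
      have h1 := hw ⟨w', hw'⟩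
      rw [LinearMap.BilinForm.restrict_apply, LinearMap.domRestrict_apply] at h1
      rw [map_add, h1, hs, LinearMap.mem_ker.1 hk]
      simp
    have := (Submodule.disjoint_def.1 hW.disjoint) _ hk w.2
    exact Subtype.ext this
  have h1 := even_of_nondeg (β.restrict W) (fun x y => hs x y) (fun x => ha x) hn
  have h2 := Submodule.finrank_add_eq_of_isCompl hW
  obtain ⟨k, hk⟩ := h1
  exact ⟨finrank (ZMod 2) (LinearMap.ker β) + k, by omega⟩

theorem even_char (β : LinearMap.BilinForm (ZMod 2) V) (γ : V) (hγ : ∀ z, β z z = β z γ) :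
    Even (finrank (ZMod 2) V + finrank (ZMod 2) (LinearMap.ker β) + if β γ γ = 0 then 0 else 1) := by
  have hs : ∀ x y, β x y = β y x := by
    intro x y
    have h := hγ (x + y)
    simp only [map_add, LinearMap.add_apply] at h
    rw [hγ x, hγ y] at h
    exact bit_eq _ _ (by linear_combination h)
  let β' : LinearMap.BilinForm (ZMod 2) V :=
    β + (LinearMap.mul (ZMod 2) (ZMod 2)).compl₁₂ (β γ) (β γ)
  have e : ∀ x y, β' x y = β x y + β γ x * β γ y := fun x y => by simp [β']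
  have h1 := even_alt β' (fun x y => by rw [e, e, hs, mul_comm]) (fun x => by
    rw [e, hγ, hs]
    rcases bit_cases (β γ x) with h | h <;> rw [h] <;> decide)
  have hle : LinearMap.ker β ≤ LinearMap.ker β' := by
    intro z hz
    rw [LinearMap.mem_ker] at hz ⊢
    ext y
    rw [e, hs γ z, hz]
    simp
  have hk : ∀ z ∈ LinearMap.ker β', z + β γ z • γ ∈ LinearMap.ker β := by
    intro z hz
    rw [LinearMap.mem_ker] at hz ⊢
    ext y
    have := e z y
    rw [hz] at this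
    simpa using this.symm
  split_ifs with h0
  · have : LinearMap.ker β' = LinearMap.ker β := by
      refine le_antisymm (fun z hz => ?_) hle
      have h2 := hk z hz
      have h3 : β (z + β γ z • γ) γ = 0 := by rw [LinearMap.mem_ker.1 h2]; rfl
      simp only [map_add, map_smul, LinearMap.add_apply, LinearMap.smul_apply, h0, smul_zero,
        add_zero] at h3
      rw [hs γ z, h3, zero_smul, add_zero] at h2
      exact h2
    rw [this] at h1
    simpa using h1
  · have hγ1 : β γ γ = 1 := (bit_cases _).resolve_left h0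
    have hn : γ ∉ LinearMap.ker β := fun h => h0 (by rw [LinearMap.mem_ker.1 h]; rfl)
    have : LinearMap.ker β' = LinearMap.ker β ⊔ Submodule.span (ZMod 2) {γ} := by
      refine le_antisymm (fun z hz => ?_) (sup_le hle ?_)
      · have h2 := hk z hz
        have e2 : z = (z + β γ z • γ) + β γ z • γ := by rw [add_assoc, vec_two, add_zero]
        rw [e2]
        exact Submodule.add_mem_sup h2
          (Submodule.smul_mem _ _ (Submodule.mem_span_singleton_self γ))
      · rw [Submodule.span_singleton_le_iff_mem, LinearMap.mem_ker]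
        ext y
        rw [e, hγ1, one_mul, bit_two]
        rfl
    rw [this, Submodule.finrank_sup_span_singleton hn] at h1
    exact h1

end lin

/-- the local pairing -/
def pL (e : ZMod 2) (u v : B2 × B2) : ZMod 2 := hL e u.1 v.2 + hL e u.2 v.1

/-- the local class of the first point -/
def t0 (e L : ZMod 2) (α γ : B2) : B2 × B2 := (α + γ, (0, e) + (1, L) + α)

/-- the local class of the second point -/
def t1 (e L : ZMod 2) (α β : B2) : B2 × B2 := ((1, L) + α, (0, e) + α + β)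

/-- the unramified correction -/
def vv (e L : ZMod 2) (α β γ : B2) (u : B2 × B2) : B2 × B2 :=
  u + (((α.1 + β.1) * u.1.1 + (1 + α.1) * u.2.1) • t0 e L α γ +
    ((1 + α.1) * u.1.1 + (α.1 + γ.1) * u.2.1) • t1 e L α β)

/-- the local bilinear form -/
def bF (e L : ZMod 2) (α β γ : B2) (u : B2 × B2) (x y : ZMod 2) : ZMod 2 :=
  (vv e L α β γ u).1.2 * y + (vv e L α β γ u).2.2 * x

/-- the local quadratic form -/
def qF (e : ZMod 2) (α β γ : B2) (u : B2 × B2) : ZMod 2 :=
  hL e (u.1 + u.2 + β + γ) (u.2 + (0, e) + α + β)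

instance (e : ZMod 2) (x y z : B2) : Decidable (Stein e x y z) := by
  unfold Stein
  infer_instance

theorem b_iso : ∀ (e L : ZMod 2) (α β γ : B2), Stein e α β γ → ∀ s t s' t' : ZMod 2,
    pL e (s • t0 e L α γ + t • t1 e L α β) (s' • t0 e L α γ + t' • t1 e L α β) = 0 := by
  decide +kernel

theorem b_unr : ∀ (e L : ZMod 2) (α β γ : B2), Stein e α β γ → ∀ s t : ZMod 2,
    (s • t0 e L α γ + t • t1 e L α β).1.1 = 0 → (s • t0 e L α γ + t • t1 e L α β).2.1 = 0 →
      s • t0 e L α γ + t • t1 e L α β = 0 := by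
  decide +kernel

theorem b_loc : ∀ (e L : ZMod 2) (α β γ : B2), Stein e α β γ → ∀ s t : ZMod 2,
    vv e L α β γ (s • t0 e L α γ + t • t1 e L α β) = 0 := by
  decide +kernel

theorem b_val : ∀ (e L : ZMod 2) (α β γ : B2), Stein e α β γ → ∀ u : B2 × B2,
    (vv e L α β γ u).1.1 = 0 ∧ (vv e L α β γ u).2.1 = 0 := by
  decide +kernel

theorem b_char : ∀ (e L : ZMod 2) (α β γ : B2), Stein e α β γ → ∀ u : B2 × B2,
    bF e L α β γ u u.1.1 u.2.1 = bF e L α β γ u (α.1 + γ.1) (α.1 + β.1) + qF e α β γ u := by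
  decide +kernel

theorem b_bet : ∀ (e L : ZMod 2) (α β γ : B2), Stein e α β γ → ∀ x y : ZMod 2,
    bF e L α β γ ((0, e) + α + γ + (0, x), α + β + (0, y)) (α.1 + γ.1) (α.1 + β.1) =
      hL e β ((0, e) + (0, x)) + hL e γ ((0, e) + (0, y)) + hL e α ((0, e) + (0, x) + (0, y)) := by
  decide +kernel


/-- the pairing at infinity and two -/
def prH : LinearMap.BilinForm (ZMod 2) (B4 × B4) :=
  LinearMap.mk₂ (ZMod 2) (fun u v => hH u.1 v.2 + hH u.2 v.1)
    (fun u u' v => by simp only [hH, Prod.fst_add, Prod.snd_add]; ring)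
    (fun c u v => by simp only [hH, Prod.smul_fst, Prod.smul_snd, smul_eq_mul]; ring)
    (fun u v v' => by simp only [hH, Prod.fst_add, Prod.snd_add]; ring)
    (fun c u v => by simp only [hH, Prod.smul_fst, Prod.smul_snd, smul_eq_mul]; ring)

theorem prH_apply (u v : B4 × B4) : prH u v = hH u.1 v.2 + hH u.2 v.1 := rfl

theorem prH_nondeg : prH.Nondegenerate := by
  refine LinearMap.BilinForm.Nondegenerate.ofSeparatingLeft fun u hu => ?_
  have h1 := hu ((1, 0, 0, 0), 0)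
  have h2 := hu ((0, 1, 0, 0), 0)
  have h3 := hu ((0, 0, 1, 0), 0)
  have h4 := hu ((0, 0, 0, 1), 0)
  have h5 := hu (0, (1, 0, 0, 0))
  have h6 := hu (0, (0, 1, 0, 0))
  have h7 := hu (0, (0, 0, 1, 0))
  have h8 := hu (0, (0, 0, 0, 1))
  obtain ⟨⟨a1, a2, a3, a4⟩, ⟨b1, b2, b3, b4⟩⟩ := u
  simp only [prH_apply, hH, Prod.fst_zero, Prod.snd_zero, mul_zero, zero_mul, mul_one, one_mul,
    add_zero, zero_add] at h1 h2 h3 h4 h5 h6 h7 h8
  subst h1 h2 h3 h4 h5 h6 h7 h8
  rfl

/-- the combination as a linear map -/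
def cmbL {V : Type} [AddCommGroup V] [Module (ZMod 2) V] (t : Fin 4 → V) : B4 →ₗ[ZMod 2] V where
  toFun c := cmb c t
  map_add' c c' := by simp only [cmb, Prod.fst_add, Prod.snd_add, add_smul]; abel
  map_smul' x c := by
    simp only [cmb, Prod.smul_fst, Prod.smul_snd, smul_eq_mul, RingHom.id_apply, smul_add,
      smul_smul]

theorem map_cmb {V W : Type} [AddCommGroup V] [Module (ZMod 2) V] [AddCommGroup W]
    [Module (ZMod 2) W] (f : V →ₗ[ZMod 2] W) (c : B4) (t : Fin 4 → V) :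
    f (cmb c t) = cmb c fun i => f (t i) := by
  simp only [cmb, map_add, map_smul]

theorem cmb_mem {V : Type} [AddCommGroup V] [Module (ZMod 2) V] {P : Submodule (ZMod 2) V}
    {t : Fin 4 → V} (ht : ∀ i, t i ∈ P) (c : B4) : cmb c t ∈ P :=
  P.add_mem (P.add_mem (P.add_mem (P.smul_mem _ (ht 0)) (P.smul_mem _ (ht 1)))
    (P.smul_mem _ (ht 2))) (P.smul_mem _ (ht 3))

/-- the projection to the graph -/
def LF (M : B4 × B4 × B4 × B4) : B4 × B4 →ₗ[ZMod 2] B4 × B4 where
  toFun u := lf M (rho u)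
  map_add' u u' := by
    simp only [lf, rho, dt, Prod.fst_add, Prod.snd_add, Prod.mk_add_mk, Prod.mk.injEq]
    refine ⟨⟨?_, ?_, ?_, ?_⟩, ?_, ?_, ?_, ?_⟩ <;> first | trivial | ring
  map_smul' x u := by
    simp only [lf, rho, dt, Prod.smul_fst, Prod.smul_snd, smul_eq_mul, Prod.smul_mk,
      RingHom.id_apply, Prod.mk.injEq]
    refine ⟨⟨?_, ?_, ?_, ?_⟩, ?_, ?_, ?_, ?_⟩ <;> first | trivial | ring

theorem LF_apply (M : B4 × B4 × B4 × B4) (u : B4 × B4) : LF M u = lf M (rho u) := rfl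

theorem rho_lf (M : B4 × B4 × B4 × B4) (ρ : B4) : rho (lf M ρ) = ρ := by
  obtain ⟨a, b, c, d⟩ := ρ
  simp only [lf, rho, add_assoc, bit_two, add_zero]

theorem lf_diff (M : B4 × B4 × B4 × B4) (u : B4 × B4) :
    (LF M u + u).1 = (LF M u + u).1.1 • epH + (LF M u + u).1.2.1 • ((0, 1, 0, 0) : B4) ∧
    (LF M u + u).2 = (LF M u + u).2.1 • epH + (LF M u + u).2.2.1 • ((0, 1, 0, 0) : B4) := by
  obtain ⟨⟨a1, a2, a3, a4⟩, ⟨b1, b2, b3, b4⟩⟩ := u
  simp only [LF_apply, lf, epH, Prod.mk_add_mk, Prod.smul_mk, smul_eq_mul, Prod.mk.injEq]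
  generalize dt M.1 _ = m1
  generalize dt M.2.1 _ = m2
  generalize dt M.2.2.1 _ = m3
  generalize dt M.2.2.2 _ = m4
  simp only [rho]
  revert a1 a2 a3 a4 b1 b2 b3 b4 m1 m2 m3 m4
  decide +kernel

variable {a b c δ : X} {r : ℕ}

theorem lr_ep (hr : r ∈ Sg δ) : lr r ep = (0, qL r (-1)) := by
  have h0 := (mem_Sg.1 hr).1
  refine Prod.ext ?_ (lin_ep _)
  show ep r = 0
  rw [ep, Finsupp.single_eq_of_ne h0]

theorem lr_del (hr : r ∈ Sg δ) : lr r δ = (1, lin (qL r) δ) :=
  Prod.ext (mem_Sg.1 hr).2.2 rfl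

theorem lr_T0 (hr : r ∈ Sg δ) :
    two (lr r) (T0 a c δ) = t0 (qL r (-1)) (lin (qL r) δ) (lr r a) (lr r c) := by
  simp only [T0, t0, LinearMap.prodMap_apply, map_add, lr_ep hr, lr_del hr]

theorem lr_T1 (hr : r ∈ Sg δ) :
    two (lr r) (T1 a b δ) = t1 (qL r (-1)) (lin (qL r) δ) (lr r a) (lr r b) := by
  simp only [T1, t1, LinearMap.prodMap_apply, map_add, lr_ep hr, lr_del hr]

theorem mem_Loc' (hr : r ∈ Sg δ) {z : X × X} : z ∈ Loc a b c δ r ↔ ∃ s t : ZMod 2,
    two (lr r) z = s • t0 (qL r (-1)) (lin (qL r) δ) (lr r a) (lr r c) +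
      t • t1 (qL r (-1)) (lin (qL r) δ) (lr r a) (lr r b) := by
  rw [mem_Loc, lr_T0 hr, lr_T1 hr]

end XParAux

open XParAux

/-- the local conditions are isotropic -/
theorem loc_iso {a b c δ : X} (h : Ok3 a b c δ) {r : ℕ} (hr : r ∈ Sg δ) {z z' : X × X}
    (hz : z ∈ Loc a b c δ r) (hz' : z' ∈ Loc a b c δ r) :
    hL (qL r (-1)) (lr r z.1) (lr r z'.2) + hL (qL r (-1)) (lr r z.2) (lr r z'.1) = 0 := by
  obtain ⟨s, t, e⟩ := (mem_Loc' hr).1 hz
  obtain ⟨s', t', e'⟩ := (mem_Loc' hr).1 hz'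
  have := b_iso _ (lin (qL r) δ) _ _ _ (h.stein r hr) s t s' t'
  rw [← e, ← e'] at this
  exact this

/-- an unramified class in the local condition is trivial -/
theorem loc_unr {a b c δ : X} (h : Ok3 a b c δ) {r : ℕ} (hr : r ∈ Sg δ) {z : X × X}
    (hz : z ∈ Loc a b c δ r) (h1 : z.1 r = 0) (h2 : z.2 r = 0) : two (lr r) z = 0 := by
  obtain ⟨s, t, e⟩ := (mem_Loc' hr).1 hz
  have := b_unr _ (lin (qL r) δ) _ _ _ (h.stein r hr) s t
  rw [← e] at this
  exact this h1 h2

/-- four independent local classes span the image -/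
theorem lagr {a b c δ : X} (h : Ok3 a b c δ) {t : Fin 4 → X × X} (ht : ∀ i, t i ∈ Rel a b c δ)
    (hi : ∀ w, cmb w (fun i => two st (t i)) = 0 → w = 0) {z : X × X} (hz : z ∈ Rel a b c δ) :
    ∃ w, two st z = cmb w fun i => two st (t i) := by
  have iso : ∀ y ∈ Rel a b c δ, ∀ y' ∈ Rel a b c δ, prH (two st y) (two st y') = 0 := by
    intro y hy y' hy'
    obtain ⟨a1, a2, a3⟩ := mem_Rel.1 hy
    obtain ⟨b1, b2, b3⟩ := mem_Rel.1 hy'
    have p1 := prodf h.odd a1 b2
    have p2 := prodf h.odd a2 b1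
    have p3 : ∑ r ∈ Sg δ, (hL (qL r (-1)) (lr r y.1) (lr r y'.2) +
        hL (qL r (-1)) (lr r y.2) (lr r y'.1)) = 0 :=
      Finset.sum_eq_zero fun r hr => loc_iso h hr (a3 r hr) (b3 r hr)
    rw [Finset.sum_add_distrib] at p3
    rw [prH_apply]
    simp only [LinearMap.prodMap_apply]
    linear_combination p1 + p2 - p3
  let I := (Rel a b c δ).map (two st)
  let W := LinearMap.range (cmbL fun i => two st (t i))
  have hI : I ≤ prH.orthogonal I := by
    rintro _ ⟨y, hy, rfl⟩ _ ⟨y', hy', rfl⟩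
    exact iso y' hy' y hy
  have h8 : Module.finrank (ZMod 2) (B4 × B4) = 8 := by simp [Module.finrank_prod]
  have h4 : Module.finrank (ZMod 2) B4 = 4 := by simp [Module.finrank_prod]
  have f1 := Submodule.finrank_mono hI
  rw [LinearMap.BilinForm.finrank_orthogonal prH_nondeg, h8] at f1
  have f2 : Module.finrank (ZMod 2) W = 4 := by
    rw [← h4]
    exact LinearMap.finrank_range_of_inj
      ((injective_iff_map_eq_zero _).2 fun w hw => hi w hw)
  have hW : W ≤ I := by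
    rintro _ ⟨w, rfl⟩
    exact ⟨cmb w t, cmb_mem ht w, map_cmb _ w t⟩
  have e : W = I := Submodule.eq_of_le_of_finrank_le hW (by omega)
  have hz' : two st z ∈ W := e ▸ ⟨z, hz, rfl⟩
  obtain ⟨w, hw⟩ := hz'
  exact ⟨w, hw.symm⟩

namespace XParAux

variable {a b c δ : X} {r : ℕ} {M : B4 × B4 × B4 × B4}

/-- the classes whose local class at infinity and two lies in the graph -/
def K0 (δ : X) (M : B4 × B4 × B4 × B4) : Submodule (ZMod 2) (X × X) :=
  (Sup (Sg δ)).prod (Sup (Sg δ)) ⊓ LinearMap.eqLocus (LF M ∘ₗ two st) (two st)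

theorem mem_K0 {z : X × X} :
    z ∈ K0 δ M ↔ (z.1 ∈ Sup (Sg δ) ∧ z.2 ∈ Sup (Sg δ)) ∧ LF M (two st z) = two st z := Iff.rfl

/-- a combination of the classes of minus one and two -/
def uu (d : B4) : X := d.1 • ep + d.2.1 • Finsupp.single 2 1

theorem st_uu (d : B4) : st (uu d) = d.1 • epH + d.2.1 • ((0, 1, 0, 0) : B4) := by
  rw [uu, map_add, map_smul, map_smul, st_ep, st_two]

theorem uu_apply (d : B4) (h0 : r ≠ 0) (h2 : r ≠ 2) : uu d r = 0 := by
  simp [uu, ep, h0, h2]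

theorem uu_mem (d : B4) (T : Finset ℕ) : uu d ∈ Sup T :=
  mem_Sup.2 fun _ h0 h2 _ => uu_apply d h0 h2

/-- the correction into the graph -/
def pj (M : B4 × B4 × B4 × B4) (w : X × X) : X × X :=
  w + (uu (LF M (two st w) + two st w).1, uu (LF M (two st w) + two st w).2)

theorem st_uu1 (u : B4 × B4) : st (uu (LF M u + u).1) = (LF M u + u).1 := by
  rw [st_uu, ← (lf_diff M u).1]

theorem st_uu2 (u : B4 × B4) : st (uu (LF M u + u).2) = (LF M u + u).2 := by
  rw [st_uu, ← (lf_diff M u).2]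

theorem pj_mem {w : X × X} (h1 : w.1 ∈ Sup (Sg δ)) (h2 : w.2 ∈ Sup (Sg δ)) : pj M w ∈ K0 δ M := by
  refine mem_K0.2 ⟨⟨Submodule.add_mem _ h1 (uu_mem _ _), Submodule.add_mem _ h2 (uu_mem _ _)⟩, ?_⟩
  have e : two st (pj M w) = LF M (two st w) := by
    have e' : two st (uu (LF M (two st w) + two st w).1, uu (LF M (two st w) + two st w).2) =
        LF M (two st w) + two st w := Prod.ext (st_uu1 _) (st_uu2 _)
    rw [pj, map_add, e', add_comm, add_assoc, vec_two, add_zero]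
  rw [e, LF_apply, LF_apply, rho_lf]

theorem pj_fst (w : X × X) (hr : r ∈ Sg δ) : (pj M w).1 r = w.1 r := by
  rw [pj, Prod.fst_add, Finsupp.add_apply, uu_apply _ (mem_Sg.1 hr).1 (mem_Sg.1 hr).2.1, add_zero]

theorem pj_snd (w : X × X) (hr : r ∈ Sg δ) : (pj M w).2 r = w.2 r := by
  rw [pj, Prod.snd_add, Finsupp.add_apply, uu_apply _ (mem_Sg.1 hr).1 (mem_Sg.1 hr).2.1, add_zero]

/-- the valuations -/
def valK (δ : X) (M : B4 × B4 × B4 × B4) :
    K0 δ M →ₗ[ZMod 2] (Sg δ → ZMod 2) × (Sg δ → ZMod 2) where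
  toFun z := (fun r => z.1.1 r, fun r => z.1.2 r)
  map_add' _ _ := rfl
  map_smul' _ _ := rfl

theorem eq_uu {x : X} (hx : x ∈ Sup (Sg δ)) (h : ∀ r ∈ Sg δ, x r = 0) :
    x = uu (x 0, x 2, 0, 0) := by
  ext i
  by_cases h0 : i = 0
  · subst h0
    simp [uu, ep]
  by_cases h2 : i = 2
  · subst h2
    simp [uu, ep]
  rw [uu_apply _ h0 h2]
  by_cases hi : i ∈ Sg δ
  · exact h i hi
  · exact mem_Sup.1 hx i h0 h2 hi

theorem valK_bij : Function.Bijective (valK δ M) := by
  constructor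
  · refine (injective_iff_map_eq_zero _).2 fun z hz => ?_
    obtain ⟨⟨h1, h2⟩, h3⟩ := mem_K0.1 z.2
    have e1 := eq_uu h1 fun r hr => congrFun (congrArg Prod.fst hz) ⟨r, hr⟩
    have e2 := eq_uu h2 fun r hr => congrFun (congrArg Prod.snd hz) ⟨r, hr⟩
    have s1 := congrArg st e1
    have s2 := congrArg st e2
    rw [st_uu] at s1 s2
    have hρ : rho (two st z.1) = 0 := by
      rw [LinearMap.prodMap_apply, s1, s2]
      simp only
      generalize z.1.1 0 = x1
      generalize z.1.1 2 = x2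
      generalize z.1.2 0 = x3
      generalize z.1.2 2 = x4
      revert x1 x2 x3 x4
      decide
    have h0 : two st z.1 = 0 := by
      rw [← h3, LF_apply, hρ]
      exact (LF M).map_zero
    have a1 : z.1.1 0 = 0 := congrArg (fun u : B4 × B4 => u.1.1) h0
    have a2 : z.1.1 2 = 0 := congrArg (fun u : B4 × B4 => u.1.2.1) h0
    have a3 : z.1.2 0 = 0 := congrArg (fun u : B4 × B4 => u.2.1) h0
    have a4 : z.1.2 2 = 0 := congrArg (fun u : B4 × B4 => u.2.2.1) h0
    rw [a1, a2] at e1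
    rw [a3, a4] at e2
    refine Subtype.ext (Prod.ext ?_ ?_)
    · rw [e1]; simp [uu]
    · rw [e2]; simp [uu]
  · rintro ⟨f, g⟩
    have hm : ∀ f : Sg δ → ZMod 2,
        Finsupp.indicator (Sg δ) (fun r hr => f ⟨r, hr⟩) ∈ Sup (Sg δ) :=
      fun f => mem_Sup.2 fun i _ _ hi => Finsupp.indicator_of_notMem hi _
    refine ⟨⟨pj M (Finsupp.indicator (Sg δ) fun r hr => f ⟨r, hr⟩,
      Finsupp.indicator (Sg δ) fun r hr => g ⟨r, hr⟩), pj_mem (hm f) (hm g)⟩, Prod.ext ?_ ?_⟩
    · funext r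
      exact (pj_fst _ r.2).trans (Finsupp.indicator_of_mem r.2 fun r hr => f ⟨r, hr⟩)
    · funext r
      exact (pj_snd _ r.2).trans (Finsupp.indicator_of_mem r.2 fun r hr => g ⟨r, hr⟩)

instance (δ : X) (M : B4 × B4 × B4 × B4) : FiniteDimensional (ZMod 2) (K0 δ M) :=
  Module.Finite.of_injective (valK δ M) valK_bij.1

theorem even_K0 : Even (Module.finrank (ZMod 2) (K0 δ M)) := by
  rw [(LinearEquiv.ofBijective (valK δ M) valK_bij).finrank_eq, Module.finrank_prod]
  exact ⟨_, rfl⟩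

theorem vv_add (e L : ZMod 2) (α β γ : B2) (u u' : B2 × B2) :
    vv e L α β γ (u + u') = vv e L α β γ u + vv e L α β γ u' := by
  simp only [vv, Prod.fst_add, Prod.snd_add, mul_add, add_smul]
  abel

theorem vv_smul (e L : ZMod 2) (α β γ : B2) (x : ZMod 2) (u : B2 × B2) :
    vv e L α β γ (x • u) = x • vv e L α β γ u := by
  rcases bit_cases x with h | h <;> subst h <;> simp [vv]

/-- the global bilinear form -/
def bG (a b c δ : X) : LinearMap.BilinForm (ZMod 2) (X × X) :=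
  LinearMap.mk₂ (ZMod 2) (fun z z' => ∑ r ∈ Sg δ, bF (qL r (-1)) (lin (qL r) δ) (lr r a) (lr r b)
      (lr r c) (two (lr r) z) (z'.1 r) (z'.2 r))
    (fun z y z' => by
      rw [← Finset.sum_add_distrib]
      refine Finset.sum_congr rfl fun r _ => ?_
      simp only [bF, map_add, vv_add, Prod.fst_add, Prod.snd_add]
      ring)
    (fun x z z' => by
      rw [Finset.smul_sum]
      refine Finset.sum_congr rfl fun r _ => ?_
      simp only [bF, map_smul, vv_smul, Prod.smul_fst, Prod.smul_snd, smul_eq_mul]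
      ring)
    (fun z y z' => by
      rw [← Finset.sum_add_distrib]
      refine Finset.sum_congr rfl fun r _ => ?_
      simp only [bF, Prod.fst_add, Prod.snd_add, Finsupp.add_apply]
      ring)
    (fun x z z' => by
      rw [Finset.smul_sum]
      refine Finset.sum_congr rfl fun r _ => ?_
      simp only [bF, Prod.smul_fst, Prod.smul_snd, Finsupp.smul_apply, smul_eq_mul]
      ring)

theorem bG_apply (z z' : X × X) : bG a b c δ z z' = ∑ r ∈ Sg δ, bF (qL r (-1)) (lin (qL r) δ)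
    (lr r a) (lr r b) (lr r c) (two (lr r) z) (z'.1 r) (z'.2 r) := rfl

/-- the characteristic vector -/
def gm (a b c : X) (M : B4 × B4 × B4 × B4) : X × X := pj M (ep + a + c, a + b)

theorem gm_mem (h : Ok3 a b c δ) : gm a b c M ∈ K0 δ M :=
  pj_mem (Submodule.add_mem _ (Submodule.add_mem _ (ep_mem_Sup _) h.ha) h.hc)
    (Submodule.add_mem _ h.ha h.hb)

theorem gm_fst (hr : r ∈ Sg δ) : (gm a b c M).1 r = (lr r a).1 + (lr r c).1 := by
  rw [gm, pj_fst _ hr]
  have h0 : ep r = 0 := congrArg Prod.fst (lr_ep hr)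
  simp only [Finsupp.add_apply, h0, zero_add]
  rfl

theorem gm_snd (hr : r ∈ Sg δ) : (gm a b c M).2 r = (lr r a).1 + (lr r b).1 := by
  rw [gm, pj_snd _ hr]
  rfl

theorem bG_char (h : Ok3 a b c δ) (hq : ∀ ρ, qH (st a) (st b) (st c) (lf M ρ) = 0) {z : X × X}
    (hz : z ∈ K0 δ M) : bG a b c δ z z = bG a b c δ z (gm a b c M) := by
  obtain ⟨⟨h1, h2⟩, h3⟩ := mem_K0.1 hz
  have p := prodf h.odd
    (Submodule.add_mem _ (Submodule.add_mem _ (Submodule.add_mem _ h1 h2) h.hb) h.hc)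
    (Submodule.add_mem _ (Submodule.add_mem _ (Submodule.add_mem _ h2 (ep_mem_Sup _)) h.ha) h.hb)
  have q0 := hq (rho (two st z))
  rw [← LF_apply, h3] at q0
  have q1 : hH (st (z.1 + z.2 + b + c)) (st (z.2 + ep + a + b)) = 0 := by
    simp only [map_add, st_ep]
    exact q0
  rw [q1, add_zero] at p
  rw [bG_apply, bG_apply, ← add_zero (∑ r ∈ Sg δ, bF _ _ _ _ _ _ ((gm a b c M).1 r) _), ← p,
    ← Finset.sum_add_distrib]
  refine Finset.sum_congr rfl fun r hr => ?_
  rw [gm_fst hr, gm_snd hr]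
  simp only [map_add, lr_ep hr]
  exact b_char _ _ _ _ _ (h.stein r hr) (two (lr r) z)

theorem lr_uu (hr : r ∈ Sg δ) (d : B4) : lr r (uu d) = (0, lin (qL r) (uu d)) :=
  Prod.ext (uu_apply d (mem_Sg.1 hr).1 (mem_Sg.1 hr).2.1) rfl

theorem bG_bet (h : Ok3 a b c δ) :
    bG a b c δ (gm a b c M) (gm a b c M) = bet M (st a) (st b) (st c) := by
  have eu : two st (ep + a + c, a + b) = (epH + st a + st c, st a + st b) := by
    simp only [LinearMap.prodMap_apply, map_add, st_ep]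
  set d := LF M (two st (ep + a + c, a + b)) + two st (ep + a + c, a + b) with hd
  have m1 : ep + uu d.1 ∈ Sup (Sg δ) := Submodule.add_mem _ (ep_mem_Sup _) (uu_mem _ _)
  have m2 : ep + uu d.2 ∈ Sup (Sg δ) := Submodule.add_mem _ (ep_mem_Sup _) (uu_mem _ _)
  have p1 := prodf h.odd h.hb m1
  have p2 := prodf h.odd h.hc m2
  have p3 := prodf h.odd h.ha (Submodule.add_mem _ m1 (uu_mem d.2 _))
  have s1 : st (uu d.1) = d.1 := st_uu1 _
  have s2 : st (uu d.2) = d.2 := st_uu2 _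
  have eb : bet M (st a) (st b) (st c) = hH (st b) (st (ep + uu d.1)) +
      hH (st c) (st (ep + uu d.2)) + hH (st a) (st (ep + uu d.1 + uu d.2)) := by
    simp only [map_add, st_ep, s1, s2]
    rw [hd, eu]
    rfl
  have es : bG a b c δ (gm a b c M) (gm a b c M) =
      ∑ r ∈ Sg δ, hL (qL r (-1)) (lr r b) (lr r (ep + uu d.1)) +
      ∑ r ∈ Sg δ, hL (qL r (-1)) (lr r c) (lr r (ep + uu d.2)) +
      ∑ r ∈ Sg δ, hL (qL r (-1)) (lr r a) (lr r (ep + uu d.1 + uu d.2)) := by
    rw [bG_apply, ← Finset.sum_add_distrib, ← Finset.sum_add_distrib]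
    refine Finset.sum_congr rfl fun r hr => ?_
    rw [gm_fst hr, gm_snd hr]
    have eg : two (lr r) (gm a b c M) = ((0, qL r (-1)) + lr r a + lr r c + (0, lin (qL r) (uu d.1)),
        lr r a + lr r b + (0, lin (qL r) (uu d.2))) := by
      rw [gm, pj, ← hd]
      simp only [LinearMap.prodMap_apply, Prod.mk_add_mk, map_add, lr_ep hr, lr_uu hr]
    rw [eg]
    simp only [map_add, lr_ep hr, lr_uu hr]
    exact b_bet _ _ _ _ _ (h.stein r hr) _ _
  rw [es, eb, bit_eq _ _ p1, bit_eq _ _ p2, bit_eq _ _ p3]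

theorem bG_rad (h : Ok3 a b c δ) {z : X × X} (hz : z ∈ K0 δ M) :
    (∀ z' ∈ K0 δ M, bG a b c δ z z' = 0) ↔ z ∈ Rel a b c δ := by
  constructor
  · intro h0
    refine mem_Rel.2 ⟨(mem_K0.1 hz).1.1, (mem_K0.1 hz).1.2, fun r hr => ?_⟩
    have hm : Finsupp.single r (1 : ZMod 2) ∈ Sup (Sg δ) :=
      mem_Sup.2 fun i _ _ hi => Finsupp.single_eq_of_ne fun e => hi (e ▸ hr)
    have e1 := h0 _ (pj_mem (w := (Finsupp.single r 1, 0)) hm (Submodule.zero_mem _))
    have e2 := h0 _ (pj_mem (w := (0, Finsupp.single r 1)) (Submodule.zero_mem _) hm)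
    rw [bG_apply, Finset.sum_eq_single_of_mem r hr fun r' hr' hne => by
      rw [pj_fst _ hr', pj_snd _ hr']; simp [bF, hne]] at e1 e2
    rw [pj_fst _ hr, pj_snd _ hr] at e1 e2
    simp only [bF, Finsupp.single_eq_same, Finsupp.coe_zero, Pi.zero_apply, mul_zero, mul_one,
      zero_add, add_zero] at e1 e2
    obtain ⟨e3, e4⟩ := b_val _ (lin (qL r) δ) _ _ _ (h.stein r hr) (two (lr r) z)
    have e5 : vv (qL r (-1)) (lin (qL r) δ) (lr r a) (lr r b) (lr r c) (two (lr r) z) = 0 :=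
      Prod.ext (Prod.ext e3 e2) (Prod.ext e4 e1)
    rw [vv, add_eq_zero_iff_eq_neg, neg_eq_of_add_eq_zero_left (vec_two _)] at e5
    exact (mem_Loc' hr).2 ⟨_, _, e5⟩
  · intro h0 z' _
    rw [bG_apply]
    refine Finset.sum_eq_zero fun r hr => ?_
    obtain ⟨s, t, e⟩ := (mem_Loc' hr).1 ((mem_Rel.1 h0).2.2 r hr)
    rw [bF, e, b_loc _ _ _ _ _ (h.stein r hr)]
    simp

end XParAux

/-- the parity of the strict group -/
theorem parity {a b c δ : X} (h : Ok3 a b c δ) {t : Fin 4 → X × X} (ht : ∀ i, t i ∈ Rel a b c δ)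
    (hs : Star (st a) (st b) (st c) fun i => two st (t i)) :
    Even (Module.finrank (ZMod 2) (Str a b c δ)) := by
  obtain ⟨hi, M, hq, c₀, hc₀, hc⟩ := hs
  have h1 := even_char (V := K0 δ M) ((bG a b c δ).restrict (K0 δ M)) ⟨gm a b c M, gm_mem h⟩
    fun z => bG_char h hq z.2
  have e1 : (bG a b c δ).restrict (K0 δ M) ⟨gm a b c M, gm_mem h⟩ ⟨gm a b c M, gm_mem h⟩ =
      bet M (st a) (st b) (st c) := bG_bet h
  have e2 : LinearMap.ker ((bG a b c δ).restrict (K0 δ M)) =
      (K0 δ M ⊓ Rel a b c δ).comap (K0 δ M).subtype := by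
    ext z
    rw [LinearMap.mem_ker, Submodule.mem_comap, Submodule.mem_inf]
    constructor
    · intro hz
      exact ⟨z.2, (bG_rad h z.2).1 fun z' hz' => LinearMap.congr_fun hz ⟨z', hz'⟩⟩
    · intro hz
      exact LinearMap.ext fun z' => (bG_rad h z.2).2 hz.2 z' z'.2
  have e3 : K0 δ M ⊓ Rel a b c δ = Str a b c δ ⊔ Submodule.span (ZMod 2) {cmb c₀ t} := by
    refine le_antisymm (fun z hz => ?_) (sup_le (fun z hz => ?_) ?_)
    · obtain ⟨w, hw⟩ := lagr h ht hi hz.2
      have h3 := (mem_K0.1 hz.1).2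
      rw [hw, LF_apply] at h3
      rcases (hc w).1 h3 with rfl | rfl
      · exact Submodule.mem_sup_left (mem_Str.2 ⟨hz.2, by rw [hw]; simp [cmb]⟩)
      · have e : z = (z + cmb w t) + cmb w t := by rw [add_assoc, vec_two, add_zero]
        rw [e]
        refine Submodule.add_mem_sup (mem_Str.2 ⟨Submodule.add_mem _ hz.2 (cmb_mem ht w), ?_⟩)
          (Submodule.mem_span_singleton_self _)
        rw [map_add, hw, map_cmb, vec_two]
    · obtain ⟨h2, h3⟩ := mem_Str.1 hz
      exact ⟨mem_K0.2 ⟨⟨(mem_Rel.1 h2).1, (mem_Rel.1 h2).2.1⟩, by rw [h3, map_zero]⟩, h2⟩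
    · rw [Submodule.span_singleton_le_iff_mem]
      have h2 := cmb_mem ht c₀
      refine ⟨mem_K0.2 ⟨⟨(mem_Rel.1 h2).1, (mem_Rel.1 h2).2.1⟩, ?_⟩, h2⟩
      rw [map_cmb, LF_apply]
      exact (hc c₀).2 (Or.inr rfl)
  rw [e1, e2, (Submodule.comapSubtypeEquivOfLe inf_le_left).finrank_eq, e3] at h1
  obtain ⟨k, hk⟩ := even_K0 (δ := δ) (M := M)
  by_cases h0 : c₀ = 0
  · rw [if_pos (hc₀.1 h0), h0, show cmb 0 t = 0 by simp [cmb], Submodule.span_zero_singleton,
      sup_bot_eq, hk] at h1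
    obtain ⟨m, hm⟩ := h1
    exact ⟨m - k, by omega⟩
  · have hn : cmb c₀ t ∉ Str a b c δ := fun hm =>
      h0 (hi c₀ (by rw [← map_cmb]; exact (mem_Str.1 hm).2))
    have e4 : Module.finrank (ZMod 2) (Str a b c δ ⊔ Submodule.span (ZMod 2) {cmb c₀ t} :
        Submodule (ZMod 2) (X × X)) = Module.finrank (ZMod 2) (Str a b c δ) + 1 := by
      have hd : Str a b c δ ⊓ Submodule.span (ZMod 2) {cmb c₀ t} = ⊥ :=
        (Submodule.disjoint_span_singleton_of_notMem hn).eq_bot
      have := Submodule.finrank_sup_add_finrank_inf_eq (Str a b c δ)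
        (Submodule.span (ZMod 2) {cmb c₀ t})
      have hne : cmb c₀ t ≠ 0 := fun e => hn (by rw [e]; exact Submodule.zero_mem _)
      rwa [hd, finrank_bot, add_zero, finrank_span_singleton hne] at this
    rw [if_neg (fun e => h0 (hc₀.2 e)), e4, hk] at h1
    obtain ⟨m, hm⟩ := h1
    exact ⟨m - k - 1, by omega⟩

end Pool.Agent.Lib.MP_7d3fda_nt.R3
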