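import Pool.Agent.Lib.MP_7d3fda_nt.R3.XGeo
import Pool.Agent.Lib.MP_7d3fda_nt.R3.XPar
import Pool.Agent.Lib.MP_7d3fda_nt.R3.XDesc
import Pool.Agent.Lib.MP_7d3fda_nt.R3.ACount

open Finset

noncomputable section

namespace Pool.Agent.Lib.MP_7d3fda_nt.R3

open Pool.Agent.Lib.MP_788af2_nt XGeoAux

theorem core {m n l A B C N : ℤ} (hF : Fam m n l A B C) (N0 : N ≠ 0) :
    ∃ d₀ : ℤ, d₀ ≠ 0 ∧ ∀ d₁ : ℤ, d₁ ≠ 0 → ∀ p : ℤ → Prop,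
      (∀ g, g % 4 = 1 → (∀ d, Squarefree d → d ∣ N * d₀ → Squarefree (d * g)) →
        Module.rank ℤ (cvE ![0, d₀ * g * (m ^ 2 * A), d₀ * g * (n ^ 2 * C)]).Point = 2 →
          p (d₁ * g)) →
      ∃ κ : ℝ, 0 < κ ∧ ∃ D₀ : ℝ, ∀ D : ℝ, D₀ ≤ D →
        κ * D ^ (1 / 3 : ℝ) / Real.log D ^ 6 ≤ (Set.ncard {d : ℤ | |(d : ℝ)| ≤ D ∧ p d} : ℝ) := by
  obtain ⟨U₀, V₀, h₀⟩ := base hF
  obtain ⟨⟨⟨U, V⟩, hI⟩, hS⟩ := descend (Pos := {z : ℤ × ℤ // Inv m n A B C z.1 z.2})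
    (fun z => Str (cl A) (cl B) (cl C) (∑ j, kk A B C z.1.1 z.1.2 j))
    (fun z => Gam1 (cl A) (cl B) (cl C) (kk A B C z.1.1 z.1.2)) (fun _ => inferInstance)
    (fun z => parity (facts hF z.2).1 (facts hF z.2).2 z.2.star)
    (fun z η hη => by
      obtain ⟨c, W₀, u, qq, sg, h1, h2, h3, h4, h5⟩ := move hF z.2 N0 η hη
      obtain ⟨a, s, h6⟩ := exists3 c h1 W₀ h2 u h3 h4 qq sg
      obtain ⟨U', V', h7, h8, -⟩ := h5 a s h6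
      exact ⟨⟨(U', V'), h7⟩, h8⟩) ⟨(U₀, V₀), h₀⟩
  dsimp only at hI hS
  obtain ⟨c, W₀, u, qq, sg, h1, h2, h3, h4, h5⟩ := move hF hI N0 0 fun _ _ => rfl
  obtain ⟨d, t, hd, t0, e⟩ := exists_sqfree (prod_ne_zero_iff.2 fun j (_ : j ∈ univ) => hI.ne j)
  refine ⟨d, hd.ne_zero, fun d₁ d1 p hp => count3 c h1 W₀ h2 u h3 h4 qq sg d₁ d1 p fun a s h6 => ?_⟩
  obtain ⟨U', V', h7, h8, h9, h11, h10⟩ := h5 a s h6
  rw [hS] at h8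
  have hS' := step_bot h8
  have dv : d ∣ ∏ j, fm A B C U V j := e ▸ Dvd.intro_left _ rfl
  have sq := h10 _ hd (dv.mul_left _)
  have e' : ∏ j, fm A B C U' V' j = t ^ 2 * (d * ∏ j, (a + c j * s)) := by
    simp only [h9, prod_mul_distrib, e]
    ring
  refine hp _ h11 (fun d' k1 k2 => h10 d' k1 (k2.trans (mul_dvd_mul_left _ dv))) ?_
  generalize ∏ j, (a + c j * s) = g at sq e'
  have e1 : ![0, d * g * (m ^ 2 * A), d * g * (n ^ 2 * C)] 1 -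
    ![0, d * g * (m ^ 2 * A), d * g * (n ^ 2 * C)] 0 = d * g * (m ^ 2 * A) := by simp
  have e2 : ![0, d * g * (m ^ 2 * A), d * g * (n ^ 2 * C)] 2 -
    ![0, d * g * (m ^ 2 * A), d * g * (n ^ 2 * C)] 0 = d * g * (n ^ 2 * C) := by simp
  choose P hP using pts hF h7 e' e1 e2
  refine rank2 (mul_ne_zero (pow_ne_zero 2 (m0 hF)) hF.A0)
    (mul_ne_zero (pow_ne_zero 2 (s0 hF)) hF.B0) (mul_ne_zero (pow_ne_zero 2 (n0 hF)) hF.C0)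
    (hs1 hF) hF.cAB sq (sig' h7 e') e1 e2 ?_ P ?_
  · rw [csq (m0 hF) hF.A0, csq (s0 hF) hF.B0, csq (n0 hF) hF.C0, ← dl_eq h7 e']
    exact hS'
  · simpa only [hP] using h7.star.1

end Pool.Agent.Lib.MP_7d3fda_nt.R3
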