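import Pool.Agent.Lib.MP_7d3fda_nt.R2.LocD

open Finset

noncomputable section

namespace Pool.Agent.Lib.MP_7d3fda_nt.R3

open Pool.Agent.Lib.MP_788af2_nt

/-! Working definitions of the algebraic part (none of them occurs in the final statement). -/

/-- square classes: the coordinate `0` is the sign, the coordinate `p` the valuation -/
abbrev X : Type := ℕ →₀ ZMod 2

/-- the generators -/
def gen (i : ℕ) : ℤ := if i = 0 then -1 else i

/-- the square class of an integer -/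
def cl (n : ℤ) : X :=
  Finsupp.single 0 (qS n) + ∑ p ∈ n.natAbs.primeFactors, Finsupp.single p (qV p n)

/-- the functional attached to an additive function -/
def lin (F : ℤ → ZMod 2) : X →ₗ[ZMod 2] ZMod 2 :=
  Finsupp.linearCombination (ZMod 2) fun i => F (gen i)

/-- the odd part modulo 4 -/
def q4 (n : ℤ) : ZMod 2 := if upart 2 n % 4 = 3 then 1 else 0

/-- the odd part modulo 8 -/
def q8 (n : ℤ) : ZMod 2 := if upart 2 n % 8 = 3 ∨ upart 2 n % 8 = 5 then 1 else 0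

/-- the class of `-1` -/
def ep : X := Finsupp.single 0 1

/-- pairs of bits -/
abbrev B2 : Type := ZMod 2 × ZMod 2

/-- quadruples of bits -/
abbrev B4 : Type := ZMod 2 × ZMod 2 × ZMod 2 × ZMod 2

/-- the local class at an odd prime -/
def lr (r : ℕ) : X →ₗ[ZMod 2] B2 := (Finsupp.lapply r).prod (lin (qL r))

/-- the Hilbert symbol at an odd prime, `e` being the bit of `-1` -/
def hL (e : ZMod 2) (x y : B2) : ZMod 2 := x.1 * y.2 + y.1 * x.2 + x.1 * y.1 * e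

/-- the local class at infinity and at two -/
def st : X →ₗ[ZMod 2] B4 :=
  (Finsupp.lapply 0).prod ((Finsupp.lapply 2).prod ((lin q4).prod (lin q8)))

/-- the sum of the Hilbert symbols at infinity and at two -/
def hH (x y : B4) : ZMod 2 :=
  x.1 * y.1 + x.2.2.1 * y.2.2.1 + x.2.1 * y.2.2.2 + y.2.1 * x.2.2.2

/-- classes supported on the sign, two and `T` -/
def Sup (T : Finset ℕ) : Submodule (ZMod 2) X :=
  Finsupp.supported (ZMod 2) (ZMod 2) (insert 0 (insert 2 (T : Set ℕ)))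

/-- a set of odd primes -/
def OddP (T : Finset ℕ) : Prop := ∀ r ∈ T, r.Prime ∧ r ≠ 2

/-- a linear map applied to both coordinates -/
abbrev two {V W : Type} [AddCommGroup V] [Module (ZMod 2) V] [AddCommGroup W] [Module (ZMod 2) W]
    (f : V →ₗ[ZMod 2] W) : V × V →ₗ[ZMod 2] W × W := f.prodMap f

/-- the class of the first point of order two -/
def T0 (a c δ : X) : X × X := (a + c, ep + δ + a)

/-- the class of the second point of order two -/
def T1 (a b δ : X) : X × X := (δ + a, ep + a + b)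

/-- the odd primes of the twisting parameter -/
def Sg (δ : X) : Finset ℕ := (δ.support.erase 0).erase 2

/-- the local condition -/
def Loc (a b c δ : X) (r : ℕ) : Submodule (ZMod 2) (X × X) :=
  (Submodule.span (ZMod 2) {two (lr r) (T0 a c δ), two (lr r) (T1 a b δ)}).comap (two (lr r))

/-- no condition at infinity and at two -/
def Rel (a b c δ : X) : Submodule (ZMod 2) (X × X) :=
  (Sup (Sg δ)).prod (Sup (Sg δ)) ⊓ ⨅ r ∈ Sg δ, Loc a b c δ r

/-- trivial at infinity and at two -/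
def Str (a b c δ : X) : Submodule (ZMod 2) (X × X) := Rel a b c δ ⊓ LinearMap.ker (two st)

/-- local consequences of `A + B = C` for coprime numbers -/
def Stein (e : ZMod 2) (x y z : B2) : Prop :=
  (x.1 = 1 → y.1 = 0 ∧ z.1 = 0 ∧ y.2 = z.2) ∧ (y.1 = 1 → z.1 = 0 ∧ x.2 = z.2) ∧
    (z.1 = 1 → x.2 + y.2 = e)

/-- admissible data -/
structure Ok3 (a b c δ : X) : Prop where
  odd : OddP (Sg δ)
  ha : a ∈ Sup (Sg δ)
  hb : b ∈ Sup (Sg δ)
  hc : c ∈ Sup (Sg δ)
  stein : ∀ r ∈ Sg δ, Stein (qL r (-1)) (lr r a) (lr r b) (lr r c)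

/-- the four known classes -/
def tt (a b c : X) (k : Fin 6 → X) : Fin 4 → X × X :=
  ![T0 a c (∑ j, k j), T1 a b (∑ j, k j), (∑ j, k j + k 2 + k 5, ∑ j, k j + k 0 + k 3),
    (∑ j, k j + k 0 + k 4, ep + ∑ j, k j + k 1 + k 5)]

/-- a combination of four vectors -/
def cmb {V : Type} [AddCommGroup V] [Module (ZMod 2) V] (c : B4) (t : Fin 4 → V) : V :=
  c.1 • t 0 + c.2.1 • t 1 + c.2.2.1 • t 2 + c.2.2.2 • t 3

/-- the local class of `-1` -/
def epH : B4 := (1, 0, 1, 0)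

/-- scalar product -/
def dt (x y : B4) : ZMod 2 := x.1 * y.1 + x.2.1 * y.2.1 + x.2.2.1 * y.2.2.1 + x.2.2.2 * y.2.2.2

/-- coordinates modulo the classes of `-1` and `2` -/
def rho (z : B4 × B4) : B4 := (z.1.2.2.1 + z.1.1, z.1.2.2.2, z.2.2.2.1 + z.2.1, z.2.2.2.2)

/-- the graph of a matrix -/
def lf (M : B4 × B4 × B4 × B4) (ρ : B4) : B4 × B4 :=
  ((dt M.1 ρ, dt M.2.1 ρ, ρ.1 + dt M.1 ρ, ρ.2.1),
    (dt M.2.2.1 ρ, dt M.2.2.2 ρ, ρ.2.2.1 + dt M.2.2.1 ρ, ρ.2.2.2))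

/-- the quadratic form at infinity and two -/
def qH (al be ga : B4) (z : B4 × B4) : ZMod 2 := hH (z.1 + z.2 + be + ga) (z.2 + epH + al + be)

/-- the parity bit -/
def bet (M : B4 × B4 × B4 × B4) (al be ga : B4) : ZMod 2 :=
  hH be (epH + ((lf M (rho (epH + al + ga, al + be))).1 + (epH + al + ga))) +
    hH ga (epH + ((lf M (rho (epH + al + ga, al + be))).2 + (al + be))) +
    hH al (epH + ((lf M (rho (epH + al + ga, al + be))).1 + (epH + al + ga)) +
      ((lf M (rho (epH + al + ga, al + be))).2 + (al + be)))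

/-- the condition at infinity and two -/
def Star (al be ga : B4) (t : Fin 4 → B4 × B4) : Prop :=
  (∀ c, cmb c t = 0 → c = 0) ∧ ∃ M : B4 × B4 × B4 × B4, (∀ ρ, qH al be ga (lf M ρ) = 0) ∧
    ∃ c₀ : B4, (c₀ = 0 ↔ bet M al be ga = 0) ∧
      ∀ c, lf M (rho (cmb c t)) = cmb c t ↔ c = 0 ∨ c = c₀

/-- the span of the constants -/
def Gam0 (a b c : X) : Submodule (ZMod 2) X := Submodule.span (ZMod 2) {ep, a, b, c}

/-- the span of the constants and the values -/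
def Gam1 (a b c : X) (k : Fin 6 → X) : Submodule (ZMod 2) X :=
  Gam0 a b c ⊔ Submodule.span (ZMod 2) (Set.range k)

/-- the constants are separated by the good primes of the twisting parameter -/
def Sepa (a b c δ : X) : Prop :=
  ∀ γ ∈ Gam0 a b c, (∀ r ∈ Sg δ, a r = 0 → b r = 0 → c r = 0 → lin (qL r) γ = 0) → γ = 0

/-- the family of curves, normalised -/
structure Fam (m n l A B C : ℤ) : Prop where
  l0 : l ≠ 0
  eA : l * A = m * (m + 2 * n)
  eB : l * B = n ^ 2 - m ^ 2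
  eC : l * C = n * (2 * m + n)
  A0 : A ≠ 0
  B0 : B ≠ 0
  C0 : C ≠ 0
  cAB : IsCoprime (m ^ 2 * A) ((m + n) ^ 2 * B)
  cAC : IsCoprime (m ^ 2 * A) (n ^ 2 * C)
  cBC : IsCoprime ((m + n) ^ 2 * B) (n ^ 2 * C)
  a4 : A % 4 = 1
  c8 : 8 ∣ C
  sg : ¬(0 < B ∧ 0 < C)
  nAB : ¬IsSquare |A * B|
  nAC : ¬IsSquare |A * C|
  nBC : ¬IsSquare |B * C|

/-- the six linear forms -/
def fm (A B C U V : ℤ) : Fin 6 → ℤ :=
  ![U, V, U + V, B * U + C * V, A * U - B * V, C * U + A * V]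

/-- the bad number -/
def HH (m n A B C : ℤ) : ℤ := 3 * (m ^ 2 * A) * ((m + n) ^ 2 * B) * (n ^ 2 * C)

/-- the classes of the six values -/
def kk (A B C U V : ℤ) (j : Fin 6) : X := cl (fm A B C U V j)

/-- the invariant of a position -/
structure Inv (m n A B C U V : ℤ) : Prop where
  ne : ∀ j, fm A B C U V j ≠ 0
  sig : ∀ r : ℕ, r.Prime → r ≠ 2 → (r : ℤ) ∣ HH m n A B C → (∑ j, kk A B C U V j) r = 1
  star : Star (st (cl A)) (st (cl B)) (st (cl C))
    fun i => two st (tt (cl A) (cl B) (cl C) (kk A B C U V) i)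
  wit : ∃ w : Fin 6 → ℕ, ∀ j, (w j).Prime ∧ ¬(w j : ℤ) ∣ HH m n A B C ∧
    ∀ i, kk A B C U V i (w j) = if i = j then 1 else 0
  sep : Sepa (cl A) (cl B) (cl C) (∑ j, kk A B C U V j)

/-- the alternating form on pairs of bits -/
def wg (x y : B2) : ZMod 2 := x.1 * y.2 + x.2 * y.1

/-- what one move does -/
def Step (S S' : Submodule (ZMod 2) (X × X)) (Γ Γ' : Submodule (ZMod 2) X)
    (η : X →ₗ[ZMod 2] ZMod 2) : Prop :=
  ∃ (ρ : X →ₗ[ZMod 2] X) (cf : X × X →ₗ[ZMod 2] B2),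
    (∀ y ∈ S', ∀ z ∈ S, wg (cf y) (two η z) = 0) ∧
    (∀ y ∈ S', cf y = 0 → two ρ y ∈ S ∧ two η (two ρ y) = 0 ∧ (two ρ y = 0 → y = 0)) ∧
    (∀ y ∈ S', cf y ≠ 0 → ∃ φ : X →ₗ[ZMod 2] ZMod 2, (∀ γ ∈ Γ', φ γ = 0) ∧
      wg (cf y) (two φ y) = 1 ∧ ∀ y' ∈ S', cf y' = 0 → two φ y' = 0) ∧
    (∀ y ∈ S', two η (two ρ y) = 0 → cf y = 0) ∧ (∀ γ ∈ Γ', ρ γ ∈ Γ) ∧
    ∀ y ∈ S', y.1 ∈ Γ' → y.2 ∈ Γ' → y = 0

end Pool.Agent.Lib.MP_7d3fda_nt.R3
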