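import Pool.Agent.Lib.MP_7d3fda_nt.R3.XDefs

open Finset

namespace Pool.Agent.Lib.MP_7d3fda_nt.R3

/-- values of a character on the four known classes -/
def Bv (al be ga : ZMod 2) (kp : Fin 6 → ZMod 2) : Fin 4 → B2 :=
  ![(al + ga, ∑ j, kp j + al), (∑ j, kp j + al, al + be),
    (∑ j, kp j + kp 2 + kp 5, ∑ j, kp j + kp 0 + kp 3),
    (∑ j, kp j + kp 0 + kp 4, ∑ j, kp j + kp 1 + kp 5)]

/-- the local conditions at the eighteen new primes -/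
def Eqs (al be ga : Fin 3 → ZMod 2) (kp : Fin 3 → Fin 6 → ZMod 2)
    (S : Fin 6 → Fin 3 → Fin 6 → Fin 3 → ZMod 2) (x : Fin 3 → B2) (v : Fin 6 → Fin 3 → B2) : Prop :=
  ∀ j k, (x k).1 + ∑ i, ∑ l, S i l j k * (v i l).1 =
      (v j k).2 * (al k + ga k) + (v j k).1 * (al k + (∑ i, kp k i + ∑ i, ∑ l, S i l j k)) ∧
    (x k).2 + ∑ i, ∑ l, S i l j k * (v i l).2 =
      (v j k).2 * (al k + (∑ i, kp k i + ∑ i, ∑ l, S i l j k)) + (v j k).1 * (al k + be k)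

/-- what is needed of the symbols of a move -/
structure Design (et : Fin 3) (al be ga : Fin 3 → ZMod 2) (kp : Fin 3 → Fin 6 → ZMod 2)
    (S : Fin 6 → Fin 3 → Fin 6 → Fin 3 → ZMod 2) : Prop where
  d0 : ∀ e : Fin 3 → B2, (∀ i, ∑ k, wg (e k) (Bv (al k) (be k) (ga k) (kp k) i) = 0) →
    ∀ k, k ≠ et → e k = 0
  d0' : ∀ w : B4, (∀ k, cmb w (Bv (al k) (be k) (ga k) (kp k)) = 0) → w = 0
  d1 : ∀ x v, Eqs al be ga kp S x v → (∀ k, ∑ j, v j k = 0) → v 0 0 = 0 → (v 1 0).1 = 0 →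
    (v 2 0).1 = 0 → x = 0 ∧ v = 0
  d3 : ∀ x v, Eqs al be ga kp S x v → (∀ k, k ≠ et → ∑ j, v j k = 0) → ∑ j, v j et ≠ 0 →
    ∃ j k l, wg (∑ j, v j et) (v j k + v j l) = 1
  d4 : ∀ x v, Eqs al be ga kp S x v → (∀ k, k ≠ et → ∑ j, v j k = 0) → x et = 0 →
    ∑ j, v j et = 0

/-- the classes of the minors of the six forms -/
def dl6 {V : Type} [Zero V] (a b c : V) : Fin 6 → Fin 6 → V :=
  ![![0, 0, 0, c, b, a], ![0, 0, 0, b, a, c], ![0, 0, 0, a, c, b], ![c, b, a, 0, 0, 0],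
    ![b, a, c, 0, 0, 0], ![a, c, b, 0, 0, 0]]

/-- the relations between the symbols -/
structure SymRel (al be ga : Fin 3 → ZMod 2) (kp : Fin 3 → Fin 6 → ZMod 2)
    (qq : Fin 2 × Fin 6 → Fin 2 × Fin 6 → ZMod 2) (sg : Fin 2 × Fin 6 → ZMod 2)
    (θ : Fin 3 → ZMod 2) (S : Fin 6 → Fin 3 → Fin 6 → Fin 3 → ZMod 2)
    (σ : Fin 6 → Fin 3 → ZMod 2) : Prop where
  diag : ∀ j k, S j k j k = 0
  symm : ∀ i l j k, S i l j k = S j k i l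
  th : ∀ j, S j 1 j 0 = θ 0 ∧ S j 2 j 0 = θ 1 ∧ S j 2 j 1 = θ 2
  q : ∀ v w : Fin 2 × Fin 6, v.2 < w.2 → S v.2 v.1.castSucc w.2 w.1.castSucc = qq v w
  s : ∀ v : Fin 2 × Fin 6, σ v.2 v.1.castSucc = sg v
  r : ∀ i j k, i ≠ j → S i 0 j k + S i 1 j k + S i 2 j k =
    dl6 (al k) (be k) (ga k) i j + kp k i + kp k j + σ j k

end Pool.Agent.Lib.MP_7d3fda_nt.R3
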