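import Mathlib

/-! A change of variables induces an isomorphism on points (copied from the team file `C2XInv`). -/

namespace Pool.Agent.Lib.MP_7d3fda_nt.R3.Iso

open WeierstrassCurve WeierstrassCurve.Affine

variable {K : Type} [Field K]

/-- The equations relating the coefficients of `W` and `W'`. -/
structure Rel (u r s t : K) (W W' : WeierstrassCurve K) : Prop where
  hu : u ≠ 0
  h₁ : W.a₁ = u * W'.a₁ - 2 * s
  h₂ : W.a₂ = u ^ 2 * W'.a₂ + s * W.a₁ - 3 * r + s ^ 2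
  h₃ : W.a₃ = u ^ 3 * W'.a₃ - r * W.a₁ - 2 * t
  h₄ : W.a₄ = u ^ 4 * W'.a₄ + s * W.a₃ - 2 * r * W.a₂ + (t + r * s) * W.a₁ - 3 * r ^ 2 + 2 * s * t
  h₆ : W.a₆ = u ^ 6 * W'.a₆ - r * W.a₄ - r ^ 2 * W.a₂ - r ^ 3 + t * W.a₃ + t ^ 2 + r * t * W.a₁

variable {u r s t : K} {W W' : WeierstrassCurve K}

lemma Rel.eF (h : Rel u r s t W W') (x y : K) :
    (u ^ 3 * y + u ^ 2 * s * x + t) ^ 2 + W.a₁ * (u ^ 2 * x + r) * (u ^ 3 * y + u ^ 2 * s * x + t) +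
      W.a₃ * (u ^ 3 * y + u ^ 2 * s * x + t) -
      ((u ^ 2 * x + r) ^ 3 + W.a₂ * (u ^ 2 * x + r) ^ 2 + W.a₄ * (u ^ 2 * x + r) + W.a₆) =
    u ^ 6 * (y ^ 2 + W'.a₁ * x * y + W'.a₃ * y - (x ^ 3 + W'.a₂ * x ^ 2 + W'.a₄ * x + W'.a₆)) := by
  rw [h.h₆, h.h₄, h.h₃, h.h₂, h.h₁]; ring

lemma Rel.eY (h : Rel u r s t W W') (x y : K) :
    2 * (u ^ 3 * y + u ^ 2 * s * x + t) + W.a₁ * (u ^ 2 * x + r) + W.a₃ =
      u ^ 3 * (2 * y + W'.a₁ * x + W'.a₃) := by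
  rw [h.h₃, h.h₁]; ring

lemma Rel.eX (h : Rel u r s t W W') (x y : K) :
    W.a₁ * (u ^ 3 * y + u ^ 2 * s * x + t) -
      (3 * (u ^ 2 * x + r) ^ 2 + 2 * W.a₂ * (u ^ 2 * x + r) + W.a₄) =
      u ^ 4 * (W'.a₁ * y - (3 * x ^ 2 + 2 * W'.a₂ * x + W'.a₄)) -
        s * u ^ 3 * (2 * y + W'.a₁ * x + W'.a₃) := by
  rw [h.h₄, h.h₃, h.h₂, h.h₁]; ring

lemma Rel.nonsing (h : Rel u r s t W W') (x y : K) :
    W.toAffine.Nonsingular (u ^ 2 * x + r) (u ^ 3 * y + u ^ 2 * s * x + t) ↔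
      W'.toAffine.Nonsingular x y := by
  have hu := h.hu
  rw [nonsingular_iff', nonsingular_iff', equation_iff', equation_iff']
  simp only [toAffine]
  rw [h.eF, h.eY, h.eX, mul_eq_zero, or_iff_right (pow_ne_zero 6 hu)]
  refine and_congr_right' ?_
  by_cases hy : 2 * y + W'.a₁ * x + W'.a₃ = 0
  · simp [hy, hu]
  · simp [hy, hu]

lemma Rel.negY (h : Rel u r s t W W') (x y : K) :
    W.toAffine.negY (u ^ 2 * x + r) (u ^ 3 * y + u ^ 2 * s * x + t) =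
      u ^ 3 * W'.toAffine.negY x y + u ^ 2 * s * x + t := by
  simp only [Affine.negY, toAffine]
  rw [h.h₃, h.h₁]; ring

lemma Rel.addX (h : Rel u r s t W W') (x₁ x₂ l : K) :
    W.toAffine.addX (u ^ 2 * x₁ + r) (u ^ 2 * x₂ + r) (u * l + s) =
      u ^ 2 * W'.toAffine.addX x₁ x₂ l + r := by
  simp only [Affine.addX, toAffine]
  rw [h.h₂, h.h₁]; ring

lemma Rel.addY (h : Rel u r s t W W') (x₁ x₂ y₁ l : K) :
    W.toAffine.addY (u ^ 2 * x₁ + r) (u ^ 2 * x₂ + r) (u ^ 3 * y₁ + u ^ 2 * s * x₁ + t) (u * l + s) =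
      u ^ 3 * W'.toAffine.addY x₁ x₂ y₁ l + u ^ 2 * s * W'.toAffine.addX x₁ x₂ l + t := by
  simp only [Affine.addY, Affine.negAddY, Affine.addX, Affine.negY, toAffine]
  rw [h.h₃, h.h₂, h.h₁]; ring

lemma Rel.X_inj (h : Rel u r s t W W') {x₁ x₂ : K} :
    u ^ 2 * x₁ + r = u ^ 2 * x₂ + r ↔ x₁ = x₂ := by
  rw [add_left_inj, mul_right_inj' (pow_ne_zero 2 h.hu)]

lemma Rel.Y_inj (h : Rel u r s t W W') {x y₁ y₂ : K} :
    u ^ 3 * y₁ + u ^ 2 * s * x + t = u ^ 3 * y₂ + u ^ 2 * s * x + t ↔ y₁ = y₂ := by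
  rw [add_left_inj, add_left_inj, mul_right_inj' (pow_ne_zero 3 h.hu)]

lemma Rel.cond (h : Rel u r s t W W') {x₁ x₂ y₁ y₂ : K} :
    (u ^ 2 * x₁ + r = u ^ 2 * x₂ + r ∧ u ^ 3 * y₁ + u ^ 2 * s * x₁ + t =
      W.toAffine.negY (u ^ 2 * x₂ + r) (u ^ 3 * y₂ + u ^ 2 * s * x₂ + t)) ↔
      (x₁ = x₂ ∧ y₁ = W'.toAffine.negY x₂ y₂) := by
  rw [h.X_inj, h.negY]
  refine and_congr_right fun hx => ?_
  rw [hx, h.Y_inj]

variable [DecidableEq K]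

lemma Rel.slope (h : Rel u r s t W W') {x₁ x₂ y₁ y₂ : K} (h₁ : W'.toAffine.Equation x₁ y₁)
    (h₂ : W'.toAffine.Equation x₂ y₂) (hxy : ¬(x₁ = x₂ ∧ y₁ = W'.toAffine.negY x₂ y₂)) :
    W.toAffine.slope (u ^ 2 * x₁ + r) (u ^ 2 * x₂ + r) (u ^ 3 * y₁ + u ^ 2 * s * x₁ + t)
      (u ^ 3 * y₂ + u ^ 2 * s * x₂ + t) = u * W'.toAffine.slope x₁ x₂ y₁ y₂ + s := by
  have hu := h.hu
  by_cases hx : x₁ = x₂
  · have hy : y₁ ≠ W'.toAffine.negY x₂ y₂ := fun hy => hxy ⟨hx, hy⟩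
    have hyy : y₁ = y₂ := Y_eq_of_Y_ne h₁ h₂ hx hy
    subst hx hyy
    have hy' : u ^ 3 * y₁ + u ^ 2 * s * x₁ + t ≠
        W.toAffine.negY (u ^ 2 * x₁ + r) (u ^ 3 * y₁ + u ^ 2 * s * x₁ + t) :=
      fun hh => hy (h.cond.1 ⟨rfl, hh⟩).2
    rw [slope_of_Y_ne rfl hy', slope_of_Y_ne rfl hy, h.negY]
    have e1 : y₁ - W'.toAffine.negY x₁ y₁ ≠ 0 := sub_ne_zero.2 hy
    have e2 : u ^ 3 * y₁ + u ^ 2 * s * x₁ + t - (u ^ 3 * W'.toAffine.negY x₁ y₁ + u ^ 2 * s * x₁ + t) =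
        u ^ 3 * (y₁ - W'.toAffine.negY x₁ y₁) := by ring
    rw [e2, div_eq_iff (mul_ne_zero (pow_ne_zero 3 hu) e1), add_mul, mul_assoc u,
      mul_left_comm _ (u ^ 3), div_mul_cancel₀ _ e1]
    have e3 := h.eX x₁ y₁
    simp only [Affine.negY, toAffine] at e3 ⊢
    linear_combination -e3
  · have hx' : u ^ 2 * x₁ + r ≠ u ^ 2 * x₂ + r := fun hh => hx (h.X_inj.1 hh)
    rw [slope_of_X_ne hx', slope_of_X_ne hx]
    have e1 : x₁ - x₂ ≠ 0 := sub_ne_zero.2 hx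
    have e2 : u ^ 2 * x₁ + r - (u ^ 2 * x₂ + r) = u ^ 2 * (x₁ - x₂) := by ring
    rw [e2]
    field_simp
    ring

/-- The map on points. -/
def Rel.fn (h : Rel u r s t W W') : W'.toAffine.Point → W.toAffine.Point
  | .zero => .zero
  | .some x y hxy => .some _ _ ((h.nonsing x y).2 hxy)

/-- The homomorphism on points. -/
noncomputable def Rel.hom (h : Rel u r s t W W') : W'.toAffine.Point →+ W.toAffine.Point where
  toFun := h.fn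
  map_zero' := rfl
  map_add' := by
    rintro (_ | ⟨x₁, y₁, h₁⟩) (_ | ⟨x₂, y₂, h₂⟩)
    any_goals rfl
    by_cases hxy : x₁ = x₂ ∧ y₁ = W'.toAffine.negY x₂ y₂
    · rw [Point.add_of_Y_eq hxy.1 hxy.2]
      exact (Point.add_of_Y_eq (h.cond.2 hxy).1 (h.cond.2 hxy).2).symm
    · rw [Point.add_some hxy]
      simp only [Rel.fn]
      rw [Point.add_some fun hh => hxy (h.cond.1 hh), Point.some.injEq, h.slope h₁.1 h₂.1 hxy,
        h.addX, h.addY]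
      exact ⟨rfl, rfl⟩

lemma Rel.bij (h : Rel u r s t W W') : Function.Bijective h.hom := by
  have hu := h.hu
  constructor
  · rw [injective_iff_map_eq_zero]
    rintro (_ | ⟨x, y, hxy⟩) hh
    · rfl
    · exact absurd hh (Point.some_ne_zero _)
  · rintro (_ | ⟨x, y, hxy⟩)
    · exact ⟨0, rfl⟩
    · have e1 : x = u ^ 2 * ((x - r) / u ^ 2) + r := by field_simp; ring
      have e2 : y = u ^ 3 * ((y - s * (x - r) - t) / u ^ 3) + u ^ 2 * s * ((x - r) / u ^ 2) + t := by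
        field_simp; ring
      refine ⟨.some _ _ ((h.nonsing ((x - r) / u ^ 2) ((y - s * (x - r) - t) / u ^ 3)).1
        (by rw [← e1, ← e2]; exact hxy)), ?_⟩
      show Point.some _ _ _ = _
      rw [Point.some.injEq]
      exact ⟨e1.symm, e2.symm⟩

/-- The isomorphism on points. -/
noncomputable def Rel.equiv (h : Rel u r s t W W') : W'.toAffine.Point ≃+ W.toAffine.Point :=
  AddEquiv.ofBijective h.hom h.bij

end Pool.Agent.Lib.MP_7d3fda_nt.R3.Iso
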