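import Mathlib

/-! Two classical quartic equations, by descent. -/

namespace Pool.Agent.Lib.MP_7d3fda_nt.R3

namespace XQuartAux

theorem pow4 {a b c : ℤ} (h : IsCoprime a b) (ha : 0 < a) (e : a * b = c ^ 4) : ∃ s, a = s ^ 4 := by
  obtain ⟨s, hs⟩ := exists_associated_pow_of_mul_eq_pow' h e
  rcases Int.associated_iff.1 hs with h | h
  · exact ⟨s, h.symm⟩
  · have : 0 ≤ s ^ 4 := by positivity
    omega

theorem four {a b c : ℤ} (h : IsCoprime a b) (ha : 0 < a) (hb : 0 < b) (e : a * b = c ^ 4) :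
    ∃ s t, a = s ^ 4 ∧ b = t ^ 4 ∧ c ^ 2 = (s * t) ^ 2 ∧ IsCoprime s t := by
  obtain ⟨s, rfl⟩ := pow4 h ha e
  obtain ⟨t, rfl⟩ := pow4 h.symm hb (by rw [← e, mul_comm])
  refine ⟨s, t, rfl, rfl, ?_, (IsCoprime.pow_iff (by norm_num) (by norm_num)).1 h⟩
  refine (pow_left_inj₀ (by positivity) (by positivity) two_ne_zero).1 ?_
  linear_combination -e

theorem pyth {x y z : ℤ} (h : x ^ 2 + y ^ 2 = z ^ 2) (hc : IsCoprime x y) (hx : x % 2 = 1) :
    ∃ m n, x = m ^ 2 - n ^ 2 ∧ y = 2 * m * n ∧ IsCoprime m n ∧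
      (m % 2 = 0 ∧ n % 2 = 1 ∨ m % 2 = 1 ∧ n % 2 = 0) := by
  obtain ⟨m, n, h1, -, h3, h4⟩ := PythagoreanTriple.coprime_classification.1
    ⟨show x * x + y * y = z * z by linear_combination h, Int.isCoprime_iff_gcd_eq_one.1 hc⟩
  rcases h1 with h1 | h1
  · exact ⟨m, n, h1.1, h1.2, Int.isCoprime_iff_gcd_eq_one.2 h3, h4⟩
  · rw [h1.1, mul_assoc] at hx
    omega

theorem sqmod (x : ℤ) : (x % 2 = 0 ∧ x ^ 2 % 4 = 0) ∨ (x % 2 = 1 ∧ x ^ 2 % 8 = 1) := by
  rcases Int.even_or_odd' x with ⟨k, rfl | rfl⟩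
  · left
    rw [show (2 * k) ^ 2 = 4 * k ^ 2 by ring]
    omega
  · right
    obtain ⟨j, hj⟩ := Int.even_mul_succ_self k
    rw [show (2 * k + 1) ^ 2 = 4 * (k * (k + 1)) + 1 by ring, hj]
    omega

theorem both {x y p : ℤ} (h : IsCoprime x y) (hp : Prime p) (h1 : p ∣ x) (h2 : p ∣ y) : False :=
  hp.not_isUnit (h.isUnit_of_dvd' h1 h2)

theorem par {x y : ℤ} (h : IsCoprime x y) : x % 2 = 1 ∨ y % 2 = 1 := by
  by_contra hc
  exact both h Int.prime_two (by omega) (by omega)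

theorem plus_step {x w z : ℤ} (hc : IsCoprime x w) (hx : x % 2 = 1) (hw : w ≠ 0)
    (h : x ^ 4 + x ^ 2 * (2 * w) ^ 2 + (2 * w) ^ 4 = z ^ 2) :
    ∃ c d b : ℤ, IsCoprime c d ∧ c * d ≠ 0 ∧ (c * d) ^ 2 ≤ w ^ 2 ∧
      c ^ 4 + c ^ 2 * d ^ 2 + d ^ 4 = b ^ 2 := by
  have w4 : 0 < w ^ 4 := by positivity
  obtain ⟨T, hT⟩ : ∃ T, T = x ^ 2 + 2 * w ^ 2 := ⟨_, rfl⟩
  have T0 : 0 ≤ T := by rw [hT]; positivity
  have e1 : |z| ^ 2 = T ^ 2 + 12 * w ^ 4 := by rw [sq_abs, ← h, hT]; ring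
  have z0 : T < |z| := by
    by_contra hc
    nlinarith [abs_nonneg z]
  obtain ⟨P, hP⟩ : ∃ P, |z| = T + 2 * P := by
    refine ⟨(|z| - T) / 2, ?_⟩
    have := sqmod |z|
    have := sqmod T
    omega
  have P0 : 0 < P := by omega
  have e2 : P * (T + P) = 3 * w ^ 4 := by
    rw [hP] at e1
    linarith
  have cP : IsCoprime P (T + P) := by
    refine isCoprime_of_prime_dvd (by omega) fun p hp h1 h2 => ?_
    have h3 : p ∣ x ^ 2 + 2 * w ^ 2 := by simpa [hT] using dvd_sub h2 h1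
    by_cases h4 : p ∣ w
    · refine both hc hp (hp.dvd_of_dvd_pow (n := 2) ?_) h4
      simpa using dvd_sub h3 ((dvd_pow h4 two_ne_zero).mul_left 2)
    · have h5 : p * p ∣ 3 * w ^ 4 := e2 ▸ mul_dvd_mul h1 h2
      have h6 := hp.irreducible.coprime_iff_not_dvd.2 h4
      exact hp.not_isUnit (Int.prime_three.squarefree p
        ((h6.mul_left h6).pow_right.dvd_of_dvd_mul_right h5))
  obtain ⟨k, rfl⟩ : ∃ k, x = 2 * k + 1 := ⟨x / 2, by omega⟩
  rcases Int.prime_three.dvd_or_dvd (e2 ▸ dvd_mul_right 3 (w ^ 4) : (3 : ℤ) ∣ P * (T + P)) with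
    ⟨P', rfl⟩ | ⟨Q', hQ⟩
  · obtain ⟨a, b, rfl, hb, hab, cab⟩ := four (c := w) cP.of_mul_left_right (by omega) (by omega)
      (by linarith)
    have a0 : a ≠ 0 := by
      rintro rfl
      simp at P0
    have a4 : 0 < a ^ 4 := by positivity
    obtain ⟨S, hS⟩ : ∃ S, S = b ^ 2 - a ^ 2 := ⟨_, rfl⟩
    have e3 : S ^ 2 = (2 * k + 1) ^ 2 + 4 * a ^ 4 := by
      rw [hS]
      linear_combination -hb + hT + 2 * hab
    have S0 : 0 < S := by
      by_contra hc
      have h1 : b ^ 2 ≤ a ^ 2 := by omega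
      have h2 : 0 ≤ b ^ 2 := by positivity
      nlinarith [sq_nonneg (2 * k + 1)]
    obtain ⟨R, hR⟩ : ∃ R, S = 2 * k + 1 + 2 * R := by
      refine ⟨(S - (2 * k + 1)) / 2, ?_⟩
      have := sqmod S
      have := sqmod (2 * k + 1)
      omega
    have e4 : R * (2 * k + 1 + R) = a ^ 4 := by
      rw [hR] at e3
      linarith
    have R0 : 0 < R := by
      by_contra hc
      nlinarith
    have R1 : 0 < 2 * k + 1 + R := by
      by_contra hc
      nlinarith
    have cR : IsCoprime R (2 * k + 1 + R) := by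
      refine isCoprime_of_prime_dvd (by omega) fun p hp h1 h2 => ?_
      have h3 : p ∣ a := hp.dvd_of_dvd_pow (e4 ▸ h1.mul_right _)
      refine both cab hp h3 (hp.dvd_of_dvd_pow (n := 2) ?_)
      rw [show b ^ 2 = R + (2 * k + 1 + R) + a * a by linear_combination hR - hS]
      exact dvd_add (dvd_add h1 h2) (h3.mul_right _)
    obtain ⟨c, d, hc, hd, hcd, ccd⟩ := four cR R0 R1 e4
    refine ⟨c, d, b, ccd, fun e => a0 ?_, ?_, ?_⟩
    · rw [e] at hcd
      simpa using hcd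
    · have b0 : b ≠ 0 := by
        rintro rfl
        have : 0 ≤ a ^ 2 := by positivity
        simp at hS
        omega
      have : 0 < b ^ 2 := by positivity
      have : 0 ≤ a ^ 2 := by positivity
      rw [← hcd, hab]
      nlinarith
    · linear_combination hS - hR - hc - hd - hcd
  · rw [hQ] at cP e2
    obtain ⟨a, b, rfl, rfl, hab, -⟩ := four (c := w) cP.of_mul_right_right P0 (by omega)
      (by linarith)
    have e3 : (2 * k + 1) ^ 2 = 3 * b ^ 4 - a ^ 4 - 2 * (a * b) ^ 2 := by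
      linear_combination hQ - hT - 2 * hab
    have e4 := congrArg (Int.cast : ℤ → ZMod 4) e3
    push_cast at e4
    exact absurd e4 ((by decide : ∀ k a b : ZMod 4,
      (2 * k + 1) ^ 2 ≠ 3 * b ^ 4 - a ^ 4 - 2 * (a * b) ^ 2) _ _ _)

theorem minus_step {x y z : ℤ} (hc : IsCoprime x y) (hx : x % 2 = 1) (hy : y % 2 = 0) (y0 : y ≠ 0)
    (h : x ^ 4 - x ^ 2 * y ^ 2 + y ^ 4 = z ^ 2) :
    ∃ u v A : ℤ, IsCoprime u v ∧ u % 2 = 1 ∧ v % 2 = 0 ∧ v ≠ 0 ∧ (u * v) ^ 2 < (x * y) ^ 2 ∧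
      u ^ 4 - u ^ 2 * v ^ 2 + v ^ 4 = A ^ 2 := by
  have px := sqmod x
  have py := sqmod y
  have c1 : IsCoprime (x ^ 2 - y ^ 2) (x * y) := by
    refine IsCoprime.mul_right ?_ ?_
    · have := (hc.symm.pow_left (m := 2)).neg_left.add_mul_right_left x
      rwa [show -y ^ 2 + x * x = x ^ 2 - y ^ 2 by ring] at this
    · have := (hc.pow_left (m := 2)).add_mul_right_left (-y)
      rwa [show x ^ 2 + -y * y = x ^ 2 - y ^ 2 by ring] at this
  obtain ⟨a, b, h1, h2, cab, pab⟩ := pyth (z := z) (by linear_combination h) c1 (by omega)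
  have pa := sqmod a
  have pb := sqmod b
  have a1 : a % 2 = 1 := by omega
  obtain ⟨d, X, A, d0, cXA, rfl, rfl⟩ :=
    Int.exists_gcd_one' (Int.gcd_pos_of_ne_zero_left a (show x ≠ 0 by omega))
  have d1 : (d : ℤ) ≠ 0 := by omega
  generalize (d : ℤ) = d at *
  rw [← Int.isCoprime_iff_gcd_eq_one] at cXA
  have X2 : IsCoprime X 2 := by
    rw [Int.isCoprime_two_right]
    exact (Int.odd_mul.1 (Int.odd_iff.2 hx)).1
  have d2 : d % 2 = 1 := Int.odd_iff.1 (Int.odd_mul.1 (Int.odd_iff.2 hx)).2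
  have X0 : X ≠ 0 := by
    rintro rfl
    simp at hx
  have A0 : A ≠ 0 := by
    rintro rfl
    simp at a1
  have h3 : X * y = 2 * A * b := mul_left_cancel₀ d1 (by linear_combination h2)
  obtain ⟨e, rfl⟩ : X ∣ b := (X2.mul_right cXA).dvd_of_dvd_mul_left ⟨y, h3.symm⟩
  obtain rfl : y = 2 * A * e := mul_left_cancel₀ X0 (by linear_combination h3)
  have e0 : e ≠ 0 := right_ne_zero_of_mul y0
  have cde : IsCoprime d e := cab.of_mul_left_right.of_mul_right_right
  have h4 : X ^ 2 * (d ^ 2 + e ^ 2) = A ^ 2 * (d ^ 2 + (2 * e) ^ 2) := by linear_combination h1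
  have c2 : IsCoprime (d ^ 2 + (2 * e) ^ 2) (d ^ 2 + e ^ 2) := by
    refine isCoprime_of_prime_dvd (fun h => ?_) fun p hp h5 h6 => ?_
    · exact (show 0 < d ^ 2 + e ^ 2 by positivity).ne' h.2
    · have h7 : p ∣ 3 * e ^ 2 := by
        have := dvd_sub h5 h6
        rwa [show d ^ 2 + (2 * e) ^ 2 - (d ^ 2 + e ^ 2) = 3 * e ^ 2 by ring] at this
      rcases hp.dvd_or_dvd h7 with h7 | h7
      · have h8 : (3 : ℤ) ∣ d ^ 2 + e ^ 2 :=
          (hp.associated_of_dvd Int.prime_three h7).symm.dvd.trans h6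
        have h9 := (ZMod.intCast_zmod_eq_zero_iff_dvd _ 3).2 h8
        push_cast at h9
        obtain ⟨k1, k2⟩ := (by decide : ∀ a b : ZMod 3, a ^ 2 + b ^ 2 = 0 → a = 0 ∧ b = 0) _ _ h9
        exact both cde Int.prime_three ((ZMod.intCast_zmod_eq_zero_iff_dvd _ 3).1 k1)
          ((ZMod.intCast_zmod_eq_zero_iff_dvd _ 3).1 k2)
      · refine both cde hp (hp.dvd_of_dvd_pow (n := 2) ?_) (hp.dvd_of_dvd_pow h7)
        simpa using dvd_sub h6 h7
  have h5 : d ^ 2 + (2 * e) ^ 2 = X ^ 2 := by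
    refine Int.dvd_antisymm (by positivity) (by positivity) ?_ ?_
    · exact c2.dvd_of_dvd_mul_right (h4 ▸ dvd_mul_left _ _)
    · exact (cXA.pow (m := 2) (n := 2)).dvd_of_dvd_mul_left (h4 ▸ dvd_mul_right _ _)
  have h6 : d ^ 2 + e ^ 2 = A ^ 2 :=
    mul_left_cancel₀ (pow_ne_zero 2 X0) (by rw [h4, h5, mul_comm])
  obtain ⟨u, v, h7, h8, cuv, puv⟩ :=
    pyth h5 ((Int.isCoprime_two_right.2 (Int.odd_iff.2 d2)).mul_right cde) d2
  obtain rfl : e = u * v := by linarith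
  have lt : (u * v) ^ 2 < (X * d * (2 * A * (u * v))) ^ 2 := by
    have k1 : 0 < (u * v) ^ 2 := by positivity
    have k2 : 0 < (X * d * A) ^ 2 := by positivity
    nlinarith
  rcases puv with p | p
  · refine ⟨v, u, A, cuv.symm, p.2, p.1, left_ne_zero_of_mul e0, by rwa [mul_comm v], ?_⟩
    rw [← h6, h7]
    ring
  · refine ⟨u, v, A, cuv, p.1, p.2, right_ne_zero_of_mul e0, lt, ?_⟩
    rw [← h6, h7]
    ring

theorem minus_aux (N : ℕ) : ∀ x y z : ℤ, (x * y) ^ 2 < N → IsCoprime x y → x % 2 = 1 → y % 2 = 0 →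
    x ^ 4 - x ^ 2 * y ^ 2 + y ^ 4 = z ^ 2 → y = 0 := by
  induction N with
  | zero => exact fun x y z h => absurd h (not_lt.2 (by positivity))
  | succ N ih =>
    intro x y z h hc hx hy e
    by_contra y0
    obtain ⟨u, v, A, k1, k2, k3, k4, k5, k6⟩ := minus_step hc hx hy y0 e
    exact k4 (ih u v A (by push_cast at h; omega) k1 k2 k3 k6)

theorem plus_aux (N : ℕ) : ∀ x y z : ℤ, (x * y) ^ 2 < N → IsCoprime x y →
    x ^ 4 + x ^ 2 * y ^ 2 + y ^ 4 = z ^ 2 → x * y = 0 := by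
  induction N with
  | zero => exact fun x y z h => absurd h (not_lt.2 (by positivity))
  | succ N ih =>
    have key : ∀ x y z : ℤ, (x * y) ^ 2 < (N + 1 : ℕ) → IsCoprime x y → y % 2 = 0 →
        x ^ 4 + x ^ 2 * y ^ 2 + y ^ 4 = z ^ 2 → y = 0 := by
      intro x y z h hc hy e
      have hx : x % 2 = 1 := by
        have := par hc
        omega
      obtain ⟨w, rfl⟩ : ∃ w, y = 2 * w := ⟨y / 2, by omega⟩
      by_contra y0
      have w0 : w ≠ 0 := right_ne_zero_of_mul y0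
      obtain ⟨c, d, b, k1, k2, k3, k4⟩ := plus_step hc.of_mul_right_right hx w0 e
      refine k2 (ih c d b ?_ k1 k4)
      have x0 : x ≠ 0 := by omega
      have : 0 < x ^ 2 := by positivity
      have : 0 < w ^ 2 := by positivity
      push_cast at h
      nlinarith
    intro x y z h hc e
    rcases Int.emod_two_eq_zero_or_one y with hy | hy
    · rw [key x y z h hc hy e, mul_zero]
    rcases Int.emod_two_eq_zero_or_one x with hx | hx
    · rw [key y x z (by rwa [mul_comm y]) hc.symm hx (by linear_combination e), zero_mul]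
    obtain ⟨k, rfl⟩ : ∃ k, x = 2 * k + 1 := ⟨x / 2, by omega⟩
    obtain ⟨l, rfl⟩ : ∃ l, y = 2 * l + 1 := ⟨y / 2, by omega⟩
    have e4 := congrArg (Int.cast : ℤ → ZMod 4) e
    push_cast at e4
    exact absurd e4 ((by decide : ∀ k l z : ZMod 4,
      (2 * k + 1) ^ 4 + (2 * k + 1) ^ 2 * (2 * l + 1) ^ 2 + (2 * l + 1) ^ 4 ≠ z ^ 2) _ _ _)

theorem big (a : ℤ) : a < ((a.natAbs + 1 : ℕ) : ℤ) := by omega

theorem plus {x y z : ℤ} (hc : IsCoprime x y) (e : x ^ 4 + x ^ 2 * y ^ 2 + y ^ 4 = z ^ 2) :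
    x * y = 0 := plus_aux _ x y z (big _) hc e

theorem minus {x y z : ℤ} (hc : IsCoprime x y) (e : x ^ 4 - x ^ 2 * y ^ 2 + y ^ 4 = z ^ 2) :
    x * y = 0 ∨ x ^ 2 = y ^ 2 := by
  have := par hc
  rcases Int.emod_two_eq_zero_or_one y with hy | hy
  · left
    rw [minus_aux _ x y z (big _) hc (by omega) hy e, mul_zero]
  rcases Int.emod_two_eq_zero_or_one x with hx | hx
  · left
    rw [minus_aux _ y x z (big _) hc.symm hy hx (by linear_combination e), zero_mul]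
  right
  have c1 : IsCoprime (x * y) (x ^ 2 - y ^ 2) := by
    refine IsCoprime.mul_left ?_ ?_
    · have := (hc.symm.pow_left (m := 2)).neg_left.add_mul_right_left x
      rw [show -y ^ 2 + x * x = x ^ 2 - y ^ 2 by ring] at this
      exact this.symm
    · have := (hc.pow_left (m := 2)).add_mul_right_left (-y)
      rw [show x ^ 2 + -y * y = x ^ 2 - y ^ 2 by ring] at this
      exact this.symm
  obtain ⟨a, b, h1, h2, cab, pab⟩ := pyth (z := z) (by linear_combination e) c1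
    (Int.odd_iff.1 ((Int.odd_iff.2 hx).mul (Int.odd_iff.2 hy)))
  have e1 : a ^ 4 - a ^ 2 * b ^ 2 + b ^ 4 = (y ^ 2 + a * b) ^ 2 := by
    linear_combination -(x * y + a ^ 2 - b ^ 2) * h1 + y ^ 2 * h2
  rcases pab with p | p
  · rw [minus_aux _ b a (y ^ 2 + a * b) (big _) cab.symm p.2 p.1 (by linear_combination e1)] at h2
    linear_combination h2
  · rw [minus_aux _ a b _ (big _) cab p.1 p.2 e1] at h2
    linear_combination h2

end XQuartAux

open XQuartAux in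
theorem nsq {A B Q : ℤ} (h : IsCoprime A B) (hQ : A ^ 2 + A * B + B ^ 2 = Q ^ 2) (A0 : A ≠ 0)
    (B0 : B ≠ 0) (C0 : A + B ≠ 0) : ¬IsSquare |A * B| := by
  rintro ⟨r, hr⟩
  obtain ⟨⟨x, hx⟩, y, hy⟩ : (∃ x, A = x ^ 2 ∨ A = -x ^ 2) ∧ ∃ y, B = y ^ 2 ∨ B = -y ^ 2 := by
    rcases abs_cases (A * B) with k | k
    · exact ⟨Int.sq_of_isCoprime (c := r) h (by linear_combination hr - k.1),
        Int.sq_of_isCoprime (c := r) h.symm (by linear_combination hr - k.1)⟩
    · exact ⟨Int.sq_of_isCoprime (c := r) h.neg_right (by linear_combination hr - k.1),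
        Int.sq_of_isCoprime (c := r) h.symm.neg_right (by linear_combination hr - k.1)⟩
  have c : IsCoprime x y := by
    rcases hx with rfl | rfl <;> rcases hy with rfl | rfl <;>
      simpa [IsCoprime.pow_iff, IsCoprime.neg_left_iff, IsCoprime.neg_right_iff] using h
  have n0 : x * y ≠ 0 := by
    refine mul_ne_zero ?_ ?_ <;> rintro rfl
    · simp [A0] at hx
    · simp [B0] at hy
  rcases hx with rfl | rfl <;> rcases hy with rfl | rfl
  · exact n0 (plus (z := Q) c (by linear_combination hQ))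
  · exact (minus (z := Q) c (by linear_combination hQ)).elim n0 fun e => C0 (by linear_combination e)
  · exact (minus (z := Q) c (by linear_combination hQ)).elim n0 fun e => C0 (by linear_combination -e)
  · exact n0 (plus (z := Q) c (by linear_combination hQ))

end Pool.Agent.Lib.MP_7d3fda_nt.R3
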