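import Pool.Agent.Lib.MP_7d3fda_nt.R3.XCore
import Pool.Agent.Lib.MP_7d3fda_nt.R3.XIso
import Pool.Agent.Lib.MP_7d3fda_nt.R3.XQuart

noncomputable section

namespace Pool.Agent.Lib.MP_7d3fda_nt.R3

open Pool.Agent.Lib.MP_788af2_nt

/-- the conclusion for the curve `y^2 = x^3 + a x^2 + b x + c` -/
def Goal (a b c : ℚ) : Prop :=
  ∃ κ : ℝ, 0 < κ ∧ ∃ D₀ : ℝ, ∀ D : ℝ, D₀ ≤ D →
    κ * D ^ (1 / 3 : ℝ) / Real.log D ^ 6 ≤ (Set.ncard {d : ℤ | |(d : ℝ)| ≤ D ∧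
      ((d % 4 = 1 ∧ Squarefree d ∨ ∃ k, d = 4 * k ∧ (k % 4 = 2 ∨ k % 4 = 3) ∧ Squarefree k) ∧
        Module.rank ℤ (cv (d * a) (d ^ 2 * b) (d ^ 3 * c)).Point = 2)} : ℝ)

/-- the conclusion for the curve with three given roots -/
def Goal3 (e₁ e₂ e₃ : ℚ) : Prop :=
  Goal (-(e₁ + e₂ + e₃)) (e₁ * e₂ + e₁ * e₃ + e₂ * e₃) (-(e₁ * e₂ * e₃))

namespace XFinalAux

theorem sw12 {e₁ e₂ e₃ : ℚ} (h : Goal3 e₂ e₁ e₃) : Goal3 e₁ e₂ e₃ := by
  unfold Goal3 at h ⊢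
  convert h using 1 <;> ring

theorem sw13 {e₁ e₂ e₃ : ℚ} (h : Goal3 e₃ e₂ e₁) : Goal3 e₁ e₂ e₃ := by
  unfold Goal3 at h ⊢
  convert h using 1 <;> ring

theorem sw23 {e₁ e₂ e₃ : ℚ} (h : Goal3 e₁ e₃ e₂) : Goal3 e₁ e₂ e₃ := by
  unfold Goal3 at h ⊢
  convert h using 1 <;> ring

theorem iso {e₁ e₂ e₃ d u : ℚ} {a b : ℤ} (hu : u ≠ 0) (h1 : d * (e₂ - e₁) = u ^ 2 * a)
    (h2 : d * (e₃ - e₁) = u ^ 2 * b) :
    Module.rank ℤ (cv (d * -(e₁ + e₂ + e₃)) (d ^ 2 * (e₁ * e₂ + e₁ * e₃ + e₂ * e₃))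
      (d ^ 3 * -(e₁ * e₂ * e₃))).Point = Module.rank ℤ (cvE ![0, a, b]).Point := by
  have h : Iso.Rel u (d * e₁) 0 0 (cv (d * -(e₁ + e₂ + e₃)) (d ^ 2 * (e₁ * e₂ + e₁ * e₃ + e₂ * e₃))
      (d ^ 3 * -(e₁ * e₂ * e₃))) (cvE ![0, a, b]) := by
    refine ⟨hu, by simp, ?_, by simp, ?_, ?_⟩ <;> simp
    · linear_combination -h1 - h2
    · linear_combination (d * (e₃ - e₁)) * h1 + u ^ 2 * a * h2
    · ring
  exact h.equiv.toIntLinearEquiv.rank_eq.symm

theorem main0 {m n l A B C : ℤ} (hF : Fam m n l A B C) {e₁ e₂ e₃ δ : ℚ} (δ0 : δ ≠ 0)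
    (h1 : e₂ - e₁ = δ * (m ^ 2 * A)) (h2 : e₃ - e₁ = δ * (n ^ 2 * C)) : Goal3 e₁ e₂ e₃ := by
  have q0 : (δ.den : ℤ) ≠ 0 := by exact_mod_cast δ.den_ne_zero
  have N0 : δ.num * δ.den ≠ 0 := mul_ne_zero (Rat.num_ne_zero.2 δ0) q0
  obtain ⟨d₀, d0, h⟩ := core hF N0
  obtain ⟨d₂, t, hd, t0, e⟩ := exists_sqfree (mul_ne_zero N0 d0)
  have key : ∀ k g : ℤ, k ≠ 0 → Module.rank ℤ (cv ((k ^ 2 * d₂ * g : ℤ) * -(e₁ + e₂ + e₃))
      ((k ^ 2 * d₂ * g : ℤ) ^ 2 * (e₁ * e₂ + e₁ * e₃ + e₂ * e₃))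
      ((k ^ 2 * d₂ * g : ℤ) ^ 3 * -(e₁ * e₂ * e₃))).Point =
      Module.rank ℤ (cvE ![0, d₀ * g * (m ^ 2 * A), d₀ * g * (n ^ 2 * C)]).Point := fun k g k0 => by
    have a1 : (k : ℚ) ≠ 0 := by exact_mod_cast k0
    have a2 : (t : ℚ) ≠ 0 := by exact_mod_cast t0
    have a3 : (d₂ : ℚ) ≠ 0 := by exact_mod_cast hd.ne_zero
    have a4 : (d₀ : ℚ) ≠ 0 := by exact_mod_cast d0
    have a5 : (δ.den : ℚ) ≠ 0 := by exact_mod_cast δ.den_ne_zero
    have a6 : δ * δ.den * δ.den * d₀ = t ^ 2 * d₂ := by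
      rw [Rat.mul_den_eq_num]
      exact_mod_cast e
    have a7 : d₂ * δ = (t * d₂ / (δ.den * d₀)) ^ 2 * d₀ := by
      field_simp
      linear_combination a6
    refine iso (u := k * (t * d₂ / (δ.den * d₀))) (by positivity) ?_ ?_
    · push_cast
      linear_combination k ^ 2 * d₂ * g * h1 + k ^ 2 * g * (m ^ 2 * A) * a7
    · push_cast
      linear_combination k ^ 2 * d₂ * g * h2 + k ^ 2 * g * (n ^ 2 * C) * a7
  have dv : d₂ ∣ δ.num * δ.den * d₀ := e ▸ Dvd.intro_left _ rfl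
  have m4 : ∀ g : ℤ, g % 4 = 1 → d₂ * g % 4 = d₂ % 4 := fun g hg => by
    rw [Int.mul_emod, hg, mul_one, Int.emod_emod_of_dvd _ dvd_rfl]
  by_cases h4 : d₂ % 4 = 1
  · refine h (1 ^ 2 * d₂) (by simpa using hd.ne_zero) _ fun g g4 sq rk =>
      ⟨Or.inl ?_, (key 1 g one_ne_zero).trans rk⟩
    rw [one_pow, one_mul]
    exact ⟨(m4 g g4).trans h4, sq _ hd dv⟩
  · refine h (2 ^ 2 * d₂) (by simpa using hd.ne_zero) _ fun g g4 sq rk =>
      ⟨Or.inr ⟨d₂ * g, by ring, ?_, sq _ hd dv⟩, (key 2 g two_ne_zero).trans rk⟩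
    have a : ¬(2 * 2 : ℤ) ∣ d₂ := fun k => Int.prime_two.not_isUnit (hd 2 k)
    rw [m4 g g4]
    omega

theorem fam {l m n lam : ℤ} (hs : l + m + n = 0) (hc : IsCoprime m n) (hn : n % 2 = 0)
    (k1 : l ^ 2 ≠ n ^ 2) (k2 : n ^ 2 ≠ m ^ 2)
    (hl : lam = 1 ∧ ¬3 ∣ n - m ∨ lam = -3 ∧ 3 ∣ n - m) (sg : lam * (l ^ 2 - m ^ 2) < 0) :
    ∃ A B C, Fam m n lam A B C := by
  obtain rfl : l = -(m + n) := by linarith
  have l0 : lam ≠ 0 := by omega
  have hm : m % 2 = 1 := by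
    have := XQuartAux.par hc
    omega
  obtain ⟨a, b, Q, ha, hb, cab, hQ⟩ : ∃ a b Q : ℤ, lam * a = -(m + n) - n ∧ lam * b = n - m ∧
      IsCoprime a b ∧ lam * Q = m ^ 2 + m * n + n ^ 2 := by
    obtain ⟨u, v, huv⟩ := hc
    rcases hl with ⟨rfl, h3⟩ | ⟨rfl, b, h3⟩
    · obtain ⟨s, t, hst⟩ := Int.prime_three.irreducible.coprime_iff_not_dvd.2 h3
      exact ⟨_, _, _, one_mul _, one_mul _,
        ⟨-s * (u + v), t - s * (2 * u - v), by linear_combination hst + 3 * s * huv⟩, one_mul _⟩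
    · obtain rfl : n = m + 3 * b := by linarith
      exact ⟨m + 2 * b, -b, -(m ^ 2 + 3 * m * b + 3 * b ^ 2), by ring, by ring,
        ⟨u + v, 2 * u - v, by linear_combination huv⟩, by ring⟩
  have eA : lam * (-m * a) = m * (m + 2 * n) := by linear_combination -m * ha
  have eB : lam * ((m + n) * b) = n ^ 2 - m ^ 2 := by linear_combination (m + n) * hb
  have eC : lam * (-n * (a + b)) = n * (2 * m + n) := by linear_combination -n * (ha + hb)
  have A0 : -m * a ≠ 0 := fun h => k1 (by rw [h] at eA; linear_combination -eA)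
  have B0 : (m + n) * b ≠ 0 := fun h => k2 (by rw [h] at eB; linear_combination -eB)
  have C1 : -n * (a + b) < 0 := by
    have : 0 < lam ^ 2 := by positivity
    by_contra h
    have e : lam * ((-(m + n)) ^ 2 - m ^ 2) = lam ^ 2 * (-n * (a + b)) := by
      linear_combination -lam * eC
    nlinarith
  obtain ⟨u, v, huv⟩ := id hc
  have cml : IsCoprime m (m + n) := ⟨u - v, v, by linear_combination huv⟩
  have cln : IsCoprime (m + n) n := ⟨u, v - u, by linear_combination huv⟩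
  have cmb : IsCoprime m b := ⟨u + v, v * lam, by linear_combination huv + v * hb⟩
  have cal : IsCoprime a (m + n) := ⟨(u - v) * lam, 2 * u - v, by
    linear_combination huv + (u - v) * ha⟩
  have cmc : IsCoprime m (a + b) := ⟨u - 2 * v, -v * lam, by linear_combination huv - v * (ha + hb)⟩
  have can : IsCoprime a n := ⟨-u * lam, v - 2 * u, by linear_combination huv - u * ha⟩
  have clc : IsCoprime (m + n) (a + b) := ⟨2 * v - u, (v - u) * lam, by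
    linear_combination huv + (v - u) * (ha + hb)⟩
  have cbn : IsCoprime b n := ⟨-u * lam, u + v, by linear_combination huv - u * hb⟩
  have cac : IsCoprime a (a + b) := by simpa [add_comm] using cab.add_mul_left_right 1
  have cbc : IsCoprime b (a + b) := by simpa using cab.symm.add_mul_left_right 1
  have cp : ∀ {x y z w : ℤ}, IsCoprime x z → IsCoprime x w → IsCoprime y z → IsCoprime y w →
      IsCoprime (x ^ 2 * (x * y)) (z ^ 2 * (z * w)) := fun h1 h2 h3 h4 =>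
    ((h1.pow_right.mul_right (h1.mul_right h2)).pow_left).mul_left
      ((h1.pow_right.mul_right (h1.mul_right h2)).mul_left
        (h3.pow_right.mul_right (h3.mul_right h4)))
  have cAB := cp cml.neg_left cmb.neg_left cal cab
  have cAC := cp hc.neg_left.neg_right cmc.neg_left can.neg_right cac
  have cBC := cp cln.neg_right clc cbn.neg_right cbc
  rw [neg_sq] at cAB cAC cBC
  rw [neg_sq] at cAC
  have hS : -m * a + (m + n) * b = -n * (a + b) :=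
    mul_left_cancel₀ l0 (by linear_combination eA + eB - eC)
  have hq : (-m * a) ^ 2 + (-m * a) * ((m + n) * b) + ((m + n) * b) ^ 2 = Q ^ 2 := by
    refine mul_left_cancel₀ (pow_ne_zero 2 l0) ?_
    have e : lam ^ 2 * ((-m * a) ^ 2 + (-m * a) * ((m + n) * b) + ((m + n) * b) ^ 2) =
      (lam * (-m * a)) ^ 2 + (lam * (-m * a)) * (lam * ((m + n) * b)) +
        (lam * ((m + n) * b)) ^ 2 := by ring
    rw [e, eA, eB, ← mul_pow, hQ]
    ring
  have p1 := XQuartAux.sqmod m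
  have p2 := XQuartAux.sqmod n
  have p3 := XQuartAux.sqmod (m + n)
  have eA' : lam * (-m * a) = (m + n) ^ 2 - n ^ 2 := by linear_combination eA
  have eC' : lam * (-n * (a + b)) = (m + n) ^ 2 - m ^ 2 := by linear_combination eC
  refine ⟨-m * a, (m + n) * b, -n * (a + b), l0, eA, eB, eC, A0, B0, C1.ne, cAB, cAC, cBC, ?_, ?_,
    fun h => C1.not_gt h.2, ?_, ?_, ?_⟩
  · generalize -m * a = A at eA'
    rcases hl with ⟨rfl, -⟩ | ⟨rfl, -⟩ <;> omega
  · generalize -n * (a + b) = C at eC'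
    rcases hl with ⟨rfl, -⟩ | ⟨rfl, -⟩ <;> omega
  · exact nsq cAB.of_mul_left_right.of_mul_right_right hq A0 B0 (hS ▸ C1.ne)
  · rw [← abs_neg, ← mul_neg]
    refine nsq (Q := Q) cAC.of_mul_left_right.of_mul_right_right.neg_right ?_ A0
      (neg_ne_zero.2 C1.ne) fun h => B0 (by linear_combination hS - h)
    rw [← hS]
    linear_combination hq
  · rw [← abs_neg, ← mul_neg]
    refine nsq (Q := Q) cBC.of_mul_left_right.of_mul_right_right.neg_right ?_ B0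
      (neg_ne_zero.2 C1.ne) fun h => A0 (by linear_combination hS - h)
    rw [← hS]
    linear_combination hq

theorem sqne {x w e e' : ℚ} {p q : ℤ} (h1 : (x - e) * w * p ^ 2 = 1) (h2 : (x - e') * w * q ^ 2 = 1)
    (d : e ≠ e') : p ^ 2 ≠ q ^ 2 := fun h => by
  have h' : (p : ℚ) ^ 2 = q ^ 2 := by exact_mod_cast h
  refine d ?_
  linear_combination (x - e) * h2 - (x - e') * h1 + (x - e) * (x - e') * w * h'

variable {x w e₁ e₂ e₃ : ℚ} {l m n : ℤ} (hs : l + m + n = 0) (hc : IsCoprime m n)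
  (h1 : (x - e₁) * w * l ^ 2 = 1) (h2 : (x - e₂) * w * n ^ 2 = 1) (h3 : (x - e₃) * w * m ^ 2 = 1)
  (d12 : e₁ ≠ e₂) (d13 : e₁ ≠ e₃) (d23 : e₂ ≠ e₃)

include hs hc h1 h2 h3 d12 d23 in
theorem main1 (hn : n % 2 = 0) {lam : ℤ} (hl : lam = 1 ∧ ¬3 ∣ n - m ∨ lam = -3 ∧ 3 ∣ n - m)
    (sg : lam * (l ^ 2 - m ^ 2) < 0) : Goal3 e₁ e₂ e₃ := by
  obtain ⟨A, B, C, hF⟩ := fam hs hc hn (sqne h1 h2 d12) (sqne h2 h3 d23) hl sg
  have a0 : (lam : ℚ) ≠ 0 := by exact_mod_cast hF.l0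
  have hl' : (l : ℚ) = -(m + n) := by exact_mod_cast (show l = -(m + n) by linarith)
  have eA : (lam : ℚ) * A = l ^ 2 - n ^ 2 := by
    have : (lam : ℚ) * A = m * (m + 2 * n) := by exact_mod_cast hF.eA
    rw [this, hl']
    ring
  have eC : (lam : ℚ) * C = l ^ 2 - m ^ 2 := by
    have : (lam : ℚ) * C = n * (2 * m + n) := by exact_mod_cast hF.eC
    rw [this, hl']
    ring
  have n1 : x - e₁ ≠ 0 := fun h => by simp [h] at h1
  have n2 : x - e₂ ≠ 0 := fun h => by simp [h] at h2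
  have n3 : x - e₃ ≠ 0 := fun h => by simp [h] at h3
  have w0 : w ≠ 0 := fun h => by simp [h] at h1
  refine main0 hF (δ := -(lam * w ^ 2 * (x - e₁) * (x - e₂) * (x - e₃)))
    (neg_ne_zero.2 (by positivity)) ?_ ?_
  · linear_combination w ^ 2 * (x - e₁) * (x - e₂) * (x - e₃) * m ^ 2 * eA +
      w * (x - e₁) * (x - e₂) * (l ^ 2 - n ^ 2) * h3 + (x - e₂) * h1 - (x - e₁) * h2
  · linear_combination w ^ 2 * (x - e₁) * (x - e₂) * (x - e₃) * n ^ 2 * eC +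
      w * (x - e₁) * (x - e₃) * (l ^ 2 - m ^ 2) * h2 + (x - e₃) * h1 - (x - e₁) * h3

include hs hc h1 h2 h3 d12 d13 d23 in
theorem main2 (hn : n % 2 = 0) : Goal3 e₁ e₂ e₃ := by
  obtain ⟨lam, hl⟩ : ∃ lam : ℤ, lam = 1 ∧ ¬3 ∣ n - m ∨ lam = -3 ∧ 3 ∣ n - m := by
    by_cases h : 3 ∣ n - m
    · exact ⟨-3, Or.inr ⟨rfl, h⟩⟩
    · exact ⟨1, Or.inl ⟨rfl, h⟩⟩
  rcases lt_trichotomy (lam * (l ^ 2 - m ^ 2)) 0 with h | h | h
  · exact main1 hs hc h1 h2 h3 d12 d23 hn hl h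
  · exact absurd (sub_eq_zero.1 ((mul_eq_zero.1 h).resolve_left (by omega))) (sqne h1 h3 d13)
  · obtain ⟨u, v, huv⟩ := hc
    exact sw13 (main1 (lam := lam) (l := m) (m := l) (by linarith)
      ⟨-u, v - u, by linear_combination huv - u * hs⟩ h3 h2 h1 d23.symm d12.symm hn (by omega)
      (by linarith))

include hs hc h1 h2 h3 d12 d13 d23 in
theorem main3 : Goal3 e₁ e₂ e₃ := by
  rcases Int.emod_two_eq_zero_or_one n with hn | hn
  · exact main2 hs hc h1 h2 h3 d12 d13 d23 hn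
  rcases Int.emod_two_eq_zero_or_one m with hm | hm
  · exact sw23 (main2 (m := n) (n := m) (by linarith) hc.symm h1 h3 h2 d13 d12 d23.symm hm)
  · obtain ⟨u, v, huv⟩ := hc
    exact sw12 (main2 (l := n) (n := l) (by linarith)
      ⟨u - v, -v, by linear_combination huv - v * hs⟩ h2 h1 h3 d12.symm d23 d13 (by omega))

include d12 d13 d23 in
theorem main4 (h : 4 * ((x - e₁) * (x - e₂) * (x - e₃)) * ((x - e₁) + (x - e₂) + (x - e₃)) =
    ((x - e₁) * (x - e₂) + (x - e₁) * (x - e₃) + (x - e₂) * (x - e₃)) ^ 2) : Goal3 e₁ e₂ e₃ := by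
  have nz : ∀ {a b c : ℚ}, a ≠ b → a ≠ c → 4 * ((x - a) * (x - b) * (x - c)) *
      ((x - a) + (x - b) + (x - c)) = ((x - a) * (x - b) + (x - a) * (x - c) + (x - b) * (x - c)) ^ 2 →
      x - a ≠ 0 := fun {a b c} k1 k2 k h0 => by
    obtain rfl : x = a := sub_eq_zero.1 h0
    exact pow_ne_zero 2 (mul_ne_zero (sub_ne_zero.2 k1) (sub_ne_zero.2 k2))
      (by linear_combination -k)
  have n1 := nz d12 d13 h
  have n2 := nz d12.symm d23 (by linear_combination h)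
  have n3 := nz d13.symm d23.symm (by linear_combination h)
  obtain ⟨t, ht⟩ : ∃ t : ℚ, t = ((x - e₁) * (x - e₂) - (x - e₂) * (x - e₃) - (x - e₁) * (x - e₃)) /
    (2 * (x - e₂) * (x - e₃)) := ⟨_, rfl⟩
  have t1 : (x - e₂) * t ^ 2 = x - e₁ := by
    rw [ht]
    field_simp
    linear_combination -h
  have t2 : (x - e₃) * (1 + t) ^ 2 = x - e₁ := by
    rw [ht]
    field_simp
    linear_combination -h
  have q0 : (t.den : ℚ) ≠ 0 := by exact_mod_cast t.den_ne_zero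
  have q1 : (t.num : ℚ) = t * t.den := (Rat.mul_den_eq_num t).symm
  refine main3 (x := x) (w := 1 / ((x - e₁) * t.den ^ 2)) (l := t.den) (m := -(t.num + t.den))
    (n := t.num) (by ring) ?_ ?_ ?_ ?_ d12 d13 d23
  · have c : IsCoprime t.num (t.den : ℤ) := Int.isCoprime_iff_gcd_eq_one.2 t.reduced
    simpa [add_comm] using (c.symm.add_mul_left_left 1).neg_left
  · push_cast
    field_simp
  · rw [q1]
    field_simp
    linear_combination t1
  · push_cast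
    rw [q1]
    field_simp
    linear_combination t2

end XFinalAux

theorem final (W : WeierstrassCurve ℚ) [W.IsElliptic] (h2 : W.Ψ₂Sq.Splits)
    (h3 : ∃ x, W.Ψ₃.IsRoot x) : Goal (W.b₂ / 4) (W.b₄ / 2) (W.b₆ / 4) := by
  obtain ⟨x, hx⟩ := h3
  have a0 : W.twoTorsionPolynomial.a ≠ 0 := by simp [WeierstrassCurve.twoTorsionPolynomial]
  obtain ⟨e₁, e₂, e₃, he⟩ := (Cubic.splits_iff_roots_eq_three (φ := RingHom.id ℚ) a0).1
    (by rwa [Polynomial.map_id])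
  have k1 := Cubic.b_eq_three_roots a0 he
  have k2 := Cubic.c_eq_three_roots a0 he
  have k3 := Cubic.d_eq_three_roots a0 he
  obtain ⟨d12, d13, d23⟩ := (Cubic.discr_ne_zero_iff_roots_ne a0 he).1
    (by rw [W.twoTorsionPolynomial_discr]; exact mul_ne_zero (by norm_num) W.isUnit_Δ.ne_zero)
  simp only [WeierstrassCurve.twoTorsionPolynomial, RingHom.id_apply] at k1 k2 k3
  have k4 := W.b_relation
  simp only [WeierstrassCurve.Ψ₃, Polynomial.IsRoot, Polynomial.eval_add, Polynomial.eval_mul,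
    Polynomial.eval_pow, Polynomial.eval_X, Polynomial.eval_C, Polynomial.eval_ofNat] at hx
  have k2' : W.b₄ = 2 * (e₁ * e₂ + e₁ * e₃ + e₂ * e₃) := by linear_combination k2 / 2
  rw [k1, k2', k3] at hx k4
  have h := XFinalAux.main4 (x := x) d12 d13 d23 (by linear_combination hx - k4 / 4)
  unfold Goal3 at h
  convert h using 1
  · rw [k1]
    ring
  · rw [k2']
    ring
  · rw [k3]
    ring

end Pool.Agent.Lib.MP_7d3fda_nt.R3
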