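import Pool.Agent.Lib.MP_7d3fda_nt.R3.XPar
import Pool.Agent.Lib.MP_7d3fda_nt.R2.Twist

open Finset
open scoped NumberTheorySymbols

noncomputable section

namespace Pool.Agent.Lib.MP_7d3fda_nt.R3

open Pool.Agent.Lib.MP_788af2_nt Pool.Agent.Lib.MP_7d3fda_nt.R2

/-- the descent map -/
def kum {e : Fin 3 → ℤ} (P : (cvE e).Point) : X × X :=
  (cl (rep (dl e 0 P)), cl (rep (dl e 1 P)))

namespace XKumAux

open WeierstrassCurve WeierstrassCurve.Affine

theorem cl_ext {u v : ℤ} (h : ∀ F, IsQF F → F u = F v) : cl u = cl v := by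
  ext i
  by_cases h0 : i = 0
  · rw [h0, cl_zero_apply, cl_zero_apply, h _ isQF_qS]
  by_cases hp : i.Prime
  · rw [cl_prime_apply _ hp, cl_prime_apply _ hp, h _ (isQF_qV hp)]
  · rw [cl_other_apply _ h0 hp, cl_other_apply _ h0 hp]

theorem dvd_of_qV {r : ℕ} {n : ℤ} (h : qV r n = 1) : (r : ℤ) ∣ n := by
  by_contra h'
  rw [TwistAux.qV_zero h'] at h
  exact zero_ne_one h

theorem sg_prime {d : ℤ} {r : ℕ} (hr : r ∈ Sg (cl d)) : r.Prime ∧ r ≠ 2 ∧ (r : ℤ) ∣ d := by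
  obtain ⟨h0, h2, h1⟩ := mem_Sg.1 hr
  have hp : r.Prime := by
    by_contra hp
    rw [cl_other_apply _ h0 hp] at h1
    exact zero_ne_one h1
  rw [cl_prime_apply _ hp] at h1
  exact ⟨hp, h2, dvd_of_qV h1⟩

theorem val_one {r : ℕ} (hr : r.Prime) {n : ℤ} (h1 : (r : ℤ) ∣ n) (h2 : ¬(r : ℤ) ^ 2 ∣ n) :
    padicValInt r n = 1 := by
  have : Fact r.Prime := ⟨hr⟩
  obtain ⟨t, rfl⟩ := h1
  have ht : ¬(r : ℤ) ∣ t := fun h => h2 (by rw [sq]; exact mul_dvd_mul_left _ h)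
  simpa using val_pow_mul (p := r) (s := 1) ht

theorem pow_dvd_of_le {r : ℕ} (hr : r.Prime) {n : ℤ} {k : ℕ} (h : k ≤ padicValInt r n) :
    (r : ℤ) ^ k ∣ n := by
  have : Fact r.Prime := ⟨hr⟩
  exact (pow_dvd_pow _ h).trans (padicValInt_dvd n)

/-- the local class -/
def G (r : ℕ) (n : ℤ) : B2 := (qV r n, qL r n)

theorem G_near {r : ℕ} (hr : r.Prime) {x y : ℤ} (hxy : y - x ≠ 0)
    (h : (r : ℤ) ^ (padicValInt r (y - x) + 1) ∣ x) : G r y = G r (y - x) := by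
  obtain ⟨-, -, a, b⟩ := near (x := y) hr hxy (by simpa using h)
  rw [G, G, a, b]

theorem big {r : ℕ} (hr : r.Prime) {x y z : ℤ} (hy : y ≠ 0) (hyx : y - x ≠ 0) (hzx : z - x ≠ 0)
    (h1 : padicValInt r (z - x) = 1) (h2 : 1 ≤ padicValInt r y)
    (h3 : padicValInt r y < padicValInt r x) : G r y = G r (y - x) ∧ G r z = G r (z - x) := by
  have h4 : (r : ℤ) ^ (padicValInt r y + 1) ∣ x := pow_dvd_of_le hr h3
  have h5 := (near (x := y - x) hr hy (by simpa using h4)).2.1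
  refine ⟨G_near hr hyx (by rwa [h5]), G_near hr hzx ?_⟩
  rw [h1]
  exact pow_dvd_of_le hr (by omega)

/-- one of three numbers dominates -/
theorem dom {r : ℕ} (hr : r.Prime) {x y z b : ℤ} (hx : x ≠ 0) (hy : y ≠ 0) (hz : z ≠ 0)
    (hb : x * y * z = b ^ 2) (hxy : x - y ≠ 0) (dx : (r : ℤ) ∣ x) (dy : (r : ℤ) ∣ y)
    (dz : (r : ℤ) ∣ z) (n1 : ¬(r : ℤ) ^ 2 ∣ x - z) (n2 : ¬(r : ℤ) ^ 2 ∣ y - z) :
    (G r y = G r (y - x) ∧ G r z = G r (z - x)) ∨ (G r x = G r (x - y) ∧ G r z = G r (z - y)) ∨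
      (G r x = G r (x - z) ∧ G r y = G r (y - z)) := by
  have : Fact r.Prime := ⟨hr⟩
  have hyx : y - x ≠ 0 := fun h => hxy (by linear_combination -h)
  have hxz : x - z ≠ 0 := fun h => n1 (h ▸ dvd_zero _)
  have hyz : y - z ≠ 0 := fun h => n2 (h ▸ dvd_zero _)
  have hzx : z - x ≠ 0 := fun h => hxz (by linear_combination -h)
  have hzy : z - y ≠ 0 := fun h => hyz (by linear_combination -h)
  by_cases h2 : (r : ℤ) ^ 2 ∣ z
  · refine .inr (.inr ⟨G_near hr hxz ?_, G_near hr hyz ?_⟩)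
    · rwa [val_one hr (dvd_sub dx dz) n1]
    · rwa [val_one hr (dvd_sub dy dz) n2]
  have vz := val_one hr dz h2
  have hb0 : b ≠ 0 := by
    rintro rfl
    exact mul_ne_zero (mul_ne_zero hx hy) hz (by rw [hb]; ring)
  have hv := congrArg (padicValInt r) hb
  rw [padicValInt.mul (mul_ne_zero hx hy) hz, padicValInt.mul hx hy, val_sq hb0, vz] at hv
  have one : ∀ n : ℤ, n ≠ 0 → (r : ℤ) ∣ n → 1 ≤ padicValInt r n := fun n hn h =>
    ((padicValInt_dvd_iff 1 n).1 (by simpa using h)).resolve_left hn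
  have v1 : padicValInt r (z - x) = 1 := val_one hr (dvd_sub dz dx) (by rwa [dvd_sub_comm])
  have v2 : padicValInt r (z - y) = 1 := val_one hr (dvd_sub dz dy) (by rwa [dvd_sub_comm])
  rcases lt_or_gt_of_ne (show padicValInt r x ≠ padicValInt r y by omega) with h | h
  · exact .inr (.inl (big hr hx hxy hzy v2 (one x hx dx) h))
  · exact .inl (big hr hy hyx hzx v1 (one y hy dy) h)

theorem G_mul {r : ℕ} (hr : r.Prime) {m n : ℤ} (hm : m ≠ 0) (hn : n ≠ 0) :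
    G r (m * n) = G r m + G r n := by
  rw [G, G, G, isQF_qV hr _ _ hm hn, isQF_qL hr _ _ hm hn]
  rfl

theorem G_third {r : ℕ} (hr : r.Prime) {x y z b : ℤ} (hx : x ≠ 0) (hy : y ≠ 0) (hz : z ≠ 0)
    (hb : x * y * z = b ^ 2) : G r z = G r x + G r y := by
  rw [G, G, G, LocDAux.qf_third (isQF_qV hr) hx hy hz hb,
    LocDAux.qf_third (isQF_qL hr) hx hy hz hb]
  rfl

theorem G_sq {r : ℕ} (hr : r.Prime) {x c : ℤ} (hx : x ≠ 0) (hc : c ≠ 0) :
    G r (x * c ^ 2) = G r x := by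
  rw [G, G, LocDAux.qf_mul_sq (isQF_qV hr) hx hc, LocDAux.qf_mul_sq (isQF_qL hr) hx hc]

theorem b2_two (x : B2) : x + x = 0 := by
  revert x
  decide

/-- the local condition at a prime of the twisting parameter -/
theorem loc {r : ℕ} (hr : r.Prime) {A B C d x y z b c : ℤ} (hA : A ≠ 0) (hB : B ≠ 0) (hC : C ≠ 0)
    (hs : A + B = C) (hAB : IsCoprime A B) (hd : Squarefree d) (hrd : (r : ℤ) ∣ d) (hx : x ≠ 0)
    (hy : y ≠ 0) (hz : z ≠ 0) (hb : x * y * z = b ^ 2) (e1 : x - y = d * A * c ^ 2)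
    (e2 : x - z = d * C * c ^ 2) (hc : (r : ℤ) ∣ c → ¬(r : ℤ) ∣ x) :
    ∃ s t : ZMod 2, (G r x, G r y) = s • (G r A + G r C, G r (-1) + G r d + G r A) +
      t • (G r d + G r A, G r (-1) + G r A + G r B) := by
  have hI := Nat.prime_iff_prime_int.1 hr
  have e3 : y - z = d * B * c ^ 2 := by linear_combination e2 - e1 - d * c ^ 2 * hs
  have d1 : (r : ℤ) ∣ x - y := e1 ▸ (hrd.mul_right _).mul_right _
  have d2 : (r : ℤ) ∣ x - z := e2 ▸ (hrd.mul_right _).mul_right _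
  by_cases dx : (r : ℤ) ∣ x
  swap
  · have ny : ¬(r : ℤ) ∣ y := fun h => dx (by simpa using dvd_add d1 h)
    have l1 := TableAux.qL_congr hr dx d1
    have l2 := TableAux.qL_congr hr dx d2
    have l3 := LocDAux.qf_third (isQF_qL hr) hx hy hz hb
    rw [← l1, ← l2] at l3
    have l0 : qL r x = 0 := (by decide : ∀ a : ZMod 2, a = a + a → a = 0) _ l3
    refine ⟨0, 0, ?_⟩
    rw [zero_smul, zero_smul, add_zero, G, G, ← l1, l0, TwistAux.qV_zero dx, TwistAux.qV_zero ny]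
    rfl
  have nc : ¬(r : ℤ) ∣ c := fun h => hc h dx
  have c0 : c ≠ 0 := by rintro rfl; exact nc (dvd_zero _)
  have d0 : d ≠ 0 := hd.ne_zero
  have dy : (r : ℤ) ∣ y := by simpa using dvd_sub dx d1
  have dz : (r : ℤ) ∣ z := by simpa using dvd_sub dx d2
  have key : ∀ k : ℤ, ¬(r : ℤ) ∣ k → ¬(r : ℤ) ^ 2 ∣ d * k * c ^ 2 := by
    intro k hk h
    obtain ⟨t, rfl⟩ := hrd
    have ht : ¬(r : ℤ) ∣ t := fun h => hI.not_isUnit (hd _ (mul_dvd_mul_left _ h))
    rw [sq, mul_assoc, mul_assoc, mul_dvd_mul_iff_left hI.ne_zero] at h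
    rcases hI.dvd_or_dvd h with h | h
    · exact ht h
    rcases hI.dvd_or_dvd h with h | h
    · exact hk h
    · exact nc (hI.dvd_of_dvd_pow h)
  have ne : ∀ k : ℤ, k ≠ 0 → d * k * c ^ 2 ≠ 0 := fun k hk => by positivity
  have Gp : ∀ k : ℤ, k ≠ 0 → G r (d * k * c ^ 2) = G r d + G r k := fun k hk => by
    rw [G_sq hr (mul_ne_zero d0 hk) c0, G_mul hr d0 hk]
  have Gn : ∀ k : ℤ, k ≠ 0 → G r (-(d * k * c ^ 2)) = G r (-1) + (G r d + G r k) := fun k hk => by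
    rw [← Gp k hk, ← G_mul hr (by norm_num) (ne k hk), neg_one_mul]
  have both : ¬((r : ℤ) ∣ A ∧ (r : ℤ) ∣ B) := fun h => hI.not_isUnit (hAB.isUnit_of_dvd' h.1 h.2)
  have hD : (G r y = G r (y - x) ∧ G r z = G r (z - x)) ∨
      (G r x = G r (x - y) ∧ G r z = G r (z - y)) ∨
      (G r x = G r (x - z) ∧ G r y = G r (y - z)) := by
    by_cases hrB : (r : ℤ) ∣ B
    · have nA : ¬(r : ℤ) ∣ A := fun h => both ⟨h, hrB⟩
      have nC : ¬(r : ℤ) ∣ C := fun h => nA (by rw [← hs] at h; simpa using dvd_sub h hrB)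
      have := dom hr hy hz hx (b := b) (by rw [← hb]; ring) (e3 ▸ ne B hB) dy dz dx
        (by rw [dvd_sub_comm, e1]; exact key A nA) (by rw [dvd_sub_comm, e2]; exact key C nC)
      tauto
    by_cases hrC : (r : ℤ) ∣ C
    · have nA : ¬(r : ℤ) ∣ A := fun h => hrB (by rw [← hs] at hrC; simpa using dvd_sub hrC h)
      have := dom hr hx hz hy (b := b) (by rw [← hb]; ring) (e2 ▸ ne C hC) dx dz dy
        (by rw [e1]; exact key A nA) (by rw [dvd_sub_comm, e3]; exact key B hrB)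
      tauto
    · exact dom hr hx hy hz hb (e1 ▸ ne A hA) dx dy dz (by rw [e2]; exact key C hrC)
        (by rw [e3]; exact key B hrB)
  have f1 : y - x = -(d * A * c ^ 2) := by linear_combination -e1
  have f2 : z - x = -(d * C * c ^ 2) := by linear_combination -e2
  have f3 : z - y = -(d * B * c ^ 2) := by linear_combination -e3
  rcases hD with ⟨a1, a2⟩ | ⟨a1, a2⟩ | ⟨a1, a2⟩
  · refine ⟨1, 0, ?_⟩
    rw [G_third hr hy hz hx (b := b) (by rw [← hb]; ring), a1, a2, f1, f2, Gn A hA, Gn C hC,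
      one_smul, zero_smul, add_zero]
    congr 1
    · linear_combination (exp := 1) b2_two (G r (-1)) + b2_two (G r d)
    · abel
  · refine ⟨0, 1, ?_⟩
    rw [G_third hr hx hz hy (b := b) (by rw [← hb]; ring), a1, a2, e1, f3, Gp A hA, Gn B hB,
      one_smul, zero_smul, zero_add]
    congr 1
    linear_combination (exp := 1) b2_two (G r d)
  · refine ⟨1, 1, ?_⟩
    have k1 : G r d + G r C = G r A + G r C + (G r d + G r A) := by
      linear_combination (exp := 1) -b2_two (G r A)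
    have k2 : G r d + G r B = G r (-1) + G r d + G r A + (G r (-1) + G r A + G r B) := by
      linear_combination (exp := 1) -b2_two (G r A) - b2_two (G r (-1))
    rw [a1, a2, e2, e3, Gp C hC, Gp B hB, one_smul, one_smul, k1, k2]
    rfl

section

variable {A B C d : ℤ} {e : Fin 3 → ℤ}

theorem dsc_eq (hs : A + B = C) (e1 : e 1 - e 0 = d * A) (e2 : e 2 - e 0 = d * C) :
    dsc e = d ^ 3 * (A * B * C) := by
  have a1 : e 0 - e 1 = -(d * A) := by linear_combination -e1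
  have a2 : e 1 - e 2 = -(d * B) := by linear_combination e1 - e2 + d * hs
  rw [dsc, a1, a2, e2]
  ring

theorem cl_rep (n : ℤ) : cl (rep (n : ℚ)) = cl n := by simp [rep]

theorem root (he : dsc e ≠ 0) (i m : Fin 3) {y : ℚ} (h : (cvE e).Nonsingular (e i) y) :
    cl (rep (dl e m (.some _ _ h))) =
      if i = m then cl ((e m - e (m + 1)) * (e m - e (m + 2))) else cl (e i - e m) := by
  simp only [dl]
  by_cases him : i = m
  · subst him
    rw [if_pos rfl, if_pos rfl, ← Int.cast_sub, ← Int.cast_sub, ← Int.cast_mul, cl_rep]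
  · rw [if_neg him, if_neg fun h0 => dsc_ne he him (by exact_mod_cast h0), ← Int.cast_sub, cl_rep]

theorem root0 (hA : A ≠ 0) (hC : C ≠ 0) (d0 : d ≠ 0) (he : dsc e ≠ 0) (e1 : e 1 - e 0 = d * A)
    (e2 : e 2 - e 0 = d * C) {y : ℚ} (h : (cvE e).Nonsingular (e 0) y) :
    kum (.some _ _ h) = T0 (cl A) (cl C) (cl d) := by
  have a1 : (e 0 - e (0 + 1)) * (e 0 - e (0 + 2)) = A * C * d ^ 2 := by
    show (e 0 - e 1) * (e 0 - e 2) = _
    linear_combination (e 2 - e 0) * e1 + d * A * e2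
  have a2 : e 0 - e 1 = -(d * A) := by linear_combination -e1
  rw [kum, root he, root he, if_pos rfl, if_neg (by decide), a1, a2, T0,
    cl_mul (mul_ne_zero hA hC) (pow_ne_zero _ d0), cl_sq d0, add_zero, cl_mul hA hC,
    cl_neg (mul_ne_zero d0 hA), cl_mul d0 hA, add_assoc]

theorem root1 (hA : A ≠ 0) (hB : B ≠ 0) (hs : A + B = C) (d0 : d ≠ 0) (he : dsc e ≠ 0)
    (e1 : e 1 - e 0 = d * A) (e2 : e 2 - e 0 = d * C) {y : ℚ} (h : (cvE e).Nonsingular (e 1) y) :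
    kum (.some _ _ h) = T1 (cl A) (cl B) (cl d) := by
  have a1 : (e 1 - e (1 + 1)) * (e 1 - e (1 + 2)) = -(A * B) * d ^ 2 := by
    show (e 1 - e 2) * (e 1 - e 0) = _
    have a2 : e 1 - e 2 = -(d * B) := by linear_combination e1 - e2 + d * hs
    rw [a2, e1]
    ring
  rw [kum, root he, root he, if_neg (by decide), if_pos rfl, a1, e1, T1,
    cl_mul (neg_ne_zero.2 (mul_ne_zero hA hB)) (pow_ne_zero _ d0), cl_sq d0, add_zero,
    cl_neg (mul_ne_zero hA hB), cl_mul hA hB, cl_mul d0 hA, add_assoc]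

theorem root2 (hB : B ≠ 0) (hC : C ≠ 0) (hs : A + B = C) (d0 : d ≠ 0) (he : dsc e ≠ 0)
    (e1 : e 1 - e 0 = d * A) (e2 : e 2 - e 0 = d * C) {y : ℚ} (h : (cvE e).Nonsingular (e 2) y) :
    kum (.some _ _ h) = T0 (cl A) (cl C) (cl d) + T1 (cl A) (cl B) (cl d) := by
  have a2 : e 2 - e 1 = d * B := by linear_combination e2 - e1 - d * hs
  rw [kum, root he, root he, if_neg (by decide), if_neg (by decide), a2, e2, T0, T1,
    cl_mul d0 hC, cl_mul d0 hB, Prod.mk_add_mk]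
  congr 1
  · rw [← add_zero (cl d + cl C), ← add_self (cl A)]
    abel
  · rw [← add_zero (cl d + cl B), ← add_zero (0 : X)]
    nth_rewrite 1 [← add_self (cl A)]
    rw [← add_self ep]
    abel

/-- the descent map as a homomorphism -/
def kumHom (he : dsc e ≠ 0) : (cvE e).Point →+ X × X :=
  AddMonoidHom.mk' kum fun P Q => by
    have key : ∀ m, cl (rep (dl e m (P + Q))) = cl (rep (dl e m P)) + cl (rep (dl e m Q)) := by
      intro m
      have hP := rep_ne_zero (dl_ne_zero he m P)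
      have hQ := rep_ne_zero (dl_ne_zero he m Q)
      rw [← cl_mul hP hQ]
      refine cl_ext fun F hF => ?_
      rw [hF _ _ hP hQ]
      exact map_add (qfHom he m hF) P Q
    rw [kum, kum, kum, key, key, Prod.mk_add_mk]

theorem pt_gen (he : dsc e ≠ 0) {u₀ u₁ u₂ M y : ℤ} (hM : M ≠ 0) (h0 : u₀ ≠ 0) (h1 : u₁ ≠ 0)
    (a1 : u₀ - u₁ = (e 1 - e 0) * M ^ 2) (a2 : u₀ - u₂ = (e 2 - e 0) * M ^ 2)
    (hy : u₀ * u₁ * u₂ = y ^ 2) : ∃ P : (cvE e).Point, kum P = (cl u₀, cl u₁) := by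
  have hM' : (M : ℚ) ≠ 0 := by exact_mod_cast hM
  have b1 : (u₀ : ℚ) - u₁ = (e 1 - e 0) * M ^ 2 := by exact_mod_cast a1
  have b2 : (u₀ : ℚ) - u₂ = (e 2 - e 0) * M ^ 2 := by exact_mod_cast a2
  have b3 : (u₀ : ℚ) * u₁ * u₂ = y ^ 2 := by exact_mod_cast hy
  have c0 : (e 0 : ℚ) + u₀ / (M : ℚ) ^ 2 - e 0 = u₀ / (M : ℚ) ^ 2 := by ring
  have c1 : (e 0 : ℚ) + u₀ / (M : ℚ) ^ 2 - e 1 = u₁ / (M : ℚ) ^ 2 := by
    field_simp
    linear_combination b1
  have c2 : (e 0 : ℚ) + u₀ / (M : ℚ) ^ 2 - e 2 = u₂ / (M : ℚ) ^ 2 := by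
    field_simp
    linear_combination b2
  have hn : (cvE e).Nonsingular ((e 0 : ℚ) + u₀ / (M : ℚ) ^ 2) (y / (M : ℚ) ^ 3) :=
    TwistAux.nons he (by
      rw [c0, c1, c2]
      field_simp
      linear_combination -b3)
  refine ⟨.some _ _ hn, ?_⟩
  rw [kum, cl_ext fun F hF => TwistAux.qf_pt hF 0 hn h0 hM c0,
    cl_ext fun F hF => TwistAux.qf_pt hF 1 hn h1 hM c1]

end

end XKumAux

open XKumAux

theorem ok3 {A B C d : ℤ} (hA : A ≠ 0) (hB : B ≠ 0) (hC : C ≠ 0) (hs : A + B = C)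
    (hAB : IsCoprime A B) (h : ∀ r : ℕ, r.Prime → r ≠ 2 → (r : ℤ) ∣ A * B * C → cl d r = 1) :
    Ok3 (cl A) (cl B) (cl C) (cl d) := by
  have hm : ∀ r : ℕ, r.Prime → r ≠ 2 → (r : ℤ) ∣ A * B * C → r ∈ Sg (cl d) :=
    fun r hr h2 h3 => mem_Sg.2 ⟨hr.ne_zero, h2, h r hr h2 h3⟩
  refine ⟨fun r hr => ⟨(sg_prime hr).1, (sg_prime hr).2.1⟩,
    cl_mem_Sup hA fun r hr h2 h3 => hm r hr h2 ((h3.mul_right _).mul_right _),
    cl_mem_Sup hB fun r hr h2 h3 => hm r hr h2 ((h3.mul_left _).mul_right _),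
    cl_mem_Sup hC fun r hr h2 h3 => hm r hr h2 (h3.mul_left _), fun r hr => ?_⟩
  have hp := (sg_prime hr).1
  have hI := Nat.prime_iff_prime_int.1 hp
  have both : ¬((r : ℤ) ∣ A ∧ (r : ℤ) ∣ B) := fun h => hI.not_isUnit (hAB.isUnit_of_dvd' h.1 h.2)
  rw [lr_cl hp hA, lr_cl hp hB, lr_cl hp hC]
  refine ⟨fun h1 => ?_, fun h1 => ?_, fun h1 => ?_⟩
  · have dA := dvd_of_qV h1
    have nB : ¬(r : ℤ) ∣ B := fun h => both ⟨dA, h⟩
    have nC : ¬(r : ℤ) ∣ C := fun h => nB (by rw [← hs] at h; simpa using dvd_sub h dA)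
    exact ⟨TwistAux.qV_zero nB, TwistAux.qV_zero nC,
      TableAux.qL_congr hp nB (by rw [← hs]; simpa using dA)⟩
  · have dB := dvd_of_qV h1
    have nA : ¬(r : ℤ) ∣ A := fun h => both ⟨h, dB⟩
    have nC : ¬(r : ℤ) ∣ C := fun h => nA (by rw [← hs] at h; simpa using dvd_sub h dB)
    exact ⟨TwistAux.qV_zero nC, TableAux.qL_congr hp nA (by rw [← hs]; simpa using dB)⟩
  · have dC := dvd_of_qV h1
    have nA : ¬(r : ℤ) ∣ A := fun h => both ⟨h, by rw [← hs] at dC; simpa using dvd_sub dC h⟩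
    have l1 : qL r A = qL r (-1 * B) :=
      TableAux.qL_congr hp nA (by rw [← hs] at dC; simpa using dC)
    rw [isQF_qL hp _ _ (by norm_num) hB] at l1
    show qL r A + qL r B = qL r (-1)
    rw [l1, add_assoc, CharTwo.add_self_eq_zero, add_zero]

theorem kum_rel {A B C d : ℤ} (hA : A ≠ 0) (hB : B ≠ 0) (hC : C ≠ 0) (hs : A + B = C)
    (hAB : IsCoprime A B) (hd : Squarefree d)
    (h : ∀ r : ℕ, r.Prime → r ≠ 2 → (r : ℤ) ∣ A * B * C → cl d r = 1) {e : Fin 3 → ℤ}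
    (e1 : e 1 - e 0 = d * A) (e2 : e 2 - e 0 = d * C) (P : (cvE e).Point) :
    kum P ∈ Rel (cl A) (cl B) (cl C) (cl d) := by
  have d0 : d ≠ 0 := hd.ne_zero
  have hdsc := dsc_eq hs e1 e2
  have he : dsc e ≠ 0 := by rw [hdsc]; positivity
  have hsup : ∀ m, cl (rep (dl e m P)) ∈ Sup (Sg (cl d)) := by
    intro m
    refine mem_Sup.2 fun i h0 h2 hi => ?_
    by_cases hp : i.Prime
    swap
    · exact cl_other_apply _ h0 hp
    have hI := Nat.prime_iff_prime_int.1 hp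
    rw [cl_prime_apply _ hp]
    refine val_good he P m hp fun h1 => hi (mem_Sg.2 ⟨h0, h2, ?_⟩)
    rw [hdsc] at h1
    rcases hI.dvd_or_dvd h1 with h1 | h1
    · rw [cl_prime_apply _ hp, qV, val_one hp (hI.dvd_of_dvd_pow h1)
        fun h3 => hI.not_isUnit (hd _ (by rwa [sq] at h3)), Nat.cast_one]
    · exact h i hp h2 h1
  refine mem_Rel.2 ⟨hsup 0, hsup 1, fun r hr => mem_Loc.2 ?_⟩
  obtain ⟨hp, -, hrd⟩ := sg_prime hr
  by_cases hP : ∀ x y h, P = WeierstrassCurve.Affine.Point.some x y h → ∀ m, x ≠ e m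
  · obtain ⟨x, b, c, α, hxc, hα, hne, hb, hF⟩ := point_data P hP
    obtain ⟨s, t, hst⟩ := loc hp hA hB hC hs hAB hd hrd (hne 0) (hne 1) (hne 2) hb (c := c)
      (by rw [hα, hα]; linear_combination c ^ 2 * e1)
      (by rw [hα, hα]; linear_combination c ^ 2 * e2) (by
        intro h1 h2
        rw [hα] at h2
        have h3 : (r : ℤ) ∣ e 0 * c ^ 2 := (dvd_pow h1 two_ne_zero).mul_left _
        exact (Nat.prime_iff_prime_int.1 hp).not_isUnit
          (hxc.isUnit_of_dvd' (by simpa using dvd_add h2 h3) h1))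
    refine ⟨s, t, ?_⟩
    rw [kum, cl_ext (hF 0), cl_ext (hF 1), T0, T1, ← cl_neg_one]
    simp only [LinearMap.prodMap_apply, map_add, lr_cl hp hA, lr_cl hp hB, lr_cl hp hC,
      lr_cl hp d0, lr_cl hp (hne 0), lr_cl hp (hne 1), lr_cl hp (show (-1 : ℤ) ≠ 0 by norm_num)]
    exact hst
  · push Not at hP
    obtain ⟨x, y, hxy, rfl, i, rfl⟩ := hP
    fin_cases i
    · exact ⟨1, 0, by
        rw [one_smul, zero_smul, add_zero]; exact congrArg _ (root0 hA hC d0 he e1 e2 hxy)⟩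
    · exact ⟨0, 1, by
        rw [one_smul, zero_smul, zero_add]; exact congrArg _ (root1 hA hB hs d0 he e1 e2 hxy)⟩
    · exact ⟨1, 1, by
        rw [one_smul, one_smul, ← map_add]; exact congrArg _ (root2 hB hC hs d0 he e1 e2 hxy)⟩

theorem rank2 {A B C d : ℤ} (hA : A ≠ 0) (hB : B ≠ 0) (hC : C ≠ 0) (hs : A + B = C)
    (hAB : IsCoprime A B) (hd : Squarefree d)
    (h : ∀ r : ℕ, r.Prime → r ≠ 2 → (r : ℤ) ∣ A * B * C → cl d r = 1) {e : Fin 3 → ℤ}
    (e1 : e 1 - e 0 = d * A) (e2 : e 2 - e 0 = d * C)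
    (hS : Str (cl A) (cl B) (cl C) (cl d) = ⊥) (P : Fin 4 → (cvE e).Point)
    (hi : ∀ w, cmb w (fun i => two st (kum (P i))) = 0 → w = 0) :
    Module.rank ℤ (cvE e).Point = 2 := by
  have d0 : d ≠ 0 := hd.ne_zero
  have he : dsc e ≠ 0 := by rw [dsc_eq hs e1 e2]; positivity
  have hrel := kum_rel hA hB hC hs hAB hd h e1 e2
  let c : (Fin 4 → ZMod 2) →ₗ[ZMod 2] B4 × B4 :=
    Fintype.linearCombination (ZMod 2) fun i => two st (kum (P i))
  have hc : ∀ w : Fin 4 → ZMod 2,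
      c w = cmb (w 0, w 1, w 2, w 3) fun i => two st (kum (P i)) := fun w => by
    rw [Fintype.linearCombination_apply, Fin.sum_univ_four]
    rfl
  have hker : LinearMap.ker c = ⊥ := by
    refine LinearMap.ker_eq_bot'.2 fun w hw => ?_
    have h0 := hi _ (hc w ▸ hw)
    simp only [Prod.mk_eq_zero] at h0
    funext i
    fin_cases i
    exacts [h0.1, h0.2.1, h0.2.2.1, h0.2.2.2]
  obtain ⟨g, hg⟩ := c.exists_leftInverse_of_injective hker
  have hg' : ∀ w, g (c w) = w := fun w => LinearMap.congr_fun hg w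
  let Ψ : (cvE e).Point →+ B4 × B4 := (two st).toAddMonoidHom.comp (kumHom he)
  have hΨ : ∀ Q, Ψ Q = two st (kum Q) := fun Q => rfl
  let Φ : (cvE e).Point →+ (Fin 4 → ZMod 2) := g.toAddMonoidHom.comp Ψ
  have hΦ : ∀ Q, Φ Q = g (Ψ Q) := fun Q => rfl
  have hk : ∀ Q, Φ Q = 0 → ∃ R, Q = 2 • R := by
    intro Q hQ
    obtain ⟨w, hw⟩ := lagr (ok3 hA hB hC hs hAB h) (fun i => hrel (P i)) hi (hrel Q)
    have hw' : two st (kum Q) = c ![w.1, w.2.1, w.2.2.1, w.2.2.2] := by rw [hw, hc]; rfl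
    rw [hΦ, hΨ, hw', hg'] at hQ
    rw [hQ, map_zero] at hw'
    have hm : kum Q ∈ Str (cl A) (cl B) (cl C) (cl d) := mem_Str.2 ⟨hrel Q, hw'⟩
    rw [hS, Submodule.mem_bot] at hm
    have hz : ∀ m : Fin 2, cl (rep (dl e m.castSucc Q)) = 0 := by
      intro m
      fin_cases m
      exacts [congrArg Prod.fst hm, congrArg Prod.snd hm]
    refine half_of_bits he Q (fun m => ?_) fun m l hl => ?_
    · rw [← cl_zero_apply, hz]
      rfl
    · rw [← cl_prime_apply _ hl, hz]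
      rfl
  refine rank_two (fg_of_finiteIndex (disc_cvE he) (finiteIndex_two Φ hk)) Φ (fun w => ?_) hk
    (card_two_tors he)
  refine ⟨∑ i, (w i).val • P i, ?_⟩
  have hw : Ψ (∑ i, (w i).val • P i) = c w := by
    rw [map_sum, Fintype.linearCombination_apply]
    refine sum_congr rfl fun i _ => ?_
    rw [map_nsmul, hΨ, ← Nat.cast_smul_eq_nsmul (ZMod 2), ZMod.natCast_zmod_val]
  rw [hΦ, hw, hg']

/-- the four known classes come from rational points -/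
theorem pts {m n l A B C U V d : ℤ} (hF : Fam m n l A B C) (hI : Inv m n A B C U V)
    {t : ℤ} (hd : ∏ j, fm A B C U V j = t ^ 2 * d) {e : Fin 3 → ℤ}
    (e1 : e 1 - e 0 = d * (m ^ 2 * A)) (e2 : e 2 - e 0 = d * (n ^ 2 * C)) (i : Fin 4) :
    ∃ P : (cvE e).Point, kum P = tt (cl A) (cl B) (cl C) (kk A B C U V) i := by
  obtain ⟨l0, eA, eB, eC, A0, B0, C0, -⟩ := hF
  have m0 : m ≠ 0 := by
    rintro rfl
    exact mul_ne_zero l0 A0 (by rw [eA]; ring)
  have n0 : n ≠ 0 := by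
    rintro rfl
    exact mul_ne_zero l0 C0 (by rw [eC]; ring)
  have s0 : m + n ≠ 0 := fun h => mul_ne_zero l0 B0 (by linear_combination eB + (n - m) * h)
  have hs : m ^ 2 * A + (m + n) ^ 2 * B = n ^ 2 * C := by
    apply mul_left_cancel₀ l0
    linear_combination m ^ 2 * eA + (m + n) ^ 2 * eB - n ^ 2 * eC
  have g0 : t ^ 2 * d ≠ 0 := hd ▸ prod_ne_zero_iff.2 fun j _ => hI.ne j
  have d0 : d ≠ 0 := right_ne_zero_of_mul g0
  have t0 : t ≠ 0 := fun h => left_ne_zero_of_mul g0 (by rw [h]; ring)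
  have he : dsc e ≠ 0 := by rw [dsc_eq hs e1 e2]; positivity
  have csq : ∀ k z : ℤ, k ≠ 0 → z ≠ 0 → cl (k ^ 2 * z) = cl z := fun k z hk hz => by
    rw [cl_mul (pow_ne_zero _ hk) hz, cl_sq hk, zero_add]
  have hδ : ∑ j, kk A B C U V j = cl d := by
    rw [← csq t d t0 d0, ← hd, cl_prod _ _ fun j _ => hI.ne j]
    rfl
  have f0 : U ≠ 0 := hI.ne 0
  have f1 : V ≠ 0 := hI.ne 1
  have f2 : U + V ≠ 0 := hI.ne 2
  have f3 : B * U + C * V ≠ 0 := hI.ne 3
  have f4 : A * U - B * V ≠ 0 := hI.ne 4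
  have f5 : C * U + A * V ≠ 0 := hI.ne 5
  have hd' : U * V * (U + V) * (B * U + C * V) * (A * U - B * V) * (C * U + A * V) =
      t ^ 2 * d := by
    rw [← hd, Fin.prod_univ_six]
    rfl
  obtain ⟨w, hw⟩ := hI.wit
  have vm : ∀ j, qV (w j) m = 0 := fun j => TwistAux.qV_zero fun h => (hw j).2.1
    (h.trans ⟨3 * (m * A) * ((m + n) ^ 2 * B) * (n ^ 2 * C), by rw [HH]; ring⟩)
  have vn : ∀ j, qV (w j) n = 0 := fun j => TwistAux.qV_zero fun h => (hw j).2.1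
    (h.trans ⟨3 * (m ^ 2 * A) * ((m + n) ^ 2 * B) * (n * C), by rw [HH]; ring⟩)
  have vf : ∀ j i, qV (w j) (fm A B C U V i) = if i = j then 1 else 0 := fun j i => by
    rw [← (hw j).2.2 i, kk, cl_prime_apply _ (hw j).1]
  have c4 : ∀ k x y : ℤ, k ≠ 0 → x ≠ 0 → y ≠ 0 → cl (k ^ 2 * (d * x * y)) = cl d + cl x + cl y :=
    fun k x y hk hx hy => by
      rw [csq _ _ hk (mul_ne_zero (mul_ne_zero d0 hx) hy), cl_mul (mul_ne_zero d0 hx) hy,
        cl_mul d0 hx]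
  rw [tt, hδ]
  fin_cases i
  · refine ⟨.some _ _ (LocDAux.ns_root he 0), ?_⟩
    rw [root0 (by positivity) (by positivity) d0 he e1 e2, csq _ _ m0 A0, csq _ _ n0 C0]
    rfl
  · refine ⟨.some _ _ (LocDAux.ns_root he 1), ?_⟩
    rw [root1 (by positivity) (by positivity) hs d0 he e1 e2, csq _ _ m0 A0, csq _ _ s0 B0]
    rfl
  · have hM : n * V - m * U ≠ 0 := fun h => by
      have h1 := congrArg (qV (w 0)) (sub_eq_zero.1 h)
      have a0 : qV (w 0) U = 1 := vf 0 0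
      have a1 : qV (w 0) V = 0 := vf 0 1
      rw [isQF_qV (hw 0).1 _ _ n0 f1, isQF_qV (hw 0).1 _ _ m0 f0, vm, vn, a0, a1] at h1
      exact absurd h1 (by decide)
    obtain ⟨P, hP⟩ := pt_gen he hM (u₀ := (m * n) ^ 2 * (d * (U + V) * (C * U + A * V)))
      (u₁ := (m * (m + n)) ^ 2 * (d * U * (B * U + C * V)))
      (u₂ := (n * (m + n)) ^ 2 * (d * V * (A * U - B * V)))
      (y := d ^ 2 * t * m ^ 2 * n ^ 2 * (m + n) ^ 2) (by positivity) (by positivity)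
      (by
        rw [e1]
        apply mul_left_cancel₀ l0
        linear_combination d * m ^ 2 * (n ^ 2 * (U + V) * V - (n * V - m * U) ^ 2) * eA -
          d * m ^ 2 * (m + n) ^ 2 * U ^ 2 * eB +
          d * m ^ 2 * (n ^ 2 * (U + V) * U - (m + n) ^ 2 * U * V) * eC)
      (by
        rw [e2]
        apply mul_left_cancel₀ l0
        linear_combination d * n ^ 2 * (m ^ 2 * (U + V) * V - (m + n) ^ 2 * V * U) * eA +
          d * n ^ 2 * (m + n) ^ 2 * V ^ 2 * eB +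
          d * n ^ 2 * (m ^ 2 * (U + V) * U - (n * V - m * U) ^ 2) * eC)
      (by linear_combination d ^ 3 * m ^ 4 * n ^ 4 * (m + n) ^ 4 * hd')
    refine ⟨P, ?_⟩
    rw [hP, c4 _ _ _ (mul_ne_zero m0 n0) f2 f5, c4 _ _ _ (mul_ne_zero m0 s0) f0 f3]
    rfl
  · have hM : -(n * (U + V)) - m * V ≠ 0 := fun h => by
      have h0 : -1 * (n * (U + V)) = m * V := by linear_combination h
      have h1 := congrArg (qV (w 1)) h0
      have a0 : qV (w 1) (U + V) = 0 := vf 1 2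
      have a1 : qV (w 1) V = 1 := vf 1 1
      have a2 : qV (w 1) (-1) = 0 := TwistAux.qV_zero fun h =>
        (Nat.prime_iff_prime_int.1 (hw 1).1).not_dvd_one (dvd_neg.1 h)
      rw [isQF_qV (hw 1).1 _ _ (by norm_num) (mul_ne_zero n0 f2), isQF_qV (hw 1).1 _ _ n0 f2,
        isQF_qV (hw 1).1 _ _ m0 f1, vm, vn, a0, a1, a2] at h1
      exact absurd h1 (by decide)
    obtain ⟨P, hP⟩ := pt_gen he hM (u₀ := (m * n) ^ 2 * (d * U * (A * U - B * V)))
      (u₁ := -((m * (m + n)) ^ 2 * (d * V * (C * U + A * V))))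
      (u₂ := -((n * (m + n)) ^ 2 * (d * (U + V) * (B * U + C * V))))
      (y := d ^ 2 * t * m ^ 2 * n ^ 2 * (m + n) ^ 2) (by positivity)
      (neg_ne_zero.2 (by positivity))
      (by
        rw [e1]
        apply mul_left_cancel₀ l0
        linear_combination
          d * m ^ 2 * (n ^ 2 * U ^ 2 + (m + n) ^ 2 * V ^ 2 - (n * (U + V) + m * V) ^ 2) * eA -
          d * m ^ 2 * n ^ 2 * U * V * eB + d * m ^ 2 * (m + n) ^ 2 * V * U * eC)
      (by
        rw [e2]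
        apply mul_left_cancel₀ l0
        linear_combination d * n ^ 2 * m ^ 2 * U ^ 2 * eA +
          d * n ^ 2 * ((m + n) ^ 2 * (U + V) * U - m ^ 2 * U * V) * eB +
          d * n ^ 2 * ((m + n) ^ 2 * (U + V) * V - (n * (U + V) + m * V) ^ 2) * eC)
      (by linear_combination d ^ 3 * m ^ 4 * n ^ 4 * (m + n) ^ 4 * hd')
    refine ⟨P, ?_⟩
    rw [hP, cl_neg (by positivity), c4 _ _ _ (mul_ne_zero m0 n0) f0 f4,
      c4 _ _ _ (mul_ne_zero m0 s0) f1 f5, ← add_assoc, ← add_assoc]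
    rfl

end Pool.Agent.Lib.MP_7d3fda_nt.R3
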