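import Pool.Agent.Lib.MP_7d3fda_nt.R3.XMove
import Pool.Agent.Lib.MP_7d3fda_nt.R3.XCert
import Pool.Agent.Lib.MP_7d3fda_nt.R3.XKum
import Pool.Agent.Lib.MP_7d3fda_nt.R3.XBase
import Pool.Agent.Lib.MP_7d3fda_nt.R3.ADefs

open Finset
open scoped NumberTheorySymbols

noncomputable section

namespace Pool.Agent.Lib.MP_7d3fda_nt.R3

open Pool.Agent.Lib.MP_788af2_nt Pool.Agent.Lib.MP_7d3fda_nt.R2

namespace XGeoAux

theorem two0 : (2 : ZMod 2) = 0 := rfl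

theorem csq {k z : ℤ} (hk : k ≠ 0) (hz : z ≠ 0) : cl (k ^ 2 * z) = cl z := by
  rw [cl_mul (pow_ne_zero _ hk) hz, cl_sq hk, zero_add]

section

variable {m n l A B C : ℤ} (hF : Fam m n l A B C)

include hF

theorem m0 : m ≠ 0 := by
  rintro rfl
  exact mul_ne_zero hF.l0 hF.A0 (by rw [hF.eA]; ring)

theorem n0 : n ≠ 0 := by
  rintro rfl
  exact mul_ne_zero hF.l0 hF.C0 (by rw [hF.eC]; ring)

theorem s0 : m + n ≠ 0 :=
  fun h => mul_ne_zero hF.l0 hF.B0 (by linear_combination hF.eB + (n - m) * h)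

theorem hs1 : m ^ 2 * A + (m + n) ^ 2 * B = n ^ 2 * C := by
  apply mul_left_cancel₀ hF.l0
  linear_combination m ^ 2 * hF.eA + (m + n) ^ 2 * hF.eB - n ^ 2 * hF.eC

theorem hs0 : A + B = C := by
  apply mul_left_cancel₀ hF.l0
  linear_combination hF.eA + hF.eB - hF.eC

theorem hQ : A ^ 2 + A * B + B ^ 2 ≠ 0 ∧ cl (A ^ 2 + A * B + B ^ 2) = 0 := by
  have h1 : l ^ 2 * (A ^ 2 + A * B + B ^ 2) = (m ^ 2 + m * n + n ^ 2) ^ 2 := by
    have e : l ^ 2 * (A ^ 2 + A * B + B ^ 2) = (l * A) ^ 2 + (l * A) * (l * B) + (l * B) ^ 2 := by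
      ring
    rw [e, hF.eA, hF.eB]
    ring
  have h2 : m ^ 2 + m * n + n ^ 2 ≠ 0 := by
    have := n0 hF
    have : 0 < n ^ 2 := by positivity
    nlinarith [sq_nonneg (2 * m + n)]
  have h3 : A ^ 2 + A * B + B ^ 2 ≠ 0 := fun h => pow_ne_zero 2 h2 (by rw [← h1, h, mul_zero])
  exact ⟨h3, by rw [← csq hF.l0 h3, h1, cl_sq h2]⟩

theorem HH0 : HH m n A B C ≠ 0 := by
  have := m0 hF
  have := n0 hF
  have := s0 hF
  have := hF.A0
  have := hF.B0
  have := hF.C0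
  unfold HH
  positivity

omit hF in
theorem dvdA : A ∣ HH m n A B C := ⟨3 * m ^ 2 * ((m + n) ^ 2 * B) * (n ^ 2 * C), by rw [HH]; ring⟩

omit hF in
theorem dvdB : B ∣ HH m n A B C := ⟨3 * (m ^ 2 * A) * (m + n) ^ 2 * (n ^ 2 * C), by rw [HH]; ring⟩

omit hF in
theorem dvdC : C ∣ HH m n A B C := ⟨3 * (m ^ 2 * A) * ((m + n) ^ 2 * B) * n ^ 2, by rw [HH]; ring⟩

variable {U V : ℤ} (hI : Inv m n A B C U V)

include hI

omit hF in
theorem dl_eq {t d : ℤ} (hd : ∏ j, fm A B C U V j = t ^ 2 * d) :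
    ∑ j, kk A B C U V j = cl d := by
  have g0 : t ^ 2 * d ≠ 0 := hd ▸ prod_ne_zero_iff.2 fun j _ => hI.ne j
  have t0 : t ≠ 0 := fun h => left_ne_zero_of_mul g0 (by rw [h]; ring)
  rw [← csq t0 (right_ne_zero_of_mul g0), ← hd, cl_prod _ _ fun j _ => hI.ne j]
  rfl

omit hF in
theorem sig' {t d : ℤ} (hd : ∏ j, fm A B C U V j = t ^ 2 * d) (r : ℕ) (hr : r.Prime) (h2 : r ≠ 2)
    (h : (r : ℤ) ∣ m ^ 2 * A * ((m + n) ^ 2 * B) * (n ^ 2 * C)) : cl d r = 1 := by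
  rw [← dl_eq hI hd]
  exact hI.sig r hr h2 (h.trans ⟨3, by rw [HH]; ring⟩)

theorem facts : Ok3 (cl A) (cl B) (cl C) (∑ j, kk A B C U V j) ∧
    ∀ i, tt (cl A) (cl B) (cl C) (kk A B C U V) i ∈
      Rel (cl A) (cl B) (cl C) (∑ j, kk A B C U V j) := by
  obtain ⟨d, t, hd, -, e⟩ := exists_sqfree (prod_ne_zero_iff.2 fun j (_ : j ∈ univ) => hI.ne j)
  have a0 := mul_ne_zero (pow_ne_zero 2 (m0 hF)) hF.A0
  have b0 := mul_ne_zero (pow_ne_zero 2 (s0 hF)) hF.B0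
  have c0 := mul_ne_zero (pow_ne_zero 2 (n0 hF)) hF.C0
  have k1 := ok3 a0 b0 c0 (hs1 hF) hF.cAB (sig' hI e)
  have k2 := kum_rel a0 b0 c0 (hs1 hF) hF.cAB hd (sig' hI e)
    (e := ![0, d * (m ^ 2 * A), d * (n ^ 2 * C)]) (by simp) (by simp)
  rw [csq (m0 hF) hF.A0, csq (s0 hF) hF.B0, csq (n0 hF) hF.C0, ← dl_eq hI e] at k1 k2
  refine ⟨k1, fun i => ?_⟩
  obtain ⟨P, hP⟩ := pts hF hI e (e := ![0, d * (m ^ 2 * A), d * (n ^ 2 * C)]) (by simp) (by simp) i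
  exact hP ▸ k2 P

end

theorem norm (c₀ : Fin 6 → ℤ) (h : Function.Injective c₀) :
    ∃ (μ g : ℤ) (c : Fin 6 → ℕ), g ≠ 0 ∧ Pat c ∧ ∀ j, c₀ j = μ + g * c j := by
  obtain ⟨j₀, -, hj⟩ := exists_min_image univ c₀ univ_nonempty
  obtain ⟨f, hf, hg⟩ := extract_gcd (s := univ) (fun j => c₀ j - c₀ j₀) univ_nonempty
  obtain ⟨g, hgd⟩ : ∃ g, g = univ.gcd fun j => c₀ j - c₀ j₀ := ⟨_, rfl⟩
  have g1 : 0 ≤ g := by
    rw [hgd, ← Finset.normalize_gcd, ← Int.abs_eq_normalize]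
    exact abs_nonneg _
  rw [← hgd] at hf
  have g0 : g ≠ 0 := by
    rintro rfl
    have a := hf 0 (mem_univ _)
    have b := hf 1 (mem_univ _)
    exact absurd (h (show c₀ 0 = c₀ 1 by linarith)) (by decide)
  have f0 : ∀ j, 0 ≤ f j := fun j => by
    have a := hf j (mem_univ _)
    have b := hj j (mem_univ _)
    exact nonneg_of_mul_nonneg_right (by linarith) (lt_of_le_of_ne g1 g0.symm)
  have e : ∀ j, c₀ j = c₀ j₀ + g * ((f j).toNat : ℤ) := fun j => by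
    rw [Int.toNat_of_nonneg (f0 j), ← hf j (mem_univ _)]
    ring
  refine ⟨c₀ j₀, g, fun j => (f j).toNat, g0, ⟨fun i j hij => h ?_, ⟨j₀, ?_⟩, ?_⟩, e⟩
  · rw [e i, e j, show (f i).toNat = (f j).toNat from hij]
  · have a := e j₀
    have b : g * ((f j₀).toNat : ℤ) = 0 := by linarith
    exact_mod_cast (mul_eq_zero.1 b).resolve_left g0
  · obtain ⟨lam, hl⟩ := gcd_eq_sum_mul univ f
    refine ⟨lam, ?_⟩
    rw [← hg, hl]
    exact sum_congr rfl fun j _ => by rw [Int.toNat_of_nonneg (f0 j), mul_comm]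

theorem chi_gen {x y z : X} {k : Fin 6 → X} {p q : ℕ} {w : Fin 6 → ℕ} (hp : p ≠ 0) (hq : q ≠ 0)
    (hw : ∀ j, w j ≠ 0) (h1 : x p = 1 ∧ y p = 0 ∧ z p = 0) (h2 : y q = 1 ∧ x q = 0 ∧ z q = 0)
    (h3 : ∀ j, x (w j) = 0 ∧ y (w j) = 0 ∧ z (w j) = 0)
    (h4 : ∀ j i, k i (w j) = if i = j then 1 else 0) (α β : ZMod 2) (κ : Fin 6 → ZMod 2) :
    ∃ χ : X →ₗ[ZMod 2] ZMod 2, χ ep = 0 ∧ χ x = α ∧ χ y = β ∧ χ z = 0 ∧ ∀ j, χ (k j) = κ j := by
  refine ⟨α • Finsupp.lapply p + β • Finsupp.lapply q +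
    ∑ j, (κ j + α * k j p + β * k j q) • Finsupp.lapply (w j), ?_, ?_, ?_, ?_, fun j => ?_⟩
  · simp [ep, hp, hq, hw]
  · simp [h1, h2, h3]
  · simp [h1, h2, h3]
  · simp [h1, h2, h3]
  · simp only [LinearMap.add_apply, LinearMap.smul_apply, LinearMap.sum_apply,
      Finsupp.lapply_apply, h4, smul_eq_mul, mul_ite, mul_one, mul_zero, sum_ite_eq, mem_univ,
      if_true]
    linear_combination (α * k j p + β * k j q) * two0

theorem wit_ex {A B C : ℤ} (hA : A ≠ 0) (h : ¬IsSquare |A|) (hB : IsCoprime A B)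
    (hC : IsCoprime A C) : ∃ p : ℕ, p ≠ 0 ∧ cl A p = 1 ∧ cl B p = 0 ∧ cl C p = 0 := by
  obtain ⟨p, hp, h1⟩ : ∃ p : ℕ, p.Prime ∧ qV p A = 1 := by
    by_contra hc
    push Not at hc
    refine h (isSquare_of_even_val (abs_pos.2 hA) fun p hp => ?_)
    have e : padicValInt p |A| = padicValInt p A := by
      unfold padicValInt
      rw [Int.natAbs_abs]
    rw [e, ← qV_eq_zero]
    exact (by decide : ∀ a : ZMod 2, a ≠ 1 → a = 0) _ (hc p hp)
  have hd := XKumAux.dvd_of_qV h1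
  have hu := (Nat.prime_iff_prime_int.1 hp).not_isUnit
  refine ⟨p, hp.ne_zero, ?_, ?_, ?_⟩
  · rw [cl_prime_apply _ hp, h1]
  · rw [cl_prime_apply _ hp, TwistAux.qV_zero fun h' => hu (hB.isUnit_of_dvd' hd h')]
  · rw [cl_prime_apply _ hp, TwistAux.qV_zero fun h' => hu (hC.isUnit_of_dvd' hd h')]

theorem chi_ex {m n l A B C U V : ℤ} (hF : Fam m n l A B C) (hI : Inv m n A B C U V) :
    ∃ d : Fin 3, ∀ (α β γ : ZMod 2) (κ : Fin 6 → ZMod 2), (d = 0 → γ = 0) → (d = 1 → α = 0) →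
      (d = 2 → β = 0) → ∃ χ : X →ₗ[ZMod 2] ZMod 2, χ ep = 0 ∧ χ (cl A) = α ∧ χ (cl B) = β ∧
        χ (cl C) = γ ∧ ∀ j, χ (kk A B C U V j) = κ j := by
  obtain ⟨w, hw⟩ := hI.wit
  have cAB : IsCoprime A B := hF.cAB.of_mul_left_right.of_mul_right_right
  have cAC : IsCoprime A C := hF.cAC.of_mul_left_right.of_mul_right_right
  have cBC : IsCoprime B C := hF.cBC.of_mul_left_right.of_mul_right_right
  have w0 := fun j => (hw j).1.ne_zero
  have w4 := fun j => (hw j).2.2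
  have wz : ∀ j (x : ℤ), x ∣ HH m n A B C → cl x (w j) = 0 := fun j x hx => by
    rw [cl_prime_apply _ (hw j).1, TwistAux.qV_zero fun h => (hw j).2.1 (h.trans hx)]
  have wA := fun j => wz j A dvdA
  have wB := fun j => wz j B dvdB
  have wC := fun j => wz j C dvdC
  by_cases hA : IsSquare |A|
  · obtain ⟨p, p0, hp⟩ := wit_ex hF.B0 (fun h => hF.nAB (by rw [abs_mul]; exact hA.mul h)) cBC
      cAB.symm
    obtain ⟨q, q0, hq⟩ := wit_ex hF.C0 (fun h => hF.nAC (by rw [abs_mul]; exact hA.mul h)) cBC.symm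
      cAC.symm
    refine ⟨1, fun α β γ κ _ h1 _ => ?_⟩
    obtain ⟨χ, a0, a1, a2, a3, a4⟩ :=
      chi_gen p0 q0 w0 hp hq (fun j => ⟨wB j, wC j, wA j⟩) w4 β γ κ
    exact ⟨χ, a0, (h1 rfl).symm ▸ a3, a1, a2, a4⟩
  obtain ⟨p, p0, hp⟩ := wit_ex hF.A0 hA cAB cAC
  by_cases hB : IsSquare |B|
  · obtain ⟨q, q0, hq⟩ := wit_ex hF.C0 (fun h => hF.nBC (by rw [abs_mul]; exact hB.mul h)) cAC.symm
      cBC.symm
    refine ⟨2, fun α β γ κ _ _ h1 => ?_⟩
    obtain ⟨χ, a0, a1, a2, a3, a4⟩ :=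
      chi_gen p0 q0 w0 ⟨hp.1, hp.2.2, hp.2.1⟩ hq (fun j => ⟨wA j, wC j, wB j⟩) w4 α γ κ
    exact ⟨χ, a0, a1, (h1 rfl).symm ▸ a3, a2, a4⟩
  · obtain ⟨q, q0, hq⟩ := wit_ex hF.B0 hB cAB.symm cBC
    refine ⟨0, fun α β γ κ h1 _ _ => ?_⟩
    obtain ⟨χ, a0, a1, a2, a3, a4⟩ :=
      chi_gen p0 q0 w0 hp hq (fun j => ⟨wA j, wB j, wC j⟩) w4 α β κ
    exact ⟨χ, a0, a1, a2, (h1 rfl).symm ▸ a3, a4⟩

/-- the minors up to sign -/
def de (A B C Q : ℤ) : Fin 6 → Fin 6 → ℤ :=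
  ![![1, 1, 1, C, B, A], ![1, 1, 1, B, A, C], ![1, 1, 1, A, C, B], ![C, B, A, 1, Q, Q],
    ![B, A, C, Q, 1, Q], ![A, C, B, Q, Q, 1]]

open XBaseAux in
theorem minor {A B C : ℤ} (hs : A + B = C) {i j : Fin 6} (hij : i ≠ j) :
    (be A B C i * al A B C j - be A B C j * al A B C i) ^ 2 =
      de A B C (A ^ 2 + A * B + B ^ 2) i j ^ 2 := by
  subst hs
  fin_cases i <;> fin_cases j <;>
    simp only [al, be, de, Fin.zero_eta, Fin.mk_one, Fin.reduceFinMk, Matrix.cons_val] <;>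
    first
    | exact absurd rfl hij
    | ring1

theorem de_ne {A B C Q : ℤ} (hA : A ≠ 0) (hB : B ≠ 0) (hC : C ≠ 0) (hQ : Q ≠ 0) (i j : Fin 6) :
    de A B C Q i j ≠ 0 := by
  fin_cases i <;> fin_cases j <;> simp [de, hA, hB, hC, hQ]

theorem de_qf {F : ℤ → ZMod 2} (hF : IsQF F) {A B C Q : ℤ} (hQ : F Q = 0) (i j : Fin 6) :
    F (de A B C Q i j) = dl6 (F A) (F B) (F C) i j := by
  fin_cases i <;> fin_cases j <;> simp [de, dl6, hQ, hF.one]

theorem qL_of_J {p : ℕ} (hp : p.Prime) {n : ℤ} {b : ZMod 2} (h : J(n | p) = sgn b) :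
    qL p n = b := by
  have h0 : sgn b ≠ 0 := by
    unfold sgn
    split_ifs <;> norm_num
  rw [TableAux.qL_eq hp (TableAux.not_dvd_of_jac hp (h ▸ h0)), h]
  clear h h0
  revert b
  decide

end XGeoAux

open XGeoAux XBaseAux XMoveAux in
theorem move {m n l A B C U V N : ℤ} (hF : Fam m n l A B C) (hI : Inv m n A B C U V) (N0 : N ≠ 0)
    (η : X →ₗ[ZMod 2] ZMod 2) (hη : ∀ γ ∈ Gam1 (cl A) (cl B) (cl C) (kk A B C U V), η γ = 0) :
    ∃ (c : Fin 6 → ℕ) (W₀ : ℕ) (u : Fin 3 → ℕ)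
      (qq : (Fin 3 → ZMod 2) → Fin 2 × Fin 6 → Fin 2 × Fin 6 → ZMod 2)
      (sg : (Fin 3 → ZMod 2) → Fin 2 × Fin 6 → ZMod 2), Pat c ∧ 0 < W₀ ∧
      (∀ k, (u k).Coprime W₀) ∧ ¬u 0 ≡ u 1 [MOD W₀] ∧ ∀ x s, Good3 c W₀ u qq sg x s →
        ∃ U' V', Inv m n A B C U' V' ∧
          Step (Str (cl A) (cl B) (cl C) (∑ j, kk A B C U V j))
            (Str (cl A) (cl B) (cl C) (∑ j, kk A B C U' V' j))
            (Gam1 (cl A) (cl B) (cl C) (kk A B C U V))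
            (Gam1 (cl A) (cl B) (cl C) (kk A B C U' V')) η ∧
          (∀ j, fm A B C U' V' j = fm A B C U V j * (x + c j * s)) ∧
          (∏ j, (x + c j * s)) % 4 = 1 ∧ ∀ d : ℤ, Squarefree d → d ∣ N * ∏ j, fm A B C U V j →
            Squarefree (d * ∏ j, (x + c j * s)) := by
  obtain ⟨d, hd⟩ := chi_ex hF hI
  obtain ⟨et, α, β, γ, κ, qq, sg, z0, z1, z2, z3, z4, hcert⟩ := cert d
  obtain ⟨g1, g2, g3, g4, g5⟩ := g1 (cl A) (cl B) (cl C) (kk A B C U V)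
  obtain ⟨χ, χe, χ0, χ1, χ2, χ3, χ4⟩ : ∃ χ : Fin 3 → X →ₗ[ZMod 2] ZMod 2, χ et = η ∧
      (∀ k, χ k ep = 0) ∧ (∀ k, χ k (cl A) = α k) ∧ (∀ k, χ k (cl B) = β k) ∧
      (∀ k, χ k (cl C) = γ k) ∧ ∀ k j, χ k (kk A B C U V j) = κ k j := by
    choose ψ h0 h1 h2 h3 h4 using fun k => hd (α k) (β k) (γ k) (κ k) (fun h => z1 h k)
      (fun h => z2 h k) fun h => z3 h k
    refine ⟨Function.update ψ et η, by simp, fun k => ?_, fun k => ?_, fun k => ?_, fun k => ?_,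
      fun k j => ?_⟩ <;> by_cases hk : k = et <;>
      simp [hk, h0, h1, h2, h3, h4, hη _ g1, hη _ g2, hη _ g3, hη _ g4, hη _ (g5 _), z0]
  obtain ⟨f, hf⟩ : ∃ f, f = fm A B C U V := ⟨_, rfl⟩
  have f0 : ∀ j, f j ≠ 0 := hf ▸ hI.ne
  have fe : ∀ j, f j = al A B C j * U + be A B C j * V := hf ▸ fm_eq A B C U V
  have kf : ∀ j, kk A B C U V j = cl (f j) := fun j => by rw [hf]; rfl
  obtain ⟨G, hG⟩ : ∃ G, G = ∏ j, f j := ⟨_, rfl⟩
  have G0 : G ≠ 0 := hG ▸ prod_ne_zero_iff.2 fun j _ => f0 j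
  have U0 : U ≠ 0 := hI.ne 0
  have fG : ∀ j, f j ∣ G := fun j => hG ▸ dvd_prod_of_mem f (mem_univ j)
  have UG : U ∣ G := by
    have := fG 0
    rwa [hf] at this
  obtain ⟨Q0, Qc⟩ := hQ hF
  obtain ⟨c₀, hc₀⟩ : ∃ c₀ : Fin 6 → ℤ, ∀ j, f j * c₀ j = be A B C j * G :=
    ⟨fun j => be A B C j * ∏ i ∈ univ.erase j, f i, fun j => by
      rw [hG, ← mul_prod_erase univ f (mem_univ j)]
      ring⟩
  have Δ0 : ∀ {i j : Fin 6}, i ≠ j → be A B C i * al A B C j - be A B C j * al A B C i ≠ 0 :=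
    fun {i j} hij h => pow_ne_zero 2 (de_ne hF.A0 hF.B0 hF.C0 Q0 i j) (by
      rw [← minor (hs0 hF) hij, h]
      ring)
  have idn : ∀ i j, (c₀ i - c₀ j) * (f i * f j) =
      G * U * (be A B C i * al A B C j - be A B C j * al A B C i) := fun i j => by
    linear_combination f j * hc₀ i - f i * hc₀ j + be A B C i * G * fe j - be A B C j * G * fe i
  obtain ⟨μ, g, c, g0, hpat, hc⟩ := norm c₀ fun i j e => by
    by_contra hij
    refine mul_ne_zero (mul_ne_zero G0 U0) (Δ0 hij) ?_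
    rw [← idn, e, sub_self, zero_mul]
  obtain ⟨M, hM⟩ : ∃ M : ℕ, M = (g * (N * G) * HH m n A B C).natAbs := ⟨_, rfl⟩
  have M0 : 0 < M :=
    hM ▸ Int.natAbs_pos.2 (mul_ne_zero (mul_ne_zero g0 (mul_ne_zero N0 G0)) (HH0 hF))
  have dM : ∀ {x : ℤ}, x ∣ g * (N * G) * HH m n A B C → x ∣ M := fun h => hM ▸ Int.dvd_natAbs.2 h
  have gM : g ∣ M := dM (Dvd.intro (N * G * HH m n A B C) (by ring))
  have NM : N * G ∣ M := dM (Dvd.intro (g * HH m n A B C) (by ring))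
  have GM : G ∣ M := (Dvd.intro_left _ rfl).trans NM
  have HM : HH m n A B C ∣ M := dM (Dvd.intro_left _ rfl)
  obtain ⟨T, hT⟩ : ∃ T, T = M.primeFactors.erase 2 := ⟨_, rfl⟩
  have mT : ∀ p : ℕ, p.Prime → p ≠ 2 → (p : ℤ) ∣ M → p ∈ T := fun p hp h2 h => by
    rw [hT, mem_erase, Nat.mem_primeFactors]
    exact ⟨h2, hp, Int.natCast_dvd_natCast.1 h, M0.ne'⟩
  have sT : ∀ {x : ℤ}, x ≠ 0 → x ∣ M → cl x ∈ Sup T :=
    fun h0 h => cl_mem_Sup h0 fun p hp h2 hd => mT p hp h2 (hd.trans h)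
  have sA := sT hF.A0 (dvdA.trans HM)
  have sB := sT hF.B0 (dvdB.trans HM)
  have sC := sT hF.C0 (dvdC.trans HM)
  choose u hu hcl using fun k => class_ex M M0 (χ k)
  rw [← hT] at hcl
  have W0 : 0 < 8 * M := by omega
  refine ⟨c, 8 * M, u, qq, fun θ v => sg θ v + χ v.1.castSucc (cl g + cl G + cl U), hpat, W0, hu,
    fun h01 => ?_, ?_⟩
  · obtain ⟨q, -, hq, e⟩ := Nat.forall_exists_prime_gt_and_modEq 0 W0.ne' (hu 0)
    refine z4 ⟨?_, ?_, ?_⟩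
    · rw [← χ1, ← χ1, ← hcl 0 q hq e _ sA, ← hcl 1 q hq (e.trans h01) _ sA]
    · rw [← χ2, ← χ2, ← hcl 0 q hq e _ sB, ← hcl 1 q hq (e.trans h01) _ sB]
    · rw [← χ3, ← χ3, ← hcl 0 q hq e _ sC, ← hcl 1 q hq (e.trans h01) _ sC]
  rintro x s ⟨θ, r, hr, hinj, hn, hθ, hq, hs⟩
  have rp := fun j k => (hr j k).1
  have rI := fun j k => Nat.prime_iff_prime_int.1 (rp j k)
  have r0 : ∀ j k, (r j k : ℤ) ≠ 0 := fun j k => (rI j k).ne_zero
  have rW : ∀ j k, ¬r j k ∣ 8 * M := fun j k h => by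
    have a : (r j k).Coprime (8 * M) := by
      rw [Nat.Coprime, (hr j k).2.1.gcd_eq]
      exact hu k
    exact (rp j k).ne_one (Nat.Coprime.eq_one_of_dvd a h)
  have rM : ∀ j k, ¬(r j k : ℤ) ∣ M := fun j k h =>
    rW j k (Dvd.dvd.mul_left (Int.natCast_dvd_natCast.1 h) _)
  have hMv : Mv (cl A) (cl B) (cl C) (kk A B C U V) T r χ :=
    { odd := fun p hp => by
        rw [hT, mem_erase] at hp
        exact ⟨Nat.prime_of_mem_primeFactors hp.2, hp.1⟩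
      ha := sA
      hb := sB
      hc := sC
      hk := fun j => (kf j).symm ▸ sT (f0 j) ((fG j).trans GM)
      pr := fun j k => ⟨rp j k, fun e => rW j k (e ▸ ⟨4 * M, by ring⟩), fun h => by
        rw [hT, mem_erase] at h
        exact rM j k (Int.natCast_dvd_natCast.2 (Nat.dvd_of_mem_primeFactors h.2))⟩
      inj := hinj
      ep0 := χ0
      chi := fun j k => hcl k _ (rp j k) (hr j k).2.1 }
  have n0 : ∀ j, x + c j * s ≠ 0 := fun j => by
    rw [← hn]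
    exact mul_ne_zero (mul_ne_zero (r0 j 0) (r0 j 1)) (r0 j 2)
  have a8 : ∀ j, ((8 * M : ℕ) : ℤ) ∣ (u 0 : ℤ) * u 1 * u 2 - (x + c j * s) := fun j => by
    have b := (((hr j 0).2.1.mul (hr j 1).2.1).mul (hr j 2).2.1).dvd
    rw [← hn]
    exact_mod_cast b
  obtain ⟨s', hs'⟩ : g ∣ s := by
    obtain ⟨j₀, hj₀⟩ := hpat.zero
    obtain ⟨lam, hl⟩ := hpat.bez
    have b : ∀ j, g ∣ (c j : ℤ) * s := fun j => by
      have b := dvd_sub (a8 j₀) (a8 j)
      rw [hj₀] at b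
      refine (gM.trans ⟨8, by push_cast; ring⟩).trans (b.trans (dvd_of_eq ?_))
      push_cast
      ring
    rw [← one_mul s, ← hl, sum_mul]
    exact dvd_sum fun j _ => by rw [mul_assoc]; exact (b j).mul_left _
  have s0 : s ≠ 0 := fun e => (hr 0 0).2.2 (e ▸ dvd_zero _)
  have hfm : ∀ j, fm A B C (x * U - s' * μ * U) (x * V + s' * (G - μ * V)) j =
      fm A B C U V j * (x + c j * s) := fun j => by
    rw [← hf, fm_eq, hs']
    linear_combination -s' * hc₀ j + s' * f j * hc j - (x - s' * μ) * fe j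
  have hkk : kk A B C (x * U - s' * μ * U) (x * V + s' * (G - μ * V)) = nk (kk A B C U V) r := by
    funext j
    rw [kk, hfm, cl_mul (hI.ne j) (n0 j), ← hn, cl_mul (mul_ne_zero (r0 j 0) (r0 j 1)) (r0 j 2),
      cl_mul (r0 j 0) (r0 j 1), cl_prime (rp j 0), cl_prime (rp j 1), cl_prime (rp j 2), nk,
      Fin.sum_univ_three]
    rfl
  have hI' : Inv m n A B C (x * U - s' * μ * U) (x * V + s' * (G - μ * V)) := by
    refine ⟨fun j => hfm j ▸ mul_ne_zero (hI.ne j) (n0 j), fun p hp h2 h => ?_, ?_, ?_, ?_⟩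
    · rw [hkk, dl_other (ne_old hMv (mT p hp h2 (h.trans HM)))]
      exact hI.sig p hp h2 h
    · simpa only [hkk, XMoveAux.st_tt hMv] using hI.star
    · obtain ⟨w, hw⟩ := hI.wit
      refine ⟨w, fun j => ⟨(hw j).1, (hw j).2.1, fun i => ?_⟩⟩
      rw [hkk, nk_other _ fun j' k e => rM j' k ?_, (hw j).2.2 i]
      have a := (hw j).2.2 j
      rw [if_pos rfl, kf, cl_prime_apply _ (hw j).1] at a
      rw [e]
      exact (XKumAux.dvd_of_qV a).trans ((fG j).trans GM)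
    · intro y hy h
      refine hI.sep y hy fun p hp => h p ?_
      rw [hkk, sg_eq hMv]
      exact mem_union_left _ hp
  have hS : SymRel α β γ κ (qq θ) (sg θ) θ (fun i k j k' => qL (r j k') (r i k))
      fun j k => qL (r j k) s + χ k (cl g + cl G + cl U) := by
    refine ⟨fun j k => TableAux.qL_self (rp j k), fun i k j k' => ?_, fun j => ?_,
      fun v w h => qL_of_J (rp _ _) (hq v w h), fun v => ?_, fun i j k hij => ?_⟩
    · by_cases e : r j k' = r i k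
      · rw [e]
      · have a := qL_rec (rp j k') (rp i k) (hMv.pr j k').2.1 (hMv.pr i k).2.1 e
        rw [q4_new hMv, zero_mul] at a
        linear_combination a - qL (r i k) (r j k') * XGeoAux.two0
    · exact ⟨qL_of_J (rp _ _) (hθ j).1, qL_of_J (rp _ _) (hθ j).2.1, qL_of_J (rp _ _) (hθ j).2.2⟩
    · rw [qL_of_J (rp _ _) (hs v)]
      linear_combination χ v.1.castSucc (cl g + cl G + cl U) * XGeoAux.two0
    · have hq := isQF_qL (rp j k)
      have ch : ∀ {z : ℤ}, z ≠ 0 → cl z ∈ Sup T → qL (r j k) z = χ k (cl z) := fun h0 h => by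
        rw [← hMv.chi j k _ h, lin_cl hq h0]
      have nd : ∀ k', ¬(r j k : ℤ) ∣ r i k' := fun k' =>
        TableAux.not_dvd_prime (rp j k) (rp i k') fun e => hij (hinj _ _ _ _ e).1.symm
      have c0 : (c i : ℤ) - c j ≠ 0 := fun e => hij (hpat.inj (by exact_mod_cast sub_eq_zero.1 e))
      have a1 : qL (r j k) (x + c i * s) = qL (r j k) (((c i : ℤ) - c j) * s) := by
        refine TableAux.qL_congr (rp j k) (fun h => ?_) ?_
        · rw [← hn] at h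
          rcases (rI j k).dvd_or_dvd h with h | h
          · exact ((rI j k).dvd_or_dvd h).elim (nd 0) (nd 1)
          · exact nd 2 h
        · rw [show x + c i * s - ((c i : ℤ) - c j) * s = x + c j * s by ring, ← hn]
          fin_cases k
          · exact ⟨r j 1 * r j 2, by simp only [Fin.zero_eta]; ring⟩
          · exact ⟨r j 0 * r j 2, by simp only [Fin.mk_one]; ring⟩
          · exact ⟨r j 0 * r j 1, by simp only [Fin.reduceFinMk]; ring⟩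
      rw [← hn, hq _ _ (mul_ne_zero (r0 i 0) (r0 i 1)) (r0 i 2), hq _ _ (r0 i 0) (r0 i 1),
        hq _ _ c0 s0] at a1
      have a2 : qL (r j k) (g * ((c i : ℤ) - c j) * (f i * f j)) =
          qL (r j k) (G * U * (be A B C i * al A B C j - be A B C j * al A B C i)) := by
        rw [← idn, hc i, hc j]
        congr 1
        ring
      have a3 : qL (r j k) (be A B C i * al A B C j - be A B C j * al A B C i) =
          dl6 (α k) (β k) (γ k) i j := by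
        have b1 : qL (r j k) (A ^ 2 + A * B + B ^ 2) = 0 := by rw [← lin_cl hq Q0, Qc, map_zero]
        have b2 := de_qf hq (A := A) (B := B) (C := C) b1 i j
        rw [ch hF.A0 sA, ch hF.B0 sB, ch hF.C0 sC, χ1, χ2, χ3] at b2
        have b3 : qL (r j k) (-1) = 0 := by
          rw [← lin_ep (qL (r j k)), hMv.chi j k _ (ep_mem_Sup T), χ0]
        rcases sq_eq_sq_iff_eq_or_eq_neg.1 (minor (hs0 hF) hij) with e | e
        · rw [e, b2]
        · rw [e, neg_eq_neg_one_mul, hq _ _ (by norm_num) (de_ne hF.A0 hF.B0 hF.C0 Q0 i j), b3, b2,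
            zero_add]
      rw [hq _ _ (mul_ne_zero g0 c0) (mul_ne_zero (f0 i) (f0 j)), hq _ _ g0 c0,
        hq _ _ (f0 i) (f0 j), hq _ _ (mul_ne_zero G0 U0) (Δ0 hij), hq _ _ G0 U0, a3,
        ch g0 (sT g0 gM), ch G0 (sT G0 GM), ch U0 (sT U0 (UG.trans GM)),
        ch (f0 i) (kf i ▸ hMv.hk i), ch (f0 j) (kf j ▸ hMv.hk j), ← kf, ← kf, χ4, χ4] at a2
      simp only [map_add]
      linear_combination a1 + a2 - (χ k (cl g) + κ k i + κ k j) * XGeoAux.two0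
  obtain ⟨k1, k2⟩ := facts hF hI
  obtain ⟨k3, k4⟩ := facts hF hI'
  refine ⟨_, _, hI', ?_, hfm, ?_, fun d hd hdv => ?_⟩
  · have a := hI'.star.1
    have b := hI'.sep
    rw [hkk] at k3 k4 a b ⊢
    rw [← χe]
    refine move_step hMv k1 k3 k2 k4 a b ?_ ?_
    · simpa only [χ1, χ2, χ3, χ4] using hcert θ _ _ hS
    · simpa only [χ1, χ2, χ3, χ4] using z0
  · have o : ∀ k, Odd (r 0 k : ℤ) := fun k =>
      Int.odd_coe_nat _ |>.2 ((rp 0 k).odd_of_ne_two (hMv.pr 0 k).2.1)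
    obtain ⟨k, hk⟩ := ((o 0).mul (o 1)).mul (o 2)
    rw [hn] at hk
    have b : ∀ j, ((x + c j * s : ℤ) : ZMod 4) = ((2 * k + 1 : ℤ) : ZMod 4) := fun j => by
      refine (ZMod.intCast_eq_intCast_iff_dvd_sub _ _ 4).2 ?_
      have b := dvd_sub (a8 j) (a8 0)
      rw [hk] at b
      exact (Dvd.dvd.trans (b := ((8 * M : ℕ) : ℤ)) ⟨2 * M, by push_cast; ring⟩ b).trans
        (dvd_of_eq (by ring))
    refine (ZMod.intCast_eq_intCast_iff' _ 1 4).1 ?_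
    rw [Int.cast_prod, prod_congr rfl fun j _ => b j, prod_const]
    push_cast
    exact (by decide : ∀ k : ZMod 4, (2 * k + 1) ^ 6 = 1) _
  · have e : ∏ j, (x + c j * s) = ∏ t : Fin 6 × Fin 3, (r t.1 t.2 : ℤ) := by
      simp only [Fintype.prod_prod_type, Fin.prod_univ_three, hn]
    rw [e, squarefree_mul_iff]
    refine ⟨IsCoprime.isRelPrime (IsCoprime.prod_right fun t _ => ?_), hd, ?_⟩
    · refine ((rI _ _).irreducible.coprime_iff_not_dvd.2 fun h => rM _ _ (h.trans ?_)).symm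
      rw [← hf, ← hG] at hdv
      exact hdv.trans NM
    · refine squarefree_prod_of_pairwise_isCoprime (fun t _ t' _ h => ?_) fun t _ =>
        (rI _ _).squarefree
      exact (Nat.isCoprime_iff_coprime.2 ((Nat.coprime_primes (rp _ _) (rp _ _)).2 fun e =>
        h (Prod.ext (hinj _ _ _ _ e).1 (hinj _ _ _ _ e).2))).isRelPrime

end Pool.Agent.Lib.MP_7d3fda_nt.R3
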