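import Pool.Agent.Lib.MP_7d3fda_nt.R3.XCl

open Finset
open scoped NumberTheorySymbols

noncomputable section

namespace Pool.Agent.Lib.MP_7d3fda_nt.R3

open Pool.Agent.Lib.MP_788af2_nt Pool.Agent.Lib.MP_7d3fda_nt.R2

namespace XHilAux

theorem up_odd {n : ℕ} (h : n % 2 = 1) : upart 2 (n : ℤ) = n := by
  have : Fact (Nat.Prime 2) := ⟨Nat.prime_two⟩
  refine upart_of_not_dvd (p := 2) ?_
  push_cast
  omega

theorem q4_odd {n : ℕ} (h : n % 2 = 1) : q4 n = if n % 4 = 3 then 1 else 0 := by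
  rw [q4, up_odd h]
  exact if_congr (by omega) rfl rfl

theorem q8_odd {n : ℕ} (h : n % 2 = 1) : q8 n = if n % 8 = 3 ∨ n % 8 = 5 then 1 else 0 := by
  rw [q8, up_odd h]
  exact if_congr (by omega) rfl rfl

theorem odd_of {p : ℕ} (hp : p.Prime) (h2 : p ≠ 2) : p % 2 = 1 :=
  hp.eq_two_or_odd.resolve_left h2

end XHilAux

open XHilAux

theorem q4_prime {p : ℕ} (hp : p.Prime) (h2 : p ≠ 2) : q4 p = qL p (-1) := by
  have ho := odd_of hp h2
  have h1 : ¬(p : ℤ) ∣ -1 := fun h' => (Nat.prime_iff_prime_int.1 hp).not_dvd_one (dvd_neg.1 h')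
  rw [q4_odd ho, TableAux.qL_eq hp h1, jacobiSym.at_neg_one (Nat.odd_iff.2 ho)]
  by_cases h : p % 4 = 3
  · rw [if_pos h, ZMod.χ₄_nat_three_mod_four h, if_pos rfl]
  · rw [if_neg h, ZMod.χ₄_nat_one_mod_four (by omega), if_neg (by decide)]

theorem q8_prime {p : ℕ} (hp : p.Prime) (h2 : p ≠ 2) : q8 p = qL p 2 := by
  have ho := odd_of hp h2
  have h1 : ¬(p : ℤ) ∣ 2 := TableAux.not_dvd_prime hp Nat.prime_two h2
  rw [q8_odd ho, TableAux.qL_eq hp h1, jacobiSym.at_two (Nat.odd_iff.2 ho),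
    ZMod.χ₈_nat_eq_if_mod_eight, if_neg (show ¬p % 2 = 0 by omega)]
  by_cases h : p % 8 = 3 ∨ p % 8 = 5
  · rw [if_pos h, if_neg (show ¬(p % 8 = 1 ∨ p % 8 = 7) by omega), if_pos rfl]
  · rw [if_neg h, if_pos (show p % 8 = 1 ∨ p % 8 = 7 by omega), if_neg (by decide)]

theorem qL_rec {p q : ℕ} (hp : p.Prime) (hq : q.Prime) (hp2 : p ≠ 2) (hq2 : q ≠ 2) (h : p ≠ q) :
    qL p q + qL q p = q4 p * q4 q := by
  have hpo := odd_of hp hp2
  have hqo := odd_of hq hq2
  rw [q4_odd hpo, q4_odd hqo]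
  by_cases h4 : q % 4 = 3
  · by_cases h3 : p % 4 = 3
    · have : Fact p.Prime := ⟨hp⟩
      have hn := TableAux.not_dvd_prime hp hq h
      rw [if_pos h4, if_pos h3, TableAux.qL_eq hp hn,
        TableAux.qL_eq hq (TableAux.not_dvd_prime hq hp (Ne.symm h)),
        jacobiSym.quadratic_reciprocity_three_mod_four h3 h4]
      rcases jac_unit hn with h5 | h5 <;> rw [h5] <;> decide
    · rw [if_neg h3, zero_mul, TableAux.qL_recip hq hp (by omega) hqo]
      exact CharTwo.add_self_eq_zero _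
  · rw [if_neg h4, mul_zero, TableAux.qL_recip hp hq (by omega) hpo]
    exact CharTwo.add_self_eq_zero _

namespace XHilAux

/-- the sum of all Hilbert symbols -/
def tot (T : Finset ℕ) (x y : X) : ZMod 2 :=
  ∑ r ∈ T, hL (qL r (-1)) (lr r x) (lr r y) + hH (st x) (st y)

theorem tot_comm (T : Finset ℕ) (x y : X) : tot T x y = tot T y x := by
  unfold tot
  congr 1
  · refine sum_congr rfl fun r _ => ?_
    unfold hL
    ring
  · unfold hH
    ring

theorem tot_add (T : Finset ℕ) (x y z : X) : tot T x (y + z) = tot T x y + tot T x z := by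
  unfold tot
  rw [add_add_add_comm, ← sum_add_distrib]
  congr 1
  · refine sum_congr rfl fun r _ => ?_
    simp only [hL, map_add, Prod.fst_add, Prod.snd_add]
    ring
  · simp only [hH, map_add, Prod.fst_add, Prod.snd_add]
    ring

theorem tot_smul (T : Finset ℕ) (c : ZMod 2) (x y : X) : tot T x (c • y) = c * tot T x y := by
  unfold tot
  rw [mul_add, mul_sum]
  congr 1
  · refine sum_congr rfl fun r _ => ?_
    simp only [hL, map_smul, Prod.smul_fst, Prod.smul_snd, smul_eq_mul]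
    ring
  · simp only [hH, map_smul, Prod.smul_fst, Prod.smul_snd, smul_eq_mul]
    ring

theorem tot_zero (T : Finset ℕ) (x : X) : tot T x 0 = 0 := by
  have h := tot_smul T 0 x 0
  rwa [zero_smul, zero_mul] at h

theorem lr_single (r i : ℕ) :
    lr r (Finsupp.single i 1) = (if i = r then 1 else 0, qL r (gen i)) := by
  simp [lr, lin, Finsupp.single_apply]

theorem sumL (T : Finset ℕ) (i j : ℕ) :
    ∑ r ∈ T, hL (qL r (-1)) (lr r (Finsupp.single i 1)) (lr r (Finsupp.single j 1)) =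
      (if i ∈ T then qL i (gen j) else 0) + (if j ∈ T then qL j (gen i) else 0) +
        if i ∈ T then (if j = i then qL i (-1) else 0) else 0 := by
  simp only [lr_single, hL, sum_add_distrib, ite_mul, one_mul, zero_mul, sum_ite_eq]

theorem st_odd {p : ℕ} (h0 : p ≠ 0) (h2 : p ≠ 2) :
    st (Finsupp.single p 1) = (0, 0, q4 p, q8 p) := by
  simp [st, lin, gen, h0, h2]

theorem gen_ne {p : ℕ} (h0 : p ≠ 0) : gen p = p := if_neg h0

theorem gen_zero : gen 0 = -1 := if_pos rfl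

theorem tot_left {T : Finset ℕ} (hT : OddP T) {i j : ℕ} (hi : i = 0 ∨ i = 2)
    (hj : j = 0 ∨ j = 2 ∨ j ∈ T) : tot T (Finsupp.single i 1) (Finsupp.single j 1) = 0 := by
  have h0 : 0 ∉ T := fun h => Nat.not_prime_zero (hT 0 h).1
  have h2 : 2 ∉ T := fun h => (hT 2 h).2 rfl
  have e0 : st (Finsupp.single 0 1) = epH := st_ep
  unfold tot
  rw [sumL]
  rcases hj with rfl | rfl | hj
  · rcases hi with rfl | rfl
    · rw [e0]
      simp only [if_neg h0]
      decide
    · rw [e0, st_two]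
      simp only [if_neg h0, if_neg h2]
      decide
  · rcases hi with rfl | rfl
    · rw [e0, st_two]
      simp only [if_neg h0, if_neg h2]
      decide
    · rw [st_two]
      simp only [if_neg h2]
      decide
  · obtain ⟨hp, hp2⟩ := hT j hj
    rw [st_odd hp.ne_zero hp2]
    rcases hi with rfl | rfl
    · rw [e0]
      simp only [if_neg h0, if_pos hj, gen_zero, ← q4_prime hp hp2, hH, epH]
      generalize q4 j = a
      generalize q8 j = b
      revert a b
      decide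
    · rw [st_two]
      have h8 := q8_prime hp hp2
      simp only [if_neg h2, if_pos hj, gen_ne two_ne_zero, Nat.cast_ofNat, ← h8, hH]
      generalize q4 j = a
      generalize q8 j = b
      revert a b
      decide

theorem tot_gen {T : Finset ℕ} (hT : OddP T) {i j : ℕ} (hi : i = 0 ∨ i = 2 ∨ i ∈ T)
    (hj : j = 0 ∨ j = 2 ∨ j ∈ T) : tot T (Finsupp.single i 1) (Finsupp.single j 1) = 0 := by
  rcases or_assoc.2 hi with hi' | hi'
  · exact tot_left hT hi' hj
  rcases or_assoc.2 hj with hj' | hj'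
  · rw [tot_comm]
    exact tot_left hT hj' hi
  obtain ⟨hp, hp2⟩ := hT i hi'
  obtain ⟨hq, hq2⟩ := hT j hj'
  unfold tot
  rw [sumL, st_odd hp.ne_zero hp2, st_odd hq.ne_zero hq2, if_pos hi', if_pos hj', if_pos hi',
    gen_ne hp.ne_zero, gen_ne hq.ne_zero]
  by_cases h : j = i
  · subst h
    rw [if_pos rfl, TableAux.qL_self hp, ← q4_prime hp hp2]
    simp only [hH]
    generalize q4 j = a
    generalize q8 j = b
    revert a b
    decide
  · rw [if_neg h, qL_rec hp hq hp2 hq2 (Ne.symm h)]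
    simp only [hH]
    generalize q4 i = a
    generalize q8 i = b
    generalize q4 j = c
    generalize q8 j = d
    revert a b c d
    decide

theorem sup_ind {T : Finset ℕ} {P : X → Prop}
    (hg : ∀ i, i = 0 ∨ i = 2 ∨ i ∈ T → P (Finsupp.single i 1)) (h0 : P 0)
    (ha : ∀ x y, P x → P y → P (x + y)) (hs : ∀ (c : ZMod 2) x, P x → P (c • x)) {x : X}
    (hx : x ∈ Sup T) : P x := by
  rw [Sup, Finsupp.supported_eq_span_single] at hx
  induction hx using Submodule.span_induction with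
  | mem x hx =>
    obtain ⟨i, hi, rfl⟩ := hx
    exact hg i (by simpa using hi)
  | zero => exact h0
  | add x y _ _ hx hy => exact ha x y hx hy
  | smul c x _ hx => exact hs c x hx

theorem tot_ind {T : Finset ℕ} {x y : X}
    (hg : ∀ i, i = 0 ∨ i = 2 ∨ i ∈ T → tot T x (Finsupp.single i 1) = 0) (hy : y ∈ Sup T) :
    tot T x y = 0 :=
  sup_ind (P := fun y => tot T x y = 0) hg (tot_zero T x)
    (fun y z hy hz => by rw [tot_add, hy, hz, add_zero])
    (fun c y hy => by rw [tot_smul, hy, mul_zero]) hy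

theorem ex_eight (a b : ZMod 2) : ∃ u : ℕ, u % 2 = 1 ∧ (if u % 4 = 3 then 1 else 0) = a ∧
    (if u % 8 = 3 ∨ u % 8 = 5 then 1 else 0) = b := by
  have h : ∀ a b : ZMod 2, ∃ u ∈ ({1, 3, 5, 7} : Finset ℕ), u % 2 = 1 ∧
      (if u % 4 = 3 then 1 else 0) = a ∧ (if u % 8 = 3 ∨ u % 8 = 5 then 1 else 0) = b := by
    decide
  obtain ⟨u, -, hu⟩ := h a b
  exact ⟨u, hu⟩

theorem ex_odd {p : ℕ} (hp : p.Prime) (h2 : p ≠ 2) (a : ZMod 2) :
    ∃ u : ℕ, ¬(p : ℤ) ∣ u ∧ qL p u = a := by
  have : Fact p.Prime := ⟨hp⟩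
  have h1 : ¬(p : ℤ) ∣ 1 := (Nat.prime_iff_prime_int.1 hp).not_dvd_one
  rcases (by decide : ∀ a : ZMod 2, a = 0 ∨ a = 1) a with rfl | rfl
  · exact ⟨1, by simpa using h1, by simpa using (isQF_qL hp).one⟩
  · obtain ⟨x, hx⟩ := FiniteField.exists_nonsquare (F := ZMod p)
      (by rw [ZMod.ringChar_zmod_n]; exact h2)
    have hJ : J((x.val : ℤ) | p) = -1 := by
      rw [ZMod.nonsquare_iff_jacobiSym_eq_neg_one]
      simpa using hx
    have hn : ¬(p : ℤ) ∣ (x.val : ℤ) := TableAux.not_dvd_of_jac hp (by rw [hJ]; decide)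
    exact ⟨x.val, hn, by rw [TableAux.qL_eq hp hn, if_pos hJ]⟩

end XHilAux

/-- the product formula -/
theorem prodf {T : Finset ℕ} (hT : OddP T) {x y : X} (hx : x ∈ Sup T) (hy : y ∈ Sup T) :
    ∑ r ∈ T, hL (qL r (-1)) (lr r x) (lr r y) + hH (st x) (st y) = 0 := by
  refine tot_ind (fun j hj => ?_) hy
  rw [tot_comm]
  exact tot_ind (fun i hi => tot_gen hT hj hi) hx

/-- every functional is the character of the primes of a residue class -/
theorem class_ex (M : ℕ) (hM : 0 < M) (χ : X →ₗ[ZMod 2] ZMod 2) :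
    ∃ u : ℕ, u.Coprime (8 * M) ∧ ∀ q : ℕ, q.Prime → q ≡ u [MOD 8 * M] →
      ∀ z ∈ Sup (M.primeFactors.erase 2), lin (qL q) z = χ z := by
  obtain ⟨v, hv2, hv4, hv8⟩ := ex_eight (χ ep) (χ (Finsupp.single 2 1))
  have hex : ∀ p : ℕ, ∃ u : ℕ, p.Prime → p ≠ 2 →
      ¬(p : ℤ) ∣ u ∧ qL p u = χ (Finsupp.single p 1) + q4 p * χ ep := by
    intro p
    by_cases h : p.Prime ∧ p ≠ 2
    · obtain ⟨u, hu⟩ := ex_odd h.1 h.2 (χ (Finsupp.single p 1) + q4 p * χ ep)
      exact ⟨u, fun _ _ => hu⟩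
    · exact ⟨0, fun h1 h2 => absurd ⟨h1, h2⟩ h⟩
  choose w hw using hex
  have hpr : ∀ i ∈ insert 2 M.primeFactors, i.Prime := by
    intro i hi
    rcases mem_insert.1 hi with rfl | hi
    · exact Nat.prime_two
    · exact Nat.prime_of_mem_primeFactors hi
  obtain ⟨u, hu⟩ := Nat.chineseRemainderOfFinset (fun i => if i = 2 then v else w i)
    (fun i => i ^ 3) (insert 2 M.primeFactors)
    (fun i hi => pow_ne_zero _ (hpr i hi).ne_zero)
    (fun i hi j hj hij => Nat.Coprime.pow _ _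
      ((Nat.coprime_primes (hpr i hi) (hpr j hj)).2 hij))
  have h8 : u % 8 = v % 8 := by simpa [Nat.ModEq] using hu 2 (mem_insert_self _ _)
  have hodd : ∀ p : ℕ, p.Prime → p ≠ 2 → p ∣ M → (p : ℤ) ∣ (w p : ℤ) - u := by
    intro p hp h2 hd
    have h := hu p (mem_insert_of_mem (Nat.mem_primeFactors.2 ⟨hp, hd, hM.ne'⟩))
    simp only [if_neg h2] at h
    exact (h.of_dvd (dvd_pow_self p three_ne_zero)).dvd
  refine ⟨u, ?_, fun q hq hqu z hz => ?_⟩
  · refine Nat.coprime_of_dvd fun p hp hpu hpM => ?_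
    by_cases h2 : p = 2
    · subst h2
      omega
    · have hd : p ∣ M := by
        rcases (Nat.Prime.dvd_mul hp).1 hpM with h | h
        · exact absurd ((Nat.prime_dvd_prime_iff_eq hp Nat.prime_two).1
            (hp.dvd_of_dvd_pow (show p ∣ 2 ^ 3 from h))) h2
        · exact h
      refine (hw p hp h2).1 ?_
      simpa using dvd_add (hodd p hp h2 hd) (Int.natCast_dvd_natCast.2 hpu)
  · have hq8 : q % 8 = u % 8 := hqu.of_mul_right M
    have hqo : q % 2 = 1 := by omega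
    have hq2 : q ≠ 2 := by omega
    have e4 : q4 q = χ ep := by
      rw [q4_odd hqo, ← hv4]
      exact if_congr (by omega) rfl rfl
    have e8 : q8 q = χ (Finsupp.single 2 1) := by
      rw [q8_odd hqo, ← hv8]
      exact if_congr (by omega) rfl rfl
    refine sup_ind (P := fun z => lin (qL q) z = χ z) (fun i hi => ?_) (by simp)
      (fun x y hx hy => by rw [map_add, map_add, hx, hy])
      (fun c x hx => by rw [map_smul, map_smul, hx]) hz
    rcases hi with rfl | rfl | hi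
    · exact (lin_ep _).trans ((q4_prime hq hq2).symm.trans e4)
    · exact (lin_single _ two_ne_zero).trans ((q8_prime hq hq2).symm.trans e8)
    · obtain ⟨h2, hi⟩ := mem_erase.1 hi
      obtain ⟨hp, hd, -⟩ := Nat.mem_primeFactors.1 hi
      obtain ⟨hn, hL⟩ := hw i hp h2
      have h1 : (i : ℤ) ∣ (u : ℤ) - q := ((hqu.of_mul_left 8).of_dvd hd).dvd
      have h3 : (i : ℤ) ∣ (w i : ℤ) - q := by
        simpa using dvd_add (hodd i hp h2 hd) h1
      have h4 : qL i (w i) = qL i q := TableAux.qL_congr hp hn h3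
      have h5 : i ≠ q := by
        rintro rfl
        exact hn (by simpa using dvd_add h3 (dvd_refl (i : ℤ)))
      have h6 := qL_rec hp hq h2 hq2 h5
      rw [← h4, hL, e4] at h6
      rw [lin_single _ hp.ne_zero]
      revert h6
      generalize qL q i = a
      generalize χ (Finsupp.single i 1) = b
      generalize q4 i * χ ep = c
      revert a b c
      decide

theorem prime_ex (M : ℕ) (hM : 0 < M) (χ : X →ₗ[ZMod 2] ZMod 2) (B : ℕ) :
    ∃ q : ℕ, q.Prime ∧ B < q ∧ ∀ z ∈ Sup (M.primeFactors.erase 2), lin (qL q) z = χ z := by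
  obtain ⟨u, hu, h⟩ := class_ex M hM χ
  obtain ⟨q, hB, hq, hqu⟩ := Nat.forall_exists_prime_gt_and_modEq B (q := 8 * M) (by omega) hu
  exact ⟨q, hq, hB, h q hq hqu⟩

end Pool.Agent.Lib.MP_7d3fda_nt.R3
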