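import Pool.Agent.Lib.MP_7d3fda_nt.R3.XPar
import Pool.Agent.Lib.MP_7d3fda_nt.R3.XDes

open Finset

noncomputable section

namespace Pool.Agent.Lib.MP_7d3fda_nt.R3

open Pool.Agent.Lib.MP_788af2_nt Pool.Agent.Lib.MP_7d3fda_nt.R2

/-- the data of a move -/
structure Mv (a b c : X) (k : Fin 6 → X) (T : Finset ℕ) (r : Fin 6 → Fin 3 → ℕ)
    (χ : Fin 3 → X →ₗ[ZMod 2] ZMod 2) : Prop where
  odd : OddP T
  ha : a ∈ Sup T
  hb : b ∈ Sup T
  hc : c ∈ Sup T
  hk : ∀ j, k j ∈ Sup T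
  pr : ∀ j l, (r j l).Prime ∧ r j l ≠ 2 ∧ r j l ∉ T
  inj : ∀ i l j m, r i l = r j m → i = j ∧ l = m
  ep0 : ∀ l, χ l ep = 0
  chi : ∀ j l, ∀ z ∈ Sup T, lin (qL (r j l)) z = χ l z

/-- the new classes -/
def nk (k : Fin 6 → X) (r : Fin 6 → Fin 3 → ℕ) (j : Fin 6) : X :=
  k j + ∑ l, Finsupp.single (r j l) 1

namespace XMoveAux

/-- removal of the new primes -/
def rm (r : Fin 6 → Fin 3 → ℕ) : X →ₗ[ZMod 2] X :=
  LinearMap.id + ∑ j, ∑ l, (Finsupp.lapply (r j l)).smulRight (Finsupp.single (r j l) 1)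

/-- valuations at a new prime -/
def vv (r : Fin 6 → Fin 3 → ℕ) (j : Fin 6) (l : Fin 3) : X × X →ₗ[ZMod 2] B2 :=
  two (Finsupp.lapply (r j l))

/-- valuations of the four known classes -/
def lab (j : Fin 6) : Fin 4 → B2 :=
  ![(0, 1), (1, 0), ![(1, 0), (1, 1), (0, 1), (1, 0), (1, 1), (0, 1)] j,
    ![(0, 1), (1, 0), (1, 1), (1, 1), (0, 1), (1, 0)] j]

theorem two0 : (2 : ZMod 2) = 0 := rfl

theorem rm_apply (r : Fin 6 → Fin 3 → ℕ) (x : X) :
    rm r x = x + ∑ j, ∑ l, x (r j l) • Finsupp.single (r j l) (1 : ZMod 2) := by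
  simp only [rm, LinearMap.add_apply, LinearMap.id_apply, LinearMap.sum_apply,
    LinearMap.smulRight_apply, Finsupp.lapply_apply]

theorem vv_apply (r : Fin 6 → Fin 3 → ℕ) (j : Fin 6) (l : Fin 3) (y : X × X) :
    vv r j l y = (y.1 (r j l), y.2 (r j l)) := rfl

theorem add_self' {V : Type} [AddCommGroup V] [Module (ZMod 2) V] (x : V) : x + x = 0 := by
  rw [← two_smul (ZMod 2) x, two0, zero_smul]

theorem map_cmb {V W : Type} [AddCommGroup V] [Module (ZMod 2) V] [AddCommGroup W]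
    [Module (ZMod 2) W] (f : V →ₗ[ZMod 2] W) (w : B4) (t : Fin 4 → V) :
    f (cmb w t) = cmb w fun i => f (t i) := by
  simp only [cmb, map_add, map_smul]

theorem cmb_mem {V : Type} [AddCommGroup V] [Module (ZMod 2) V] {S : Submodule (ZMod 2) V} (w : B4)
    {t : Fin 4 → V} (h : ∀ i, t i ∈ S) : cmb w t ∈ S :=
  S.add_mem (S.add_mem (S.add_mem (S.smul_mem _ (h 0)) (S.smul_mem _ (h 1))) (S.smul_mem _ (h 2)))
    (S.smul_mem _ (h 3))

theorem cmb_zero {V : Type} [AddCommGroup V] [Module (ZMod 2) V] (t : Fin 4 → V) :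
    cmb 0 t = 0 := by simp [cmb]

theorem lab_ex : ∀ (p : B2) (s t : ZMod 2), ∃ w : B4, p + cmb w (lab 0) = 0 ∧
    s + (cmb w (lab 1)).1 = 0 ∧ t + (cmb w (lab 2)).1 = 0 := by
  decide

theorem lab_sum : ∀ w : B4, ∑ j, cmb w (lab j) = 0 := by decide

theorem Sup_mono {T T' : Finset ℕ} (h : T ⊆ T') {x : X} (hx : x ∈ Sup T) : x ∈ Sup T' :=
  mem_Sup.2 fun i h0 h2 hi => mem_Sup.1 hx i h0 h2 fun h' => hi (h h')

theorem single_mem {T : Finset ℕ} {p : ℕ} (hp : p = 2 ∨ p ∈ T) :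
    Finsupp.single p (1 : ZMod 2) ∈ Sup T :=
  mem_Sup.2 fun i _ h2 hi => Finsupp.single_eq_of_ne (by
    rintro rfl
    exact hp.elim h2 hi)

theorem gam_le {a b c : X} {k : Fin 6 → X} {S : Submodule (ZMod 2) X} (h0 : ep ∈ S) (ha : a ∈ S)
    (hb : b ∈ S) (hc : c ∈ S) (hk : ∀ j, k j ∈ S) : Gam1 a b c k ≤ S := by
  refine sup_le (Submodule.span_le.2 ?_) (Submodule.span_le.2 ?_)
  · rintro x (rfl | rfl | rfl | rfl)
    exacts [h0, ha, hb, hc]
  · rintro x ⟨j, rfl⟩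
    exact hk j

theorem g0 (a b c : X) : ep ∈ Gam0 a b c ∧ a ∈ Gam0 a b c ∧ b ∈ Gam0 a b c ∧ c ∈ Gam0 a b c :=
  ⟨Submodule.subset_span (by simp), Submodule.subset_span (by simp),
    Submodule.subset_span (by simp), Submodule.subset_span (by simp)⟩

theorem g1 (a b c : X) (k : Fin 6 → X) : ep ∈ Gam1 a b c k ∧ a ∈ Gam1 a b c k ∧ b ∈ Gam1 a b c k ∧
    c ∈ Gam1 a b c k ∧ ∀ j, k j ∈ Gam1 a b c k :=
  ⟨Submodule.mem_sup_left (g0 a b c).1, Submodule.mem_sup_left (g0 a b c).2.1,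
    Submodule.mem_sup_left (g0 a b c).2.2.1, Submodule.mem_sup_left (g0 a b c).2.2.2,
    fun j => Submodule.mem_sup_right (Submodule.subset_span ⟨j, rfl⟩)⟩

theorem tt_mem {a b c : X} {k : Fin 6 → X} {S : Submodule (ZMod 2) X} (h0 : ep ∈ S) (ha : a ∈ S)
    (hb : b ∈ S) (hc : c ∈ S) (hk : ∀ j, k j ∈ S) (i : Fin 4) :
    (tt a b c k i).1 ∈ S ∧ (tt a b c k i).2 ∈ S := by
  have hd : ∑ j, k j ∈ S := S.sum_mem fun j _ => hk j
  fin_cases i
  · exact ⟨S.add_mem ha hc, S.add_mem (S.add_mem h0 hd) ha⟩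
  · exact ⟨S.add_mem hd ha, S.add_mem (S.add_mem h0 ha) hb⟩
  · exact ⟨S.add_mem (S.add_mem hd (hk 2)) (hk 5), S.add_mem (S.add_mem hd (hk 0)) (hk 3)⟩
  · exact ⟨S.add_mem (S.add_mem hd (hk 0)) (hk 4),
      S.add_mem (S.add_mem (S.add_mem h0 hd) (hk 1)) (hk 5)⟩

/-- a linear map that shifts all six classes by the same vector does not see the change -/
theorem tt_shift {W : Type} [AddCommGroup W] [Module (ZMod 2) W] (f g : X →ₗ[ZMod 2] W)
    {a b c : X} {k k' : Fin 6 → X} (h0 : f ep = g ep) (ha : f a = g a) (hb : f b = g b)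
    (hc : f c = g c) (w : W) (hk : ∀ j, f (k' j) = g (k j) + w) (i : Fin 4) :
    two f (tt a b c k' i) = two g (tt a b c k i) := by
  have hd : f (∑ j, k' j) = g (∑ j, k j) := by
    simp only [map_sum, hk, sum_add_distrib, Fin.sum_univ_six (f := fun _ => w)]
    rw [add_self' w, zero_add, add_self' w, zero_add, add_self' w, add_zero]
  have key : ∀ (u : W) (i j : Fin 6), u + f (k' i) + f (k' j) = u + g (k i) + g (k j) := by
    intro u i j
    rw [hk, hk, ← add_zero (u + g (k i) + g (k j)), ← add_self' w]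
    abel
  fin_cases i
  · exact Prod.ext (by simp [tt, T0, ha, hc, -map_sum]) (by simp [tt, T0, h0, ha, hd, -map_sum])
  · exact Prod.ext (by simp [tt, T1, ha, hd, -map_sum]) (by simp [tt, T1, h0, ha, hb, -map_sum])
  · exact Prod.ext (by simp [tt, hd, key, -map_sum]) (by simp [tt, hd, key, -map_sum])
  · exact Prod.ext (by simp [tt, hd, key, -map_sum]) (by simp [tt, h0, hd, key, -map_sum])

section

variable {a b c : X} {k : Fin 6 → X} {T : Finset ℕ} {r : Fin 6 → Fin 3 → ℕ}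
  {χ : Fin 3 → X →ₗ[ZMod 2] ZMod 2} (h : Mv a b c k T r χ)

include h

theorem sing (i : Fin 6) (l : Fin 3) (j : Fin 6) (m : Fin 3) :
    (Finsupp.single (r i l) (1 : ZMod 2)) (r j m) = if i = j ∧ l = m then 1 else 0 := by
  rw [Finsupp.single_apply]
  exact if_congr ⟨h.inj i l j m, fun e => by rw [e.1, e.2]⟩ rfl rfl

theorem old_zero {z : X} (hz : z ∈ Sup T) (j : Fin 6) (l : Fin 3) : z (r j l) = 0 :=
  mem_Sup.1 hz _ (h.pr j l).1.ne_zero (h.pr j l).2.1 (h.pr j l).2.2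

theorem rm_old {z : X} (hz : z ∈ Sup T) : rm r z = z := by
  simp [rm_apply, old_zero h hz]

theorem rm_new (x : X) (j : Fin 6) (l : Fin 3) : rm r x (r j l) = 0 := by
  simp only [rm_apply, Finsupp.add_apply, Finsupp.finsetSum_apply, Finsupp.smul_apply, sing h,
    smul_eq_mul, mul_ite, mul_one, mul_zero, ite_and, sum_ite_irrel, sum_const_zero, sum_ite_eq',
    mem_univ, if_true]
  exact add_self' _

omit h in
theorem rm_other (x : X) {i : ℕ} (hi : ∀ j l, r j l ≠ i) : rm r x i = x i := by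
  simp [rm_apply, hi]

theorem rm_single (j : Fin 6) (l : Fin 3) : rm r (Finsupp.single (r j l) 1) = 0 := by
  ext i
  by_cases hi : ∃ j l, r j l = i
  · obtain ⟨j, l, rfl⟩ := hi
    exact rm_new h _ j l
  · push Not at hi
    rw [rm_other _ hi, Finsupp.single_eq_of_ne (hi j l).symm]
    rfl

theorem rm_nk (j : Fin 6) : rm r (nk k r j) = k j := by
  simp [nk, rm_old h (h.hk j), rm_single h]

theorem nk_new (i j : Fin 6) (m : Fin 3) : nk k r i (r j m) = if i = j then 1 else 0 := by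
  simp only [nk, Finsupp.add_apply, Finsupp.finsetSum_apply, sing h, old_zero h (h.hk i), zero_add,
    ite_and, sum_ite_irrel, sum_const_zero, sum_ite_eq', mem_univ, if_true]

omit h in
theorem nk_other (j : Fin 6) {i : ℕ} (hi : ∀ j l, r j l ≠ i) : nk k r j i = k j i := by
  simp [nk, hi]

theorem dl_new (j : Fin 6) (m : Fin 3) : (∑ i, nk k r i) (r j m) = 1 := by
  simp [Finsupp.finsetSum_apply, nk_new h]

omit h in
theorem dl_other {i : ℕ} (hi : ∀ j l, r j l ≠ i) : (∑ j, nk k r j) i = (∑ j, k j) i := by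
  simp [Finsupp.finsetSum_apply, nk_other _ hi]

theorem dl_mem : ∑ j, k j ∈ Sup T := Submodule.sum_mem _ fun j _ => h.hk j

theorem sg_sub : Sg (∑ j, k j) ⊆ T := fun p hp => by
  by_contra hn
  obtain ⟨h0, h2, h1⟩ := mem_Sg.1 hp
  rw [mem_Sup.1 (dl_mem h) p h0 h2 hn] at h1
  exact zero_ne_one h1

theorem ne_old {p : ℕ} (hp : p ∈ T) (j : Fin 6) (l : Fin 3) : r j l ≠ p :=
  fun e => (h.pr j l).2.2 (e ▸ hp)

theorem new_mem (j : Fin 6) (l : Fin 3) : r j l ∈ Sg (∑ i, nk k r i) :=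
  mem_Sg.2 ⟨(h.pr j l).1.ne_zero, (h.pr j l).2.1, dl_new h j l⟩

theorem sg_eq : Sg (∑ i, nk k r i) =
    Sg (∑ j, k j) ∪ univ.image fun t : Fin 6 × Fin 3 => r t.1 t.2 := by
  ext p
  rw [mem_union, mem_image]
  by_cases hi : ∃ j l, r j l = p
  · obtain ⟨j, l, rfl⟩ := hi
    exact ⟨fun _ => Or.inr ⟨(j, l), mem_univ _, rfl⟩, fun _ => new_mem h j l⟩
  · push Not at hi
    rw [mem_Sg, mem_Sg, dl_other hi]
    exact ⟨Or.inl, fun e => e.resolve_right fun ⟨t, _, e⟩ => hi _ _ e⟩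

theorem rm_mem {x : X} (hx : x ∈ Sup (Sg (∑ i, nk k r i))) : rm r x ∈ Sup (Sg (∑ j, k j)) := by
  refine mem_Sup.2 fun i h0 h2 hn => ?_
  by_cases hi : ∃ j l, r j l = i
  · obtain ⟨j, l, rfl⟩ := hi
    exact rm_new h _ j l
  · push Not at hi
    rw [rm_other _ hi]
    refine mem_Sup.1 hx i h0 h2 fun e => hn ?_
    rwa [mem_Sg, dl_other hi, ← mem_Sg] at e

theorem q4_new (j : Fin 6) (l : Fin 3) : q4 (r j l) = 0 := by
  rw [q4_prime (h.pr j l).1 (h.pr j l).2.1, ← lin_ep (qL (r j l)), h.chi j l _ (ep_mem_Sup T),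
    h.ep0]

theorem lr_single {p : ℕ} (hp : p ∈ T) (j : Fin 6) (l : Fin 3) :
    lr p (Finsupp.single (r j l) 1) = (0, χ l (Finsupp.single p 1)) := by
  obtain ⟨h1, h2⟩ := h.odd p hp
  refine Prod.ext (Finsupp.single_eq_of_ne (ne_old h hp j l).symm) ?_
  have a := qL_rec h1 (h.pr j l).1 h2 (h.pr j l).2.1 (ne_old h hp j l).symm
  rw [q4_new h, mul_zero] at a
  show lin (qL p) _ = χ l _
  rw [lin_single _ (h.pr j l).1.ne_zero, ← h.chi j l _ (single_mem (Or.inr hp)),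
    lin_single _ h1.ne_zero]
  linear_combination a - qL (r j l) p * two0

theorem st_single (j : Fin 6) (l : Fin 3) :
    st (Finsupp.single (r j l) 1) = (0, 0, 0, χ l (Finsupp.single 2 1)) := by
  refine Prod.ext (Finsupp.single_eq_of_ne (h.pr j l).1.ne_zero.symm) (Prod.ext
    (Finsupp.single_eq_of_ne (h.pr j l).2.1.symm) (Prod.ext ?_ ?_))
  · show lin q4 _ = 0
    rw [lin_single _ (h.pr j l).1.ne_zero, q4_new h]
  · show lin q8 _ = χ l _
    rw [lin_single _ (h.pr j l).1.ne_zero, ← h.chi j l _ (single_mem (Or.inl rfl)),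
      lin_single _ two_ne_zero, q8_prime (h.pr j l).1 (h.pr j l).2.1]
    rfl

omit h in
theorem map_rm {W : Type} [AddCommGroup W] [Module (ZMod 2) W] (f : X →ₗ[ZMod 2] W) (g : Fin 3 → W)
    (hf : ∀ j l, f (Finsupp.single (r j l) 1) = g l) {x : X} (hx : ∀ l, ∑ j, x (r j l) = 0) :
    f (rm r x) = f x := by
  simp only [rm_apply, map_add, map_sum, map_smul, hf]
  rw [sum_comm]
  simp only [← sum_smul, hx, zero_smul, sum_const_zero, add_zero]

omit h in
theorem map_nk {W : Type} [AddCommGroup W] [Module (ZMod 2) W] (f : X →ₗ[ZMod 2] W) (g : Fin 3 → W)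
    (hf : ∀ j l, f (Finsupp.single (r j l) 1) = g l) (j : Fin 6) :
    f (nk k r j) = f (k j) + ∑ l, g l := by
  simp only [nk, map_add, map_sum, hf]

theorem loc_eq {p : ℕ} (hp : p ∈ T) : Loc a b c (∑ i, nk k r i) p = Loc a b c (∑ j, k j) p := by
  have key := tt_shift (lr p) (lr p) (a := a) (b := b) (c := c) rfl rfl rfl rfl _
    (map_nk (k := k) (lr p) _ (lr_single h hp))
  have k0 : two (lr p) (T0 a c (∑ i, nk k r i)) = two (lr p) (T0 a c (∑ j, k j)) := key 0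
  have k1 : two (lr p) (T1 a b (∑ i, nk k r i)) = two (lr p) (T1 a b (∑ j, k j)) := key 1
  rw [Loc, Loc, k0, k1]

theorem st_tt (i : Fin 4) : two st (tt a b c (nk k r) i) = two st (tt a b c k i) :=
  tt_shift st st rfl rfl rfl rfl _ (map_nk (k := k) st _ (st_single h)) i

theorem rm_tt (i : Fin 4) : two (rm r) (tt a b c (nk k r) i) = tt a b c k i :=
  tt_shift (rm r) LinearMap.id (rm_old h (ep_mem_Sup T)) (rm_old h h.ha) (rm_old h h.hb)
    (rm_old h h.hc) 0 (fun j => by rw [rm_nk h, add_zero]; rfl) i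

theorem chi_tt (l : Fin 3) (i : Fin 4) :
    two (χ l) (tt a b c k i) = Bv (χ l a) (χ l b) (χ l c) (fun j => χ l (k j)) i := by
  fin_cases i <;> simp [tt, T0, T1, Bv, h.ep0]

theorem vv_tt (j : Fin 6) (l : Fin 3) (i : Fin 4) : vv r j l (tt a b c (nk k r) i) = lab j i := by
  have h0 := old_zero h (ep_mem_Sup T) j l
  have ha := old_zero h h.ha j l
  have hb := old_zero h h.hb j l
  have hc := old_zero h h.hc j l
  have hd := dl_new h j l
  have hk := fun i => nk_new h i j l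
  fin_cases i
  · simp [vv_apply, tt, T0, lab, h0, ha, hc, hk]
  · simp [vv_apply, tt, T1, lab, h0, ha, hb, hk]
  · simp only [vv_apply, tt, lab, Fin.reduceFinMk, Matrix.cons_val, Finsupp.add_apply, hd, hk]
    fin_cases j <;> decide
  · simp only [vv_apply, tt, lab, Fin.reduceFinMk, Matrix.cons_val, Finsupp.add_apply, hd, hk, h0]
    fin_cases j <;> decide

theorem lr_old (j : Fin 6) (m : Fin 3) {z : X} (hz : z ∈ Sup T) : lr (r j m) z = (0, χ m z) :=
  Prod.ext (old_zero h hz j m) (h.chi j m z hz)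

theorem lr_new (j : Fin 6) (m : Fin 3) {x : X} (hx : rm r x ∈ Sup T) : lr (r j m) x =
    (x (r j m), χ m (rm r x) + ∑ i, ∑ l, qL (r j m) (r i l) * x (r i l)) := by
  refine Prod.ext rfl ?_
  show lin (qL (r j m)) x = χ m (rm r x) + _
  rw [← h.chi j m _ hx]
  simp only [rm_apply, map_add, map_sum, map_smul, lin_single _ (h.pr _ _).1.ne_zero, smul_eq_mul,
    mul_comm (x _)]
  rw [add_assoc, add_self', add_zero]

theorem eqs {y : X × X} (hy : y ∈ Rel a b c (∑ i, nk k r i)) :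
    Eqs (fun l => χ l a) (fun l => χ l b) (fun l => χ l c) (fun l j => χ l (k j))
      (fun i l j m => qL (r j m) (r i l)) (fun l => two (χ l) (two (rm r) y))
      fun j l => vv r j l y := by
  intro j m
  obtain ⟨h1, h2, h3⟩ := mem_Rel.1 hy
  obtain ⟨s, t, e⟩ := mem_Loc.1 (h3 _ (new_mem h j m))
  have hd : lr (r j m) (∑ i, nk k r i) =
      (1, ∑ i, χ m (k i) + ∑ i, ∑ l, qL (r j m) (r i l)) := by
    have a : rm r (∑ i, nk k r i) = ∑ i, k i := by simp only [map_sum, rm_nk h]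
    rw [lr_new h j m (a ▸ dl_mem h), a, map_sum]
    simp only [dl_new h, mul_one]
  have e1 : lr (r j m) y.1 = s • lr (r j m) (a + c) + t • lr (r j m) (∑ i, nk k r i + a) :=
    congrArg Prod.fst e
  have e2 : lr (r j m) y.2 = s • lr (r j m) (ep + ∑ i, nk k r i + a) + t • lr (r j m) (ep + a + b) :=
    congrArg Prod.snd e
  rw [lr_new h j m (Sup_mono (sg_sub h) (rm_mem h h1))] at e1
  rw [lr_new h j m (Sup_mono (sg_sub h) (rm_mem h h2))] at e2
  simp only [map_add, hd, lr_old h j m h.ha, lr_old h j m h.hb, lr_old h j m h.hc,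
    lr_old h j m (ep_mem_Sup T), h.ep0, Prod.mk_add_mk, Prod.smul_mk, smul_eq_mul, Prod.mk.injEq,
    add_zero, zero_add, mul_zero, mul_one] at e1 e2
  simp only [vv_apply, LinearMap.prodMap_apply]
  rw [e1.2, e2.2, e1.1, e2.1]
  constructor <;> ring

theorem dual (hok : Ok3 a b c (∑ j, k j)) (hok' : Ok3 a b c (∑ i, nk k r i)) {y z : X × X}
    (hy : y ∈ Str a b c (∑ i, nk k r i)) (hz : z ∈ Rel a b c (∑ j, k j)) :
    ∑ l, wg (∑ j, vv r j l y) (two (χ l) z) = 0 := by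
  obtain ⟨hy1, hy0⟩ := mem_Str.1 hy
  obtain ⟨h1, h2, h3⟩ := mem_Rel.1 hy1
  obtain ⟨k1, k2, k3⟩ := mem_Rel.1 hz
  have hs : Sg (∑ j, k j) ⊆ Sg (∑ i, nk k r i) := by
    rw [sg_eq h]
    exact subset_union_left
  have p1 := prodf hok'.odd h1 (Sup_mono hs k2)
  have p2 := prodf hok'.odd h2 (Sup_mono hs k1)
  have s1 : st y.1 = 0 := congrArg Prod.fst hy0
  have s2 : st y.2 = 0 := congrArg Prod.snd hy0
  have hH0 : ∀ w, hH 0 w = 0 := fun w => by simp [hH]
  rw [s1, hH0, add_zero] at p1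
  rw [s2, hH0, add_zero] at p2
  have p3 : ∑ p ∈ Sg (∑ i, nk k r i), (hL (qL p (-1)) (lr p y.1) (lr p z.2) +
      hL (qL p (-1)) (lr p y.2) (lr p z.1)) = 0 := by
    rw [sum_add_distrib, p1, p2, add_zero]
  rw [sg_eq h, sum_union, sum_eq_zero fun p hp =>
    loc_iso hok hp (loc_eq h (sg_sub h hp) ▸ h3 p (hs hp)) (k3 p hp), zero_add,
    sum_image fun t _ t' _ e => Prod.ext (h.inj _ _ _ _ e).1 (h.inj _ _ _ _ e).2,
    Fintype.sum_prod_type, sum_comm] at p3
  · rw [← p3]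
    refine sum_congr rfl fun l _ => ?_
    simp only [lr_old h _ l (Sup_mono (sg_sub h) k1), lr_old h _ l (Sup_mono (sg_sub h) k2), hL, wg,
      zero_mul, mul_zero, add_zero, Prod.fst_sum, Prod.snd_sum, sum_mul, sum_add_distrib]
    rfl
  · rw [disjoint_right]
    intro p hp hp'
    obtain ⟨t, -, rfl⟩ := mem_image.1 hp
    exact (h.pr _ _).2.2 (sg_sub h hp')

theorem rm_str {y : X × X} (hy : y ∈ Str a b c (∑ i, nk k r i)) (h0 : ∀ l, ∑ j, vv r j l y = 0) :
    two (rm r) y ∈ Str a b c (∑ j, k j) := by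
  obtain ⟨hy1, hy0⟩ := mem_Str.1 hy
  obtain ⟨h1, h2, h3⟩ := mem_Rel.1 hy1
  have a1 : ∀ l, ∑ j, y.1 (r j l) = 0 := fun l => by
    simpa only [Prod.fst_sum, vv_apply, Prod.fst_zero] using congrArg Prod.fst (h0 l)
  have a2 : ∀ l, ∑ j, y.2 (r j l) = 0 := fun l => by
    simpa only [Prod.snd_sum, vv_apply, Prod.snd_zero] using congrArg Prod.snd (h0 l)
  refine mem_Str.2 ⟨mem_Rel.2 ⟨rm_mem h h1, rm_mem h h2, fun p hp => ?_⟩, ?_⟩
  · have hp' : p ∈ Sg (∑ i, nk k r i) := by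
      rw [sg_eq h]
      exact mem_union_left _ hp
    obtain ⟨s, t, e⟩ := mem_Loc.1 (loc_eq h (sg_sub h hp) ▸ h3 p hp')
    refine mem_Loc.2 ⟨s, t, Eq.trans ?_ e⟩
    exact Prod.ext (map_rm _ _ (lr_single h (sg_sub h hp)) a1)
      (map_rm _ _ (lr_single h (sg_sub h hp)) a2)
  · rw [← hy0]
    exact Prod.ext (map_rm _ _ (st_single h) a1) (map_rm _ _ (st_single h) a2)

end

end XMoveAux

open XMoveAux in
theorem move_step {a b c : X} {k : Fin 6 → X} {T : Finset ℕ} {r : Fin 6 → Fin 3 → ℕ}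
    {χ : Fin 3 → X →ₗ[ZMod 2] ZMod 2} (h : Mv a b c k T r χ) (hok : Ok3 a b c (∑ j, k j))
    (hok' : Ok3 a b c (∑ i, nk k r i)) (ht : ∀ i, tt a b c k i ∈ Rel a b c (∑ j, k j))
    (ht' : ∀ i, tt a b c (nk k r) i ∈ Rel a b c (∑ i, nk k r i))
    (hi : ∀ w, cmb w (fun i => two st (tt a b c (nk k r) i)) = 0 → w = 0)
    (hsep : Sepa a b c (∑ i, nk k r i)) {et : Fin 3}
    (hD : Design et (fun l => χ l a) (fun l => χ l b) (fun l => χ l c) (fun l j => χ l (k j))
      fun i l j m => qL (r j m) (r i l))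
    (h0 : χ et a = 0 ∧ χ et b = 0 ∧ χ et c = 0 ∧ ∀ j, χ et (k j) = 0) :
    Step (Str a b c (∑ j, k j)) (Str a b c (∑ i, nk k r i)) (Gam1 a b c k)
      (Gam1 a b c (nk k r)) (χ et) := by
  have hcf : ∀ y, (∑ j, vv r j et) y = ∑ j, vv r j et y := fun y => LinearMap.sum_apply _ _ _
  have e0 : ∀ y ∈ Str a b c (∑ i, nk k r i), ∀ l, l ≠ et → ∑ j, vv r j l y = 0 := fun y hy =>
    hD.d0 (fun l => ∑ j, vv r j l y) fun i => by
      simpa only [chi_tt h] using dual h hok hok' hy (ht i)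
  have e1 : ∀ y ∈ Str a b c (∑ i, nk k r i), ∑ j, vv r j et y = 0 → ∀ l, ∑ j, vv r j l y = 0 :=
    fun y hy hc l => by
      by_cases hl : l = et
      · rw [hl, hc]
      · exact e0 y hy l hl
  have pat : ∀ y ∈ Str a b c (∑ i, nk k r i), ∑ j, vv r j et y = 0 → ∃ w,
      (∀ j l, vv r j l (y + cmb w (tt a b c (nk k r))) = 0) ∧ (∀ j l, vv r j l y = cmb w (lab j)) ∧
      ∀ l, two (χ l) (two (rm r) y) = cmb w (Bv (χ l a) (χ l b) (χ l c) fun j => χ l (k j)) := by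
    intro y hy hc
    obtain ⟨w, w0, w1, w2⟩ := lab_ex (vv r 0 0 y) (vv r 1 0 y).1 (vv r 2 0 y).1
    have hv : ∀ j l, vv r j l (y + cmb w (tt a b c (nk k r))) = vv r j l y + cmb w (lab j) :=
      fun j l => by simp only [map_add, map_cmb, vv_tt h]
    obtain ⟨a1, a2⟩ := hD.d1 _ _
      (eqs h (Submodule.add_mem _ (mem_Str.1 hy).1 (cmb_mem w ht')))
      (fun l => by simp only [hv, sum_add_distrib, e1 y hy hc l, lab_sum, add_zero])
      ((hv 0 0).trans w0) (by rw [hv]; exact w1) (by rw [hv]; exact w2)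
    refine ⟨w, fun j l => congrFun (congrFun a2 j) l, fun j l => ?_, fun l => ?_⟩
    · have a3 : vv r j l (y + cmb w (tt a b c (nk k r))) = 0 := congrFun (congrFun a2 j) l
      rw [hv] at a3
      rw [← add_zero (vv r j l y), ← add_self' (cmb w (lab j)), ← add_assoc, a3, zero_add]
    · have a3 : two (χ l) (two (rm r) (y + cmb w (tt a b c (nk k r)))) = 0 := congrFun a1 l
      simp only [map_add, map_cmb, rm_tt h, chi_tt h] at a3
      rw [← add_zero (two (χ l) _), ← add_self' (cmb w (Bv (χ l a) (χ l b) (χ l c) fun j =>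
        χ l (k j))), ← add_assoc, a3, zero_add]
  have hφ : ∀ j l m, ∀ γ ∈ Gam1 a b c (nk k r), γ (r j l) + γ (r j m) = 0 := by
    intro j l m γ hγ
    refine gam_le (S := LinearMap.ker (Finsupp.lapply (r j l) + Finsupp.lapply (r j m))) ?_ ?_ ?_
      ?_ (fun i => ?_) hγ
    · simp [old_zero h (ep_mem_Sup T)]
    · simp [old_zero h h.ha]
    · simp [old_zero h h.hb]
    · simp [old_zero h h.hc]
    · simp [nk_new h, add_self']
  refine ⟨rm r, ∑ j, vv r j et, fun y hy z hz => ?_, fun y hy hc => ?_, fun y hy hc => ?_,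
    fun y hy hc => ?_, fun γ hγ => ?_, fun y hy h1 h2 => ?_⟩
  · have a := dual h hok hok' hy (mem_Str.1 hz).1
    rw [sum_eq_single et (fun l _ hl => by rw [e0 y hy l hl]; simp [wg]) (by simp)] at a
    rwa [hcf]
  · rw [hcf] at hc
    obtain ⟨w, -, w1, w2⟩ := pat y hy hc
    refine ⟨rm_str h hy (e1 y hy hc), ?_, fun e => ?_⟩
    · rw [w2]
      simp [cmb, Bv, h0.1, h0.2.1, h0.2.2.1, h0.2.2.2]
    · have a : w = 0 := hD.d0' w fun l => by rw [← w2, e, map_zero]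
      simp only [a, cmb_zero, vv_apply, Prod.mk_eq_zero] at w1
      rw [← e]
      exact Prod.ext (by simp [rm_apply, w1]) (by simp [rm_apply, w1])
  · rw [hcf] at hc ⊢
    obtain ⟨j, l, m, e⟩ := hD.d3 _ _ (eqs h (mem_Str.1 hy).1) (e0 y hy) hc
    have f : ∀ z, two (Finsupp.lapply (r j l) + Finsupp.lapply (r j m) : X →ₗ[ZMod 2] ZMod 2) z =
        vv r j l z + vv r j m z := fun z => Prod.ext (by simp [vv_apply]) (by simp [vv_apply])
    refine ⟨Finsupp.lapply (r j l) + Finsupp.lapply (r j m), hφ j l m, by rw [f]; exact e,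
      fun y' hy' hc' => ?_⟩
    rw [hcf] at hc'
    obtain ⟨w, -, w1, -⟩ := pat y' hy' hc'
    rw [f, w1, w1, add_self']
  · rw [hcf]
    exact hD.d4 _ _ (eqs h (mem_Str.1 hy).1) (e0 y hy) hc
  · obtain ⟨g1, g2, g3, g4, g5⟩ := g1 a b c k
    refine gam_le (S := (Gam1 a b c k).comap (rm r)) ?_ ?_ ?_ ?_ (fun i => ?_) hγ
    · rwa [Submodule.mem_comap, rm_old h (ep_mem_Sup T)]
    · rwa [Submodule.mem_comap, rm_old h h.ha]
    · rwa [Submodule.mem_comap, rm_old h h.hb]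
    · rwa [Submodule.mem_comap, rm_old h h.hc]
    · rw [Submodule.mem_comap, rm_nk h]
      exact g5 i
  · obtain ⟨o, ho⟩ := exists_ne et
    have hc : ∑ j, vv r j et y = 0 := by
      rw [← e0 y hy o ho]
      refine sum_congr rfl fun j _ => Prod.ext ?_ ?_
      · simp only [vv_apply]
        linear_combination hφ j et o _ h1 - y.1 (r j o) * two0
      · simp only [vv_apply]
        linear_combination hφ j et o _ h2 - y.2 (r j o) * two0
    obtain ⟨w, w0, -, -⟩ := pat y hy hc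
    have hR := Submodule.add_mem _ (mem_Str.1 hy).1 (cmb_mem w ht')
    obtain ⟨g1, g2, g3, g4, g5⟩ := g1 a b c (nk k r)
    have hG : y + cmb w (tt a b c (nk k r)) ∈ (Gam1 a b c (nk k r)).prod (Gam1 a b c (nk k r)) :=
      Submodule.add_mem _ ⟨h1, h2⟩ (cmb_mem w (tt_mem g1 g2 g3 g4 g5))
    obtain ⟨u, hu⟩ : ∃ u, u = y + cmb w (tt a b c (nk k r)) := ⟨_, rfl⟩
    rw [← hu] at hR hG w0
    have low : ∀ x ∈ Gam1 a b c (nk k r), (∀ j, x (r j 0) = 0) → x ∈ Gam0 a b c := by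
      intro x hx hz
      obtain ⟨f1, f2, f3, f4⟩ := g0 a b c
      have a := gam_le (S := (Gam0 a b c).comap
        (LinearMap.id + ∑ j, (Finsupp.lapply (r j 0)).smulRight (nk k r j))) (by
          simpa [old_zero h (ep_mem_Sup T)] using f1) (by simpa [old_zero h h.ha] using f2)
        (by simpa [old_zero h h.hb] using f3) (by simpa [old_zero h h.hc] using f4)
        (fun i => by simp [nk_new h, add_self']) hx
      simpa [hz] using a
    have u1 := low _ hG.1 fun j => congrArg Prod.fst (w0 j 0)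
    have u2 := low _ hG.2 fun j => congrArg Prod.snd (w0 j 0)
    have unr : ∀ p ∈ Sg (∑ i, nk k r i), a p = 0 → b p = 0 → c p = 0 → two (lr p) u = 0 := by
      intro p hp pa pb pc
      have z : ∀ x ∈ Gam0 a b c, x p = 0 := fun x hx => by
        refine (Submodule.span_le (p := LinearMap.ker (Finsupp.lapply p))).2 ?_ hx
        rintro x (rfl | rfl | rfl | rfl)
        exacts [Finsupp.single_eq_of_ne (mem_Sg.1 hp).1, pa, pb, pc]
      exact loc_unr hok' hp ((mem_Rel.1 hR).2.2 p hp) (z _ u1) (z _ u2)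
    have u0 : u = 0 := Prod.ext
      (hsep _ u1 fun p hp pa pb pc => congrArg (fun z => z.1.2) (unr p hp pa pb pc))
      (hsep _ u2 fun p hp pa pb pc => congrArg (fun z => z.2.2) (unr p hp pa pb pc))
    have w1 : w = 0 := hi w (by
      have a := congrArg (two st) hu
      rw [u0, map_zero, map_add, (mem_Str.1 hy).2, zero_add, map_cmb] at a
      exact a.symm)
    rw [w1, cmb_zero, add_zero] at hu
    rw [← hu, u0]

end Pool.Agent.Lib.MP_7d3fda_nt.R3
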